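import Pool.Agent.HIP.Basic

/-!
# ASC: associative expansion of Lie expressions
-/

noncomputable section

set_option linter.unusedSectionVars false

namespace Pool.Agent.HIP

open Function

namespace Asc

/-- multiplication of a coefficient by `-1` -/
def cneg (c : Cf) : Cf := (-c.1, c.2)

theorem cf_cneg (k : Type) [Field k] (c : Cf) : cf k (cneg c) = - cf k c := by
  simp [cf, cneg, neg_div]

theorem cf_one (k : Type) [Field k] : cf k (1, 0) = 1 := by simp [cf]

/-- one step of the expansion -/
def stp (R : LRel) (x : ℕ) : LRel :=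
  R.map (fun t => (t.1, t.2 ++ [x])) ++ R.map (fun t => (cneg t.1, x :: t.2))

/-- expansion of a left-normed word -/
def wasc (w : List ℕ) : LRel :=
  List.casesOn w [] fun a l => l.foldl stp [((1, 0), [a])]

/-- the expansion -/
def asc (R : LRel) : LRel := R.flatMap fun t => (wasc t.2).map fun s => (t.1.mul s.1, s.2)

section
variable {k : Type} [Field k] {L : Type} [LieRing L] [LieAlgebra k L] {M : Type}
  [AddCommGroup M] [Module k M] [LieRingModule L M] [LieModule k L M]

theorem aact_append (ev : ℕ → L) (R S : LRel) (m : M) :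
    aact k ev (R ++ S) m = aact k ev R m + aact k ev S m := by
  simp [aact]

theorem aact_stp (ev : ℕ → L) (R : LRel) (x : ℕ) (m : M) :
    aact k ev (stp R x) m = aact k ev R ⁅ev x, m⁆ - ⁅ev x, aact k ev R m⁆ := by
  unfold stp
  rw [aact_append]
  have h1 : aact k ev (R.map (fun t => (t.1, t.2 ++ [x]))) m = aact k ev R ⁅ev x, m⁆ := by
    unfold aact
    rw [List.map_map]
    congr 1
    apply List.map_congr_left
    intro t _
    simp [wact_append]
  have h2 : aact k ev (R.map (fun t => (cneg t.1, x :: t.2))) m = -⁅ev x, aact k ev R m⁆ := by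
    induction R with
    | nil => simp [aact]
    | cons t R ih =>
      have e1 : ∀ (t : Cf × List ℕ) (R : LRel) (m : M), aact k ev (t :: R) m =
          cf k t.1 • wact (t.2.map ev) m + aact k ev R m := by
        intro t R m; simp [aact]
      rw [List.map_cons, e1, e1, ih]
      · simp only [cf_cneg, List.map_cons, wact_cons, lie_add, lie_smul, neg_smul]
        abel
      · unfold aact
        rw [List.map_map]
        congr 1
        apply List.map_congr_left
        intro t _
        simp [wact_append]
  rw [h1, h2, sub_eq_add_neg]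

theorem aact_foldl (ev : ℕ → L) (l : List ℕ) : ∀ (R : LRel) (u : L),
    (∀ m : M, aact k ev R m = ⁅u, m⁆) → ∀ m : M, aact k ev (l.foldl stp R) m =
      ⁅(l.map ev).foldl (fun u v => ⁅u, v⁆) u, m⁆ := by
  induction l with
  | nil => intro R u h m; exact h m
  | cons x l ih =>
    intro R u h m
    rw [List.foldl_cons, List.map_cons, List.foldl_cons]
    refine ih _ _ ?_ m
    intro m
    rw [aact_stp, h, h, lie_lie]

theorem aact_wasc (ev : ℕ → L) (w : List ℕ) (m : M) :
    aact k ev (wasc w) m = ⁅lnorm (w.map ev), m⁆ := by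
  cases w with
  | nil => simp [wasc, aact]
  | cons a l =>
    change aact k ev (l.foldl stp [((1, 0), [a])]) m = ⁅(l.map ev).foldl _ (ev a), m⁆
    refine aact_foldl ev l _ _ ?_ m
    intro m
    simp [aact, cf_one]

theorem aact_asc (ev : ℕ → L) (R : LRel) (m : M) :
    aact k ev (asc R) m = ⁅lval k ev R, m⁆ := by
  induction R with
  | nil => simp [asc, aact]
  | cons t R ih =>
    have h1 : asc (t :: R) = (wasc t.2).map (fun s => (t.1.mul s.1, s.2)) ++ asc R := by
      simp [asc]
    have h2 : aact k ev ((wasc t.2).map (fun s => (t.1.mul s.1, s.2))) m =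
        cf k t.1 • aact k ev (wasc t.2) m := by
      unfold aact
      rw [List.map_map, List.smul_sum, List.map_map]
      congr 1
      apply List.map_congr_left
      intro s _
      simp [cf_mul, mul_smul]
    rw [h1, aact_append, h2, ih, lval_cons, aact_wasc, add_lie, smul_lie]

end

/-! ### primitive recursion -/

theorem primrec_cneg (hneg : Primrec fun a : ℤ => -a) : Primrec cneg :=
  Primrec.pair (hneg.comp Primrec.fst) Primrec.snd

theorem primrec_mul (hmul : Primrec₂ fun a b : ℤ => a * b) : Primrec₂ Cf.mul := by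
  have h1 : Primrec (fun p : Cf × Cf => p.1.1 * p.2.1) :=
    hmul.comp (Primrec.fst.comp Primrec.fst) (Primrec.fst.comp Primrec.snd)
  have h2 : Primrec (fun p : Cf × Cf => (p.1.2 + 1) * (p.2.2 + 1) - 1) :=
    Primrec.nat_sub.comp (Primrec.nat_mul.comp
      (Primrec.succ.comp (Primrec.snd.comp Primrec.fst))
      (Primrec.succ.comp (Primrec.snd.comp Primrec.snd))) (Primrec.const 1)
  exact Primrec.pair h1 h2

theorem primrec_stp (hneg : Primrec fun a : ℤ => -a) : Primrec₂ stp := by
  have h1 : Primrec (fun p : LRel × ℕ => p.1.map (fun t => (t.1, t.2 ++ [p.2]))) := by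
    refine Primrec.list_map Primrec.fst ?_
    refine Primrec.pair (Primrec.fst.comp Primrec.snd) ?_
    exact Primrec.list_append.comp (Primrec.snd.comp Primrec.snd)
      (Primrec.list_cons.comp (Primrec.snd.comp Primrec.fst) (Primrec.const []))
  have h2 : Primrec (fun p : LRel × ℕ => p.1.map (fun t => (cneg t.1, p.2 :: t.2))) := by
    refine Primrec.list_map Primrec.fst ?_
    refine Primrec.pair ((primrec_cneg hneg).comp (Primrec.fst.comp Primrec.snd)) ?_
    exact Primrec.list_cons.comp (Primrec.snd.comp Primrec.fst) (Primrec.snd.comp Primrec.snd)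
  exact Primrec.list_append.comp h1 h2

theorem primrec_wasc (hneg : Primrec fun a : ℤ => -a) : Primrec wasc := by
  have h1 : Primrec (fun p : List ℕ × (ℕ × List ℕ) => ([((1, 0), [p.2.1])] : LRel)) :=
    Primrec.list_cons.comp (Primrec.pair (Primrec.const _)
      (Primrec.list_cons.comp (Primrec.fst.comp Primrec.snd) (Primrec.const [])))
      (Primrec.const [])
  have h2 : Primrec₂ (fun (_ : List ℕ) (p : ℕ × List ℕ) => p.2.foldl stp [((1, 0), [p.1])]) :=
    Primrec.list_foldl (h := fun (_ : List ℕ × (ℕ × List ℕ)) (s : LRel × ℕ) => stp s.1 s.2)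
      (Primrec.snd.comp Primrec.snd) h1
      ((primrec_stp hneg).comp (Primrec.fst.comp Primrec.snd) (Primrec.snd.comp Primrec.snd))
  exact Primrec.list_casesOn (f := fun w : List ℕ => w) (g := fun _ => ([] : LRel))
    (h := fun (_ : List ℕ) (p : ℕ × List ℕ) => p.2.foldl stp [((1, 0), [p.1])])
    Primrec.id (Primrec.const []) h2

theorem primrec_asc (hmul : Primrec₂ fun a b : ℤ => a * b) (hneg : Primrec fun a : ℤ => -a) :
    Primrec asc := by
  refine Primrec.list_flatMap Primrec.id ?_
  refine Primrec.list_map ((primrec_wasc hneg).comp (Primrec.snd.comp Primrec.snd)) ?_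
  exact Primrec.pair ((primrec_mul hmul).comp
    (Primrec.fst.comp (Primrec.snd.comp Primrec.fst)) (Primrec.fst.comp Primrec.snd))
    (Primrec.snd.comp Primrec.snd)

end Asc

theorem asc_proof : Stmt_AscAsm := by
  intro hint
  exact ⟨Asc.asc, Asc.primrec_asc hint.1 hint.2.1, fun k _ L _ _ M _ _ _ _ ev R m =>
    Asc.aact_asc ev R m⟩

end Pool.Agent.HIP
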