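import Pool.Agent.HIP.Basic

/-!
# BRK : the bracket of Lie expressions is primitive recursive
-/

noncomputable section

set_option linter.unusedSectionVars false

namespace Pool.Agent.HIP

namespace BRK

open Function

/-- one step of the associative expansion -/
def stepw (E : LRel) (x : ℕ) : LRel :=
  E.map (fun t => (t.1, t.2 ++ [x])) ++ E.map (fun t => ((-t.1.1, t.1.2), x :: t.2))

/-- associative expansion of a left-normed word (operators on the right) -/
def ascw (v : List ℕ) : LRel :=
  List.casesOn v [] (fun a l => l.foldl stepw [((1, 0), [a])])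

/-- bracket of expressions -/
def brk (R S : LRel) : LRel :=
  R.flatMap fun t => if t.2 = [] then [] else
    S.flatMap fun s => (ascw s.2).map fun e => (t.1.mul (s.1.mul e.1), t.2 ++ e.2)

theorem stepw_prim (hneg : Primrec fun a : ℤ => -a) : Primrec₂ stepw := by
  refine Primrec.list_append.comp (Primrec.list_map Primrec.fst ?_)
    (Primrec.list_map Primrec.fst ?_)
  · exact Primrec.pair (Primrec.fst.comp Primrec.snd)
      (Primrec.list_append.comp (Primrec.snd.comp Primrec.snd)
        (Primrec.list_cons.comp (Primrec.snd.comp Primrec.fst) (Primrec.const [])))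
  · exact Primrec.pair
      (Primrec.pair (hneg.comp (Primrec.fst.comp (Primrec.fst.comp Primrec.snd)))
        (Primrec.snd.comp (Primrec.fst.comp Primrec.snd)))
      (Primrec.list_cons.comp (Primrec.snd.comp Primrec.fst) (Primrec.snd.comp Primrec.snd))

theorem ascw_prim (hneg : Primrec fun a : ℤ => -a) : Primrec ascw := by
  unfold ascw
  refine Primrec.list_casesOn (f := fun v : List ℕ => v) (g := fun _ => ([] : LRel))
    (h := fun _ p => p.2.foldl stepw [((1, 0), [p.1])]) Primrec.id (Primrec.const []) ?_
  refine Primrec.list_foldl (f := fun q : List ℕ × (ℕ × List ℕ) => q.2.2)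
    (g := fun q => ([((1, 0), [q.2.1])] : LRel)) (h := fun _ p => stepw p.1 p.2)
    (Primrec.snd.comp Primrec.snd) ?_ ?_
  · refine Primrec.list_cons.comp (Primrec.pair (Primrec.const _) ?_) (Primrec.const [])
    exact Primrec.list_cons.comp (Primrec.fst.comp Primrec.snd) (Primrec.const [])
  · exact (stepw_prim hneg).comp (Primrec.fst.comp Primrec.snd) (Primrec.snd.comp Primrec.snd)

theorem mul_prim (hmul : Primrec₂ fun a b : ℤ => a * b) : Primrec₂ Cf.mul := by
  unfold Cf.mul
  refine Primrec.pair (hmul.comp (Primrec.fst.comp Primrec.fst) (Primrec.fst.comp Primrec.snd)) ?_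
  refine Primrec.nat_sub.comp (Primrec.nat_mul.comp ?_ ?_) (Primrec.const 1)
  · exact Primrec.succ.comp (Primrec.snd.comp Primrec.fst)
  · exact Primrec.succ.comp (Primrec.snd.comp Primrec.snd)

theorem brk_prim (hmul : Primrec₂ fun a b : ℤ => a * b) (hneg : Primrec fun a : ℤ => -a) :
    Primrec₂ brk := by
  unfold brk
  refine Primrec.list_flatMap Primrec.fst ?_
  refine Primrec.ite (Primrec.eq.comp (Primrec.snd.comp Primrec.snd) (Primrec.const []))
    (Primrec.const []) ?_
  refine Primrec.list_flatMap (Primrec.snd.comp Primrec.fst) ?_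
  refine Primrec.list_map ((ascw_prim hneg).comp (Primrec.snd.comp Primrec.snd)) ?_
  refine Primrec.pair ?_ ?_
  · refine (mul_prim hmul).comp ?_ ((mul_prim hmul).comp ?_ ?_)
    · exact Primrec.fst.comp (Primrec.snd.comp (Primrec.fst.comp Primrec.fst))
    · exact Primrec.fst.comp (Primrec.snd.comp Primrec.fst)
    · exact Primrec.fst.comp Primrec.snd
  · refine Primrec.list_append.comp ?_ (Primrec.snd.comp Primrec.snd)
    exact Primrec.snd.comp (Primrec.snd.comp (Primrec.fst.comp Primrec.fst))

section val

variable {k : Type} [Field k] {L : Type} [LieRing L] [LieAlgebra k L]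

/-- operators on the right -/
def ract (w : List L) (u : L) : L := w.foldl (fun u x => ⁅u, x⁆) u

@[simp] theorem ract_nil (u : L) : ract [] u = u := rfl
@[simp] theorem ract_cons (x : L) (w : List L) (u : L) : ract (x :: w) u = ract w ⁅u, x⁆ := rfl
theorem ract_append (w w' : List L) (u : L) : ract (w ++ w') u = ract w' (ract w u) := by
  simp [ract, List.foldl_append]

theorem ract_zero (w : List L) : ract w (0 : L) = 0 := by
  induction w with
  | nil => rfl
  | cons x w ih => rw [ract_cons, zero_lie, ih]

theorem ract_add (w : List L) (u v : L) : ract w (u + v) = ract w u + ract w v := by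
  induction w generalizing u v with
  | nil => rfl
  | cons x w ih => rw [ract_cons, add_lie, ih]; rfl

theorem ract_smul (w : List L) (c : k) (u : L) : ract w (c • u) = c • ract w u := by
  induction w generalizing u with
  | nil => rfl
  | cons x w ih => rw [ract_cons, smul_lie, ih]; rfl

theorem lnorm_append {w : List L} (hw : w ≠ []) (w' : List L) :
    lnorm (w ++ w') = ract w' (lnorm w) := by
  cases w with
  | nil => exact absurd rfl hw
  | cons a w => simp [lnorm, ract, List.foldl_append]

/-- value of an associative expression (operators on the right) -/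
def rval (k : Type) [Field k] {L : Type} [LieRing L] [LieAlgebra k L] (ev : ℕ → L) (R : LRel)
    (u : L) : L :=
  (R.map fun t => cf k t.1 • ract (t.2.map ev) u).sum

@[simp] theorem rval_nil (ev : ℕ → L) (u : L) : rval k ev [] u = 0 := rfl
theorem rval_cons (ev : ℕ → L) (t : Cf × List ℕ) (R : LRel) (u : L) :
    rval k ev (t :: R) u = cf k t.1 • ract (t.2.map ev) u + rval k ev R u := by
  simp [rval]
theorem rval_append (ev : ℕ → L) (R S : LRel) (u : L) :
    rval k ev (R ++ S) u = rval k ev R u + rval k ev S u := by
  simp [rval]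

theorem cf_neg (c : Cf) : cf k (-c.1, c.2) = - cf k c := by
  unfold cf
  push_cast
  rw [neg_div]

theorem rval_stepw (ev : ℕ → L) (E : LRel) (x : ℕ) (u : L) :
    rval k ev (stepw E x) u = ⁅rval k ev E u, ev x⁆ - rval k ev E ⁅u, ev x⁆ := by
  unfold stepw
  rw [rval_append]
  have h1 : rval k ev (E.map (fun t => (t.1, t.2 ++ [x]))) u = ⁅rval k ev E u, ev x⁆ := by
    induction E with
    | nil => simp
    | cons t E ih =>
      rw [List.map_cons, rval_cons, rval_cons, ih, add_lie, smul_lie]
      simp [ract_append]
  have h2 : rval k ev (E.map (fun t => ((-t.1.1, t.1.2), x :: t.2))) u =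
      - rval k ev E ⁅u, ev x⁆ := by
    clear h1
    induction E with
    | nil => simp
    | cons t E ih =>
      rw [List.map_cons, rval_cons, rval_cons, ih, cf_neg]
      simp only [List.map_cons, ract_cons, neg_smul, neg_add]
  rw [h1, h2, sub_eq_add_neg]

theorem ascw_append (v : List ℕ) (hv : v ≠ []) (x : ℕ) : ascw (v ++ [x]) = stepw (ascw v) x := by
  cases v with
  | nil => exact absurd rfl hv
  | cons a v => simp [ascw, List.foldl_append]

theorem rval_ascw (ev : ℕ → L) (v : List ℕ) : ∀ u : L,
    rval k ev (ascw v) u = ⁅u, lnorm (v.map ev)⁆ := by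
  induction v using List.reverseRecOn with
  | nil => intro u; simp [ascw]
  | append_singleton v x ih =>
    intro u
    by_cases hv : v = []
    · subst hv
      simp [ascw, rval_cons, cf]
    · rw [ascw_append v hv, rval_stepw, ih, ih, List.map_append, List.map_singleton,
        lnorm_append_singleton _ (by simpa using hv)]
      rw [leibniz_lie u, ← lie_skew (lnorm _) ⁅u, ev x⁆, sub_eq_add_neg]

end val

end BRK

open BRK in
theorem brk_proof : Stmt_BrkAsm := by
  rintro ⟨hmul, hneg, -⟩
  refine ⟨brk, brk_prim hmul hneg, ?_⟩
  intro k _ L _ _ ev R S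
  -- one term on the left, one on the right
  have hE : ∀ (c : Cf) (w : List ℕ) (_ : w ≠ []) (c' : Cf) (E : LRel),
      lval k ev (E.map fun e => (c.mul (c'.mul e.1), w ++ e.2)) =
        cf k c • cf k c' • rval k ev E (lnorm (w.map ev)) := by
    intro c w hw c' E
    induction E with
    | nil => simp
    | cons e E ih =>
      rw [List.map_cons, lval_cons, ih, rval_cons, smul_add, smul_add]
      congr 1
      rw [cf_mul, cf_mul, List.map_append, lnorm_append (by simpa using hw)]
      simp only [smul_smul, mul_assoc]
  -- one term on the left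
  have hS : ∀ (c : Cf) (w : List ℕ) (_ : w ≠ []) (S : LRel),
      lval k ev (S.flatMap fun s => (ascw s.2).map fun e => (c.mul (s.1.mul e.1), w ++ e.2)) =
        ⁅cf k c • lnorm (w.map ev), lval k ev S⁆ := by
    intro c w hw S
    induction S with
    | nil => simp
    | cons s S ih =>
      rw [List.flatMap_cons, lval_append, ih, lval_cons, lie_add]
      congr 1
      rw [hE c w hw, smul_lie, lie_smul, ← rval_ascw (k := k)]
  induction R with
  | nil => simp [brk]
  | cons t R ih =>
    have h0 : brk (t :: R) S = (if t.2 = [] then [] else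
        S.flatMap fun s => (ascw s.2).map fun e => (t.1.mul (s.1.mul e.1), t.2 ++ e.2)) ++
          brk R S := by
      simp [brk]
    rw [h0, lval_append, ih, lval_cons, add_lie]
    congr 1
    by_cases ht : t.2 = []
    · rw [if_pos ht, ht]
      simp
    · rw [if_neg ht, hS _ _ ht]

end Pool.Agent.HIP
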