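import Mathlib

/-!
# MP_d47845_al : varieties of Lie algebras solvable of index n over a prime field of
characteristic different from two

Common definitions.  Paper proof: /team-store/MP_d47845_POS.md
-/

noncomputable section

set_option linter.unusedSectionVars false

namespace Pool.Agent.HIP

open Function

/-! ### Coefficients, Lie expressions, module expressions -/

/-- codes of coefficients -/
abbrev Cf := ℤ × ℕ

/-- value of a coefficient: `(a, b)` stands for `a / (b + 1)` -/
def cf (k : Type) [Field k] (c : Cf) : k := (c.1 : k) / ((c.2 : k) + 1)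

/-- product of codes of coefficients -/
def Cf.mul (c c' : Cf) : Cf := (c.1 * c'.1, (c.2 + 1) * (c'.2 + 1) - 1)

theorem cf_mul (k : Type) [Field k] (c c' : Cf) : cf k (c.mul c') = cf k c * cf k c' := by
  have h : 1 ≤ (c.2 + 1) * (c'.2 + 1) := Nat.one_le_iff_ne_zero.2 (by positivity)
  unfold cf Cf.mul
  rw [div_mul_div_comm]
  congr 1
  · push_cast; ring
  · push_cast [Nat.cast_sub h]; ring

/-- hypotheses on the field: characteristic different from two, a prime field (every element has a
code) and denominators can be cleared by a primitive recursive function -/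
def PF (k : Type) [Field k] : Prop :=
  (2 : k) ≠ 0 ∧ (∀ x : k, ∃ c : Cf, cf k c = x) ∧
    ∃ cl : List Cf → List ℤ, Primrec cl ∧
      ∀ l, ∃ N : k, N ≠ 0 ∧ (cl l).map (fun a => (a : k)) = l.map fun c => N * cf k c

/-- Lie expressions: linear combinations of left-normed words -/
abbrev LRel := List (Cf × List ℕ)

/-- module expressions: linear combinations of (associative word) applied to a generator -/
abbrev MRel := List (Cf × ℕ × List ℕ)

/-- left-normed commutator `[[...[a, b], ...], c]` of a list of elements (`0` for the empty list) -/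
def lnorm {L : Type} [LieRing L] : List L → L
  | [] => 0
  | a :: l => l.foldl (fun u v => ⁅u, v⁆) a

/-- value of a Lie expression -/
def lval (k : Type) [Field k] {L : Type} [LieRing L] [LieAlgebra k L] (ev : ℕ → L) (R : LRel) : L :=
  (R.map fun t => cf k t.1 • lnorm (t.2.map ev)).sum

/-- an associative word acting on a module -/
def wact {L : Type} [LieRing L] {M : Type} [AddCommGroup M] [LieRingModule L M]
    (w : List L) (m : M) : M :=
  w.foldr (fun x m => ⁅x, m⁆) m

/-- a Lie expression read as an associative expression, acting on a module -/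
def aact (k : Type) [Field k] {L : Type} [LieRing L] {M : Type} [AddCommGroup M] [Module k M]
    [LieRingModule L M] (ev : ℕ → L) (R : LRel) (m : M) : M :=
  (R.map fun t => cf k t.1 • wact (t.2.map ev) m).sum

/-! ### Presentations of Lie algebras -/

section
variable (k : Type) [Field k]

/-- `L` is generated by `ev`, almost all of whose entries are `0` -/
def Gens (L : Type) [LieRing L] [LieAlgebra k L] (ev : ℕ → L) : Prop :=
  (∃ K, ∀ i, K ≤ i → ev i = 0) ∧ LieSubalgebra.lieSpan k L (Set.range ev) = ⊤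

/-- `L` is generated by `ev` (almost all entries are `0`) and has the universal property for the
primitive recursive family of relators `ρ`. -/
def RPg (L : Type) [LieRing L] [LieAlgebra k L] (ev : ℕ → L) : Prop :=
  ∃ (K : ℕ) (ρ : ℕ → LRel), (∀ i, K ≤ i → ev i = 0) ∧
    LieSubalgebra.lieSpan k L (Set.range ev) = ⊤ ∧ Primrec ρ ∧ (∀ n, lval k ev (ρ n) = 0) ∧
    ∀ (L' : Type) [LieRing L'] [LieAlgebra k L'] (ev' : ℕ → L'), (∀ i, K ≤ i → ev' i = 0) →
      (∀ n, lval k ev' (ρ n) = 0) → ∃ F : L →ₗ⁅k⁆ L', ∀ i, F (ev i) = ev' i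

/-- finitely generated recursively presented Lie algebra -/
def RP (L : Type) [LieRing L] [LieAlgebra k L] : Prop := ∃ ev : ℕ → L, RPg k L ev

/-- finitely presented Lie algebra -/
def FP (L : Type) [LieRing L] [LieAlgebra k L] : Prop :=
  ∃ (d : ℕ) (R : Set (FreeLieAlgebra k (Fin d))), R.Finite ∧
    Nonempty (L ≃ₗ⁅k⁆
      (FreeLieAlgebra k (Fin d) ⧸ LieSubmodule.lieSpan k (FreeLieAlgebra k (Fin d)) R))

theorem RPg.gens {L : Type} [LieRing L] [LieAlgebra k L] {ev : ℕ → L} (h : RPg k L ev) :
    Gens k L ev := by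
  obtain ⟨K, ρ, h1, h2, -⟩ := h
  exact ⟨⟨K, h1⟩, h2⟩

end

/-! ### Presentations of modules -/

/-- formal elements of a free module on `ι`: linear combinations of words in elements of `Y`
applied to a generator -/
abbrev MR (k Y ι : Type) := List (k × List Y × ι)

/-- value of a formal element -/
def mval {k Y ι M : Type} [Field k] [LieRing Y] [AddCommGroup M] [Module k M] [LieRingModule Y M]
    (n : ι → M) (R : MR k Y ι) : M :=
  (R.map fun t => t.1 • wact t.2.1 (n t.2.2)).sum

/-- change of the Lie algebra in formal elements -/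
def MR.map {k Y Y' ι : Type} (θ : Y → Y') (R : MR k Y ι) : MR k Y' ι :=
  List.map (fun t => (t.1, t.2.1.map θ, t.2.2)) R

section
variable (k : Type) [Field k] (Y : Type) [LieRing Y] [LieAlgebra k Y]

/-- `E` is the `Y`-module with generators `e` and defining relations `Rel` -/
def Pres {ι : Type} (E : Type) [AddCommGroup E] [Module k E] [LieRingModule Y E] [LieModule k Y E]
    (e : ι → E) (Rel : Set (MR k Y ι)) : Prop :=
  (∀ R ∈ Rel, mval e R = 0) ∧ LieSubmodule.lieSpan k Y (Set.range e) = ⊤ ∧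
    ∀ (N : Type) [AddCommGroup N] [Module k N] [LieRingModule Y N] [LieModule k Y N] (n : ι → N),
      (∀ R ∈ Rel, mval n R = 0) → ∃ F : E →ₗ⁅k, Y⁆ N, ∀ i, F (e i) = n i

/-- finitely presented module -/
def FPMod (E : Type) [AddCommGroup E] [Module k E] [LieRingModule Y E] [LieModule k Y E] : Prop :=
  ∃ (m : ℕ) (e : Fin m → E) (Rel : Set (MR k Y (Fin m))), Rel.Finite ∧ Pres k Y E e Rel

/-- the formal element of a module expression (terms with generators of index `≥ r` are
deleted) -/
def conv {Y : Type} (r : ℕ) (ev : ℕ → Y) (R : MRel) : MR k Y (Fin r) :=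
  R.filterMap fun t => if h : t.2.1 < r then some (cf k t.1, t.2.2.map ev, ⟨t.2.1, h⟩) else none

/-- `D` is the `Y`-module with generators `f i` and the primitive recursive family of
relations `ρ`, with letters evaluated by `ev` -/
def PMod (ev : ℕ → Y) (D : Type) [AddCommGroup D] [Module k D] [LieRingModule Y D]
    [LieModule k Y D] {r : ℕ} (f : Fin r → D) (ρ : ℕ → MRel) : Prop :=
  Primrec ρ ∧ Pres k Y D f (Set.range fun n => conv k r ev (ρ n))

end

/-! ### Restriction to another Lie algebra -/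

section
variable {k : Type} [Field k] {L₁ L₂ : Type} [LieRing L₁] [LieAlgebra k L₁] [LieRing L₂]
  [LieAlgebra k L₂]

/-- the `L₂`-module `M` as a module over `L₁` -/
def Res (_θ : L₁ →ₗ⁅k⁆ L₂) (M : Type) : Type := M

variable (θ : L₁ →ₗ⁅k⁆ L₂) (M : Type) [AddCommGroup M] [Module k M] [LieRingModule L₂ M]

instance : AddCommGroup (Res θ M) := inferInstanceAs (AddCommGroup M)
instance : Module k (Res θ M) := inferInstanceAs (Module k M)

/-- identity map -/
def toRes : M ≃ₗ[k] Res θ M := LinearEquiv.refl k M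

instance : LieRingModule L₁ (Res θ M) where
  bracket x m := toRes θ M ⁅θ x, (toRes θ M).symm m⁆
  add_lie x y m := by simp
  lie_add x m n := by simp
  leibniz_lie x y m := by simp

theorem Res.lie_def (x : L₁) (m : Res θ M) : ⁅x, m⁆ = toRes θ M ⁅θ x, (toRes θ M).symm m⁆ := rfl

theorem Res.lie_toRes (x : L₁) (m : M) : ⁅x, toRes θ M m⁆ = toRes θ M ⁅θ x, m⁆ := rfl

instance [LieModule k L₂ M] : LieModule k L₁ (Res θ M) where
  smul_lie t x m := by simp [Res.lie_def]
  lie_smul t x m := by simp [Res.lie_def]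

end

/-! ### Products of modules -/

section
variable {k : Type} [Field k] {L : Type} [LieRing L] [LieAlgebra k L]
  (M N : Type) [AddCommGroup M] [Module k M] [LieRingModule L M]
  [AddCommGroup N] [Module k N] [LieRingModule L N]

/-- the product of two modules -/
def PM : Type := M × N

instance : AddCommGroup (PM M N) := inferInstanceAs (AddCommGroup (M × N))
instance : Module k (PM M N) := inferInstanceAs (Module k (M × N))

variable {M N}

/-- pair of elements -/
def PM.mk (m : M) (n : N) : PM M N := (m, n)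
/-- first component -/
def PM.fst (x : PM M N) : M := Prod.fst x
/-- second component -/
def PM.snd (x : PM M N) : N := Prod.snd x

@[simp] theorem PM.fst_mk (m : M) (n : N) : (PM.mk m n).fst = m := rfl
@[simp] theorem PM.snd_mk (m : M) (n : N) : (PM.mk m n).snd = n := rfl
@[simp] theorem PM.fst_add (x y : PM M N) : (x + y).fst = x.fst + y.fst := rfl
@[simp] theorem PM.snd_add (x y : PM M N) : (x + y).snd = x.snd + y.snd := rfl
@[simp] theorem PM.fst_sub (x y : PM M N) : (x - y).fst = x.fst - y.fst := rfl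
@[simp] theorem PM.snd_sub (x y : PM M N) : (x - y).snd = x.snd - y.snd := rfl
@[simp] theorem PM.fst_neg (x : PM M N) : (-x).fst = -x.fst := rfl
@[simp] theorem PM.snd_neg (x : PM M N) : (-x).snd = -x.snd := rfl
@[simp] theorem PM.fst_zero : (0 : PM M N).fst = 0 := rfl
@[simp] theorem PM.snd_zero : (0 : PM M N).snd = 0 := rfl
@[simp] theorem PM.fst_smul (c : k) (x : PM M N) : (c • x).fst = c • x.fst := rfl
@[simp] theorem PM.snd_smul (c : k) (x : PM M N) : (c • x).snd = c • x.snd := rfl
@[ext] theorem PM.ext {x y : PM M N} (h : x.fst = y.fst) (h' : x.snd = y.snd) : x = y :=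
  Prod.ext h h'

instance : LieRingModule L (PM M N) where
  bracket x m := PM.mk ⁅x, m.fst⁆ ⁅x, m.snd⁆
  add_lie x y m := by ext <;> simp
  lie_add x m n := by ext <;> simp
  leibniz_lie x y m := by ext <;> simp

@[simp] theorem PM.fst_lie (x : L) (m : PM M N) : (⁅x, m⁆ : PM M N).fst = ⁅x, m.fst⁆ := rfl
@[simp] theorem PM.snd_lie (x : L) (m : PM M N) : (⁅x, m⁆ : PM M N).snd = ⁅x, m.snd⁆ := rfl

instance [LieModule k L M] [LieModule k L N] : LieModule k L (PM M N) where
  smul_lie t x m := by ext <;> simp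
  lie_smul t x m := by ext <;> simp

end

/-! ### Semidirect products -/

/-- semidirect product of a `Q`-module `D` (abelian ideal) with the Lie algebra `Q` -/
@[ext] structure Sd (D Q : Type) where
  /-- component in the module -/
  d : D
  /-- component in the Lie algebra -/
  q : Q

section
variable {k : Type} [Field k] {Q D : Type} [LieRing Q] [LieAlgebra k Q] [AddCommGroup D]
  [Module k D] [LieRingModule Q D]

/-- underlying pair -/
def Sd.toProd : Sd D Q ≃ D × Q where
  toFun x := (x.d, x.q)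
  invFun x := ⟨x.1, x.2⟩
  left_inv _ := rfl
  right_inv _ := rfl

instance : AddCommGroup (Sd D Q) := Sd.toProd.addCommGroup
instance : Module k (Sd D Q) := Sd.toProd.module k

@[simp] theorem Sd.add_d (x y : Sd D Q) : (x + y).d = x.d + y.d := rfl
@[simp] theorem Sd.add_q (x y : Sd D Q) : (x + y).q = x.q + y.q := rfl
@[simp] theorem Sd.sub_d (x y : Sd D Q) : (x - y).d = x.d - y.d := rfl
@[simp] theorem Sd.sub_q (x y : Sd D Q) : (x - y).q = x.q - y.q := rfl
@[simp] theorem Sd.neg_d (x : Sd D Q) : (-x).d = -x.d := rfl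
@[simp] theorem Sd.neg_q (x : Sd D Q) : (-x).q = -x.q := rfl
@[simp] theorem Sd.zero_d : (0 : Sd D Q).d = 0 := rfl
@[simp] theorem Sd.zero_q : (0 : Sd D Q).q = 0 := rfl
@[simp] theorem Sd.smul_d (c : k) (x : Sd D Q) : (c • x).d = c • x.d := rfl
@[simp] theorem Sd.smul_q (c : k) (x : Sd D Q) : (c • x).q = c • x.q := rfl

instance : Bracket (Sd D Q) (Sd D Q) := ⟨fun x y => ⟨⁅x.q, y.d⁆ - ⁅y.q, x.d⁆, ⁅x.q, y.q⁆⟩⟩

@[simp] theorem Sd.lie_d (x y : Sd D Q) : (⁅x, y⁆ : Sd D Q).d = ⁅x.q, y.d⁆ - ⁅y.q, x.d⁆ := rfl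
@[simp] theorem Sd.lie_q (x y : Sd D Q) : (⁅x, y⁆ : Sd D Q).q = ⁅x.q, y.q⁆ := rfl

instance : LieRing (Sd D Q) where
  add_lie x y z := by ext <;> simp; abel
  lie_add x y z := by ext <;> simp; abel
  lie_self x := by ext <;> simp
  leibniz_lie x y z := by ext <;> simp; abel

instance [LieModule k Q D] : LieAlgebra k (Sd D Q) where
  lie_smul c x y := by ext <;> simp [smul_sub]

/-- elements of the module as elements of the semidirect product -/
def Sd.inl (k : Type) [Field k] (Q : Type) {D : Type} [LieRing Q] [LieAlgebra k Q]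
    [AddCommGroup D] [Module k D] [LieRingModule Q D] : D →ₗ[k] Sd D Q where
  toFun d := ⟨d, 0⟩
  map_add' x y := by ext <;> simp
  map_smul' c x := by ext <;> simp

/-- the embedding of the acting Lie algebra -/
def Sd.inr (k : Type) [Field k] {Q : Type} (D : Type) [LieRing Q] [LieAlgebra k Q]
    [AddCommGroup D] [Module k D] [LieRingModule Q D] [LieModule k Q D] : Q →ₗ⁅k⁆ Sd D Q where
  toFun q := ⟨0, q⟩
  map_add' x y := by ext <;> simp
  map_smul' c x := by ext <;> simp
  map_lie' := by intro x y; ext <;> simp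

@[simp] theorem Sd.inl_d (d : D) : (Sd.inl k Q d).d = d := rfl
@[simp] theorem Sd.inl_q (d : D) : (Sd.inl k Q d).q = 0 := rfl
@[simp] theorem Sd.inr_d [LieModule k Q D] (q : Q) : (Sd.inr k D q).d = 0 := rfl
@[simp] theorem Sd.inr_q [LieModule k Q D] (q : Q) : (Sd.inr k D q).q = q := rfl

/-- modules over semidirect products -/
theorem Sd.exists_mod [LieModule k Q D] (M : Type) [AddCommGroup M] [Module k M]
    [LieRingModule Q M] [LieModule k Q M] (Φ : D →ₗ[k] (M →ₗ[k] M))
    (h1 : ∀ (q : Q) (d : D) (m : M), Φ ⁅q, d⁆ m = ⁅q, Φ d m⁆ - Φ d ⁅q, m⁆)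
    (h2 : ∀ (d d' : D) (m : M), Φ d (Φ d' m) = Φ d' (Φ d m)) :
    ∃ (_ : LieRingModule (Sd D Q) M) (_ : LieModule k (Sd D Q) M),
      ∀ (x : Sd D Q) (m : M), ⁅x, m⁆ = Φ x.d m + ⁅x.q, m⁆ := by
  let i1 : LieRingModule (Sd D Q) M :=
    { bracket := fun x m => Φ x.d m + ⁅x.q, m⁆
      add_lie := by
        intro x y m
        change Φ (x + y).d m + ⁅(x + y).q, m⁆ = (Φ x.d m + ⁅x.q, m⁆) + (Φ y.d m + ⁅y.q, m⁆)
        simp; abel
      lie_add := by
        intro x m n
        change Φ x.d (m + n) + ⁅x.q, m + n⁆ = (Φ x.d m + ⁅x.q, m⁆) + (Φ x.d n + ⁅x.q, n⁆)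
        simp; abel
      leibniz_lie := by
        intro x y m
        change Φ x.d (Φ y.d m + ⁅y.q, m⁆) + ⁅x.q, Φ y.d m + ⁅y.q, m⁆⁆ =
          (Φ (⁅x, y⁆ : Sd D Q).d m + ⁅(⁅x, y⁆ : Sd D Q).q, m⁆) +
            (Φ y.d (Φ x.d m + ⁅x.q, m⁆) + ⁅y.q, Φ x.d m + ⁅x.q, m⁆⁆)
        simp only [map_add, lie_add, Sd.lie_d, Sd.lie_q, map_sub, LinearMap.sub_apply, h1,
          h2 x.d y.d m, leibniz_lie x.q y.q m]
        abel }
  have i2 : LieModule k (Sd D Q) M :=
    { smul_lie := by
        intro c x m
        change Φ (c • x).d m + ⁅(c • x).q, m⁆ = c • (Φ x.d m + ⁅x.q, m⁆)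
        simp
      lie_smul := by
        intro c x m
        change Φ x.d (c • m) + ⁅x.q, c • m⁆ = c • (Φ x.d m + ⁅x.q, m⁆)
        simp }
  exact ⟨i1, i2, fun _ _ => rfl⟩

end

end Pool.Agent.HIP
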