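import Mathlib
import Pool.Agent.HIP.Defs

/-!
# Stages and layers
-/

noncomputable section

set_option linter.unusedSectionVars false

namespace Pool.Agent.HIP

open Function
open scoped TensorProduct

/-- the submodule (over `Q` acting via `ι`) generated by a family -/
abbrev GenBy {k : Type} [Field k] {Q Y : Type} [LieRing Q] [LieAlgebra k Q] [LieRing Y]
    [LieAlgebra k Y] (ι : Q →ₗ⁅k⁆ Y) (E : Type) [AddCommGroup E] [Module k E] [LieRingModule Y E]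
    [LieModule k Y E] {I : Type} (eta : I → E) : LieSubmodule k Q (Res ι E) :=
  LieSubmodule.lieSpan k Q (Set.range fun b => toRes ι E (eta b))

/-- A stage of level `j` for the index set `I`. -/
structure Stage (k : Type) [Field k] (j : ℕ) (I : Type) where
  /-- the big acting Lie algebra -/
  Y : Type
  [lrY : LieRing Y]
  [laY : LieAlgebra k Y]
  /-- the Lie algebra which has to act finally -/
  Q : Type
  [lrQ : LieRing Q]
  [laQ : LieAlgebra k Q]
  rpY : RP k Y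
  solY : LieAlgebra.derivedSeries k Y j = ⊥
  fgQ : ∃ ev : ℕ → Q, Gens k Q ev
  ι : Q →ₗ⁅k⁆ Y
  ι_inj : Injective ι
  /-- the finitely presented module -/
  E : Type
  [acE : AddCommGroup E]
  [moE : Module k E]
  [lrE : LieRingModule Y E]
  [lmE : LieModule k Y E]
  m : ℕ
  e : Fin m → E
  Rel : Set (MR k Y (Fin m))
  finRel : Rel.Finite
  presE : Pres k Y E e Rel
  /-- the free elements -/
  eta : I → E
  free : ∀ (N : Type) [AddCommGroup N] [Module k N] [LieRingModule Q N] [LieModule k Q N]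
    (n : I → N), ∃ F : (GenBy ι E eta) →ₗ⁅k, Q⁆ N,
      ∀ b, F ⟨toRes ι E (eta b), LieSubmodule.subset_lieSpan ⟨b, rfl⟩⟩ = n b
  s : ℕ
  g : Fin s → E ⊗[k] E
  sq : ∀ x ∈ GenBy ι E eta, ∀ y ∈ GenBy ι E eta,
    ((toRes ι E).symm x ⊗ₜ[k] (toRes ι E).symm y + (toRes ι E).symm y ⊗ₜ[k] (toRes ι E).symm x) ∈
      LieSubmodule.lieSpan k Y (Set.range g)

attribute [instance] Stage.lrY Stage.laY Stage.lrQ Stage.laQ Stage.acE Stage.moE Stage.lrE
  Stage.lmE

/-- existence of stages of level `j` -/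
def StageEx (k : Type) [Field k] (j : ℕ) : Prop :=
  ∀ (I : Type) [Finite I] (Q : Type) [LieRing Q] [LieAlgebra k Q], RP k Q →
    LieAlgebra.derivedSeries k Q j = ⊥ → ∃ (S : Stage k j I) (η : Q →ₗ⁅k⁆ S.Q), Injective η

/-- The layer of a stage: the modules `Z` (free on `z_i`), `C` (free on `c_l`), `T` (generated by
`t` with the relations `Q t = 0`), `AY` (induced from the `Q`-module `A`). -/
structure Lay {k : Type} [Field k] {j : ℕ} {I : Type} {r : ℕ} (S : Stage k j (I ⊕ Fin r))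
    (A : Type) [AddCommGroup A] [Module k A] [LieRingModule S.Q A] [LieModule k S.Q A]
    (al0 : Fin r → A) where
  Z : Type
  [acZ : AddCommGroup Z]
  [moZ : Module k Z]
  [lrZ : LieRingModule S.Y Z]
  [lmZ : LieModule k S.Y Z]
  z : Fin S.m → Z
  presZ : Pres k S.Y Z z ∅
  C : Type
  [acC : AddCommGroup C]
  [moC : Module k C]
  [lrC : LieRingModule S.Y C]
  [lmC : LieModule k S.Y C]
  c : Fin S.s → C
  presC : Pres k S.Y C c ∅
  T : Type
  [acT : AddCommGroup T]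
  [moT : Module k T]
  [lrT : LieRingModule S.Y T]
  [lmT : LieModule k S.Y T]
  t : T
  presT : Pres k S.Y T (fun _ : Fin 1 => t) (Set.range fun q : S.Q => [((1 : k), [S.ι q], 0)])
  AY : Type
  [acA : AddCommGroup AY]
  [moA : Module k AY]
  [lrA : LieRingModule S.Y AY]
  [lmA : LieModule k S.Y AY]
  relA : Set (MR k S.Q (Fin r))
  presA : Pres k S.Q A al0 relA
  al : Fin r → AY
  presAY : Pres k S.Y AY al (MR.map S.ι '' relA)
  /-- the embedding of `A` -/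
  jA : A →ₗ[k] AY
  jA_inj : Injective jA
  jA_lie : ∀ (q : S.Q) (a : A), jA ⁅q, a⁆ = ⁅S.ι q, jA a⁆
  jA_al : ∀ i, jA (al0 i) = al i
  /-- `z_i ↦ e_i` -/
  pi : Z →ₗ⁅k, S.Y⁆ S.E
  pi_z : ∀ i, pi (z i) = S.e i
  /-- `c_l ↦ g_l` -/
  gam : C →ₗ⁅k, S.Y⁆ (S.E ⊗[k] S.E)
  gam_c : ∀ l, gam (c l) = S.g l
  /-- lifts of the `eta`'s -/
  xx : I ⊕ Fin r → Z
  pi_xx : ∀ b, pi (xx b) = S.eta b
  /-- lifts of the tensors `g_l` -/
  gg : Fin S.s → List (Z × Z)
  gg_g : ∀ l, ((gg l).map fun p => pi p.1 ⊗ₜ[k] pi p.2).sum = S.g l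

attribute [instance] Lay.acZ Lay.moZ Lay.lrZ Lay.lmZ Lay.acC Lay.moC Lay.lrC Lay.lmC Lay.acT
  Lay.moT Lay.lrT Lay.lmT Lay.acA Lay.moA Lay.lrA Lay.lmA

section
variable {k : Type} [Field k] {j : ℕ} {I : Type} {r : ℕ} {S : Stage k j (I ⊕ Fin r)}
  {A : Type} [AddCommGroup A] [Module k A] [LieRingModule S.Q A] [LieModule k S.Q A]
  {al0 : Fin r → A} (L : Lay S A al0)

/-- the module part without `T` -/
abbrev Lay.A1 : Type := PM (PM L.Z L.C) L.AY

/-- the Lie algebra without `T` -/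
abbrev Lay.P1 : Type := Sd L.A1 S.Y

/-- the module part -/
abbrev Lay.A0 : Type := PM L.A1 L.T

/-- the Lie algebra of the next stage -/
abbrev Lay.P : Type := Sd L.A0 S.Y

/-- the new `Q` -/
abbrev Lay.QP (_L : Lay S A al0) : Type := Sd A S.Q

/-- elements of `P` -/
def Lay.zz : L.Z →ₗ[k] L.P where
  toFun x := ⟨PM.mk (PM.mk (PM.mk x 0) 0) 0, 0⟩
  map_add' x y := by ext <;> simp
  map_smul' c x := by ext <;> simp
/-- elements of `P` -/
def Lay.cc : L.C →ₗ[k] L.P where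
  toFun x := ⟨PM.mk (PM.mk (PM.mk 0 x) 0) 0, 0⟩
  map_add' x y := by ext <;> simp
  map_smul' c x := by ext <;> simp
/-- elements of `P` -/
def Lay.aa : L.AY →ₗ[k] L.P where
  toFun x := ⟨PM.mk (PM.mk (PM.mk 0 0) x) 0, 0⟩
  map_add' x y := by ext <;> simp
  map_smul' c x := by ext <;> simp
/-- elements of `P` -/
def Lay.tt : L.T →ₗ[k] L.P where
  toFun x := ⟨PM.mk (PM.mk (PM.mk 0 0) 0) x, 0⟩
  map_add' x y := by ext <;> simp
  map_smul' c x := by ext <;> simp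
/-- elements of `P` -/
def Lay.yy : S.Y →ₗ⁅k⁆ L.P := Sd.inr k L.A0

/-- the embedding of the new `Q` -/
def Lay.io : L.QP →ₗ⁅k⁆ L.P where
  toFun x := ⟨PM.mk (PM.mk (PM.mk 0 0) (L.jA x.d)) 0, S.ι x.q⟩
  map_add' x y := by ext <;> simp
  map_smul' c x := by ext <;> simp
  map_lie' := by intro x y; ext <;> simp [L.jA_lie]

/-- the relations (R1) - (R5) for an element `e` of a `P`-module -/
structure Lay.Good (M : Type) [AddCommGroup M] [Module k M] [LieRingModule L.P M]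
    (e : M) : Prop where
  R1 : ∀ y : S.Y, ⁅L.yy y, e⁆ = 0
  R2 : ∀ x : L.Z, L.pi x = 0 → ⁅L.zz x, e⁆ = 0
  R3 : ∀ l, ⁅L.cc (L.c l), e⁆ = ((L.gg l).map fun p => ⁅L.zz p.1, ⁅L.zz p.2, e⁆⁆).sum
  R4 : ∀ i, ⁅L.aa (L.al i), ⁅L.tt L.t, e⁆⁆ = ⁅L.zz (L.xx (Sum.inr i)), ⁅L.tt L.t, e⁆⁆
  R5 : ⁅L.tt L.t, ⁅L.tt L.t, e⁆⁆ = 0

end

end Pool.Agent.HIP
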