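import Mathlib
import Pool.Agent.HIL.Defs
import Pool.Agent.HIG.Extra
import Pool.Agent.HIP.Stage

/-!
# Exact statements of the modules
-/

noncomputable section

set_option linter.unusedSectionVars false

namespace Pool.Agent.HIP

open Function
open scoped TensorProduct
open Pool.Agent.HIG (St Prog Prog.run Prog.Uses Prog.WF)

/-! ### I. Primitive recursive operations on words -/

/-- value of a module expression with generators `n i`, `i : ℕ` -/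
def mvn (k : Type) [Field k] {Y : Type} [LieRing Y] {M : Type} [AddCommGroup M] [Module k M]
    [LieRingModule Y M] (ev : ℕ → Y) (n : ℕ → M) (R : MRel) : M :=
  (R.map fun t => cf k t.1 • wact (t.2.2.map ev) (n t.2.1)).sum

/-- integer arithmetic is primitive recursive -/
def Stmt_Int : Prop :=
  (Primrec₂ fun a b : ℤ => a * b) ∧ (Primrec fun a : ℤ => -a) ∧ Primrec Int.natAbs ∧
    (Primrec fun a : ℤ => decide (0 ≤ a)) ∧ (Primrec fun n : ℕ => (n : ℤ)) ∧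
    (Primrec₂ fun a b : ℤ => a + b)

/-- bracket of Lie expressions -/
def Stmt_Brk : Prop :=
  ∃ brk : LRel → LRel → LRel, Primrec₂ brk ∧
    ∀ (k : Type) [Field k] (L : Type) [LieRing L] [LieAlgebra k L] (ev : ℕ → L) (R S : LRel),
      lval k ev (brk R S) = ⁅lval k ev R, lval k ev S⁆

/-- associative expansion of Lie expressions -/
def Stmt_Asc : Prop :=
  ∃ asc : LRel → LRel, Primrec asc ∧
    ∀ (k : Type) [Field k] (L : Type) [LieRing L] [LieAlgebra k L] (M : Type) [AddCommGroup M]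
      [Module k M] [LieRingModule L M] [LieModule k L M] (ev : ℕ → L) (R : LRel) (m : M),
      aact k ev (asc R) m = ⁅lval k ev R, m⁆

/-- substitution in module expressions -/
def Stmt_SubM : Prop :=
  ∀ (W : ℕ → LRel) (K : ℕ), (∀ i, K ≤ i → W i = []) → ∃ sub : MRel → MRel, Primrec sub ∧
    ∀ (k : Type) [Field k] (Y : Type) [LieRing Y] [LieAlgebra k Y] (M : Type) [AddCommGroup M]
      [Module k M] [LieRingModule Y M] [LieModule k Y M] (ev : ℕ → Y) (n : ℕ → M) (R : MRel),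
      mvn k ev n (sub R) = mvn k (fun i => lval k ev (W i)) n R

/-- every element is the value of an expression -/
def Stmt_Expr : Prop :=
  ∀ (k : Type) [Field k], PF k → ∀ (L : Type) [LieRing L] [LieAlgebra k L] (ev : ℕ → L),
    Gens k L ev → ∀ x : L, ∃ W : LRel, lval k ev W = x

/-- Fox derivatives: first component in a semidirect product -/
def Stmt_Fox : Prop :=
  ∃ fox : LRel → MRel, Primrec fox ∧
    ∀ (k : Type) [Field k] (Q : Type) [LieRing Q] [LieAlgebra k Q] (D : Type) [AddCommGroup D]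
      [Module k D] [LieRingModule Q D] [LieModule k Q D] (ev : ℕ → Q) (d : ℕ → D) (R : LRel),
      (lval k (fun i => (⟨d i, ev i⟩ : Sd D Q)) R).d = mvn k ev d (fox R)

/-! ### II. Change of generators -/

def Stmt_PMCh : Prop :=
  ∀ (k : Type) [Field k], PF k → ∀ (Y : Type) [LieRing Y] [LieAlgebra k Y] (ev ev2 : ℕ → Y),
    (∃ K, ∀ i, K ≤ i → ev i = 0) → Gens k Y ev2 →
    ∀ (D : Type) [AddCommGroup D] [Module k D] [LieRingModule Y D] [LieModule k Y D] (r : ℕ)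
      (f : Fin r → D) (ρ : ℕ → MRel), PMod k Y ev D f ρ → ∃ ρ2, PMod k Y ev2 D f ρ2

/-! ### III. Existence and extension of modules -/

def Stmt_ExMod : Prop :=
  ∀ (k : Type) [Field k] (Y : Type) [LieRing Y] [LieAlgebra k Y] (ι : Type)
    (Rel : Set (MR k Y ι)),
    ∃ (E : Type) (_ : AddCommGroup E) (_ : Module k E) (_ : LieRingModule Y E)
      (_ : LieModule k Y E) (e : ι → E), Pres k Y E e Rel

/-- relative Poincare-Birkhoff-Witt theorem: modules extend along injective homomorphisms -/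
def Stmt_Ext : Prop :=
  ∀ (k : Type) [Field k] (K L : Type) [LieRing K] [LieAlgebra k K] [LieRing L] [LieAlgebra k L]
    (θ : K →ₗ⁅k⁆ L), Injective θ → ∀ (M : Type) [AddCommGroup M] [Module k M]
    [LieRingModule K M] [LieModule k K M],
    ∃ (M' : Type) (_ : AddCommGroup M') (_ : Module k M') (_ : LieRingModule L M')
      (_ : LieModule k L M') (j : M →ₗ[k] M'), Injective j ∧
      ∀ (x : K) (m : M), j ⁅x, m⁆ = ⁅θ x, j m⁆

/-- induced modules -/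
def Stmt_Ind : Prop :=
  ∀ (k : Type) [Field k] (Q Y : Type) [LieRing Q] [LieAlgebra k Q] [LieRing Y] [LieAlgebra k Y]
    (θ : Q →ₗ⁅k⁆ Y), Injective θ → ∀ (ι : Type)
    (A : Type) [AddCommGroup A] [Module k A] [LieRingModule Q A] [LieModule k Q A]
    (a : ι → A) (Rel : Set (MR k Q ι)), Pres k Q A a Rel →
    ∀ (B : Type) [AddCommGroup B] [Module k B] [LieRingModule Y B] [LieModule k Y B]
    (b : ι → B), Pres k Y B b (MR.map θ '' Rel) →
    ∃ j : A →ₗ[k] B, Injective j ∧ (∀ (q : Q) (x : A), j ⁅q, x⁆ = ⁅θ q, j x⁆) ∧ ∀ i, j (a i) = b i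

/-! ### IV. Recursive presentations -/

def Stmt_RPQuot : Prop :=
  ∀ (k : Type) [Field k] (L : Type) [LieRing L] [LieAlgebra k L] (ev : ℕ → L), RPg k L ev →
    ∀ n : ℕ, RPg k (L ⧸ LieAlgebra.derivedSeries k L n)
      (fun i => (LieSubmodule.Quotient.mk (ev i) : L ⧸ LieAlgebra.derivedSeries k L n))

def Stmt_RPProd : Prop :=
  ∀ (k : Type) [Field k] (L M : Type) [LieRing L] [LieAlgebra k L] [LieRing M] [LieAlgebra k M],
    RP k L → RP k M → RP k (L × M)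

def Stmt_RPAb : Prop :=
  ∀ (k : Type) [Field k] (L : Type) [LieRing L] [LieAlgebra k L],
    (∀ x y : L, ⁅x, y⁆ = 0) → Module.Finite k L → RP k L

/-- layers -/
def Stmt_RPSd : Prop :=
  ∀ (k : Type) [Field k] (Y : Type) [LieRing Y] [LieAlgebra k Y] (ev : ℕ → Y), RPg k Y ev →
    ∀ (D : Type) [AddCommGroup D] [Module k D] [LieRingModule Y D] [LieModule k Y D] (r : ℕ)
      (f : Fin r → D) (ρ : ℕ → MRel), PMod k Y ev D f ρ → RP k (Sd D Y)

def Stmt_PProd : Prop :=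
  ∀ (k : Type) [Field k] (Y : Type) [LieRing Y] [LieAlgebra k Y] (ev : ℕ → Y)
    (D : Type) [AddCommGroup D] [Module k D] [LieRingModule Y D] [LieModule k Y D] (r : ℕ)
    (f : Fin r → D) (ρ : ℕ → MRel), PMod k Y ev D f ρ →
    ∀ (D' : Type) [AddCommGroup D'] [Module k D'] [LieRingModule Y D'] [LieModule k Y D'] (r' : ℕ)
    (f' : Fin r' → D') (ρ' : ℕ → MRel), PMod k Y ev D' f' ρ' →
    ∃ (r'' : ℕ) (f'' : Fin r'' → PM D D') (ρ'' : ℕ → MRel), PMod k Y ev (PM D D') f'' ρ''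

/-! ### V. Finite presentations -/

/-- a free new generator -/
def Stmt_Coprod : Prop :=
  ∀ (k : Type) [Field k] (R : Type) [LieRing R] [LieAlgebra k R], FP k R →
    ∃ (G : Type) (_ : LieRing G) (_ : LieAlgebra k G) (inc : R →ₗ⁅k⁆ G) (e : G), FP k G ∧
      LieSubalgebra.lieSpan k G (insert e (Set.range inc)) = ⊤ ∧
      ∀ (L' : Type) [LieRing L'] [LieAlgebra k L'] (θ : R →ₗ⁅k⁆ L') (x : L'),
        ∃ F : G →ₗ⁅k⁆ L', (∀ r, F (inc r) = θ r) ∧ F e = x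

def Stmt_FPQuot : Prop :=
  ∀ (k : Type) [Field k] (G : Type) [LieRing G] [LieAlgebra k G], FP k G →
    ∀ S : Set G, S.Finite → FP k (G ⧸ LieSubmodule.lieSpan k G S)

def Stmt_FPAb : Prop :=
  ∀ (k : Type) [Field k] (L : Type) [LieRing L] [LieAlgebra k L],
    (∀ x y : L, ⁅x, y⁆ = 0) → Module.Finite k L → FP k L

/-! ### VI. Kaloujnine-Krasner, Noether -/

/-- the derivation separating the last term of the derived series -/
def Stmt_KKI : Prop :=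
  ∀ (k : Type) [Field k] (n : ℕ) (L : Type) [LieRing L] [LieAlgebra k L],
    LieAlgebra.derivedSeries k L (n + 1) = ⊥ →
    ∃ (E : Type) (_ : AddCommGroup E) (_ : Module k E)
      (_ : LieRingModule (L ⧸ LieAlgebra.derivedSeries k L n) E)
      (_ : LieModule k (L ⧸ LieAlgebra.derivedSeries k L n) E) (δ : L →ₗ[k] E),
      (∀ x y : L, δ ⁅x, y⁆ =
        ⁅(LieSubmodule.Quotient.mk x : L ⧸ LieAlgebra.derivedSeries k L n), δ y⁆ -
        ⁅(LieSubmodule.Quotient.mk y : L ⧸ LieAlgebra.derivedSeries k L n), δ x⁆) ∧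
      ∀ x ∈ LieAlgebra.derivedSeries k L n, δ x = 0 → x = 0

def Stmt_KK : Prop :=
  ∀ (k : Type) [Field k] (n : ℕ) (L : Type) [LieRing L] [LieAlgebra k L], RP k L →
    LieAlgebra.derivedSeries k L (n + 1) = ⊥ →
    ∃ (Q : Type) (_ : LieRing Q) (_ : LieAlgebra k Q) (ev : ℕ → Q) (D : Type) (_ : AddCommGroup D)
      (_ : Module k D) (_ : LieRingModule Q D) (_ : LieModule k Q D) (r : ℕ) (f : Fin r → D)
      (ρ : ℕ → MRel) (φ : L →ₗ⁅k⁆ Sd D Q),
      RPg k Q ev ∧ LieAlgebra.derivedSeries k Q n = ⊥ ∧ PMod k Q ev D f ρ ∧ Injective φ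

def Stmt_Noeth : Prop :=
  ∀ (k : Type) [Field k] (Q : Type) [LieRing Q] [LieAlgebra k Q] (ev : ℕ → Q), Gens k Q ev →
    LieAlgebra.derivedSeries k Q 1 = ⊥ →
    ∀ (D : Type) [AddCommGroup D] [Module k D] [LieRingModule Q D] [LieModule k Q D] (r : ℕ)
      (f : Fin r → D) (Rel : Set (MR k Q (Fin r))), Pres k Q D f Rel → FPMod k Q D

/-! ### VII. Systems -/

/-- action of a word of operators -/
def wop {M : Type} [AddCommGroup M] (op : ℕ → (M →+ M)) (w : List ℕ) (m : M) : M :=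
  w.foldr (fun i x => op i x) m

/-- constraints on functions `𝓕 : ℕ → St → M` -/
inductive Con : Type
  /-- `F (v + e_j) = G v` -/
  | shift (j F G : ℕ)
  /-- `∑ n • w • F v = 0` for all `v` vanishing on `J` -/
  | lin (J : Finset ℕ) (L : List (ℤ × List ℕ × ℕ))

/-- a constraint holds -/
def Con.Sat {M : Type} [AddCommGroup M] (op : ℕ → (M →+ M)) (𝓕 : ℕ → St → M) : Con → Prop
  | .shift j F G => ∀ v, 𝓕 F (update v j (v j + 1)) = 𝓕 G v
  | .lin J L => ∀ v, (∀ i ∈ J, v i = 0) →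
      (L.map fun t => t.1 • wop op t.2.1 (𝓕 t.2.2 v)).sum = 0

/-- only counters below `K` and functions below `s` -/
def Con.Bdd (K s : ℕ) : Con → Prop
  | .shift j F G => j < K ∧ F < s ∧ G < s
  | .lin J L => (∀ i ∈ J, i < K) ∧ ∀ t ∈ L, t.2.2 < s

/-- signed module expressions -/
abbrev SRel := List (Bool × ℕ × List ℕ)

def sgn (b : Bool) : ℤ := if b then 1 else -1

/-- value of a signed expression -/
def sval {M : Type} [AddCommGroup M] (op : ℕ → (M →+ M)) (m : ℕ → M) (R : SRel) : M :=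
  (R.map fun t => sgn t.1 • wop op t.2.2 (m t.2.1)).sum

/-- compilation of programs into constraints -/
def Stmt_Compile : Prop :=
  ∀ (K : ℕ) (p : Prog), p.WF → (∀ i, p.Uses i → i < K) → ∀ F n : ℕ, F < n →
    ∃ (s : ℕ) (C : List Con) (G : ℕ), n ≤ s ∧ G < s ∧ (∀ c ∈ C, c.Bdd K s) ∧
      ∀ (M : Type) [AddCommGroup M] (op : ℕ → (M →+ M)) (𝓕 : ℕ → St → M),
        ((∀ c ∈ C, c.Sat op 𝓕) → ∀ v, 𝓕 G v = 𝓕 F (p.run v)) ∧
        ∃ 𝓕' : ℕ → St → M, (∀ i, i < n → 𝓕' i = 𝓕 i) ∧ (∀ c ∈ C, c.Sat op 𝓕') ∧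
          ∀ v, 𝓕' G v = 𝓕 F (p.run v)

/-- primitive recursive families of relations are implemented by finite systems -/
def Stmt_Sys : Prop :=
  ∀ (k r : ℕ) (ρ : ℕ → SRel), Primrec ρ →
    ∃ (K s : ℕ) (C : List Con), r ≤ s ∧ (∀ c ∈ C, c.Bdd K s) ∧
      (∀ (M : Type) [AddCommGroup M] (op : ℕ → (M →+ M)), (∀ i, k ≤ i → op i = 0) →
        ∀ (𝓕 : ℕ → St → M), (∀ c ∈ C, c.Sat op 𝓕) →
        ∀ n, sval op (fun i => if i < r then 𝓕 i 0 else 0) (ρ n) = 0) ∧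
      (∀ (M : Type) [AddCommGroup M] (op : ℕ → (M →+ M)), (∀ i, k ≤ i → op i = 0) →
        ∀ (m : ℕ → M), (∀ i, r ≤ i → m i = 0) → (∀ n, sval op m (ρ n) = 0) →
        ∃ 𝓕 : ℕ → St → M, (∀ c ∈ C, c.Sat op 𝓕) ∧ ∀ i, i < r → ∀ v, 𝓕 i v = m i)

/-- from coefficients to signs -/
def Stmt_Sgn : Prop :=
  ∀ (k : Type) [Field k], PF k → ∀ ρ : ℕ → MRel, Primrec ρ → ∃ ρ' : ℕ → SRel, Primrec ρ' ∧
    ∀ (Y : Type) [LieRing Y] [LieAlgebra k Y] (M : Type) [AddCommGroup M] [Module k M]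
      [LieRingModule Y M] [LieModule k Y M] (ev : ℕ → Y) (m : ℕ → M) (op : ℕ → (M →+ M)),
      (∀ i x, op i x = ⁅ev i, x⁆) → ∀ n, mvn k ev m (ρ n) = 0 ↔ sval op m (ρ' n) = 0

/-- the counter algebra -/
def Stmt_Ctr : Prop :=
  ∀ (k : Type) [Field k], PF k → ∀ (K : ℕ), ∃ (C : Type) (_ : LieRing C) (_ : LieAlgebra k C)
    (x g : Fin K → C), RP k C ∧ LieAlgebra.derivedSeries k C 2 = ⊥ ∧
    (∀ i j, ⁅x i, x j⁆ = 0) ∧ (∀ i j, i ≠ j → ⁅x i, g j⁆ = 0) ∧ (∀ i j, ⁅g i, g j⁆ = 0) ∧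
    ∀ (G : Type) [LieRing G] [LieAlgebra k G] (x' g' : Fin K → G), (∀ i j, ⁅x' i, x' j⁆ = 0) →
      (∀ i j, i ≠ j → ⁅x' i, g' j⁆ = 0) → (∀ i j, ⁅g' i, g' j⁆ = 0) →
      (∀ (i : Fin K) (m n : ℕ), ⁅(fun u => ⁅x' i, u⁆)^[m] (g' i), (fun u => ⁅x' i, u⁆)^[n] (g' i)⁆ = 0) →
      ∃ F : C →ₗ⁅k⁆ G, (∀ i, F (x i) = x' i) ∧ ∀ i, F (g i) = g' i

/-- the function model of a counter module -/
def Stmt_MHModel : Prop :=
  ∀ (k : Type) [Field k] (K : ℕ) (Q : Type) [LieRing Q] [LieAlgebra k Q] (D : Type)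
    [AddCommGroup D] [Module k D] [LieRingModule Q D] [LieModule k Q D]
    (C : Type) [LieRing C] [LieAlgebra k C] (x g : Fin K → C),
    (∀ (G : Type) [LieRing G] [LieAlgebra k G] (x' g' : Fin K → G), (∀ i j, ⁅x' i, x' j⁆ = 0) →
      (∀ i j, i ≠ j → ⁅x' i, g' j⁆ = 0) → (∀ i j, ⁅g' i, g' j⁆ = 0) →
      (∀ (i : Fin K) (m n : ℕ), ⁅(fun u => ⁅x' i, u⁆)^[m] (g' i), (fun u => ⁅x' i, u⁆)^[n] (g' i)⁆ = 0) →
      ∃ F : C →ₗ⁅k⁆ G, (∀ i, F (x i) = x' i) ∧ ∀ i, F (g i) = g' i) →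
    ∃ (M : Type) (_ : AddCommGroup M) (_ : Module k M) (_ : LieRingModule (Q × C) M)
      (_ : LieModule k (Q × C) M) (br : (St → D) →ₗ[k] M) (τ : M →ₗ[k] D),
      (∀ (j : Fin K) (F F' : St → D), (∀ v, F (update v j (v j + 1)) = F' v) →
        ⁅((0, x j) : Q × C), br F⁆ = br F') ∧
      (∀ (l : List (Fin K)), l.Nodup → ∀ F : St → D, (∀ v, (∀ i ∈ l, v (i : ℕ) = 0) → F v = 0) →
        wact (l.map fun j => ((0, g j) : Q × C)) (br F) = 0) ∧
      (∀ (q : Q) (F : St → D), ⁅((q, 0) : Q × C), br F⁆ = br fun v => ⁅q, F v⁆) ∧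
      ∀ F : St → D, τ (wact ((List.finRange K).map fun j => ((0, g j) : Q × C)) (br F)) = F 0

/-- module Higman -/
def Stmt_MH : Prop :=
  ∀ (k : Type) [Field k], PF k → ∀ (n : ℕ) (Q : Type) [LieRing Q] [LieAlgebra k Q] (ev : ℕ → Q),
    RPg k Q ev → LieAlgebra.derivedSeries k Q (n + 2) = ⊥ →
    ∀ (D : Type) [AddCommGroup D] [Module k D] [LieRingModule Q D] [LieModule k Q D] (r : ℕ)
      (f : Fin r → D) (ρ : ℕ → MRel), PMod k Q ev D f ρ →
    ∃ (Q₁ : Type) (_ : LieRing Q₁) (_ : LieAlgebra k Q₁) (D₁ : Type) (_ : AddCommGroup D₁)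
      (_ : Module k D₁) (_ : LieRingModule Q₁ D₁) (_ : LieModule k Q₁ D₁)
      (φ : Sd D Q →ₗ⁅k⁆ Sd D₁ Q₁), RP k Q₁ ∧ LieAlgebra.derivedSeries k Q₁ (n + 2) = ⊥ ∧
      FPMod k Q₁ D₁ ∧ Injective φ

/-! ### VIII. Layers and stages -/

section
variable {k : Type} [Field k] {j : ℕ} {I : Type} {r : ℕ} {S : Stage k j (I ⊕ Fin r)}
  {A : Type} [AddCommGroup A] [Module k A] [LieRingModule S.Q A] [LieModule k S.Q A]
  {al0 : Fin r → A} (L : Lay S A al0)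

/-- the element `t e` -/
def Lay.te {M : Type} [AddCommGroup M] [Module k M] [LieRingModule L.P M] (e : M) : M :=
  ⁅L.tt L.t, e⁆

/-- the new free elements -/
def Lay.et {M : Type} [AddCommGroup M] [Module k M] [LieRingModule L.P M] (e : M) (b : I) : M :=
  ⁅L.zz (L.xx (Sum.inl b)), L.te e⁆

/-- the elements of `Z` lying over the free part -/
def Lay.ZP (x : L.Z) : Prop := toRes S.ι S.E (L.pi x) ∈ GenBy S.ι S.E S.eta

end

/-- existence of layers -/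
def Stmt_LayEx : Prop :=
  ∀ (k : Type) [Field k] (j r : ℕ) (I : Type) (S : Stage k j (I ⊕ Fin r))
    (A : Type) [AddCommGroup A] [Module k A] [LieRingModule S.Q A] [LieModule k S.Q A]
    (al0 : Fin r → A) (relA : Set (MR k S.Q (Fin r))), Pres k S.Q A al0 relA →
    Nonempty (Lay S A al0)

/-- layers are recursively presented -/
def Stmt_LayRP : Prop :=
  ∀ (k : Type) [Field k], PF k → ∀ (j r : ℕ) (I : Type) (S : Stage k j (I ⊕ Fin r))
    (A : Type) [AddCommGroup A] [Module k A] [LieRingModule S.Q A] [LieModule k S.Q A]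
    (al0 : Fin r → A) (ev : ℕ → S.Q) (ρ : ℕ → MRel), (∃ K, ∀ i, K ≤ i → ev i = 0) →
    PMod k S.Q ev A al0 ρ → ∀ L : Lay S A al0,
    RP k L.P ∧ LieAlgebra.derivedSeries k L.P (j + 1) = ⊥ ∧ ∃ ev' : ℕ → L.QP, Gens k L.QP ev'

/-- the relations are finitely many -/
def Stmt_FinRel : Prop :=
  ∀ (k : Type) [Field k] (j r : ℕ) (I : Type) (S : Stage k j (I ⊕ Fin r))
    (A : Type) [AddCommGroup A] [Module k A] [LieRingModule S.Q A] [LieModule k S.Q A]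
    (al0 : Fin r → A) (L : Lay S A al0),
    ∃ Rel : Set (MR k L.P (Fin 1)), Rel.Finite ∧
      ∀ (M : Type) [AddCommGroup M] [Module k M] [LieRingModule L.P M] [LieModule k L.P M] (e : M),
        (∀ R ∈ Rel, mval (fun _ : Fin 1 => e) R = 0) ↔ L.Good M e

/-- the first model: a module over `(E' + A) x| Q` -/
def Stmt_MO1 : Prop :=
  ∀ (k : Type) [Field k] (Q : Type) [LieRing Q] [LieAlgebra k Q] (I : Type) (r : ℕ)
    (E : Type) [AddCommGroup E] [Module k E] [LieRingModule Q E] [LieModule k Q E]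
    (eta : I ⊕ Fin r → E),
    (∀ (N : Type) [AddCommGroup N] [Module k N] [LieRingModule Q N] [LieModule k Q N]
      (n : I ⊕ Fin r → N), ∃ F : E →ₗ⁅k, Q⁆ N, ∀ b, F (eta b) = n b) →
    ∀ (A : Type) [AddCommGroup A] [Module k A] [LieRingModule Q A] [LieModule k Q A]
    (al0 : Fin r → A)
    (D : Type) [AddCommGroup D] [Module k D] [LieRingModule (Sd A Q) D] [LieModule k (Sd A Q) D]
    (d : I → D),
    ∃ (N : Type) (_ : AddCommGroup N) (_ : Module k N) (_ : LieRingModule (Sd (PM E A) Q) N)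
      (_ : LieModule k (Sd (PM E A) Q) N) (o : N) (h : D →ₗ[k] N), Injective h ∧
      (∀ (x : Sd A Q) (m : D), h ⁅x, m⁆ = ⁅(⟨PM.mk 0 x.d, x.q⟩ : Sd (PM E A) Q), h m⁆) ∧
      (∀ q : Q, ⁅(⟨0, q⟩ : Sd (PM E A) Q), o⁆ = 0) ∧
      (∀ i, ⁅(⟨PM.mk (eta (Sum.inr i)) 0, 0⟩ : Sd (PM E A) Q), o⁆ =
        ⁅(⟨PM.mk 0 (al0 i), 0⟩ : Sd (PM E A) Q), o⁆) ∧
      ∀ b, ⁅(⟨PM.mk (eta (Sum.inl b)) 0, 0⟩ : Sd (PM E A) Q), o⁆ = h (d b)

/-- the second model: a module over `P1` -/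
def Stmt_MO2 : Prop :=
  ∀ (k : Type) [Field k] (j r : ℕ) (I : Type) (S : Stage k j (I ⊕ Fin r))
    (A : Type) [AddCommGroup A] [Module k A] [LieRingModule S.Q A] [LieModule k S.Q A]
    (al0 : Fin r → A) (L : Lay S A al0)
    (D : Type) [AddCommGroup D] [Module k D] [LieRingModule (Sd A S.Q) D]
    [LieModule k (Sd A S.Q) D] (d : I → D),
    ∃ (N : Type) (_ : AddCommGroup N) (_ : Module k N) (_ : LieRingModule L.P1 N)
      (_ : LieModule k L.P1 N) (o : N) (h : D →ₗ[k] N), Injective h ∧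
      (∀ (x : Sd A S.Q) (m : D),
        h ⁅x, m⁆ = ⁅(⟨PM.mk (PM.mk 0 0) (L.jA x.d), S.ι x.q⟩ : L.P1), h m⁆) ∧
      (∀ q : S.Q, ⁅(⟨0, S.ι q⟩ : L.P1), o⁆ = 0) ∧
      (∀ x : L.Z, L.pi x = 0 → ⁅(⟨PM.mk (PM.mk x 0) 0, 0⟩ : L.P1), o⁆ = 0) ∧
      (∀ (c : L.C) (l : List (L.Z × L.Z)),
        L.gam c = (l.map fun p => L.pi p.1 ⊗ₜ[k] L.pi p.2).sum →
        ⁅(⟨PM.mk (PM.mk 0 c) 0, 0⟩ : L.P1), o⁆ =
          (l.map fun p => ⁅(⟨PM.mk (PM.mk p.1 0) 0, 0⟩ : L.P1),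
            ⁅(⟨PM.mk (PM.mk p.2 0) 0, 0⟩ : L.P1), o⁆⁆).sum) ∧
      (∀ i, ⁅(⟨PM.mk (PM.mk (L.xx (Sum.inr i)) 0) 0, 0⟩ : L.P1), o⁆ =
        ⁅(⟨PM.mk (PM.mk 0 0) (L.al i), 0⟩ : L.P1), o⁆) ∧
      ∀ b, ⁅(⟨PM.mk (PM.mk (L.xx (Sum.inl b)) 0) 0, 0⟩ : L.P1), o⁆ = h (d b)

/-- the model -/
def Stmt_Model : Prop :=
  ∀ (k : Type) [Field k] (j r : ℕ) (I : Type) (S : Stage k j (I ⊕ Fin r))
    (A : Type) [AddCommGroup A] [Module k A] [LieRingModule S.Q A] [LieModule k S.Q A]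
    (al0 : Fin r → A) (L : Lay S A al0)
    (D : Type) [AddCommGroup D] [Module k D] [LieRingModule L.QP D] [LieModule k L.QP D]
    (d : I → D),
    ∃ (M : Type) (_ : AddCommGroup M) (_ : Module k M) (_ : LieRingModule L.P M)
      (_ : LieModule k L.P M) (e : M) (h : D →ₗ[k] M), L.Good M e ∧ Injective h ∧
      (∀ (x : L.QP) (m : D), h ⁅x, m⁆ = ⁅L.io x, h m⁆) ∧ ∀ b, h (d b) = L.et e b

/-- the submodule generated by the new free elements is spanned by words in `Z'` -/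
def Stmt_Span : Prop :=
  ∀ (k : Type) [Field k] (j r : ℕ) (I : Type) (S : Stage k j (I ⊕ Fin r))
    (A : Type) [AddCommGroup A] [Module k A] [LieRingModule S.Q A] [LieModule k S.Q A]
    (al0 : Fin r → A) (L : Lay S A al0)
    (M : Type) [AddCommGroup M] [Module k M] [LieRingModule L.P M] [LieModule k L.P M] (e : M),
    L.Good M e → ∀ x ∈ GenBy L.io M (fun b => L.et e b), (toRes L.io M).symm x ∈
      Submodule.span k {m : M | ∃ l : List L.Z, (∀ a ∈ l, L.ZP a) ∧ m = wact (l.map L.zz) (L.te e)}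

/-- the doubling elements -/
def Stmt_Dbl : Prop :=
  ∀ (k : Type) [Field k] (j r : ℕ) (I : Type) (S : Stage k j (I ⊕ Fin r))
    (A : Type) [AddCommGroup A] [Module k A] [LieRingModule S.Q A] [LieModule k S.Q A]
    (al0 : Fin r → A) (L : Lay S A al0)
    (M : Type) [AddCommGroup M] [Module k M] [LieRingModule L.P M] [LieModule k L.P M] (e : M),
    L.Good M e → ∀ a a' : L.Z, L.ZP a → L.ZP a' → ∃ c : L.C, ∀ l : List L.Z,
      ⁅L.cc c, wact (l.map L.zz) e⁆ = (2 : k) • wact (((a :: a' :: l)).map L.zz) e ∧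
      ⁅L.cc c, wact (l.map L.zz) (L.te e)⁆ = (2 : k) • wact (((a :: a' :: l)).map L.zz) (L.te e)

/-- symmetric tensors -/
def Stmt_SQ : Prop :=
  ∀ (k : Type) [Field k], (2 : k) ≠ 0 → ∀ (j r : ℕ) (I : Type) (S : Stage k j (I ⊕ Fin r))
    (A : Type) [AddCommGroup A] [Module k A] [LieRingModule S.Q A] [LieModule k S.Q A]
    (al0 : Fin r → A) (L : Lay S A al0)
    (M : Type) [AddCommGroup M] [Module k M] [LieRingModule L.P M] [LieModule k L.P M] (e : M),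
    L.Good M e → ∀ x ∈ GenBy L.io M (fun b => L.et e b), ∀ y ∈ GenBy L.io M (fun b => L.et e b),
      ((toRes L.io M).symm x ⊗ₜ[k] (toRes L.io M).symm y +
        (toRes L.io M).symm y ⊗ₜ[k] (toRes L.io M).symm x) ∈
        LieSubmodule.lieSpan k L.P {L.te e ⊗ₜ[k] L.te e}

/-- commutation -/
def Stmt_Comm : Prop :=
  ∀ (k : Type) [Field k], (2 : k) ≠ 0 → ∀ (j r : ℕ) (I : Type) (S : Stage k j (I ⊕ Fin r))
    (A : Type) [AddCommGroup A] [Module k A] [LieRingModule S.Q A] [LieModule k S.Q A]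
    (al0 : Fin r → A) (L : Lay S A al0)
    (G : Type) [LieRing G] [LieAlgebra k G] (θ : L.P →ₗ⁅k⁆ G) (e : G),
    L.Good (Res θ G) (toRes θ G e) → (∀ i, ⁅⁅θ (L.zz (L.z i)), e⁆, e⁆ = 0) →
    ∀ x ∈ GenBy L.io (Res θ G) (fun b => L.et (toRes θ G e) b),
    ∀ y ∈ GenBy L.io (Res θ G) (fun b => L.et (toRes θ G e) b),
      ⁅(toRes θ G).symm ((toRes L.io (Res θ G)).symm x),
        (toRes θ G).symm ((toRes L.io (Res θ G)).symm y)⁆ = 0

def Stmt_Stage0 : Prop := ∀ (k : Type) [Field k], StageEx k 0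

def Stmt_Step : Prop :=
  ∀ (k : Type) [Field k], PF k → ∀ j : ℕ, StageEx k j → StageEx k (j + 1)

/-! ### IX. The induction -/

/-- every recursively presented Lie algebra solvable of index `n` embeds in a finitely presented
one meeting its `n`-th derived algebra trivially -/
def WL (k : Type) [Field k] (n : ℕ) : Prop :=
  ∀ (L : Type) [LieRing L] [LieAlgebra k L], RP k L → LieAlgebra.derivedSeries k L n = ⊥ →
    ∃ (P : Type) (_ : LieRing P) (_ : LieAlgebra k P) (f : L →ₗ⁅k⁆ P), FP k P ∧ Injective f ∧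
      ∀ x, f x ∈ LieAlgebra.derivedSeries k P n → x = 0

def Stmt_WL1 : Prop := ∀ (k : Type) [Field k], WL k 1

def Stmt_Top : Prop :=
  ∀ (k : Type) [Field k], PF k → ∀ n : ℕ, StageEx k n → WL k (n + 1) →
    ∀ (Q : Type) [LieRing Q] [LieAlgebra k Q], RP k Q →
    LieAlgebra.derivedSeries k Q (n + 1) = ⊥ →
    ∀ (D : Type) [AddCommGroup D] [Module k D] [LieRingModule Q D] [LieModule k Q D],
    FPMod k Q D →
    ∃ (G : Type) (_ : LieRing G) (_ : LieAlgebra k G) (f : Sd D Q →ₗ⁅k⁆ G), FP k G ∧ Injective f ∧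
      ∀ x, f x ∈ LieAlgebra.derivedSeries k G (n + 2) → x = 0

def Stmt_Final : Prop :=
  ∀ (k : Type) [Field k] (n : ℕ), WL k n → Pool.Agent.HIL.HigmanLie k n

def Stmt_PFQ : Prop := PF ℚ
def Stmt_PFP : Prop := ∀ (p : ℕ) [Fact p.Prime], p ≠ 2 → PF (ZMod p)

/-! ### X. What the modules prove, and the assembly -/

theorem WL_succ (hKK : Stmt_KK) (hMH : Stmt_MH) (hN : Stmt_Noeth) (hTop : Stmt_Top)
    (k : Type) [Field k] (hk : PF k) (n : ℕ) (hS : StageEx k n) (hW : WL k (n + 1)) :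
    WL k (n + 2) := by
  intro L _ _ hL hs
  obtain ⟨Q, _, _, ev, D, _, _, _, _, r, f, ρ, φ, hQ, hQs, hD, hφ⟩ := hKK k (n + 1) L hL hs
  obtain ⟨Q₁, _, _, D₁, _, _, _, _, φ₁, hQ₁, hQ₁s, hD₁, hφ₁⟩ :
      ∃ (Q₁ : Type) (_ : LieRing Q₁) (_ : LieAlgebra k Q₁) (D₁ : Type) (_ : AddCommGroup D₁)
        (_ : Module k D₁) (_ : LieRingModule Q₁ D₁) (_ : LieModule k Q₁ D₁)
        (φ : Sd D Q →ₗ⁅k⁆ Sd D₁ Q₁), RP k Q₁ ∧ LieAlgebra.derivedSeries k Q₁ (n + 1) = ⊥ ∧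
        FPMod k Q₁ D₁ ∧ Injective φ := by
    cases n with
    | zero =>
      exact ⟨Q, inferInstance, inferInstance, D, inferInstance, inferInstance, inferInstance,
        inferInstance, LieHom.id, ⟨ev, hQ⟩, hQs, hN k Q ev hQ.gens hQs D r f _ hD.2,
        injective_id⟩
    | succ n => exact hMH k hk n Q ev hQ hQs D r f ρ hD
  obtain ⟨P, _, _, g, hP, hg, hg'⟩ := hTop k hk n hS hW Q₁ hQ₁ hQ₁s D₁ hD₁
  refine ⟨P, inferInstance, inferInstance, g.comp (φ₁.comp φ), hP, ?_, ?_⟩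
  · intro a b hab
    exact hφ (hφ₁ (hg hab))
  · intro x hx
    have h1 : φ₁ (φ x) = 0 := hg' _ hx
    apply hφ
    apply hφ₁
    rw [h1, map_zero, map_zero]

theorem WL_all (hKK : Stmt_KK) (hMH : Stmt_MH) (hN : Stmt_Noeth) (hTop : Stmt_Top)
    (h0 : Stmt_Stage0) (hstep : Stmt_Step) (h1 : Stmt_WL1) (k : Type) [Field k] (hk : PF k) :
    ∀ n : ℕ, WL k (n + 1) := by
  have hS : ∀ j, StageEx k j := by
    intro j
    induction j with
    | zero => exact h0 k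
    | succ j ih => exact hstep k hk j ih
  intro n
  induction n with
  | zero => exact h1 k
  | succ n ih => exact WL_succ hKK hMH hN hTop k hk n (hS n) ih

theorem main (hKK : Stmt_KK) (hMH : Stmt_MH) (hN : Stmt_Noeth) (hTop : Stmt_Top)
    (h0 : Stmt_Stage0) (hstep : Stmt_Step) (h1 : Stmt_WL1) (hF : Stmt_Final)
    (k : Type) [Field k] (hk : PF k) (n : ℕ) (hn : 1 ≤ n) : Pool.Agent.HIL.HigmanLie k n := by
  obtain ⟨m, rfl⟩ : ∃ m, n = m + 1 := ⟨n - 1, by omega⟩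
  exact hF k _ (WL_all hKK hMH hN hTop h0 hstep h1 k hk m)

def Stmt_BrkAsm : Prop := Stmt_Int → Stmt_Brk
def Stmt_AscAsm : Prop := Stmt_Int → Stmt_Asc
def Stmt_SubMAsm : Prop := Stmt_Int → Stmt_Asc → Stmt_SubM
def Stmt_ExprAsm : Prop := Stmt_Brk → Stmt_Expr
def Stmt_FoxAsm : Prop := Stmt_Int → Stmt_Asc → Stmt_Fox
def Stmt_PMChAsm : Prop := Stmt_Expr → Stmt_SubM → Stmt_PMCh
def Stmt_IndAsm : Prop := Stmt_Ext → Stmt_Ind
def Stmt_RPQuotAsm : Prop := Stmt_Brk → Stmt_RPQuot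
def Stmt_RPSdAsm : Prop := Stmt_Brk → Stmt_RPSd
def Stmt_KKIAsm : Prop := Stmt_Ext → Stmt_KKI
def Stmt_KKAsm : Prop := Stmt_RPQuot → Stmt_Fox → Stmt_KKI → Stmt_ExMod → Stmt_KK
def Stmt_SysAsm : Prop := Stmt_Compile → Stmt_Sys
def Stmt_SgnAsm : Prop := Stmt_Int → Stmt_Sgn
def Stmt_CtrAsm : Prop := Stmt_RPAb → Stmt_PMCh → Stmt_RPSd → Stmt_ExMod → Stmt_Ctr
def Stmt_MHAsm : Prop :=
  Stmt_Sys → Stmt_Sgn → Stmt_Ctr → Stmt_RPProd → Stmt_MHModel → Stmt_ExMod → Stmt_MH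
def Stmt_LayExAsm : Prop := Stmt_ExMod → Stmt_Ind → Stmt_LayEx
def Stmt_LayRPAsm : Prop := Stmt_PMCh → Stmt_PProd → Stmt_RPSd → Stmt_LayRP
def Stmt_MO1Asm : Prop := Stmt_ExMod → Stmt_MO1
def Stmt_MO2Asm : Prop := Stmt_MO1 → Stmt_Ext → Stmt_MO2
def Stmt_ModelAsm : Prop := Stmt_MO2 → Stmt_ExMod → Stmt_Model
def Stmt_SQAsm : Prop := Stmt_Span → Stmt_Dbl → Stmt_SQ
def Stmt_CommAsm : Prop := Stmt_Span → Stmt_Dbl → Stmt_Comm
def Stmt_StepAsm : Prop :=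
  Stmt_KK → Stmt_ExMod → Stmt_Ind → Stmt_LayEx → Stmt_LayRP → Stmt_FinRel → Stmt_Model →
    Stmt_SQ → Stmt_Step
def Stmt_TopAsm : Prop :=
  Stmt_KK → Stmt_ExMod → Stmt_Ind → Stmt_Ext → Stmt_LayEx → Stmt_LayRP → Stmt_FinRel →
    Stmt_Model → Stmt_Comm → Stmt_Coprod → Stmt_FPQuot → Stmt_Top
def Stmt_WL1Asm : Prop := Stmt_FPAb → Stmt_WL1
def Stmt_FinalAsm : Prop := Stmt_RPQuot → Stmt_Final
def Stmt_PFQAsm : Prop := Stmt_Int → Stmt_PFQ
def Stmt_PFPAsm : Prop := Stmt_Int → Stmt_PFP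

/-- everything together -/
theorem main' (int : Stmt_Int) (brk : Stmt_BrkAsm) (asc : Stmt_AscAsm)
    (subM : Stmt_SubMAsm) (expr : Stmt_ExprAsm) (fox : Stmt_FoxAsm)
    (pmCh : Stmt_PMChAsm) (exMod : Stmt_ExMod) (ext : Stmt_Ext) (ind : Stmt_IndAsm)
    (rpQuot : Stmt_RPQuotAsm) (rpProd : Stmt_RPProd) (rpAb : Stmt_RPAb) (rpSd : Stmt_RPSdAsm)
    (pProd : Stmt_PProd) (coprod : Stmt_Coprod) (fpQuot : Stmt_FPQuot) (fpAb : Stmt_FPAb)
    (kki : Stmt_KKIAsm) (kk : Stmt_KKAsm) (noeth : Stmt_Noeth) (compile : Stmt_Compile)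
    (sys : Stmt_SysAsm) (sgn : Stmt_SgnAsm) (ctr : Stmt_CtrAsm) (mhModel : Stmt_MHModel)
    (mh : Stmt_MHAsm) (layEx : Stmt_LayExAsm) (layRP : Stmt_LayRPAsm) (finRel : Stmt_FinRel)
    (mo1 : Stmt_MO1Asm) (mo2 : Stmt_MO2Asm) (model : Stmt_ModelAsm) (span : Stmt_Span)
    (dbl : Stmt_Dbl) (sq : Stmt_SQAsm) (comm : Stmt_CommAsm) (stage0 : Stmt_Stage0)
    (step : Stmt_StepAsm) (top : Stmt_TopAsm) (wl1 : Stmt_WL1Asm) (final : Stmt_FinalAsm)
    (k : Type) [Field k] (hk : PF k) (n : ℕ) (hn : 1 ≤ n) : Pool.Agent.HIL.HigmanLie k n := by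
  have hBrk := brk int
  have hAsc := asc int
  have hSubM := subM int hAsc
  have hExpr := expr hBrk
  have hPMCh := pmCh hExpr hSubM
  have hInd := ind ext
  have hRPQuot := rpQuot hBrk
  have hRPSd := rpSd hBrk
  have hKK := kk hRPQuot (fox int hAsc) (kki ext) exMod
  have hCtr := ctr rpAb hPMCh hRPSd exMod
  have hMH := mh (sys compile) (sgn int) hCtr rpProd mhModel exMod
  have hLayEx := layEx exMod hInd
  have hLayRP := layRP hPMCh pProd hRPSd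
  have hModel := model (mo2 (mo1 exMod) ext) exMod
  exact main hKK hMH noeth
    (top hKK exMod hInd ext hLayEx hLayRP finRel hModel (comm span dbl) coprod fpQuot)
    stage0 (step hKK exMod hInd hLayEx hLayRP finRel hModel (sq span dbl)) (wl1 fpAb)
    (final hRPQuot) k hk n hn

end Pool.Agent.HIP
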