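import Mathlib
import Pool.Agent.HIP.Stmts

/-!
# Basic API (proved)
-/

noncomputable section

set_option linter.unusedSectionVars false

namespace Pool.Agent.HIP

open Function
open scoped TensorProduct

/-! ### values of words and expressions -/

section wact
variable {k : Type} [Field k] {L : Type} [LieRing L] [LieAlgebra k L] {M N : Type}
  [AddCommGroup M] [Module k M] [LieRingModule L M] [LieModule k L M]
  [AddCommGroup N] [Module k N] [LieRingModule L N] [LieModule k L N]

@[simp] theorem wact_nil (m : M) : wact ([] : List L) m = m := rfl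
@[simp] theorem wact_cons (x : L) (w : List L) (m : M) : wact (x :: w) m = ⁅x, wact w m⁆ := rfl
theorem wact_append (w w' : List L) (m : M) : wact (w ++ w') m = wact w (wact w' m) := by
  simp [wact, List.foldr_append]
@[simp] theorem wact_zero (w : List L) : wact w (0 : M) = 0 := by
  induction w with
  | nil => rfl
  | cons x w ih => rw [wact_cons, ih, lie_zero]
theorem wact_add (w : List L) (m n : M) : wact w (m + n) = wact w m + wact w n := by
  induction w with
  | nil => rfl
  | cons x w ih => rw [wact_cons, ih, lie_add]; rfl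
theorem wact_smul (w : List L) (c : k) (m : M) : wact w (c • m) = c • wact w m := by
  induction w with
  | nil => rfl
  | cons x w ih => rw [wact_cons, ih, lie_smul]; rfl
/-- a word as a linear map -/
def wactL (k : Type) [Field k] {L : Type} [LieRing L] [LieAlgebra k L] (M : Type)
    [AddCommGroup M] [Module k M] [LieRingModule L M] [LieModule k L M] (w : List L) :
    M →ₗ[k] M where
  toFun m := wact w m
  map_add' := wact_add w
  map_smul' := fun c m => wact_smul w c m
@[simp] theorem wactL_apply (w : List L) (m : M) : wactL k M w m = wact w m := rfl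

theorem map_wact (F : M →ₗ⁅k, L⁆ N) (w : List L) (m : M) : F (wact w m) = wact w (F m) := by
  induction w with
  | nil => rfl
  | cons x w ih => rw [wact_cons, LieModuleHom.map_lie, ih]; rfl

/-- a semilinear version of `map_wact` -/
theorem map_wact' {L' : Type} [LieRing L'] {N' : Type} [AddCommGroup N']
    [Module k N'] [LieRingModule L' N'] (θ : L → L') (F : M →ₗ[k] N')
    (hF : ∀ (x : L) (m : M), F ⁅x, m⁆ = ⁅θ x, F m⁆) (w : List L) (m : M) :
    F (wact w m) = wact (w.map θ) (F m) := by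
  induction w with
  | nil => rfl
  | cons x w ih => rw [wact_cons, hF, ih]; rfl

end wact

section lval
variable {k : Type} [Field k] {L L' : Type} [LieRing L] [LieAlgebra k L] [LieRing L']
  [LieAlgebra k L']

@[simp] theorem lnorm_nil : lnorm ([] : List L) = 0 := rfl
@[simp] theorem lnorm_singleton (x : L) : lnorm [x] = x := rfl
theorem lnorm_append_singleton (w : List L) (hw : w ≠ []) (x : L) :
    lnorm (w ++ [x]) = ⁅lnorm w, x⁆ := by
  cases w with
  | nil => exact absurd rfl hw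
  | cons a w => simp [lnorm, List.foldl_append]

theorem map_lnorm (F : L →ₗ⁅k⁆ L') (w : List L) : F (lnorm w) = lnorm (w.map F) := by
  induction w using List.reverseRecOn with
  | nil => simp
  | append_singleton w x ih =>
    by_cases hw : w = []
    · subst hw; simp
    · rw [lnorm_append_singleton w hw, LieHom.map_lie, ih, List.map_append, List.map_singleton,
        lnorm_append_singleton _ (by simpa using hw)]

@[simp] theorem lval_nil (ev : ℕ → L) : lval k ev [] = 0 := rfl
theorem lval_cons (ev : ℕ → L) (t : Cf × List ℕ) (R : LRel) :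
    lval k ev (t :: R) = cf k t.1 • lnorm (t.2.map ev) + lval k ev R := by
  simp [lval]
theorem lval_append (ev : ℕ → L) (R S : LRel) :
    lval k ev (R ++ S) = lval k ev R + lval k ev S := by
  simp [lval]
theorem map_lval (F : L →ₗ⁅k⁆ L') (ev : ℕ → L) (R : LRel) :
    F (lval k ev R) = lval k (fun i => F (ev i)) R := by
  induction R with
  | nil => simp
  | cons t R ih =>
    rw [lval_cons, lval_cons, map_add, map_smul, ih, map_lnorm, List.map_map]
    rfl

end lval

section mval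
variable {k : Type} [Field k] {Y : Type} [LieRing Y] [LieAlgebra k Y] {ι M N : Type}
  [AddCommGroup M] [Module k M] [LieRingModule Y M] [LieModule k Y M]
  [AddCommGroup N] [Module k N] [LieRingModule Y N] [LieModule k Y N]

@[simp] theorem mval_nil (n : ι → M) : mval n ([] : MR k Y ι) = 0 := rfl
theorem mval_cons (n : ι → M) (t : k × List Y × ι) (R : MR k Y ι) :
    mval n (t :: R) = t.1 • wact t.2.1 (n t.2.2) + mval n R := by
  simp [mval]
theorem mval_append (n : ι → M) (R S : MR k Y ι) :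
    mval n (R ++ S) = mval n R + mval n S := by
  simp [mval]
theorem map_mval (F : M →ₗ⁅k, Y⁆ N) (n : ι → M) (R : MR k Y ι) :
    F (mval n R) = mval (fun i => F (n i)) R := by
  induction R with
  | nil => simp
  | cons t R ih => rw [mval_cons, mval_cons, map_add, map_smul, ih, map_wact]

/-- semilinear version -/
theorem map_mval' {Y' : Type} [LieRing Y'] {N' : Type} [AddCommGroup N']
    [Module k N'] [LieRingModule Y' N'] (θ : Y → Y') (F : M →ₗ[k] N')
    (hF : ∀ (x : Y) (m : M), F ⁅x, m⁆ = ⁅θ x, F m⁆) (n : ι → M) (R : MR k Y ι) :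
    F (mval n R) = mval (fun i => F (n i)) (MR.map θ R) := by
  induction R with
  | nil => rw [mval_nil, map_zero]; rfl
  | cons t R ih =>
    rw [mval_cons, map_add, map_smul, ih, map_wact' θ F hF]
    simp [mval, MR.map]

/-- evaluation in a restricted module -/
theorem mval_res {Q : Type} [LieRing Q] [LieAlgebra k Q] (θ : Q →ₗ⁅k⁆ Y) (n : ι → M)
    (R : MR k Q ι) :
    mval (fun i => toRes θ M (n i)) R = toRes θ M (mval n (MR.map θ R)) := by
  induction R with
  | nil => rfl
  | cons t R ih =>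
    rw [mval_cons, ih]
    have h : ∀ (w : List Q) (m : M), wact w (toRes θ M m) = toRes θ M (wact (w.map θ) m) := by
      intro w m
      induction w with
      | nil => rfl
      | cons x w ihw => rw [wact_cons, ihw, Res.lie_toRes]; rfl
    rw [h]
    have h2 : mval n (MR.map θ (t :: R)) =
        t.1 • wact (t.2.1.map θ) (n t.2.2) + mval n (MR.map θ R) := by
      simp [mval, MR.map]
    rw [h2, map_add, map_smul]

@[simp] theorem mvn_nil (ev : ℕ → Y) (n : ℕ → M) : mvn k ev n [] = 0 := rfl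
theorem mvn_cons (ev : ℕ → Y) (n : ℕ → M) (t : Cf × ℕ × List ℕ) (R : MRel) :
    mvn k ev n (t :: R) = cf k t.1 • wact (t.2.2.map ev) (n t.2.1) + mvn k ev n R := by
  simp [mvn]
theorem mvn_append (ev : ℕ → Y) (n : ℕ → M) (R S : MRel) :
    mvn k ev n (R ++ S) = mvn k ev n R + mvn k ev n S := by
  simp [mvn]
/-- the formal element of a module expression -/
theorem mval_conv {r : ℕ} (ev : ℕ → Y) (n : Fin r → M) (R : MRel) :
    mval n (conv k r ev R) = mvn k ev (fun i => if h : i < r then n ⟨i, h⟩ else 0) R := by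
  induction R with
  | nil => rfl
  | cons t R ih =>
    rw [mvn_cons, ← ih]
    unfold conv
    rw [List.filterMap_cons]
    by_cases h : t.2.1 < r
    · simp only [h, dif_pos]
      rw [mval_cons]
    · simp only [h, dif_neg, not_false_eq_true, wact_zero, smul_zero, zero_add]

theorem conv_comp {Q : Type} [LieRing Q] [LieAlgebra k Q] (θ : Q → Y) (r : ℕ) (ev : ℕ → Q)
    (R : MRel) : conv k r (fun i => θ (ev i)) R = MR.map θ (conv k r ev R) := by
  induction R with
  | nil => rfl
  | cons t R ih =>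
    unfold conv at *
    rw [List.filterMap_cons, List.filterMap_cons, ih]
    by_cases h : t.2.1 < r
    · simp [h, MR.map]
    · simp [h, MR.map]

end mval

/-! ### presented modules -/

section Pres
variable {k : Type} [Field k] {Y : Type} [LieRing Y] [LieAlgebra k Y] {ι : Type} {E : Type}
  [AddCommGroup E] [Module k E] [LieRingModule Y E] [LieModule k Y E] {e : ι → E}
  {Rel : Set (MR k Y ι)}

theorem Pres.rel (h : Pres k Y E e Rel) {R : MR k Y ι} (hR : R ∈ Rel) : mval e R = 0 := h.1 R hR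

theorem Pres.induction (h : Pres k Y E e Rel) {p : E → Prop} (h0 : p 0)
    (hadd : ∀ x y, p x → p y → p (x + y)) (hsmul : ∀ (c : k) x, p x → p (c • x))
    (hlie : ∀ (y : Y) x, p x → p ⁅y, x⁆) (hgen : ∀ i, p (e i)) (x : E) : p x := by
  let S : LieSubmodule k Y E :=
    { carrier := {x | p x}
      add_mem' := fun {a b} ha hb => hadd a b ha hb
      zero_mem' := h0
      smul_mem' := fun c x hx => hsmul c x hx
      lie_mem := fun {y x} hx => hlie y x hx }
  have h1 : LieSubmodule.lieSpan k Y (Set.range e) ≤ S := by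
    rw [LieSubmodule.lieSpan_le]
    rintro _ ⟨i, rfl⟩
    exact hgen i
  rw [h.2.1] at h1
  exact h1 (LieSubmodule.mem_top x)

theorem Pres.hom_ext (h : Pres k Y E e Rel) {N : Type} [AddCommGroup N] [Module k N]
    [LieRingModule Y N] [LieModule k Y N] {F G : E →ₗ⁅k, Y⁆ N} (hFG : ∀ i, F (e i) = G (e i)) :
    F = G := by
  ext x
  refine h.induction (p := fun x => F x = G x) (by simp) ?_ ?_ ?_ hFG x
  · intro x y hx hy; simp [hx, hy]
  · intro c x hx; simp [hx]
  · intro y x hx; simp [hx]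

end Pres

/-! ### generators -/

section Gens
variable {k : Type} [Field k] {L : Type} [LieRing L] [LieAlgebra k L] {ev : ℕ → L}

theorem Gens.induction (h : Gens k L ev) {p : L → Prop} (h0 : p 0)
    (hadd : ∀ x y, p x → p y → p (x + y)) (hsmul : ∀ (c : k) x, p x → p (c • x))
    (hlie : ∀ x y, p x → p y → p ⁅x, y⁆) (hgen : ∀ i, p (ev i)) (x : L) : p x := by
  let S : LieSubalgebra k L :=
    { carrier := {x | p x}
      add_mem' := fun {a b} ha hb => hadd a b ha hb
      zero_mem' := h0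
      smul_mem' := fun c x hx => hsmul c x hx
      lie_mem' := fun {a b} ha hb => hlie a b ha hb }
  have h1 : LieSubalgebra.lieSpan k L (Set.range ev) ≤ S := by
    rw [LieSubalgebra.lieSpan_le]
    rintro _ ⟨i, rfl⟩
    exact hgen i
  rw [h.2] at h1
  exact h1 (LieSubalgebra.mem_top x)

theorem Gens.hom_ext (h : Gens k L ev) {L' : Type} [LieRing L'] [LieAlgebra k L']
    {F G : L →ₗ⁅k⁆ L'} (hFG : ∀ i, F (ev i) = G (ev i)) : F = G := by
  ext x
  refine h.induction (p := fun x => F x = G x) (by simp) ?_ ?_ ?_ hFG x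
  · intro x y hx hy; simp [hx, hy]
  · intro c x hx; simp [hx]
  · intro x y hx hy; simp [hx, hy]

/-- a subspace stable under the generators is stable under the algebra -/
theorem Gens.stable (h : Gens k L ev) {M : Type} [AddCommGroup M] [Module k M]
    [LieRingModule L M] [LieModule k L M] (V : Submodule k M)
    (hV : ∀ i, ∀ m ∈ V, ⁅ev i, m⁆ ∈ V) : ∀ (x : L), ∀ m ∈ V, ⁅x, m⁆ ∈ V := by
  intro x
  refine h.induction (p := fun x => ∀ m ∈ V, ⁅x, m⁆ ∈ V) ?_ ?_ ?_ ?_ hV x
  · intro m _; rw [zero_lie]; exact V.zero_mem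
  · intro x y hx hy m hm; rw [add_lie]; exact V.add_mem (hx m hm) (hy m hm)
  · intro c x hx m hm; rw [smul_lie]; exact V.smul_mem _ (hx m hm)
  · intro x y hx hy m hm
    rw [lie_lie]
    exact V.sub_mem (hx _ (hy m hm)) (hy _ (hx m hm))

end Gens

/-! ### derived series -/

section derived
variable {k : Type} [Field k] {L L' : Type} [LieRing L] [LieAlgebra k L] [LieRing L']
  [LieAlgebra k L']

theorem map_derivedSeries_mem (F : L →ₗ⁅k⁆ L') (n : ℕ) : ∀ x ∈ LieAlgebra.derivedSeries k L n,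
    F x ∈ LieAlgebra.derivedSeries k L' n := by
  have h1 := LieIdeal.derivedSeries_map_le (R := k) (f := F) n
  intro x hx
  exact h1 (LieIdeal.mem_map hx)

theorem derivedSeries_eq_bot_of_injective (F : L →ₗ⁅k⁆ L') (hF : Injective F) (n : ℕ)
    (h : LieAlgebra.derivedSeries k L' n = ⊥) : LieAlgebra.derivedSeries k L n = ⊥ := by
  rw [LieSubmodule.eq_bot_iff]
  intro x hx
  have := map_derivedSeries_mem F n x hx
  rw [h, LieSubmodule.mem_bot] at this
  exact hF (by rw [this, map_zero])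

theorem derivedSeries_succ_mem {n : ℕ} {p : L → Prop} (h0 : p 0)
    (hadd : ∀ x y, p x → p y → p (x + y)) (hsmul : ∀ (c : k) x, p x → p (c • x))
    (hlie : ∀ x ∈ LieAlgebra.derivedSeries k L n, ∀ y ∈ LieAlgebra.derivedSeries k L n, p ⁅x, y⁆) :
    ∀ x ∈ LieAlgebra.derivedSeries k L (n + 1), p x := by
  intro x hx
  rw [LieAlgebra.derivedSeries_def, LieAlgebra.derivedSeriesOfIdeal_succ,
    ← LieSubmodule.mem_toSubmodule, LieSubmodule.lieIdeal_oper_eq_linear_span'] at hx
  induction hx using Submodule.span_induction with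
  | mem y hy =>
    obtain ⟨a, ha, b, hb, rfl⟩ := hy
    exact hlie a ha b hb
  | zero => exact h0
  | add a b _ _ ha hb => exact hadd a b ha hb
  | smul c a _ ha => exact hsmul c a ha

theorem abelian_of_derivedSeries_one (h : LieAlgebra.derivedSeries k L 1 = ⊥) (x y : L) :
    ⁅x, y⁆ = 0 := by
  have h1 : ⁅x, y⁆ ∈ LieAlgebra.derivedSeries k L 1 := by
    rw [LieAlgebra.derivedSeries_def, LieAlgebra.derivedSeriesOfIdeal_succ]
    exact LieSubmodule.lie_mem_lie (LieSubmodule.mem_top x) (LieSubmodule.mem_top y)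
  rwa [h, LieSubmodule.mem_bot] at h1

theorem derivedSeries_quot (n : ℕ) :
    LieAlgebra.derivedSeries k (L ⧸ LieAlgebra.derivedSeries k L n) n = ⊥ := by
  have h1 : ∀ m, ∀ x ∈ LieAlgebra.derivedSeries k (L ⧸ LieAlgebra.derivedSeries k L n) m,
      ∃ y ∈ LieAlgebra.derivedSeries k L m, LieSubmodule.Quotient.mk y = x := by
    intro m
    induction m with
    | zero =>
      intro x _
      obtain ⟨y, rfl⟩ := LieSubmodule.Quotient.surjective_mk' _ x
      exact ⟨y, by simp, rfl⟩
    | succ m ih =>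
      refine derivedSeries_succ_mem ⟨0, LieSubmodule.zero_mem _, rfl⟩ ?_ ?_ ?_
      · rintro _ _ ⟨a, ha, rfl⟩ ⟨b, hb, rfl⟩
        exact ⟨a + b, add_mem ha hb, rfl⟩
      · rintro c _ ⟨a, ha, rfl⟩
        exact ⟨c • a, SMulMemClass.smul_mem c ha, rfl⟩
      · intro x hx y hy
        obtain ⟨a, ha, rfl⟩ := ih x hx
        obtain ⟨b, hb, rfl⟩ := ih y hy
        refine ⟨⁅a, b⁆, ?_, rfl⟩
        rw [LieAlgebra.derivedSeries_def, LieAlgebra.derivedSeriesOfIdeal_succ]
        exact LieSubmodule.lie_mem_lie ha hb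
  rw [LieSubmodule.eq_bot_iff]
  intro x hx
  obtain ⟨y, hy, rfl⟩ := h1 n x hx
  exact LieSubmodule.Quotient.mk_eq_zero'.2 hy

end derived

/-! ### semidirect products -/

section Sd
variable {k : Type} [Field k] {Q D : Type} [LieRing Q] [LieAlgebra k Q] [AddCommGroup D]
  [Module k D] [LieRingModule Q D] [LieModule k Q D]

theorem Sd.mk_eq (d : D) (q : Q) : (⟨d, q⟩ : Sd D Q) = Sd.inl k Q d + Sd.inr k D q := by
  ext <;> simp

theorem Sd.lie_inl_inl (d d' : D) : ⁅(Sd.inl k Q d : Sd D Q), Sd.inl k Q d'⁆ = 0 := by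
  ext <;> simp

theorem Sd.lie_inr_inl (q : Q) (d : D) :
    ⁅(Sd.inr k D q : Sd D Q), Sd.inl k Q d⁆ = Sd.inl k Q ⁅q, d⁆ := by
  ext <;> simp

/-- the projection -/
def Sd.proj (k : Type) [Field k] (D Q : Type) [LieRing Q] [LieAlgebra k Q] [AddCommGroup D]
    [Module k D] [LieRingModule Q D] [LieModule k Q D] : Sd D Q →ₗ⁅k⁆ Q where
  toFun x := x.q
  map_add' _ _ := rfl
  map_smul' _ _ := rfl
  map_lie' := rfl

@[simp] theorem Sd.proj_apply (x : Sd D Q) : Sd.proj k D Q x = x.q := rfl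

/-- functoriality -/
def Sd.map {Q' D' : Type} [LieRing Q'] [LieAlgebra k Q'] [AddCommGroup D'] [Module k D']
    [LieRingModule Q' D'] [LieModule k Q' D'] (θ : Q →ₗ⁅k⁆ Q') (j : D →ₗ[k] D')
    (h : ∀ (q : Q) (d : D), j ⁅q, d⁆ = ⁅θ q, j d⁆) : Sd D Q →ₗ⁅k⁆ Sd D' Q' where
  toFun x := ⟨j x.d, θ x.q⟩
  map_add' x y := by ext <;> simp
  map_smul' c x := by ext <;> simp
  map_lie' := by intro x y; ext <;> simp [h]

@[simp] theorem Sd.map_apply {Q' D' : Type} [LieRing Q'] [LieAlgebra k Q'] [AddCommGroup D']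
    [Module k D'] [LieRingModule Q' D'] [LieModule k Q' D'] (θ : Q →ₗ⁅k⁆ Q') (j : D →ₗ[k] D')
    (h : ∀ (q : Q) (d : D), j ⁅q, d⁆ = ⁅θ q, j d⁆) (x : Sd D Q) :
    Sd.map θ j h x = ⟨j x.d, θ x.q⟩ := rfl

theorem Sd.map_injective {Q' D' : Type} [LieRing Q'] [LieAlgebra k Q'] [AddCommGroup D']
    [Module k D'] [LieRingModule Q' D'] [LieModule k Q' D'] {θ : Q →ₗ⁅k⁆ Q'} {j : D →ₗ[k] D'}
    (h : ∀ (q : Q) (d : D), j ⁅q, d⁆ = ⁅θ q, j d⁆) (hθ : Injective θ) (hj : Injective j) :
    Injective (Sd.map θ j h) := by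
  intro x y hxy
  have h1 := congrArg Sd.d hxy
  have h2 := congrArg Sd.q hxy
  ext
  · exact hj h1
  · exact hθ h2

theorem Sd.derivedSeries {n : ℕ} (h : LieAlgebra.derivedSeries k Q n = ⊥) :
    LieAlgebra.derivedSeries k (Sd D Q) (n + 1) = ⊥ := by
  have h2 : ∀ x ∈ LieAlgebra.derivedSeries k (Sd D Q) n, x.q = 0 := by
    intro x hx
    have := map_derivedSeries_mem (Sd.proj k D Q) n x hx
    rwa [h, LieSubmodule.mem_bot] at this
  rw [LieSubmodule.eq_bot_iff]
  refine derivedSeries_succ_mem (p := fun x => x = 0) rfl ?_ ?_ ?_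
  · intro x y hx hy; rw [hx, hy, add_zero]
  · intro c x hx; rw [hx, smul_zero]
  · intro x hx y hy
    ext
    · simp [h2 x hx, h2 y hy]
    · simp [h2 x hx]

/-- homomorphisms out of a semidirect product -/
def Sd.lift {G : Type} [LieRing G] [LieAlgebra k G] (θ : Q →ₗ⁅k⁆ G) (j : D →ₗ[k] G)
    (h : ∀ (q : Q) (d : D), j ⁅q, d⁆ = ⁅θ q, j d⁆) (hc : ∀ d d' : D, ⁅j d, j d'⁆ = 0) :
    Sd D Q →ₗ⁅k⁆ G where
  toFun x := j x.d + θ x.q
  map_add' x y := by simp; abel
  map_smul' c x := by simp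
  map_lie' := by
    intro x y
    simp only [Sd.lie_d, Sd.lie_q, map_sub, h, LieHom.map_lie, lie_add, add_lie, hc]
    rw [← lie_skew (θ y.q) (j x.d)]
    abel

@[simp] theorem Sd.lift_apply {G : Type} [LieRing G] [LieAlgebra k G] (θ : Q →ₗ⁅k⁆ G)
    (j : D →ₗ[k] G) (h : ∀ (q : Q) (d : D), j ⁅q, d⁆ = ⁅θ q, j d⁆)
    (hc : ∀ d d' : D, ⁅j d, j d'⁆ = 0) (x : Sd D Q) : Sd.lift θ j h hc x = j x.d + θ x.q := rfl

end Sd

/-! ### layers -/

section Lay
variable {k : Type} [Field k] {j : ℕ} {I : Type} {r : ℕ} {S : Stage k j (I ⊕ Fin r)}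
  {A : Type} [AddCommGroup A] [Module k A] [LieRingModule S.Q A] [LieModule k S.Q A]
  {al0 : Fin r → A} (L : Lay S A al0)

theorem Lay.io_inj : Injective L.io := by
  intro x y hxy
  have h1 := congrArg (fun z : L.P => z.d.fst.snd) hxy
  have h2 := congrArg Sd.q hxy
  ext
  · exact L.jA_inj h1
  · exact S.ι_inj h2

theorem Lay.io_apply (x : L.QP) : L.io x = L.aa (L.jA x.d) + L.yy (S.ι x.q) := by
  ext <;> simp [Lay.io, Lay.aa, Lay.yy]

theorem Lay.P_eq (x : L.P) : x = L.zz x.d.fst.fst.fst + L.cc x.d.fst.fst.snd +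
    L.aa x.d.fst.snd + L.tt x.d.snd + L.yy x.q := by
  ext <;> simp [Lay.zz, Lay.cc, Lay.aa, Lay.tt, Lay.yy]

theorem Lay.yy_zz (y : S.Y) (x : L.Z) : ⁅L.yy y, L.zz x⁆ = L.zz ⁅y, x⁆ := by
  ext <;> simp [Lay.yy, Lay.zz]
theorem Lay.yy_cc (y : S.Y) (x : L.C) : ⁅L.yy y, L.cc x⁆ = L.cc ⁅y, x⁆ := by
  ext <;> simp [Lay.yy, Lay.cc]
theorem Lay.yy_aa (y : S.Y) (x : L.AY) : ⁅L.yy y, L.aa x⁆ = L.aa ⁅y, x⁆ := by
  ext <;> simp [Lay.yy, Lay.aa]
theorem Lay.yy_tt (y : S.Y) (x : L.T) : ⁅L.yy y, L.tt x⁆ = L.tt ⁅y, x⁆ := by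
  ext <;> simp [Lay.yy, Lay.tt]
/-- the module part is abelian -/
theorem Lay.comm0 (x y : L.P) (hx : x.q = 0) (hy : y.q = 0) : ⁅x, y⁆ = 0 := by
  ext <;> simp [hx, hy]
@[simp] theorem Lay.zz_q (x : L.Z) : (L.zz x).q = 0 := rfl
@[simp] theorem Lay.cc_q (x : L.C) : (L.cc x).q = 0 := rfl
@[simp] theorem Lay.aa_q (x : L.AY) : (L.aa x).q = 0 := rfl
@[simp] theorem Lay.tt_q (x : L.T) : (L.tt x).q = 0 := rfl
@[simp] theorem Lay.yy_q (y : S.Y) : (L.yy y).q = y := rfl

variable {M : Type} [AddCommGroup M] [Module k M] [LieRingModule L.P M] [LieModule k L.P M]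

/-- elements of the module part act by commuting operators -/
theorem Lay.swap (x y : L.P) (hx : x.q = 0) (hy : y.q = 0) (m : M) : ⁅x, ⁅y, m⁆⁆ = ⁅y, ⁅x, m⁆⁆ := by
  rw [leibniz_lie, L.comm0 x y hx hy, zero_lie, zero_add]

/-- `ι q t = 0` -/
theorem Lay.iota_t (q : S.Q) : ⁅S.ι q, L.t⁆ = 0 := by
  have := L.presT.rel (Set.mem_range_self q)
  simpa [mval] using this

/-- `q t e = 0` -/
theorem Lay.Good.q_te {e : M} (h : L.Good M e) (q : S.Q) : ⁅L.yy (S.ι q), L.te e⁆ = 0 := by
  unfold Lay.te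
  rw [leibniz_lie, L.yy_tt, L.iota_t, map_zero, zero_lie, h.R1, lie_zero, add_zero]

/-- `y (w e)` for `y ∈ Y` acting on words -/
theorem Lay.Good.map {N : Type} [AddCommGroup N] [Module k N] [LieRingModule L.P N]
    [LieModule k L.P N] {e : M} (h : L.Good M e) (F : M →ₗ⁅k, L.P⁆ N) : L.Good N (F e) where
  R1 y := by rw [← LieModuleHom.map_lie, h.R1, map_zero]
  R2 x hx := by rw [← LieModuleHom.map_lie, h.R2 x hx, map_zero]
  R3 l := by
    rw [← LieModuleHom.map_lie, h.R3 l, map_list_sum, List.map_map]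
    congr 1
    apply List.map_congr_left
    intro p _
    simp
  R4 i := by
    rw [← LieModuleHom.map_lie, ← LieModuleHom.map_lie, h.R4 i, LieModuleHom.map_lie]
  R5 := by
    rw [← LieModuleHom.map_lie, ← LieModuleHom.map_lie, h.R5, map_zero]

end Lay

end Pool.Agent.HIP
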