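import Pool.Agent.HIP.Basic

/-!
# COMM : the words in the new free elements commute
-/

noncomputable section

set_option linter.unusedSectionVars false

namespace Pool.Agent.HIP

open Function
open scoped TensorProduct

namespace COMM

section
variable {k : Type} [Field k] {j : ℕ} {I : Type} {r : ℕ} {S : Stage k j (I ⊕ Fin r)}
  {A : Type} [AddCommGroup A] [Module k A] [LieRingModule S.Q A] [LieModule k S.Q A]
  {al0 : Fin r → A} {L : Lay S A al0}
  {G : Type} [LieRing G] [LieAlgebra k G] (θ : L.P →ₗ⁅k⁆ G)

/-- the bracket of `G` on the restricted module -/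
def br (m m' : Res θ G) : Res θ G :=
  toRes θ G ⁅(toRes θ G).symm m, (toRes θ G).symm m'⁆

theorem br_skew (m m' : Res θ G) : br θ m m' = - br θ m' m := by
  unfold br
  rw [← map_neg, lie_skew]

theorem lie_br (p : L.P) (m m' : Res θ G) :
    ⁅p, br θ m m'⁆ = br θ ⁅p, m⁆ m' + br θ m ⁅p, m'⁆ := by
  unfold br
  rw [Res.lie_toRes, leibniz_lie, map_add, Res.lie_def, Res.lie_def, LinearEquiv.symm_apply_apply,
    LinearEquiv.symm_apply_apply]

theorem br_zero_left (m : Res θ G) : br θ 0 m = 0 := by
  unfold br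
  rw [map_zero, zero_lie, map_zero]
theorem br_zero_right (m : Res θ G) : br θ m 0 = 0 := by
  unfold br
  rw [map_zero, lie_zero, map_zero]
theorem br_add_left (m n m' : Res θ G) : br θ (m + n) m' = br θ m m' + br θ n m' := by
  unfold br
  rw [map_add, add_lie, map_add]
theorem br_add_right (m n m' : Res θ G) : br θ m (n + m') = br θ m n + br θ m m' := by
  unfold br
  rw [map_add, lie_add, map_add]
theorem br_smul_left (c : k) (m m' : Res θ G) : br θ (c • m) m' = c • br θ m m' := by
  unfold br
  rw [map_smul, smul_lie, map_smul]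
theorem br_smul_right (c : k) (m m' : Res θ G) : br θ m (c • m') = c • br θ m m' := by
  unfold br
  rw [map_smul, lie_smul, map_smul]

end

section
variable {k : Type} [Field k] {j : ℕ} {I : Type} {r : ℕ} {S : Stage k j (I ⊕ Fin r)}
  {A : Type} [AddCommGroup A] [Module k A] [LieRingModule S.Q A] [LieModule k S.Q A]
  {al0 : Fin r → A} (L : Lay S A al0)
  {M : Type} [AddCommGroup M] [Module k M] [LieRingModule L.P M] [LieModule k L.P M]

/-- a word in `Z` applied to `m` -/
def W (l : List L.Z) (m : M) : M := wact (l.map L.zz) m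

@[simp] theorem W_nil (m : M) : W L [] m = m := rfl
theorem W_cons (a : L.Z) (l : List L.Z) (m : M) : W L (a :: l) m = ⁅L.zz a, W L l m⁆ := rfl

theorem comm_W (p : L.P) (hp : p.q = 0) (l : List L.Z) (m : M) :
    ⁅p, W L l m⁆ = W L l ⁅p, m⁆ := by
  induction l with
  | nil => rfl
  | cons a l ih => rw [W_cons, W_cons, L.swap p (L.zz a) hp (L.zz_q a), ih]

theorem W_swap (a b : L.Z) (l : List L.Z) (m : M) : W L (a :: b :: l) m = W L (b :: a :: l) m := by
  rw [W_cons, W_cons, W_cons, W_cons, L.swap (L.zz a) (L.zz b) (L.zz_q a) (L.zz_q b)]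

theorem W_perm {l l' : List L.Z} (h : l.Perm l') (m : M) : W L l m = W L l' m := by
  induction h with
  | nil => rfl
  | cons x _ ih => rw [W_cons, W_cons, ih]
  | swap x y l => exact W_swap L y x l m
  | trans _ _ ih1 ih2 => rw [ih1, ih2]

end

section
variable {k : Type} [Field k] {j : ℕ} {I : Type} {r : ℕ} {S : Stage k j (I ⊕ Fin r)}
  {A : Type} [AddCommGroup A] [Module k A] [LieRingModule S.Q A] [LieModule k S.Q A]
  {al0 : Fin r → A} (L : Lay S A al0)
  {G : Type} [LieRing G] [LieAlgebra k G] (θ : L.P →ₗ⁅k⁆ G)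

/-- degree one -/
theorem deg_one (e : Res θ G) (hG : L.Good (Res θ G) e)
    (hz : ∀ i, br θ ⁅L.zz (L.z i), e⁆ e = 0) (a : L.Z) : br θ ⁅L.zz a, e⁆ e = 0 := by
  refine L.presZ.induction (p := fun a => br θ ⁅L.zz a, e⁆ e = 0) ?_ ?_ ?_ ?_ hz a
  · rw [map_zero, zero_lie, br_zero_left]
  · intro x y hx hy
    rw [map_add, add_lie, br_add_left, hx, hy, add_zero]
  · intro c x hx
    rw [map_smul, smul_lie, br_smul_left, hx, smul_zero]
  · intro y x hx
    have h1 : ⁅L.yy y, ⁅L.zz x, e⁆⁆ = ⁅L.zz ⁅y, x⁆, e⁆ := by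
      rw [leibniz_lie, L.yy_zz, hG.R1, lie_zero, add_zero]
    have h2 := congrArg (fun m => ⁅L.yy y, m⁆) hx
    simp only [lie_zero, lie_br, h1, hG.R1, br_zero_right, add_zero] at h2
    exact h2

/-- moving one letter -/
theorem move (e : Res θ G) (n : ℕ)
    (ih : ∀ l l' : List L.Z, (∀ a ∈ l, L.ZP a) → (∀ a ∈ l', L.ZP a) → l.length + l'.length < n →
      br θ (W L l e) (W L l' e) = 0) (a : L.Z) (l l' : List L.Z) (hl : ∀ a ∈ l, L.ZP a)
    (hl' : ∀ a ∈ l', L.ZP a) (h : l.length + l'.length < n) :
    br θ (W L (a :: l) e) (W L l' e) = - br θ (W L l e) (W L (a :: l') e) := by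
  have h1 := congrArg (fun m => ⁅L.zz a, m⁆) (ih l l' hl hl' h)
  simp only [lie_zero, lie_br] at h1
  rw [W_cons, W_cons]
  exact eq_neg_of_add_eq_zero_left h1

/-- moving all letters to the right -/
theorem moveAll (e : Res θ G) (n : ℕ)
    (ih : ∀ l l' : List L.Z, (∀ a ∈ l, L.ZP a) → (∀ a ∈ l', L.ZP a) → l.length + l'.length < n →
      br θ (W L l e) (W L l' e) = 0) : ∀ (l l' : List L.Z), (∀ a ∈ l, L.ZP a) →
    (∀ a ∈ l', L.ZP a) → l.length + l'.length ≤ n →
    br θ (W L l e) (W L l' e) = (-1 : k) ^ l.length • br θ e (W L (l ++ l') e) := by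
  intro l
  induction l with
  | nil =>
    intro l' _ _ _
    simp
  | cons a l ihl =>
    intro l' hl hl' h
    have h1 : ∀ b ∈ l, L.ZP b := fun b hb => hl b (List.mem_cons_of_mem _ hb)
    have h2 : L.ZP a := hl a List.mem_cons_self
    rw [List.length_cons] at h
    rw [move L θ e n ih a l l' h1 hl' (by omega), ihl (a :: l') h1 (by
      intro b hb
      rcases List.mem_cons.1 hb with rfl | hb
      · exact h2
      · exact hl' b hb) (by rw [List.length_cons]; omega)]
    rw [W_perm L (List.perm_middle (a := a) (l₁ := l) (l₂ := l')), List.length_cons, pow_succ]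
    rw [List.cons_append, mul_neg_one, neg_smul]

theorem main (h2 : (2 : k) ≠ 0) (hD : Stmt_Dbl) (e : Res θ G) (hG : L.Good (Res θ G) e)
    (hz : ∀ i, br θ ⁅L.zz (L.z i), e⁆ e = 0) (n : ℕ) : ∀ l l' : List L.Z, (∀ a ∈ l, L.ZP a) →
      (∀ a ∈ l', L.ZP a) → l.length + l'.length = n → br θ (W L l e) (W L l' e) = 0 := by
  induction n using Nat.strong_induction_on with
  | _ n ih0 =>
    have ih : ∀ l l' : List L.Z, (∀ a ∈ l, L.ZP a) → (∀ a ∈ l', L.ZP a) →
        l.length + l'.length < n → br θ (W L l e) (W L l' e) = 0 := by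
      intro l l' hl hl' h
      exact ih0 _ h l l' hl hl' rfl
    have key : ∀ l : List L.Z, (∀ a ∈ l, L.ZP a) → l.length = n → br θ (W L l e) e = 0 := by
      intro l hl hn
      have h1 := moveAll L θ e n ih l [] hl (by simp) (by simp [hn])
      rw [W_nil, List.append_nil, br_skew θ e, hn] at h1
      rcases Nat.even_or_odd n with he | ho
      · rw [he.neg_one_pow, one_smul] at h1
        have h3 : (2 : k) • br θ (W L l e) e = 0 := by
          rw [two_smul]
          nth_rewrite 1 [h1]
          rw [neg_add_cancel]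
        exact (smul_eq_zero.1 h3).resolve_left h2
      · match l, hl, hn with
        | [], _, hn =>
          exfalso
          rw [← hn] at ho
          simp at ho
        | [a], _, _ =>
          exact deg_one L θ e hG hz a
        | a :: a' :: l, hl, hn =>
          have ha : L.ZP a := hl a List.mem_cons_self
          have ha' : L.ZP a' := hl a' (List.mem_cons_of_mem _ List.mem_cons_self)
          have hl2 : ∀ b ∈ l, L.ZP b := fun b hb =>
            hl b (List.mem_cons_of_mem _ (List.mem_cons_of_mem _ hb))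
          rw [List.length_cons, List.length_cons] at hn
          obtain ⟨c, hc⟩ := hD k j r I S A al0 L (Res θ G) e hG a a' ha ha'
          have hc1 : ⁅L.cc c, W L l e⁆ = (2 : k) • W L (a :: a' :: l) e := (hc l).1
          have hc2 : ⁅L.cc c, e⁆ = (2 : k) • W L [a, a'] e := (hc []).1
          have h3 := ih l [] hl2 (by simp) (by rw [List.length_nil]; omega)
          rw [W_nil] at h3
          have h4 := congrArg (fun m => ⁅L.cc c, m⁆) h3
          simp only [lie_zero, lie_br, hc1, hc2, br_smul_left, br_smul_right] at h4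
          have h5 : br θ (W L l e) (W L [a, a'] e) = br θ (W L (a :: a' :: l) e) e := by
            have h6 := move L θ e n ih a' (a :: l) [] (by
              intro b hb
              rcases List.mem_cons.1 hb with rfl | hb
              · exact ha
              · exact hl2 b hb) (by simp) (by rw [List.length_nil, List.length_cons]; omega)
            have h7 := move L θ e n ih a l [a'] hl2 (by
              intro b hb
              rw [List.mem_singleton] at hb
              rw [hb]; exact ha') (by rw [List.length_singleton]; omega)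
            rw [W_nil, h7, neg_neg] at h6
            rw [W_swap L a a' l, h6]
          rw [h5, ← smul_add, ← two_smul k, smul_smul] at h4
          exact (smul_eq_zero.1 h4).resolve_left (mul_ne_zero h2 h2)
    intro l l' hl hl' hn
    rw [moveAll L θ e n ih l l' hl hl' hn.le, br_skew θ e, key (l ++ l') (by
      intro b hb
      rcases List.mem_append.1 hb with hb | hb
      · exact hl b hb
      · exact hl' b hb) (by rw [List.length_append, hn]), neg_zero, smul_zero]

/-- words applied to `t e` commute -/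
theorem main2 (h2 : (2 : k) ≠ 0) (hD : Stmt_Dbl) (e : Res θ G) (hG : L.Good (Res θ G) e)
    (hz : ∀ i, br θ ⁅L.zz (L.z i), e⁆ e = 0) (l l' : List L.Z) (hl : ∀ a ∈ l, L.ZP a)
    (hl' : ∀ a ∈ l', L.ZP a) : br θ (W L l (L.te e)) (W L l' (L.te e)) = 0 := by
  have h0 := main L θ h2 hD e hG hz _ l l' hl hl' rfl
  have ht : ∀ l : List L.Z, ⁅L.tt L.t, W L l e⁆ = W L l (L.te e) := by
    intro l
    exact comm_W L _ (L.tt_q _) l e
  have ht2 : ∀ l : List L.Z, ⁅L.tt L.t, W L l (L.te e)⁆ = 0 := by
    intro l
    rw [comm_W L _ (L.tt_q _) l]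
    unfold Lay.te
    rw [hG.R5]
    exact wact_zero _
  have h1 := congrArg (fun m => ⁅L.tt L.t, ⁅L.tt L.t, m⁆⁆) h0
  simp only [lie_zero, lie_br, lie_add, ht, ht2, br_zero_left, br_zero_right, add_zero,
    zero_add] at h1
  rw [← two_smul k] at h1
  exact (smul_eq_zero.1 h1).resolve_left h2

end

end COMM

open COMM in
theorem comm_proof : Stmt_CommAsm := by
  intro hS hD k _ h2 j r I S A _ _ _ _ al0 L G _ _ θ e hG hz x hx y hy
  have hz' : ∀ i, br θ ⁅L.zz (L.z i), toRes θ G e⁆ (toRes θ G e) = 0 := by
    intro i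
    unfold br
    rw [Res.lie_toRes, LinearEquiv.symm_apply_apply, LinearEquiv.symm_apply_apply, hz i, map_zero]
  have hx' := hS k j r I S A al0 L (Res θ G) (toRes θ G e) hG x hx
  have hy' := hS k j r I S A al0 L (Res θ G) (toRes θ G e) hG y hy
  have key : br θ ((toRes L.io (Res θ G)).symm x) ((toRes L.io (Res θ G)).symm y) = 0 := by
    generalize (toRes L.io (Res θ G)).symm x = u' at hx' ⊢
    generalize (toRes L.io (Res θ G)).symm y = v' at hy' ⊢
    induction hx' using Submodule.span_induction with
    | mem u hu =>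
      obtain ⟨l, hl, rfl⟩ := hu
      induction hy' using Submodule.span_induction with
      | mem v hv =>
        obtain ⟨l', hl', rfl⟩ := hv
        exact main2 L θ h2 hD _ hG hz' l l' hl hl'
      | zero => exact br_zero_right θ _
      | add a b _ _ ha hb => rw [br_add_right, ha, hb, add_zero]
      | smul c a _ ha => rw [br_smul_right, ha, smul_zero]
    | zero => exact br_zero_left θ _
    | add a b _ _ ha hb => rw [br_add_left, ha, hb, add_zero]
    | smul c a _ ha => rw [br_smul_left, ha, smul_zero]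
  exact key

end Pool.Agent.HIP
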