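import Mathlib
import Pool.Agent.HIP.Basic
import Pool.Agent.HIG.Compile

/-!
# Compilation of loop programs into constraints
-/

noncomputable section

namespace Pool.Agent.HIP

open Function
open Pool.Agent.HIG (St Prog Prog.run Prog.Uses Prog.WF Prog.loop_zero Prog.loop_succ)

namespace COMPILE

theorem wop_nil {M : Type} [AddCommGroup M] (op : ℕ → (M →+ M)) (x : M) : wop op [] x = x := rfl

theorem bdd_mono {K s s' : ℕ} {c : Con} (h : c.Bdd K s) (hs : s ≤ s') : c.Bdd K s' := by
  cases c with
  | shift j F G => exact ⟨h.1, lt_of_lt_of_le h.2.1 hs, lt_of_lt_of_le h.2.2 hs⟩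
  | lin J L => exact ⟨h.1, fun t ht => lt_of_lt_of_le (h.2 t ht) hs⟩

theorem sat_congr {K s : ℕ} {c : Con} (hc : c.Bdd K s) {M : Type} [AddCommGroup M]
    {op : ℕ → (M →+ M)} {𝓕 𝓕' : ℕ → St → M}
    (h : ∀ i, i < s → 𝓕' i = 𝓕 i) (hs : c.Sat op 𝓕) : c.Sat op 𝓕' := by
  cases c with
  | shift j F G =>
    intro v
    rw [h F hc.2.1, h G hc.2.2]
    exact hs v
  | lin J L =>
    intro v hv
    rw [← hs v hv]
    congr 1
    apply List.map_congr_left
    intro t ht
    rw [h _ (hc.2 t ht)]

theorem sat_eq {M : Type} [AddCommGroup M] {op : ℕ → (M →+ M)}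
    {𝓕 : ℕ → St → M} {r F G : ℕ} :
    (Con.lin {r} [(1, [], G), (-1, [], F)]).Sat op 𝓕 ↔ ∀ v, v r = 0 → 𝓕 G v = 𝓕 F v := by
  constructor
  · intro h v hv
    have := h v (by simpa using hv)
    simp only [List.map_cons, List.map_nil, List.sum_cons, List.sum_nil, wop_nil,
      one_smul, neg_smul, add_zero] at this
    rw [← sub_eq_add_neg, sub_eq_zero] at this
    exact this
  · intro h v hv
    have := h v (by simpa using hv)
    simp [wop_nil, this]

end COMPILE

open COMPILE in
theorem compile_proof : Stmt_Compile := by
  intro K p
  induction p with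
  | inc r =>
    intro _ hU F n hF
    refine ⟨n + 1, [Con.shift r F n], n, by omega, by omega, ?_, ?_⟩
    · intro c hc
      rw [List.mem_singleton] at hc
      subst hc
      exact ⟨hU r rfl, by omega, by omega⟩
    · intro M _ op 𝓕
      constructor
      · intro h v
        exact (h _ (List.mem_singleton_self _) v).symm
      · refine ⟨update 𝓕 n fun v => 𝓕 F ((Prog.inc r).run v), ?_, ?_, ?_⟩
        · intro i hi
          rw [update_of_ne (by omega)]
        · intro c hc
          rw [List.mem_singleton] at hc
          subst hc
          intro v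
          rw [update_of_ne (by omega), update_self]
          rfl
        · intro v
          rw [update_self]
  | dec r =>
    intro _ hU F n hF
    have hr : r < K := hU r rfl
    refine ⟨n + 1, [Con.shift r n F, Con.lin {r} [(1, [], n), (-1, [], F)]], n, by omega,
      by omega, ?_, ?_⟩
    · intro c hc
      simp only [List.mem_cons, List.not_mem_nil, or_false] at hc
      obtain rfl | rfl := hc
      · exact ⟨hr, by omega, by omega⟩
      · refine ⟨by simpa using hr, ?_⟩
        intro t ht
        simp only [List.mem_cons, List.not_mem_nil, or_false] at ht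
        obtain rfl | rfl := ht
        · dsimp only; omega
        · dsimp only; omega
    · intro M _ op 𝓕
      constructor
      · intro h v
        have h1 : ∀ v, 𝓕 n (update v r (v r + 1)) = 𝓕 F v :=
          h (Con.shift r n F) (by simp)
        have h2 := sat_eq.1 (h (Con.lin {r} [(1, [], n), (-1, [], F)]) (by simp))
        simp only [Prog.run]
        cases hv : v r with
        | zero =>
          rw [h2 v hv, Nat.zero_sub, ← hv, update_eq_self]
        | succ m =>
          have h3 := h1 (update v r m)
          rw [update_idem, update_self, ← hv, update_eq_self] at h3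
          rw [h3]
          rfl
      · refine ⟨update 𝓕 n fun v => 𝓕 F ((Prog.dec r).run v), ?_, ?_, ?_⟩
        · intro i hi
          rw [update_of_ne (by omega)]
        · intro c hc
          simp only [List.mem_cons, List.not_mem_nil, or_false] at hc
          obtain rfl | rfl := hc
          · intro v
            rw [update_of_ne (a := F) (by omega), update_self]
            simp only [Prog.run, update_self, update_idem, Nat.add_sub_cancel, update_eq_self]
          · rw [sat_eq]
            intro v hv
            rw [update_of_ne (a := F) (by omega), update_self]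
            simp only [Prog.run, hv, Nat.zero_sub]
            rw [← hv, update_eq_self]
        · intro v
          rw [update_self]
  | seq p q ihp ihq =>
    intro hW hU F n hF
    obtain ⟨s₁, C₁, G₁, hn₁, hG₁, hC₁, h₁⟩ := ihq hW.2 (fun i hi => hU i (Or.inr hi)) F n hF
    obtain ⟨s₂, C₂, G₂, hn₂, hG₂, hC₂, h₂⟩ := ihp hW.1 (fun i hi => hU i (Or.inl hi)) G₁ s₁ hG₁
    refine ⟨s₂, C₁ ++ C₂, G₂, le_trans hn₁ hn₂, hG₂, ?_, ?_⟩
    · intro c hc
      rcases List.mem_append.1 hc with hc | hc
      · exact bdd_mono (hC₁ c hc) hn₂
      · exact hC₂ c hc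
    · intro M _ op 𝓕
      constructor
      · intro h v
        rw [(h₂ M op 𝓕).1 (fun c hc => h c (List.mem_append.2 (Or.inr hc))) v,
          (h₁ M op 𝓕).1 (fun c hc => h c (List.mem_append.2 (Or.inl hc)))]
        rfl
      · obtain ⟨𝓕₁, ha₁, hb₁, hc₁⟩ := (h₁ M op 𝓕).2
        obtain ⟨𝓕₂, ha₂, hb₂, hc₂⟩ := (h₂ M op 𝓕₁).2
        refine ⟨𝓕₂, ?_, ?_, ?_⟩
        · intro i hi
          rw [ha₂ i (lt_of_lt_of_le hi hn₁), ha₁ i hi]
        · intro c hc
          rcases List.mem_append.1 hc with hc | hc
          · exact sat_congr (hC₁ c hc) ha₂ (hb₁ c hc)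
          · exact hb₂ c hc
        · intro v
          rw [hc₂, hc₁]
          rfl
  | loop r p ih =>
    intro hW hU F n hF
    have hr : r < K := hU r (Or.inl rfl)
    obtain ⟨s, C, G', hn, hG', hC, h⟩ := ih hW.2 (fun i hi => hU i (Or.inr hi)) n (n + 1)
      (by omega)
    refine ⟨s, Con.shift r n G' :: Con.lin {r} [(1, [], n), (-1, [], F)] :: C, n, by omega,
      by omega, ?_, ?_⟩
    · intro c hc
      simp only [List.mem_cons] at hc
      obtain rfl | rfl | hc := hc
      · exact ⟨hr, by omega, hG'⟩
      · refine ⟨by simpa using hr, ?_⟩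
        intro t ht
        simp only [List.mem_cons, List.not_mem_nil, or_false] at ht
        obtain rfl | rfl := ht
        · dsimp only; omega
        · dsimp only; omega
      · exact hC c hc
    · intro M _ op 𝓕
      constructor
      · intro hS
        have h1 : ∀ v, 𝓕 n (update v r (v r + 1)) = 𝓕 G' v :=
          hS (Con.shift r n G') (by simp)
        have h2 := sat_eq.1 (hS (Con.lin {r} [(1, [], n), (-1, [], F)]) (by simp))
        have h3 := (h M op 𝓕).1 (fun c hc => hS c (by simp [hc]))
        have h4 : ∀ (m : ℕ) (v : St), v r = m → 𝓕 n v = 𝓕 F ((Prog.loop r p).run v) := by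
          intro m
          induction m with
          | zero =>
            intro v hv
            rw [h2 v hv, Prog.loop_zero r p v hv]
          | succ m ihm =>
            intro v hv
            have e : v = update (update v r m) r (update v r m r + 1) := by
              rw [update_idem, update_self, ← hv, update_eq_self]
            rw [e, Prog.loop_succ r p hW.1, h1, h3]
            apply ihm
            rw [p.run_apply r hW.1, update_self]
        intro v
        exact h4 _ v rfl
      · obtain ⟨𝓕₁, ha₁, hb₁, hc₁⟩ :=
          (h M op (update 𝓕 n fun v => 𝓕 F ((Prog.loop r p).run v))).2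
        have en : 𝓕₁ n = fun v => 𝓕 F ((Prog.loop r p).run v) := by
          rw [ha₁ n (by omega), update_self]
        have ei : ∀ i, i < n → 𝓕₁ i = 𝓕 i := by
          intro i hi
          rw [ha₁ i (by omega), update_of_ne (by omega)]
        refine ⟨𝓕₁, ei, ?_, ?_⟩
        · intro c hc
          simp only [List.mem_cons] at hc
          obtain rfl | rfl | hc := hc
          · intro v
            rw [en, hc₁, update_self]
            dsimp only
            rw [Prog.loop_succ r p hW.1]
          · rw [sat_eq]
            intro v hv
            rw [en, ei F hF]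
            dsimp only
            rw [Prog.loop_zero r p v hv]
          · exact hb₁ c hc
        · intro v
          rw [en]

end Pool.Agent.HIP
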