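import Pool.Agent.HIP.Basic

/-!
# Module COPROD: a free new generator
-/

noncomputable section

set_option linter.unusedSectionVars false

namespace Pool.Agent.HIP

open Function

namespace COPROD

section
variable {k : Type} [Field k] {L : Type} [LieRing L] [LieAlgebra k L] {L' : Type} [LieRing L']
  [LieAlgebra k L']

/-- the quotient map -/
def mkq (J : LieIdeal k L) : L →ₗ⁅k⁆ (L ⧸ J) where
  toFun x := LieSubmodule.Quotient.mk x
  map_add' _ _ := rfl
  map_smul' _ _ := rfl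
  map_lie' := rfl

theorem mkq_surj (J : LieIdeal k L) : Surjective (mkq J) := by
  intro y
  induction y using Quotient.inductionOn' with
  | h x => exact ⟨x, rfl⟩

theorem mkq_eq_zero {J : LieIdeal k L} {x : L} (h : x ∈ J) : mkq J x = 0 := by
  have : (LieSubmodule.Quotient.mk x : L ⧸ J) = 0 := LieSubmodule.Quotient.mk_eq_zero'.2 h
  exact this

/-- maps out of a quotient -/
def liftq (J : LieIdeal k L) (F : L →ₗ⁅k⁆ L') (h : ∀ x ∈ J, F x = 0) : (L ⧸ J) →ₗ⁅k⁆ L' :=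
  { (Submodule.liftQ (J : Submodule k L) (F : L →ₗ[k] L') (fun x hx => h x hx) :
      (L ⧸ (J : Submodule k L)) →ₗ[k] L') with
    map_lie' := by
      intro a b
      obtain ⟨x, rfl⟩ := mkq_surj J a
      obtain ⟨y, rfl⟩ := mkq_surj J b
      have e1 : ⁅mkq J x, mkq J y⁆ = mkq J ⁅x, y⁆ := (LieHom.map_lie _ x y).symm
      rw [e1]
      exact F.map_lie x y }

theorem liftq_mkq (J : LieIdeal k L) (F : L →ₗ⁅k⁆ L') (h : ∀ x ∈ J, F x = 0) (x : L) :
    liftq J F h (mkq J x) = F x := rfl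

theorem span_zero (S : Set L) (F : L →ₗ⁅k⁆ L') (h : ∀ x ∈ S, F x = 0) :
    ∀ x ∈ LieSubmodule.lieSpan k L S, F x = 0 := by
  intro x hx
  have h1 : LieSubmodule.lieSpan k L S ≤ F.ker := by
    rw [LieSubmodule.lieSpan_le]
    intro y hy
    exact LieHom.mem_ker.2 (h y hy)
  exact LieHom.mem_ker.1 (h1 hx)

end

end COPROD

open COPROD in
theorem coprod_proof : Stmt_Coprod := by
  intro k _ R _ _ hR
  obtain ⟨d, R0, hfin, ⟨φ⟩⟩ := hR
  let A := FreeLieAlgebra k (Fin d)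
  let B := FreeLieAlgebra k (Fin (d + 1))
  let j : A →ₗ⁅k⁆ B := FreeLieAlgebra.lift k (fun i : Fin d => FreeLieAlgebra.of k i.castSucc)
  have hj : ∀ i, j (FreeLieAlgebra.of k i) = FreeLieAlgebra.of k i.castSucc :=
    fun i => FreeLieAlgebra.lift_of_apply _ _
  let R1 : Set B := j '' R0
  let I : LieIdeal k A := LieSubmodule.lieSpan k A R0
  let J : LieIdeal k B := LieSubmodule.lieSpan k B R1
  let q0 : A →ₗ⁅k⁆ (A ⧸ I) := mkq I
  let q1 : B →ₗ⁅k⁆ (B ⧸ J) := mkq J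
  have hq1 : ∀ x ∈ I, (q1.comp j) x = 0 := by
    refine span_zero R0 (q1.comp j) fun x hx => ?_
    exact mkq_eq_zero (LieSubmodule.subset_lieSpan (Set.mem_image_of_mem j hx))
  let inc0 : (A ⧸ I) →ₗ⁅k⁆ (B ⧸ J) := liftq I (q1.comp j) hq1
  have hinc0 : ∀ y : A, inc0 (q0 y) = q1 (j y) := fun y => rfl
  let ψ : (A ⧸ I) →ₗ⁅k⁆ R := φ.symm.toLieHom
  let φ' : R →ₗ⁅k⁆ (A ⧸ I) := φ.toLieHom
  have hψφ : ∀ r, ψ (φ' r) = r := fun r => φ.symm_apply_apply r
  have hφψ : ∀ y, φ' (ψ y) = y := fun y => φ.apply_symm_apply y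
  refine ⟨B ⧸ J, inferInstance, inferInstance, inc0.comp φ', q1 (FreeLieAlgebra.of k (Fin.last d)),
    ⟨d + 1, R1, hfin.image j, ⟨LieEquiv.refl⟩⟩, ?_, ?_⟩
  · rw [eq_top_iff]
    intro z _
    obtain ⟨x, rfl⟩ := mkq_surj J z
    let S := LieSubalgebra.lieSpan k (B ⧸ J)
      (insert (q1 (FreeLieAlgebra.of k (Fin.last d))) (Set.range (inc0.comp φ')))
    have hS : ∀ i : Fin (d + 1), q1 (FreeLieAlgebra.of k i) ∈ S := by
      intro i
      refine Fin.lastCases ?_ (fun i => ?_) i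
      · exact LieSubalgebra.subset_lieSpan (Set.mem_insert _ _)
      · refine LieSubalgebra.subset_lieSpan (Set.mem_insert_of_mem _ ⟨ψ (q0 (FreeLieAlgebra.of k i)), ?_⟩)
        change inc0 (φ' (ψ (q0 (FreeLieAlgebra.of k i)))) = _
        rw [hφψ, hinc0, hj]
    let h : B →ₗ⁅k⁆ S := FreeLieAlgebra.lift k (fun i => (⟨q1 (FreeLieAlgebra.of k i), hS i⟩ : S))
    have hh : S.incl.comp h = q1 := by
      refine FreeLieAlgebra.hom_ext ?_
      intro i
      change ((h (FreeLieAlgebra.of k i) : S) : B ⧸ J) = q1 (FreeLieAlgebra.of k i)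
      rw [show h (FreeLieAlgebra.of k i) = ⟨q1 (FreeLieAlgebra.of k i), hS i⟩ from
        FreeLieAlgebra.lift_of_apply _ _]
    have h2 : q1 x = ((h x : S) : B ⧸ J) := by
      rw [← hh]; rfl
    change q1 x ∈ S
    rw [h2]
    exact (h x).2
  · intro L' _ _ θ x
    let f : Fin (d + 1) → L' := Fin.lastCases x (fun i => θ (ψ (q0 (FreeLieAlgebra.of k i))))
    have hf1 : f (Fin.last d) = x := Fin.lastCases_last
    have hf2 : ∀ i : Fin d, f i.castSucc = θ (ψ (q0 (FreeLieAlgebra.of k i))) := fun i =>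
      Fin.lastCases_castSucc i
    let F0 : B →ₗ⁅k⁆ L' := FreeLieAlgebra.lift k f
    have hF0 : ∀ i, F0 (FreeLieAlgebra.of k i) = f i := fun i => FreeLieAlgebra.lift_of_apply _ _
    have hcomp : F0.comp j = (θ.comp ψ).comp q0 := by
      refine FreeLieAlgebra.hom_ext ?_
      intro i
      change F0 (j (FreeLieAlgebra.of k i)) = θ (ψ (q0 (FreeLieAlgebra.of k i)))
      rw [hj, hF0, hf2]
    have hcomp' : ∀ y, F0 (j y) = θ (ψ (q0 y)) := fun y => LieHom.congr_fun hcomp y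
    have hker : ∀ y ∈ J, F0 y = 0 := by
      refine span_zero R1 F0 ?_
      rintro _ ⟨y, hy, rfl⟩
      rw [hcomp', show q0 y = 0 from mkq_eq_zero (LieSubmodule.subset_lieSpan hy), map_zero,
        map_zero]
    refine ⟨liftq J F0 hker, fun r => ?_, ?_⟩
    · obtain ⟨y, hy⟩ := mkq_surj I (φ' r)
      change liftq J F0 hker (inc0 (φ' r)) = θ r
      rw [← hy]
      change F0 (j y) = θ r
      rw [hcomp']
      change θ (ψ (mkq I y)) = θ r
      rw [hy, hψφ]
    · change F0 (FreeLieAlgebra.of k (Fin.last d)) = x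
      rw [hF0, hf1]

end Pool.Agent.HIP
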