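import Mathlib
import Pool.Agent.HIP.Basic

/-!
# CTR : the counter algebra
-/

noncomputable section

set_option linter.unusedSectionVars false

namespace Pool.Agent.HIP

open Function
open scoped TensorProduct

namespace CTR

/-- the abelian Lie algebra with basis `x_0, ..., x_{K-1}` -/
def XA (k : Type) (K : ℕ) : Type := Fin K → k

section
variable (k : Type) [Field k] (K : ℕ)

instance : AddCommGroup (XA k K) := inferInstanceAs (AddCommGroup (Fin K → k))
instance : Module k (XA k K) := inferInstanceAs (Module k (Fin K → k))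
instance : Module.Finite k (XA k K) := inferInstanceAs (Module.Finite k (Fin K → k))

instance : Bracket (XA k K) (XA k K) := ⟨fun _ _ => 0⟩

variable {k K} in
theorem XA.lie (x y : XA k K) : ⁅x, y⁆ = 0 := rfl

instance : LieRing (XA k K) where
  add_lie x y z := by simp [XA.lie]
  lie_add x y z := by simp [XA.lie]
  lie_self x := by simp [XA.lie]
  leibniz_lie x y z := by simp [XA.lie]

instance : LieAlgebra k (XA k K) where
  lie_smul c x y := by simp [XA.lie]

variable {K} in
/-- the basis -/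
def bs (i : Fin K) : XA k K := Pi.single (M := fun _ => k) i 1

/-- the sequence of generators -/
def ev0 : ℕ → XA k K := fun i => if h : i < K then bs k ⟨i, h⟩ else 0

variable {k K} in
/-- coordinates -/
def co (x : XA k K) (i : Fin K) : k := x i

variable {k K} in
@[simp] theorem co_add (x y : XA k K) (i : Fin K) : co (x + y) i = co x i + co y i := rfl
variable {k K} in
@[simp] theorem co_smul (c : k) (x : XA k K) (i : Fin K) : co (c • x) i = c * co x i := rfl
variable {k K} in
@[simp] theorem co_zero (i : Fin K) : co (0 : XA k K) i = 0 := rfl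

variable {K} in
theorem co_bs (i j : Fin K) : co (bs k i) j = if j = i then 1 else 0 := by
  unfold co bs
  rw [Pi.single_apply]

variable {k K} in
theorem sum_bs (x : XA k K) : x = ∑ i, co x i • bs k i := by
  have h : ∀ (s : Finset (Fin K)) (j : Fin K),
      co (∑ i ∈ s, co x i • bs k i) j = ∑ i ∈ s, co x i * (if j = i then 1 else 0) := by
    intro s j
    induction s using Finset.induction_on with
    | empty => simp
    | insert a s ha ih => rw [Finset.sum_insert ha, Finset.sum_insert ha, co_add, ih, co_smul, co_bs]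
  apply funext
  intro j
  change co x j = co (∑ i, co x i • bs k i) j
  rw [h]
  simp

/-- the list of relations -/
def rels : List MRel :=
  ((List.range K).flatMap fun i => (List.range K).map fun j => (i, j)).map fun p =>
    if p.1 ≠ p.2 then [(((1 : ℤ), 0), p.2, [p.1])] else []

/-- the family of relations -/
def rho (n : ℕ) : MRel := (rels K).getD n []

theorem rho_primrec : Primrec (rho K) :=
  (Primrec.list_getD ([] : MRel)).comp (Primrec.const (rels K)) Primrec.id

theorem rho_cases (n : ℕ) : rho K n = [] ∨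
    ∃ i j, i < K ∧ j < K ∧ i ≠ j ∧ rho K n = [(((1 : ℤ), 0), j, [i])] := by
  unfold rho
  by_cases hn : n < (rels K).length
  · have h1 : (rels K).getD n [] ∈ rels K := by
      rw [List.getD_eq_getElem _ _ hn]
      exact List.getElem_mem hn
    unfold rels at h1
    rw [List.mem_map] at h1
    obtain ⟨p, hp, h2⟩ := h1
    rw [List.mem_flatMap] at hp
    obtain ⟨i, hi, hp⟩ := hp
    rw [List.mem_map] at hp
    obtain ⟨j, hj, rfl⟩ := hp
    rw [List.mem_range] at hi hj
    change _ = (rels K).getD n [] at h2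
    by_cases hij : i = j
    · left
      rw [← h2]
      simp [hij]
    · right
      refine ⟨i, j, hi, hj, hij, ?_⟩
      rw [← h2]
      simp [hij]
  · left
    rw [List.getD_eq_default _ _ (by omega)]

theorem rho_ex (i j : ℕ) (hi : i < K) (hj : j < K) (hij : i ≠ j) :
    ∃ n, rho K n = [(((1 : ℤ), 0), j, [i])] := by
  have h1 : [(((1 : ℤ), 0), j, [i])] ∈ rels K := by
    unfold rels
    rw [List.mem_map]
    refine ⟨(i, j), ?_, by simp [hij]⟩
    rw [List.mem_flatMap]
    refine ⟨i, List.mem_range.2 hi, ?_⟩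
    rw [List.mem_map]
    exact ⟨j, List.mem_range.2 hj, rfl⟩
  obtain ⟨n, hn, h2⟩ := List.mem_iff_getElem.1 h1
  refine ⟨n, ?_⟩
  unfold rho
  rw [List.getD_eq_getElem _ _ hn, h2]

theorem cf_one : cf k ((1 : ℤ), 0) = 1 := by simp [cf]

variable {k K} in
theorem mval_rel {M : Type} [AddCommGroup M] [Module k M] [LieRingModule (XA k K) M]
    [LieModule k (XA k K) M] (n : Fin K → M) (i j : ℕ) (hi : i < K) (hj : j < K) :
    mval n (conv k K (ev0 k K) [(((1 : ℤ), 0), j, [i])]) = ⁅bs k ⟨i, hi⟩, n ⟨j, hj⟩⁆ := by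
  rw [mval_conv, mvn_cons, mvn_nil, add_zero, cf_one, one_smul]
  simp [ev0, hi, hj]

end

section
variable {k : Type} [Field k] {K : ℕ} {G : Type} [LieRing G] [LieAlgebra k G]

/-- the linear map given by the images of the basis -/
def th (x' : Fin K → G) (hx : ∀ i j, ⁅x' i, x' j⁆ = 0) : XA k K →ₗ⁅k⁆ G where
  toFun y := ∑ i, co y i • x' i
  map_add' x y := by
    rw [← Finset.sum_add_distrib]
    apply Finset.sum_congr rfl
    intro i _
    rw [co_add, add_smul]
  map_smul' c x := by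
    simp only [RingHom.id_apply]
    rw [Finset.smul_sum]
    apply Finset.sum_congr rfl
    intro i _
    rw [co_smul, mul_smul]
  map_lie' := by
    intro x y
    change ∑ i, co (⁅x, y⁆ : XA k K) i • x' i = ⁅∑ i, co x i • x' i, ∑ i, co y i • x' i⁆
    rw [XA.lie]
    have h1 : ∑ i, co (0 : XA k K) i • x' i = 0 := by
      apply Finset.sum_eq_zero
      intro i _
      rw [co_zero, zero_smul]
    rw [h1, sum_lie_sum]
    symm
    apply Finset.sum_eq_zero
    intro i _
    apply Finset.sum_eq_zero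
    intro j _
    rw [smul_lie, lie_smul, hx, smul_zero, smul_zero]

theorem th_apply (x' : Fin K → G) (hx : ∀ i j, ⁅x' i, x' j⁆ = 0) (y : XA k K) :
    th x' hx y = ∑ i, co y i • x' i := rfl

theorem th_bs (x' : Fin K → G) (hx : ∀ i j, ⁅x' i, x' j⁆ = 0) (i : Fin K) :
    th x' hx (bs k i) = x' i := by
  rw [th_apply, Finset.sum_eq_single i]
  · rw [co_bs, if_pos rfl, one_smul]
  · intro j _ hj
    rw [co_bs, if_neg hj, zero_smul]
  · intro h
    exact absurd (Finset.mem_univ i) h

/-- iterated brackets -/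
def it (x' g' : Fin K → G) (i : Fin K) (m : ℕ) : G := (fun u => ⁅x' i, u⁆)^[m] (g' i)

theorem it_zero (x' g' : Fin K → G) (i : Fin K) : it x' g' i 0 = g' i := rfl

theorem it_succ (x' g' : Fin K → G) (i : Fin K) (m : ℕ) :
    it x' g' i (m + 1) = ⁅x' i, it x' g' i m⁆ := by
  unfold it
  rw [Function.iterate_succ_apply']

theorem x_it (x' g' : Fin K → G) (hx : ∀ i j, ⁅x' i, x' j⁆ = 0)
    (hg : ∀ i j, i ≠ j → ⁅x' i, g' j⁆ = 0) (i j : Fin K) (hij : i ≠ j) (m : ℕ) :
    ⁅x' i, it x' g' j m⁆ = 0 := by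
  induction m with
  | zero => rw [it_zero]; exact hg i j hij
  | succ m ih => rw [it_succ, leibniz_lie, hx, zero_lie, ih, lie_zero, add_zero]

theorem g_it (x' g' : Fin K → G) (hg : ∀ i j, i ≠ j → ⁅x' i, g' j⁆ = 0)
    (hgg : ∀ i j, ⁅g' i, g' j⁆ = 0) (i j : Fin K) (hij : i ≠ j) (m : ℕ) :
    ⁅g' i, it x' g' j m⁆ = 0 := by
  induction m with
  | zero => rw [it_zero]; exact hgg i j
  | succ m ih =>
    have h1 : ⁅g' i, x' j⁆ = 0 := by rw [← lie_skew, hg j i (Ne.symm hij), neg_zero]
    rw [it_succ, leibniz_lie, ih, lie_zero, add_zero, h1, zero_lie]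

theorem it_it (x' g' : Fin K → G) (hx : ∀ i j, ⁅x' i, x' j⁆ = 0)
    (hg : ∀ i j, i ≠ j → ⁅x' i, g' j⁆ = 0) (hgg : ∀ i j, ⁅g' i, g' j⁆ = 0)
    (h : ∀ (i : Fin K) (m n : ℕ), ⁅it x' g' i m, it x' g' i n⁆ = 0) (i j : Fin K) (m n : ℕ) :
    ⁅it x' g' i m, it x' g' j n⁆ = 0 := by
  by_cases hij : i = j
  · subst hij; exact h i m n
  · induction m with
    | zero => rw [it_zero]; exact g_it x' g' hg hgg i j hij n
    | succ m ih =>
      rw [it_succ, lie_lie, ih, lie_zero, x_it x' g' hx hg i j hij, lie_zero, sub_zero]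

/-- the span of the iterated brackets -/
def VV (k : Type) [Field k] {G : Type} [LieRing G] [LieAlgebra k G] {K : ℕ}
    (x' g' : Fin K → G) : Submodule k G :=
  Submodule.span k (Set.range fun p : Fin K × ℕ => it x' g' p.1 p.2)

theorem VV_x (x' g' : Fin K → G) (hx : ∀ i j, ⁅x' i, x' j⁆ = 0)
    (hg : ∀ i j, i ≠ j → ⁅x' i, g' j⁆ = 0) (i : Fin K) :
    ∀ v ∈ VV k x' g', ⁅x' i, v⁆ ∈ VV k x' g' := by
  intro v hv
  unfold VV at hv
  induction hv using Submodule.span_induction with
  | mem y hy =>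
    obtain ⟨⟨j, m⟩, rfl⟩ := hy
    by_cases hij : i = j
    · subst hij
      change ⁅x' i, it x' g' i m⁆ ∈ _
      rw [← it_succ]
      exact Submodule.subset_span ⟨(i, m + 1), rfl⟩
    · change ⁅x' i, it x' g' j m⁆ ∈ _
      rw [x_it x' g' hx hg i j hij]
      exact Submodule.zero_mem _
  | zero => rw [lie_zero]; exact Submodule.zero_mem _
  | add a b _ _ ha hb => rw [lie_add]; exact Submodule.add_mem _ ha hb
  | smul c a _ ha => rw [lie_smul]; exact Submodule.smul_mem _ c ha

theorem VV_th (x' g' : Fin K → G) (hx : ∀ i j, ⁅x' i, x' j⁆ = 0)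
    (hg : ∀ i j, i ≠ j → ⁅x' i, g' j⁆ = 0) (y : XA k K) :
    ∀ v ∈ VV k x' g', ⁅th x' hx y, v⁆ ∈ VV k x' g' := by
  intro v hv
  rw [th_apply, sum_lie]
  apply Submodule.sum_mem
  intro i _
  rw [smul_lie]
  exact Submodule.smul_mem _ _ (VV_x x' g' hx hg i v hv)

theorem VV_comm (x' g' : Fin K → G) (hx : ∀ i j, ⁅x' i, x' j⁆ = 0)
    (hg : ∀ i j, i ≠ j → ⁅x' i, g' j⁆ = 0) (hgg : ∀ i j, ⁅g' i, g' j⁆ = 0)
    (h : ∀ (i : Fin K) (m n : ℕ), ⁅it x' g' i m, it x' g' i n⁆ = 0) :
    ∀ u ∈ VV k x' g', ∀ v ∈ VV k x' g', ⁅u, v⁆ = 0 := by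
  intro u hu v hv
  unfold VV at hu hv
  induction hu using Submodule.span_induction with
  | mem y hy =>
    obtain ⟨⟨i, m⟩, rfl⟩ := hy
    induction hv using Submodule.span_induction with
    | mem z hz =>
      obtain ⟨⟨j, n⟩, rfl⟩ := hz
      exact it_it x' g' hx hg hgg h i j m n
    | zero => rw [lie_zero]
    | add a b _ _ ha hb => rw [lie_add, ha, hb, add_zero]
    | smul c a _ ha => rw [lie_smul, ha, smul_zero]
  | zero => rw [zero_lie]
  | add a b _ _ ha hb => rw [add_lie, ha, hb, add_zero]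
  | smul c a _ ha => rw [smul_lie, ha, smul_zero]

end

end CTR

open CTR in
theorem ctr_proof : Stmt_CtrAsm := by
  intro hRPAb hPMCh hRPSd hExMod k _ hk K
  obtain ⟨E, _, _, _, _, e, hE⟩ := hExMod k (XA k K) (Fin K)
    (Set.range fun n => conv k K (ev0 k K) (rho K n))
  obtain ⟨ev, hev⟩ := hRPAb k (XA k K) (fun x y => XA.lie x y) inferInstance
  obtain ⟨ρ2, hρ2⟩ := hPMCh k hk (XA k K) (ev0 k K) ev
    ⟨K, fun i hi => by unfold ev0; rw [dif_neg (by omega)]⟩ hev.gens E K e (rho K)
    ⟨rho_primrec K, hE⟩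
  have hrel : ∀ i j : Fin K, i ≠ j → ⁅bs k i, e j⁆ = 0 := by
    intro i j hij
    obtain ⟨n, hn⟩ := rho_ex K i j i.2 j.2 (fun h => hij (Fin.ext h))
    have h1 := hE.rel (Set.mem_range_self n)
    rw [hn] at h1
    rw [mval_rel e i j i.2 j.2] at h1
    exact h1
  refine ⟨Sd E (XA k K), inferInstance, inferInstance, fun i => Sd.inr k E (bs k i),
    fun j => Sd.inl k (XA k K) (e j), hRPSd k (XA k K) ev hev E K e ρ2 hρ2, ?_, ?_, ?_, ?_, ?_⟩
  · apply Sd.derivedSeries
    rw [LieSubmodule.eq_bot_iff]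
    refine derivedSeries_succ_mem (p := fun x => x = 0) rfl ?_ ?_ ?_
    · intro x y hx hy; rw [hx, hy, add_zero]
    · intro c x hx; rw [hx, smul_zero]
    · intro x _ y _; exact XA.lie x y
  · intro i j
    rw [← LieHom.map_lie, XA.lie, map_zero]
  · intro i j hij
    rw [Sd.lie_inr_inl, hrel i j hij, map_zero]
  · intro i j
    exact Sd.lie_inl_inl _ _
  · intro G _ _ x' g' h1 h2 h3 h4
    obtain ⟨F, hF⟩ := hE.2.2 (Res (th (k := k) x' h1) G) (fun i => toRes (th (k := k) x' h1) G (g' i)) (by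
      rintro _ ⟨n, rfl⟩
      rcases rho_cases K n with h | ⟨i, j, hi, hj, hij, h⟩
      · change mval _ (conv k K (ev0 k K) (rho K n)) = 0
        rw [h]
        rfl
      · change mval _ (conv k K (ev0 k K) (rho K n)) = 0
        rw [h, mval_rel _ i j hi hj, Res.lie_toRes, th_bs, h2 _ _ (fun hh => hij (congrArg Fin.val hh)),
          map_zero])
    let jj : E →ₗ[k] G := (toRes (th (k := k) x' h1) G).symm.toLinearMap ∘ₗ (F : E →ₗ[k] _)
    have hj : ∀ x, jj x = (toRes (th (k := k) x' h1) G).symm (F x) := fun _ => rfl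
    have hjV : ∀ x, jj x ∈ VV k x' g' := by
      intro x
      refine hE.induction (p := fun x => jj x ∈ VV k x' g') ?_ ?_ ?_ ?_ ?_ x
      · rw [map_zero]; exact Submodule.zero_mem _
      · intro a b ha hb; rw [map_add]; exact Submodule.add_mem _ ha hb
      · intro c a ha; rw [map_smul]; exact Submodule.smul_mem _ c ha
      · intro y a ha
        have h5 : jj ⁅y, a⁆ = ⁅th (k := k) x' h1 y, jj a⁆ := by
          rw [hj, hj, LieModuleHom.map_lie, Res.lie_def]
          rfl
        rw [h5]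
        exact VV_th x' g' h1 h2 y _ ha
      · intro i
        rw [hj, hF]
        exact Submodule.subset_span ⟨(i, 0), rfl⟩
    refine ⟨Sd.lift (th x' h1) jj ?_ ?_, ?_, ?_⟩
    · intro q d
      rw [hj, hj, LieModuleHom.map_lie, Res.lie_def]
      rfl
    · intro d d'
      exact VV_comm x' g' h1 h2 h3 h4 _ (hjV d) _ (hjV d')
    · intro i
      rw [Sd.lift_apply, Sd.inr_d, Sd.inr_q, map_zero, zero_add, th_bs]
    · intro i
      rw [Sd.lift_apply, Sd.inl_d, Sd.inl_q, map_zero, add_zero, hj, hF]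
      rfl

end Pool.Agent.HIP
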