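import Mathlib
import Pool.Agent.HIP.Basic

/-!
# The doubling elements
-/

noncomputable section

set_option linter.unusedSectionVars false

namespace Pool.Agent.HIP

open Function
open scoped TensorProduct

namespace DBLX

variable {k : Type} [Field k] {j : ℕ} {I : Type} {r : ℕ} {S : Stage k j (I ⊕ Fin r)}
  {A : Type} [AddCommGroup A] [Module k A] [LieRingModule S.Q A] [LieModule k S.Q A]
  {al0 : Fin r → A} (L : Lay S A al0)
  {M : Type} [AddCommGroup M] [Module k M] [LieRingModule L.P M] [LieModule k L.P M]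

/-- the projection is onto -/
theorem pi_surj (x : S.E) : ∃ z : L.Z, L.pi z = x := by
  refine S.presE.induction (p := fun x => ∃ z : L.Z, L.pi z = x) ⟨0, map_zero _⟩ ?_ ?_ ?_ ?_ x
  · rintro _ _ ⟨a, rfl⟩ ⟨b, rfl⟩
    exact ⟨a + b, map_add _ _ _⟩
  · rintro c _ ⟨a, rfl⟩
    exact ⟨c • a, map_smul _ _ _⟩
  · rintro y _ ⟨a, rfl⟩
    exact ⟨⁅y, a⁆, LieModuleHom.map_lie _ _ _⟩
  · intro i
    exact ⟨L.z i, L.pi_z i⟩

/-- the quadratic action -/
def B (e : M) : L.Z →ₗ[k] L.Z →ₗ[k] M :=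
  LinearMap.mk₂ k (fun x x' => ⁅L.zz x, ⁅L.zz x', e⁆⁆)
    (by intro x y z; simp only [map_add, add_lie])
    (by intro c x y; simp only [map_smul, smul_lie])
    (by intro x y z; simp only [map_add, add_lie, lie_add])
    (by intro c x y; simp only [map_smul, smul_lie, lie_smul])

theorem B_apply (e : M) (x x' : L.Z) : B L e x x' = ⁅L.zz x, ⁅L.zz x', e⁆⁆ := rfl

theorem B_zero_left {e : M} (h : L.Good M e) (x x' : L.Z) (hx : L.pi x = 0) : B L e x x' = 0 := by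
  rw [B_apply, L.swap _ _ (L.zz_q x) (L.zz_q x'), h.R2 x hx, lie_zero]

theorem B_zero_right {e : M} (h : L.Good M e) (x x' : L.Z) (hx : L.pi x' = 0) :
    B L e x x' = 0 := by
  rw [B_apply, h.R2 x' hx, lie_zero]

theorem B_congr {e : M} (h : L.Good M e) {x x' y y' : L.Z} (hx : L.pi x = L.pi y)
    (hx' : L.pi x' = L.pi y') : B L e x x' = B L e y y' := by
  have h1 : B L e (x - y) x' = 0 := B_zero_left L h _ _ (by rw [map_sub, hx, sub_self])
  have h2 : B L e y (x' - y') = 0 := B_zero_right L h _ _ (by rw [map_sub, hx', sub_self])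
  rw [map_sub, LinearMap.sub_apply, sub_eq_zero] at h1
  rw [map_sub, sub_eq_zero] at h2
  rw [h1, h2]

/-- the map on tensors -/
theorem exists_Phi {e : M} (h : L.Good M e) :
    ∃ Φ : S.E ⊗[k] S.E →ₗ[k] M, ∀ x x' : L.Z, Φ (L.pi x ⊗ₜ[k] L.pi x') = ⁅L.zz x, ⁅L.zz x', e⁆⁆ := by
  obtain ⟨σ, hσ⟩ := LinearMap.exists_rightInverse_of_surjective (L.pi : L.Z →ₗ[k] S.E)
    (LinearMap.range_eq_top.2 (pi_surj L))
  have hσ' : ∀ x, L.pi (σ x) = x := fun x => LinearMap.congr_fun hσ x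
  refine ⟨TensorProduct.lift ((B L e).compl₁₂ σ σ), ?_⟩
  intro x x'
  rw [TensorProduct.lift.tmul, LinearMap.compl₁₂_apply, ← B_apply]
  exact B_congr L h (hσ' _) (hσ' _)

theorem Phi_lie {e : M} (h : L.Good M e) {Φ : S.E ⊗[k] S.E →ₗ[k] M}
    (hΦ : ∀ x x' : L.Z, Φ (L.pi x ⊗ₜ[k] L.pi x') = ⁅L.zz x, ⁅L.zz x', e⁆⁆) (y : S.Y)
    (u : S.E ⊗[k] S.E) : Φ ⁅y, u⁆ = ⁅L.yy y, Φ u⁆ := by
  induction u using TensorProduct.induction_on with
  | zero => rw [lie_zero, map_zero, lie_zero]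
  | tmul a b =>
    obtain ⟨x, rfl⟩ := pi_surj L a
    obtain ⟨x', rfl⟩ := pi_surj L b
    rw [TensorProduct.LieModule.lie_tmul_right, ← LieModuleHom.map_lie, ← LieModuleHom.map_lie,
      map_add, hΦ, hΦ, hΦ, leibniz_lie (L.yy y), leibniz_lie (L.yy y) (L.zz x'), h.R1, lie_zero,
      add_zero, L.yy_zz, L.yy_zz]
  | add a b ha hb => rw [lie_add, map_add, ha, hb, map_add, lie_add]

/-- the relation (R3) for all elements -/
theorem R3_all {e : M} (h : L.Good M e) {Φ : S.E ⊗[k] S.E →ₗ[k] M}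
    (hΦ : ∀ x x' : L.Z, Φ (L.pi x ⊗ₜ[k] L.pi x') = ⁅L.zz x, ⁅L.zz x', e⁆⁆) (c : L.C) :
    ⁅L.cc c, e⁆ = Φ (L.gam c) := by
  refine L.presC.induction (p := fun c => ⁅L.cc c, e⁆ = Φ (L.gam c)) ?_ ?_ ?_ ?_ ?_ c
  · simp
  · intro x y hx hy
    rw [map_add, add_lie, hx, hy, map_add, map_add]
  · intro t x hx
    rw [map_smul, smul_lie, hx, map_smul, map_smul]
  · intro y x hx
    rw [← L.yy_cc, lie_lie, h.R1, lie_zero, sub_zero, hx, LieModuleHom.map_lie, Phi_lie L h hΦ]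
  · intro l
    rw [h.R3 l, L.gam_c, ← L.gg_g, map_list_sum, List.map_map]
    congr 1
    apply List.map_congr_left
    intro p _
    exact (hΦ _ _).symm

theorem exists_gam (u : S.E ⊗[k] S.E) (hu : u ∈ LieSubmodule.lieSpan k S.Y (Set.range S.g)) :
    ∃ c : L.C, L.gam c = u := by
  have h1 : LieSubmodule.lieSpan k S.Y (Set.range S.g) ≤ L.gam.range := by
    rw [LieSubmodule.lieSpan_le]
    rintro _ ⟨l, rfl⟩
    exact ⟨L.c l, L.gam_c l⟩
  exact h1 hu

/-- words in the module part commute with elements of the module part -/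
theorem wact_comm (x : L.P) (hx : x.q = 0) (l : List L.Z) (m : M) :
    ⁅x, wact (l.map L.zz) m⁆ = wact (l.map L.zz) ⁅x, m⁆ := by
  induction l with
  | nil => rfl
  | cons a l ih =>
    rw [List.map_cons, wact_cons, wact_cons, L.swap _ _ hx (L.zz_q a), ih]

end DBLX

open DBLX in
theorem dbl_proof : Stmt_Dbl := by
  intro k _ j r I S A _ _ _ _ al0 L M _ _ _ _ e h a a' ha ha'
  obtain ⟨Φ, hΦ⟩ := exists_Phi L h
  obtain ⟨c, hc⟩ := exists_gam L _ (S.sq _ ha _ ha')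
  have h1 : ⁅L.cc c, e⁆ = (2 : k) • ⁅L.zz a, ⁅L.zz a', e⁆⁆ := by
    rw [R3_all L h hΦ, hc, LinearEquiv.symm_apply_apply, LinearEquiv.symm_apply_apply, map_add,
      hΦ, hΦ, L.swap (L.zz a') (L.zz a) (L.zz_q _) (L.zz_q _), two_smul]
  have h2 : ∀ l : List L.Z,
      ⁅L.cc c, wact (l.map L.zz) e⁆ = (2 : k) • wact (((a :: a' :: l)).map L.zz) e := by
    intro l
    rw [wact_comm L _ (L.cc_q c), h1, wact_smul, ← wact_comm L _ (L.zz_q a),
      ← wact_comm L _ (L.zz_q a')]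
    rfl
  refine ⟨c, fun l => ⟨h2 l, ?_⟩⟩
  unfold Lay.te
  rw [← wact_comm L _ (L.tt_q L.t), ← wact_comm L _ (L.tt_q L.t),
    L.swap _ _ (L.cc_q c) (L.tt_q L.t), h2 l, lie_smul]

end Pool.Agent.HIP
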