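import Pool.Agent.HIP.Basic

/-!
# EXMOD : presented modules over Lie algebras exist
-/

noncomputable section

set_option linter.unusedSectionVars false

namespace Pool.Agent.HIP

namespace EXMOD

open Function

attribute [local instance 100] LieRing.ofAssociativeRing

section

variable (k : Type) [Field k] (Y : Type) [LieRing Y] [LieAlgebra k Y]

/-- the image of an element in the universal enveloping algebra -/
def u (y : Y) : UniversalEnvelopingAlgebra k Y := UniversalEnvelopingAlgebra.ι k y

theorem u_add (x y : Y) : u k Y (x + y) = u k Y x + u k Y y := by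
  unfold u; rw [map_add]
theorem u_smul (c : k) (y : Y) : u k Y (c • y) = c • u k Y y := by
  unfold u; rw [map_smul]
theorem u_lie (x y : Y) : u k Y ⁅x, y⁆ = u k Y x * u k Y y - u k Y y * u k Y x := by
  unfold u; rw [LieHom.map_lie, LieRing.of_associative_ring_bracket]

/-- a module over the universal enveloping algebra as a module over the Lie algebra -/
@[reducible] def lrm (M : Type) [AddCommGroup M] [Module (UniversalEnvelopingAlgebra k Y) M] :
    LieRingModule Y M where
  bracket y m := u k Y y • m
  add_lie x y m := by
    rw [u_add, add_smul]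
  lie_add x m n := smul_add _ _ _
  leibniz_lie x y m := by
    change u k Y x • u k Y y • m = u k Y ⁅x, y⁆ • m + u k Y y • u k Y x • m
    rw [u_lie, sub_smul, mul_smul, mul_smul]
    abel

theorem lmod (M : Type) [AddCommGroup M] [Module k M] [Module (UniversalEnvelopingAlgebra k Y) M]
    [IsScalarTower k (UniversalEnvelopingAlgebra k Y) M] :
    @LieModule k Y M _ _ _ _ (by infer_instance) (lrm k Y M) := by
  let _ := lrm k Y M
  refine { smul_lie := ?_, lie_smul := ?_ }
  · intro t x m
    change u k Y (t • x) • m = t • u k Y x • m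
    rw [u_smul, smul_assoc]
  · intro t x m
    change u k Y x • t • m = t • u k Y x • m
    rw [← algebraMap_smul (UniversalEnvelopingAlgebra k Y) t m,
      ← algebraMap_smul (UniversalEnvelopingAlgebra k Y) t (u k Y x • m), ← mul_smul, ← mul_smul,
      Algebra.commutes]

/-- the enveloping algebra is generated by the Lie algebra -/
theorem mem_of_u (T : Subalgebra k (UniversalEnvelopingAlgebra k Y)) (h1 : ∀ y, u k Y y ∈ T)
    (a : UniversalEnvelopingAlgebra k Y) : a ∈ T := by
  let f1 : Y →ₗ⁅k⁆ T :=
    { toFun := fun y => ⟨u k Y y, h1 y⟩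
      map_add' := fun x y => Subtype.ext (u_add k Y x y)
      map_smul' := fun c x => Subtype.ext (u_smul k Y c x)
      map_lie' := fun {x y} => Subtype.ext (u_lie k Y x y) }
  have h2 : T.val.comp (UniversalEnvelopingAlgebra.lift k f1) =
      AlgHom.id k (UniversalEnvelopingAlgebra k Y) := by
    apply UniversalEnvelopingAlgebra.hom_ext
    ext y
    change ((UniversalEnvelopingAlgebra.lift k f1 (UniversalEnvelopingAlgebra.ι k y) : T) :
      UniversalEnvelopingAlgebra k Y) = UniversalEnvelopingAlgebra.ι k y
    rw [UniversalEnvelopingAlgebra.lift_ι_apply]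
    rfl
  have h3 := DFunLike.congr_fun h2 a
  have h4 : ((UniversalEnvelopingAlgebra.lift k f1 a : T) : UniversalEnvelopingAlgebra k Y) = a :=
    h3
  rw [← h4]
  exact Subtype.property _

/-- the universal property -/
theorem exists_alg (M : Type) [AddCommGroup M] [Module k M] [LieRingModule Y M]
    [LieModule k Y M] : ∃ φ : UniversalEnvelopingAlgebra k Y →ₐ[k] Module.End k M,
      ∀ y m, φ (u k Y y) m = ⁅y, m⁆ := by
  refine ⟨UniversalEnvelopingAlgebra.lift k (LieModule.toEnd k Y M), fun y m => ?_⟩
  unfold u
  rw [UniversalEnvelopingAlgebra.lift_ι_apply]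
  rfl

end

end EXMOD

open EXMOD in
theorem exmod_proof : Stmt_ExMod := by
  intro k _ Y _ _ ι Rel
  classical
  let U := UniversalEnvelopingAlgebra k Y
  let F := ι →₀ U
  let g : ι → F := fun i => Finsupp.single i 1
  let val : MR k Y ι → F := fun R =>
    (List.map (fun t => t.1 • ((t.2.1.map (u k Y)).prod • g t.2.2)) R).sum
  have hval0 : val [] = 0 := by simp [val]
  have hval1 : ∀ t R, val (t :: R) = t.1 • ((t.2.1.map (u k Y)).prod • g t.2.2) + val R := by
    intro t R
    simp only [val, List.map_cons, List.sum_cons]
  let N : Submodule U F := Submodule.span U (val '' Rel)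
  let i1 : LieRingModule Y (F ⧸ N) := lrm k Y (F ⧸ N)
  let i2 : LieModule k Y (F ⧸ N) := lmod k Y (F ⧸ N)
  have hbr : ∀ (y : Y) (m : F ⧸ N), ⁅y, m⁆ = u k Y y • m := fun _ _ => rfl
  have hw : ∀ (w : List Y) (m : F ⧸ N), wact w m = (w.map (u k Y)).prod • m := by
    intro w m
    induction w with
    | nil => simp
    | cons x w ih => rw [wact_cons, ih, hbr, List.map_cons, List.prod_cons, mul_smul]
  let e : ι → F ⧸ N := fun i => N.mkQ (g i)
  have hval : ∀ R : MR k Y ι, mval e R = N.mkQ (val R) := by
    intro R
    induction R with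
    | nil => rw [mval_nil, hval0, map_zero]
    | cons t R ih =>
      rw [mval_cons, ih, hw, hval1, map_add]
      rfl
  refine ⟨F ⧸ N, inferInstance, inferInstance, i1, i2, e, ?_, ?_, ?_⟩
  · intro R hR
    rw [hval]
    exact (Submodule.Quotient.mk_eq_zero N).2 (Submodule.subset_span ⟨R, hR, rfl⟩)
  · -- generation
    rw [eq_top_iff]
    intro x _
    -- action of U preserves Lie submodules
    have hU : ∀ (S : LieSubmodule k Y (F ⧸ N)) (a : U), ∀ m ∈ S, a • m ∈ S := by
      intro S a
      let T : Subalgebra k U :=
        { carrier := {a | ∀ m ∈ S, a • m ∈ S}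
          mul_mem' := fun {a b} ha hb m hm => by rw [mul_smul]; exact ha _ (hb _ hm)
          one_mem' := fun m hm => by rw [one_smul]; exact hm
          add_mem' := fun {a b} ha hb m hm => by rw [add_smul]; exact add_mem (ha _ hm) (hb _ hm)
          zero_mem' := fun m hm => by rw [zero_smul]; exact S.zero_mem
          algebraMap_mem' := fun c m hm => by
            rw [algebraMap_smul]; exact S.smul_mem c hm }
      exact mem_of_u k Y T (fun y m hm => S.lie_mem hm) a
    obtain ⟨x, rfl⟩ := N.mkQ_surjective x
    refine Finsupp.induction_linear (motive := fun x : F =>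
      N.mkQ x ∈ LieSubmodule.lieSpan k Y (Set.range e)) x ?_ ?_ ?_
    · change N.mkQ 0 ∈ _
      rw [map_zero]; exact LieSubmodule.zero_mem _
    · intro a b ha hb
      change N.mkQ (a + b) ∈ _
      rw [map_add]; exact add_mem ha hb
    · intro i a
      have h1 : (Finsupp.single i a : F) = a • g i := by
        change (Finsupp.single i a : ι →₀ U) = a • Finsupp.single i 1
        rw [Finsupp.smul_single, smul_eq_mul, mul_one]
      change N.mkQ (Finsupp.single i a : F) ∈ _
      rw [h1, map_smul]
      exact hU _ a _ (LieSubmodule.subset_lieSpan ⟨i, rfl⟩)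
  · -- universal property
    intro M _ _ _ _ n hn
    obtain ⟨φ, hφ⟩ := exists_alg k Y M
    let iM : Module U M := Module.compHom M φ.toRingHom
    have hs : ∀ (a : U) (m : M), a • m = φ a m := fun _ _ => rfl
    let G : F →ₗ[U] M := Finsupp.linearCombination U n
    have hGg : ∀ i, G (g i) = n i := by
      intro i
      change Finsupp.linearCombination U n (Finsupp.single i 1) = n i
      rw [Finsupp.linearCombination_single, one_smul]
    have hsk : ∀ (c : k) (f : F), G (c • f) = c • G f := by
      intro c f
      rw [← algebraMap_smul U c f, map_smul, hs, AlgHom.commutes]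
      rfl
    have hwM : ∀ (w : List Y) (m : M), (w.map (u k Y)).prod • m = wact w m := by
      intro w m
      induction w with
      | nil => simp
      | cons x w ih =>
        rw [wact_cons, ← ih, List.map_cons, List.prod_cons, mul_smul, hs (u k Y x), hφ]
    have hGval : ∀ R : MR k Y ι, G (val R) = mval n R := by
      intro R
      induction R with
      | nil => rw [mval_nil, hval0, map_zero]
      | cons t R ih =>
        rw [hval1, map_add, hsk, map_smul, hGg, hwM, ih, mval_cons]
    have hN : N ≤ LinearMap.ker G := by
      rw [Submodule.span_le]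
      rintro _ ⟨R, hR, rfl⟩
      change G (val R) = 0
      rw [hGval, hn R hR]
    let Gq : (F ⧸ N) →ₗ[U] M := N.liftQ G hN
    have hGq : ∀ f, Gq (N.mkQ f) = G f := fun f => N.liftQ_apply G f
    refine ⟨{ toFun := Gq, map_add' := map_add Gq, map_smul' := ?_, map_lie' := ?_ }, ?_⟩
    · intro c x
      obtain ⟨x, rfl⟩ := N.mkQ_surjective x
      change Gq (N.mkQ (c • x)) = _
      rw [hGq, hsk]
      rfl
    · intro y x
      change Gq (u k Y y • x) = _
      rw [map_smul, hs, hφ]
    · intro i
      change Gq (N.mkQ (g i)) = n i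
      rw [hGq, hGg]

end Pool.Agent.HIP
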