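import Mathlib
import Pool.Agent.HIP.Basic

/-!
# Module EXPR: every element is the value of an expression
-/

noncomputable section

namespace Pool.Agent.HIP

namespace EXPRX

variable {k : Type} [Field k] {L : Type} [LieRing L] [LieAlgebra k L]

theorem lval_smul (ev : ℕ → L) (c : Cf) (R : LRel) :
    lval k ev (R.map fun t => (c.mul t.1, t.2)) = cf k c • lval k ev R := by
  induction R with
  | nil => simp
  | cons t R ih =>
    rw [List.map_cons, lval_cons, lval_cons, ih, cf_mul, smul_add, smul_smul]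

end EXPRX

theorem expr_proof : Stmt_ExprAsm := by
  intro hBrk k _ hk L _ _ ev hg x
  obtain ⟨brk, -, hbrk⟩ := hBrk
  refine hg.induction (p := fun x => ∃ W : LRel, lval k ev W = x) ?_ ?_ ?_ ?_ ?_ x
  · exact ⟨[], rfl⟩
  · rintro x y ⟨W, rfl⟩ ⟨V, rfl⟩
    exact ⟨W ++ V, lval_append ev W V⟩
  · rintro c x ⟨W, rfl⟩
    obtain ⟨c', rfl⟩ := hk.2.1 c
    exact ⟨_, EXPRX.lval_smul ev c' W⟩
  · rintro x y ⟨W, rfl⟩ ⟨V, rfl⟩
    exact ⟨brk W V, hbrk k L ev W V⟩
  · intro i
    refine ⟨[((1, 0), [i])], ?_⟩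
    rw [lval_cons, lval_nil]
    simp [cf]

end Pool.Agent.HIP
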