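import Pool.Agent.HIP.Basic

/-!
# Module EXT: the relative Poincare-Birkhoff-Witt theorem
-/

noncomputable section

set_option linter.unusedSectionVars false
set_option linter.style.haveILetI false

namespace Pool.Agent.HIP

open Function

namespace Ext

/-- The data: a basis of a complement with its coordinate functions, and the action of the
component in the subalgebra. -/
structure Dat (k L M ι : Type) [Field k] [LieRing L] [LieAlgebra k L] [AddCommGroup M] [Module k M]
    [LinearOrder ι] where
  /-- the basis elements -/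
  v : ι → L
  /-- coordinates -/
  c : L →ₗ[k] (ι →₀ k)
  /-- action of the component in the subalgebra -/
  ρ : L →ₗ[k] (M →ₗ[k] M)
  cv : ∀ i, c (v i) = Finsupp.single i 1
  ρv : ∀ i, ρ (v i) = 0
  hc : ∀ x y, c x = 0 → c y = 0 → c ⁅x, y⁆ = 0
  hρ : ∀ x y, c x = 0 → c y = 0 → ∀ m, ρ ⁅x, y⁆ m = ρ x (ρ y m) - ρ y (ρ x m)

variable {k L M ι : Type} [Field k] [LieRing L] [LieAlgebra k L] [AddCommGroup M] [Module k M]
  [LinearOrder ι] (D : Dat k L M ι)

/-- the underlying space -/
abbrev W (M ι : Type) [AddCommGroup M] : Type := Multiset ι →₀ M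

/-- the leading term -/
def lead (s : Multiset ι) : L →ₗ[k] M →ₗ[k] W M ι :=
  (Finsupp.linearCombination k fun i => (Finsupp.lsingle (i ::ₘ s) : M →ₗ[k] W M ι)).comp D.c

/-- the part of an element involving the basis elements of index greater than `j` -/
def gt (j : ι) : L →ₗ[k] L :=
  LinearMap.id - (Finsupp.linearCombination k fun i => if i ≤ j then D.v i else 0).comp D.c

/-- the action -/
def T (s : Multiset ι) (x : L) : M →ₗ[k] W M ι :=
  match h : s.sort (· ≤ ·) with
  | [] => lead D s x + (Finsupp.lsingle 0).comp (D.ρ x)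
  | j :: w => lead D s x + (Finsupp.lsum k fun s' : Multiset ι =>
      if _h' : Multiset.card s' < Multiset.card s then T s' (D.v j) else 0).comp
        (T (w : Multiset ι) (gt D j x) - lead D (w : Multiset ι) (gt D j x)) +
      T (w : Multiset ι) ⁅gt D j x, D.v j⁆
termination_by Multiset.card s
decreasing_by
  all_goals first
    | exact _h'
    | (have h2 := congrArg List.length h
       rw [Multiset.length_sort, List.length_cons] at h2
       rw [Multiset.coe_card, h2]
       exact Nat.lt_succ_self _)

theorem T_zero (x : L) : T D 0 x = lead D 0 x + (Finsupp.lsingle 0).comp (D.ρ x) := by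
  rw [T]
  split
  · rfl
  · rename_i j w h
    rw [Multiset.sort_zero] at h
    exact absurd h (by simp)

theorem T_cons {j : ι} {s : Multiset ι} (hj : ∀ i ∈ s, j ≤ i) (x : L) :
    T D (j ::ₘ s) x = lead D (j ::ₘ s) x + (Finsupp.lsum k fun s' : Multiset ι =>
      if Multiset.card s' < Multiset.card s + 1 then T D s' (D.v j) else 0).comp
        (T D s (gt D j x) - lead D s (gt D j x)) + T D s ⁅gt D j x, D.v j⁆ := by
  rw [T]
  split
  · rename_i h
    rw [Multiset.sort_cons _ _ _ hj] at h
    exact absurd h (by simp)
  · rename_i j' w h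
    rw [Multiset.sort_cons _ _ _ hj] at h
    obtain ⟨rfl, rfl⟩ := List.cons.inj h
    rw [Multiset.sort_eq]
    simp only [Multiset.card_cons, dite_eq_ite]

/-- induction on the number of elements, removing the smallest element -/
theorem ind {P : Multiset ι → Prop} (h0 : P 0)
    (h1 : ∀ (j : ι) (s : Multiset ι), (∀ i ∈ s, j ≤ i) →
      (∀ s' : Multiset ι, Multiset.card s' ≤ Multiset.card s → P s') → P (j ::ₘ s)) :
    ∀ s, P s := by
  have key : ∀ (n : ℕ) (s : Multiset ι), Multiset.card s ≤ n → P s := by
    intro n
    induction n with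
    | zero =>
      intro s hs
      rw [Multiset.card_eq_zero.mp (Nat.le_zero.mp hs)]
      exact h0
    | succ n ih =>
      intro s hs
      rcases h : s.sort (· ≤ ·) with _ | ⟨j, w⟩
      · have h2 := Multiset.sort_eq s (· ≤ ·)
        rw [h] at h2
        rw [← h2]
        exact h0
      · have h2 := Multiset.sort_eq s (· ≤ ·)
        rw [h] at h2
        have h3 := Multiset.pairwise_sort s (· ≤ ·)
        rw [h, List.pairwise_cons] at h3
        have h4 : s = j ::ₘ (w : Multiset ι) := h2.symm
        rw [h4, Multiset.card_cons] at hs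
        rw [h4]
        refine h1 j w (fun i hi => h3.1 i (Multiset.mem_coe.mp hi)) fun s' hs' => ih s' ?_
        omega
  exact fun s => key _ s le_rfl

theorem T_add (s : Multiset ι) : ∀ x y : L, T D s (x + y) = T D s x + T D s y := by
  induction s using ind with
  | h0 =>
    intro x y
    rw [T_zero, T_zero, T_zero, map_add, map_add, LinearMap.comp_add]
    abel
  | h1 j s hj ih =>
    intro x y
    have hs := ih s le_rfl
    rw [T_cons D hj, T_cons D hj, T_cons D hj, map_add, map_add, add_lie, hs, hs, map_add,
      add_sub_add_comm, LinearMap.comp_add]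
    abel

theorem T_smul (s : Multiset ι) : ∀ (a : k) (x : L), T D s (a • x) = a • T D s x := by
  induction s using ind with
  | h0 =>
    intro a x
    rw [T_zero, T_zero, map_smul, map_smul, LinearMap.comp_smul, smul_add]
  | h1 j s hj ih =>
    intro a x
    have hs := ih s le_rfl
    have e : a • T D s (gt D j x) - a • lead D s (gt D j x) =
        a • (T D s (gt D j x) - lead D s (gt D j x)) := (smul_sub _ _ _).symm
    rw [T_cons D hj, T_cons D hj, map_smul, map_smul, smul_lie, hs, hs, map_smul, e,
      LinearMap.comp_smul, smul_add, smul_add]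

/-- elements of length at most `n` -/
def Wn (k M ι : Type) [Field k] [AddCommGroup M] [Module k M] (n : ℕ) : Submodule k (W M ι) :=
  Finsupp.supported M k {s | Multiset.card s ≤ n}

theorem single_mem_Wn {n : ℕ} {s : Multiset ι} (hs : Multiset.card s ≤ n) (m : M) :
    (Finsupp.single s m : W M ι) ∈ Wn k M ι n :=
  Finsupp.single_mem_supported k m hs

theorem Wn_mono {n n' : ℕ} (h : n ≤ n') : Wn k M ι n ≤ Wn k M ι n' :=
  Finsupp.supported_mono fun _ hs => le_trans hs h

/-- the leading term as a sum -/
theorem lead_apply (s : Multiset ι) (x : L) (m : M) :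
    lead D s x m = ∑ i ∈ (D.c x).support, (D.c x) i • (Finsupp.single (i ::ₘ s) m : W M ι) := by
  simp [lead, Finsupp.linearCombination_apply, Finsupp.sum]

theorem lead_mem (s : Multiset ι) (x : L) (m : M) :
    lead D s x m ∈ Wn k M ι (Multiset.card s + 1) := by
  rw [lead_apply]
  refine Submodule.sum_mem _ fun i _ => Submodule.smul_mem _ _ (single_mem_Wn ?_ m)
  rw [Multiset.card_cons]

theorem deg (s : Multiset ι) : ∀ (x : L) (m : M),
    T D s x m - lead D s x m ∈ Wn k M ι (Multiset.card s) := by
  induction s using ind with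
  | h0 =>
    intro x m
    rw [T_zero]
    simp only [LinearMap.add_apply, LinearMap.comp_apply, add_sub_cancel_left]
    exact single_mem_Wn le_rfl _
  | h1 j s hj ih =>
    intro x m
    rw [T_cons D hj]
    simp only [LinearMap.add_apply, LinearMap.comp_apply, LinearMap.sub_apply]
    rw [add_assoc, add_sub_cancel_left, Multiset.card_cons]
    apply Submodule.add_mem
    · have h1 := ih s le_rfl (gt D j x) m
      rw [Finsupp.lsum_apply, Finsupp.sum]
      refine Submodule.sum_mem _ fun s' hs' => ?_
      have h2 : Multiset.card s' ≤ Multiset.card s :=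
        (Finsupp.mem_supported k _).mp h1 hs'
      rw [if_pos (Nat.lt_succ_of_le h2)]
      have h3 := Wn_mono (h2.trans (Nat.le_succ _)) (ih s' h2 (D.v j)
        ((T D s (gt D j x) m - lead D s (gt D j x) m) s'))
      have h4 := Wn_mono (Nat.succ_le_succ h2) (lead_mem D s' (D.v j)
        ((T D s (gt D j x) m - lead D s (gt D j x) m) s'))
      have h5 := Submodule.add_mem _ h3 h4
      rwa [sub_add_cancel] at h5
    · have h3 := Wn_mono (Nat.le_succ _) (ih s le_rfl ⁅gt D j x, D.v j⁆ m)
      have h5 := Submodule.add_mem _ h3 (lead_mem D s ⁅gt D j x, D.v j⁆ m)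
      rwa [sub_add_cancel] at h5

/-- the action as an operator -/
def act (x : L) : W M ι →ₗ[k] W M ι := Finsupp.lsum k fun s => T D s x

theorem act_single (x : L) (s : Multiset ι) (m : M) :
    act D x (Finsupp.single s m) = T D s x m := Finsupp.lsum_single _ _ _ _

theorem act_add (x y : L) : act D (x + y) = act D x + act D y := by
  apply Finsupp.lhom_ext
  intro s m
  rw [LinearMap.add_apply, act_single, act_single, act_single, T_add, LinearMap.add_apply]

theorem act_smul (a : k) (x : L) : act D (a • x) = a • act D x := by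
  apply Finsupp.lhom_ext
  intro s m
  rw [LinearMap.smul_apply, act_single, act_single, T_smul, LinearMap.smul_apply]

/-- the action as a linear map -/
def actL : L →ₗ[k] (W M ι →ₗ[k] W M ι) where
  toFun := act D
  map_add' := act_add D
  map_smul' := act_smul D

theorem actL_apply (x : L) : actL D x = act D x := rfl

theorem act_trunc (n : ℕ) (x : L) {t : W M ι} (ht : t ∈ Wn k M ι n) :
    (Finsupp.lsum k fun s' : Multiset ι =>
      if Multiset.card s' < n + 1 then T D s' x else 0) t = act D x t := by
  rw [act, Finsupp.lsum_apply, Finsupp.lsum_apply]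
  refine Finsupp.sum_congr fun s' hs' => ?_
  have h2 : Multiset.card s' ≤ n := (Finsupp.mem_supported k _).mp ht hs'
  rw [if_pos (Nat.lt_succ_of_le h2)]

theorem act_zero (x : L) (m : M) : act D x (Finsupp.single 0 m) =
    lead D 0 x m + Finsupp.single 0 (D.ρ x m) := by
  rw [act_single, T_zero]
  rfl

/-- the recursion -/
theorem act_cons {j : ι} {s : Multiset ι} (hj : ∀ i ∈ s, j ≤ i) (x : L) (m : M) :
    act D x (Finsupp.single (j ::ₘ s) m) = lead D (j ::ₘ s) x m +
      act D (D.v j) (act D (gt D j x) (Finsupp.single s m) - lead D s (gt D j x) m) +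
      act D ⁅gt D j x, D.v j⁆ (Finsupp.single s m) := by
  rw [act_single, T_cons D hj, act_single, act_single]
  simp only [LinearMap.add_apply, LinearMap.comp_apply, LinearMap.sub_apply]
  rw [act_trunc D _ _ (deg D s (gt D j x) m)]

theorem act_mem {n : ℕ} (x : L) {t : W M ι} (ht : t ∈ Wn k M ι n) :
    act D x t ∈ Wn k M ι (n + 1) := by
  rw [act, Finsupp.lsum_apply, Finsupp.sum]
  refine Submodule.sum_mem _ fun s hs => ?_
  have h2 : Multiset.card s ≤ n := (Finsupp.mem_supported k _).mp ht hs
  have h3 := Submodule.add_mem _ (Wn_mono (h2.trans (Nat.le_succ _)) (deg D s x (t s)))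
    (Wn_mono (Nat.succ_le_succ h2) (lead_mem D s x (t s)))
  rwa [sub_add_cancel] at h3

/-! ### coordinates -/

theorem c_lc (j : ι) (f : ι →₀ k) (i : ι) :
    D.c (Finsupp.linearCombination k (fun i => if i ≤ j then D.v i else 0) f) i =
      if i ≤ j then f i else 0 := by
  rw [Finsupp.linearCombination_apply, Finsupp.sum, map_sum, Finsupp.finsetSum_apply]
  by_cases hi : i ≤ j
  · rw [if_pos hi, Finset.sum_eq_single i]
    · rw [map_smul, if_pos hi, D.cv]
      simp
    · intro l _ hl
      by_cases hlj : l ≤ j
      · rw [map_smul, if_pos hlj, D.cv, Finsupp.smul_apply, Finsupp.single_eq_of_ne' hl, smul_zero]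
      · rw [if_neg hlj, smul_zero, map_zero, Finsupp.zero_apply]
    · intro h
      rw [Finsupp.notMem_support_iff.mp h, zero_smul, map_zero, Finsupp.zero_apply]
  · rw [if_neg hi]
    refine Finset.sum_eq_zero fun l _ => ?_
    by_cases hlj : l ≤ j
    · have hl : l ≠ i := fun h => hi (h ▸ hlj)
      rw [map_smul, if_pos hlj, D.cv, Finsupp.smul_apply, Finsupp.single_eq_of_ne' hl, smul_zero]
    · rw [if_neg hlj, smul_zero, map_zero, Finsupp.zero_apply]

theorem gt_apply (j : ι) (x : L) : gt D j x =
    x - Finsupp.linearCombination k (fun i => if i ≤ j then D.v i else 0) (D.c x) := rfl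

theorem c_gt {i j : ι} (hij : i ≤ j) (x : L) : D.c (gt D j x) i = 0 := by
  rw [gt_apply, map_sub, Finsupp.sub_apply, c_lc, if_pos hij, sub_self]

theorem gt_eq_self {j : ι} {x : L} (h : ∀ i ≤ j, D.c x i = 0) : gt D j x = x := by
  rw [gt_apply, sub_eq_self, Finsupp.linearCombination_apply, Finsupp.sum]
  refine Finset.sum_eq_zero fun i _ => ?_
  by_cases hi : i ≤ j
  · rw [h i hi, zero_smul]
  · rw [if_neg hi, smul_zero]

theorem gt_v {i j : ι} (h : i ≤ j) : gt D j (D.v i) = 0 := by
  rw [gt_apply, D.cv, Finsupp.linearCombination_single, one_smul, if_pos h, sub_self]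

theorem mem_of_gt (j : ι) (S : Submodule k L) (h : ∀ i ≤ j, D.v i ∈ S) {x : L}
    (hx : gt D j x ∈ S) : x ∈ S := by
  have h1 : Finsupp.linearCombination k (fun i => if i ≤ j then D.v i else 0) (D.c x) ∈ S := by
    rw [Finsupp.linearCombination_apply, Finsupp.sum]
    refine Submodule.sum_mem _ fun i _ => Submodule.smul_mem _ _ ?_
    by_cases hi : i ≤ j
    · rw [if_pos hi]
      exact h i hi
    · rw [if_neg hi]
      exact Submodule.zero_mem _
  rw [gt_apply] at hx
  have h2 := Submodule.add_mem _ hx h1
  rwa [sub_add_cancel] at h2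

theorem mem_of_zero (S : Submodule k L) (h : ∀ i, D.v i ∈ S)
    (h0 : ∀ x, D.c x = 0 → x ∈ S) (x : L) : x ∈ S := by
  have h1 : Finsupp.linearCombination k D.v (D.c x) ∈ S := by
    rw [Finsupp.linearCombination_apply, Finsupp.sum]
    exact Submodule.sum_mem _ fun i _ => Submodule.smul_mem _ _ (h i)
  have h2 : x - Finsupp.linearCombination k D.v (D.c x) ∈ S := by
    apply h0
    rw [map_sub, sub_eq_zero, Finsupp.linearCombination_apply, map_finsuppSum]
    simp only [map_smul, D.cv, Finsupp.smul_single, smul_eq_mul, mul_one]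
    rw [Finsupp.sum_single]
  have h3 := Submodule.add_mem _ h2 h1
  rwa [sub_add_cancel] at h3

theorem lead_v (i : ι) (s : Multiset ι) (m : M) :
    lead D s (D.v i) m = Finsupp.single (i ::ₘ s) m := by
  simp [lead, D.cv]

theorem lead_of_c {x : L} (hx : D.c x = 0) (s : Multiset ι) (m : M) : lead D s x m = 0 := by
  simp [lead, hx]

/-! ### the identities -/

theorem act_v {j : ι} {s : Multiset ι} (hj : ∀ i ∈ s, j ≤ i) (m : M) :
    act D (D.v j) (Finsupp.single s m) = Finsupp.single (j ::ₘ s) m := by
  induction s using ind with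
  | h0 => rw [act_zero, lead_v, D.ρv, LinearMap.zero_apply, Finsupp.single_zero, add_zero]
  | h1 j' s hj' _ =>
    rw [act_cons D hj', gt_v D (hj j' (Multiset.mem_cons_self _ _)), lead_v, map_zero, zero_lie]
    have h0 : act D (0 : L) = (0 : W M ι →ₗ[k] W M ι) := (actL D).map_zero
    rw [h0]
    simp

/-- the part of (A) for elements without small components -/
theorem act_comm_aux {j : ι} {s : Multiset ι} (hj : ∀ i ∈ s, j ≤ i) {x : L}
    (hx : ∀ i ≤ j, D.c x i = 0) (m : M) :
    act D x (act D (D.v j) (Finsupp.single s m)) =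
      act D (D.v j) (act D x (Finsupp.single s m)) + act D ⁅x, D.v j⁆ (Finsupp.single s m) := by
  rw [act_v D hj, act_cons D hj, gt_eq_self D hx]
  congr 1
  rw [map_sub]
  have h1 : lead D (j ::ₘ s) x m = act D (D.v j) (lead D s x m) := by
    rw [lead_apply, lead_apply, map_sum]
    refine Finset.sum_congr rfl fun i hi => ?_
    rw [map_smul, act_v D, Multiset.cons_swap]
    intro l hl
    rcases Multiset.mem_cons.mp hl with rfl | hl
    · by_contra hlt
      exact Finsupp.mem_support_iff.mp hi (hx _ (le_of_lt (not_le.mp hlt)))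
    · exact hj l hl
  rw [h1]
  abel

/-- the elements for which the commutator with `y` acts correctly on `t` -/
def good (y : L) (t : W M ι) : Submodule k L where
  carrier := {x | act D x (act D y t) = act D y (act D x t) + act D ⁅x, y⁆ t}
  add_mem' := by
    intro a b ha hb
    simp only [Set.mem_ofPred_eq] at ha hb ⊢
    rw [act_add, add_lie, act_add, LinearMap.add_apply, LinearMap.add_apply, LinearMap.add_apply,
      map_add, ha, hb]
    abel
  zero_mem' := by
    have h0 : act D (0 : L) = (0 : W M ι →ₗ[k] W M ι) := (actL D).map_zero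
    simp [h0]
  smul_mem' := by
    intro c a ha
    simp only [Set.mem_ofPred_eq] at ha ⊢
    rw [act_smul, smul_lie, act_smul, LinearMap.smul_apply, LinearMap.smul_apply,
      LinearMap.smul_apply, map_smul, ha, smul_add]

theorem mem_good {x y : L} {t : W M ι} : x ∈ good D y t ↔
    act D x (act D y t) = act D y (act D x t) + act D ⁅x, y⁆ t := Iff.rfl

theorem good_symm {x y : L} {t : W M ι} (h : x ∈ good D y t) : y ∈ good D x t := by
  rw [mem_good] at h ⊢
  have h1 : act D ⁅y, x⁆ t = - act D ⁅x, y⁆ t := by
    rw [← lie_skew, ← actL_apply, map_neg, LinearMap.neg_apply, actL_apply]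
  rw [h, h1]
  abel

theorem good_zero (x y : L) : x ∈ good D y (0 : W M ι) := by
  rw [mem_good]
  simp

theorem good_add {x y : L} {t t' : W M ι} (h : x ∈ good D y t) (h' : x ∈ good D y t') :
    x ∈ good D y (t + t') := by
  rw [mem_good] at h h' ⊢
  simp only [map_add]
  rw [h, h']
  abel

theorem good_smul {x y : L} {t : W M ι} (a : k) (h : x ∈ good D y t) :
    x ∈ good D y (a • t) := by
  rw [mem_good] at h ⊢
  simp only [map_smul]
  rw [h, smul_add]

theorem good_sum {α : Type} {x y : L} (s : Finset α) (t : α → W M ι)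
    (h : ∀ i ∈ s, x ∈ good D y (t i)) : x ∈ good D y (∑ i ∈ s, t i) := by
  classical
  induction s using Finset.induction_on with
  | empty => rw [Finset.sum_empty]; exact good_zero D x y
  | insert a s ha ih =>
    rw [Finset.sum_insert ha]
    exact good_add D (h a (Finset.mem_insert_self _ _))
      (ih fun i hi => h i (Finset.mem_insert_of_mem hi))

/-- (A) -/
theorem act_comm {j : ι} {s : Multiset ι} (hj : ∀ i ∈ s, j ≤ i) (m : M) (x : L) :
    x ∈ good D (D.v j) (Finsupp.single s m) := by
  apply mem_of_gt D j
  · intro i hi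
    rcases hi.lt_or_eq with hi | rfl
    · apply good_symm
      rw [mem_good]
      apply act_comm_aux D (fun l hl => hi.le.trans (hj l hl))
      intro l hl
      rw [D.cv, Finsupp.single_eq_of_ne']
      exact (hl.trans_lt hi).ne'
    · rw [mem_good, lie_self]
      have h0 : act D (0 : L) = (0 : W M ι →ₗ[k] W M ι) := (actL D).map_zero
      rw [h0]
      simp
  · rw [mem_good]
    exact act_comm_aux D hj (fun i hi => c_gt D hi x) m

/-- the main identity -/
theorem all_good (s : Multiset ι) : ∀ (m : M) (x y : L),
    x ∈ good D y (Finsupp.single s m) := by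
  induction s using ind with
  | h0 =>
    intro m x y
    have hv : ∀ (i : ι) (z : L), D.v i ∈ good D z (Finsupp.single (0 : Multiset ι) m) :=
      fun i z => good_symm D (act_comm D (fun l hl => absurd hl (Multiset.notMem_zero l)) m z)
    apply mem_of_zero D _ (fun i => hv i y)
    intro x hx
    apply good_symm
    apply mem_of_zero D _ (fun i => hv i x)
    intro y hy
    apply good_symm
    rw [mem_good, act_zero, act_zero, lead_of_c D hx, lead_of_c D hy, zero_add, zero_add,
      act_zero, act_zero, act_zero, lead_of_c D hx, lead_of_c D hy, lead_of_c D (D.hc x y hx hy),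
      zero_add, zero_add, zero_add, D.hρ x y hx hy, ← Finsupp.single_add]
    congr 1
    abel
  | h1 j s hj ih =>
    intro m x y
    have hv : ∀ (z : L), ∀ i ≤ j, D.v i ∈ good D z (Finsupp.single (j ::ₘ s) m) := by
      intro z i hi
      apply good_symm
      apply act_comm D
      intro l hl
      rcases Multiset.mem_cons.mp hl with rfl | hl
      · exact hi
      · exact hi.trans (hj l hl)
    -- the induction hypothesis for all elements of small length
    have ihn : ∀ (x y : L) (t : W M ι), t ∈ Wn k M ι (Multiset.card s) → x ∈ good D y t := by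
      intro x y t ht
      have h1 : t = ∑ s' ∈ t.support, Finsupp.single s' (t s') := (Finsupp.sum_single t).symm
      rw [h1]
      refine good_sum D _ _ fun s' hs' => ih s' ?_ _ x y
      exact (Finsupp.mem_supported k _).mp ht hs'
    -- elements without small components
    have key : ∀ x y : L, (∀ i ≤ j, D.c y i = 0) →
        act D x (act D y (Finsupp.single (j ::ₘ s) m)) =
          act D (D.v j) (act D x (act D y (Finsupp.single s m))) +
          act D ⁅x, D.v j⁆ (act D y (Finsupp.single s m)) +
          act D x (act D ⁅y, D.v j⁆ (Finsupp.single s m)) := by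
      intro x y hy
      rw [← act_v D hj, (mem_good D).mp (act_comm D hj m y), map_add]
      congr 1
      apply (mem_good D).mp
      have h1 : act D y (Finsupp.single s m) = lead D s y m +
          (T D s y m - lead D s y m) := by
        rw [act_single]
        abel
      rw [h1]
      apply good_add D _ (ihn _ _ _ (deg D s y m))
      rw [lead_apply]
      refine good_sum D _ _ fun i hi => good_smul D _ (act_comm D ?_ m x)
      intro l hl
      rcases Multiset.mem_cons.mp hl with rfl | hl
      · by_contra hlt
        exact Finsupp.mem_support_iff.mp hi (hy _ (le_of_lt (not_le.mp hlt)))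
      · exact hj l hl
    apply mem_of_gt D j _ (hv y)
    apply good_symm
    apply mem_of_gt D j _ (hv _)
    apply good_symm
    generalize hx : gt D j x = x'
    generalize hy : gt D j y = y'
    have hx' : ∀ i ≤ j, D.c x' i = 0 := fun i hi => by rw [← hx]; exact c_gt D hi x
    have hy' : ∀ i ≤ j, D.c y' i = 0 := fun i hi => by rw [← hy]; exact c_gt D hi y
    rw [mem_good, key x' y' hy', key y' x' hx', ← act_v D hj m,
      (mem_good D).mp (act_comm D hj m ⁅x', y'⁆),
      (mem_good D).mp (ih s le_rfl m x' y'),
      (mem_good D).mp (ih s le_rfl m ⁅x', D.v j⁆ y'),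
      (mem_good D).mp (ih s le_rfl m x' ⁅y', D.v j⁆), map_add]
    have hJ : ⁅⁅x', y'⁆, D.v j⁆ = ⁅⁅x', D.v j⁆, y'⁆ + ⁅x', ⁅y', D.v j⁆⁆ := by
      rw [leibniz_lie x' y' (D.v j), ← lie_skew y' ⁅x', D.v j⁆, lie_lie]
      abel
    rw [hJ, act_add, LinearMap.add_apply]
    abel

end Ext

open Ext in
theorem ext_proof : Stmt_Ext := by
  intro k _ K L _ _ _ _ θ hθ M _ _ _ _
  classical
  obtain ⟨C, hC⟩ := Submodule.exists_isCompl (LinearMap.range (θ : K →ₗ[k] L))
  let b := Module.Basis.ofVectorSpace k C
  letI : LinearOrder (Module.Basis.ofVectorSpaceIndex k C) :=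
    IsWellOrder.linearOrder WellOrderingRel
  let e : K ≃ₗ[k] LinearMap.range (θ : K →ₗ[k] L) := LinearEquiv.ofInjective (θ : K →ₗ[k] L) hθ
  let a₀ : K →ₗ[k] (M →ₗ[k] M) := LinearMap.mk₂ k (fun x m => ⁅x, m⁆) add_lie
    (fun c x m => smul_lie c x m) lie_add (fun c x m => lie_smul c x m)
  have ha₀ : ∀ x m, a₀ x m = ⁅x, m⁆ := fun _ _ => rfl
  let cc : L →ₗ[k] (Module.Basis.ofVectorSpaceIndex k C →₀ k) :=
    b.repr.toLinearMap.comp (Submodule.projectionOnto C _ hC.symm)
  let rr : L →ₗ[k] (M →ₗ[k] M) :=
    a₀.comp (e.symm.toLinearMap.comp (Submodule.projectionOnto _ C hC))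
  have hcc : ∀ x, cc x = 0 → ∃ y : K, θ y = x := by
    intro x hx
    have h1 : Submodule.projectionOnto C _ hC.symm x = 0 := by
      apply b.repr.injective
      rw [map_zero]
      exact hx
    exact (Submodule.projectionOnto_apply_eq_zero_iff hC.symm).mp h1
  have hccθ : ∀ y : K, cc (θ y) = 0 := by
    intro y
    have h1 : Submodule.projectionOnto C _ hC.symm (θ y) = 0 :=
      (Submodule.projectionOnto_apply_eq_zero_iff hC.symm).mpr ⟨y, rfl⟩
    change b.repr (Submodule.projectionOnto C _ hC.symm (θ y)) = 0
    rw [h1, map_zero]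
  have hrr : ∀ (y : K) (m : M), rr (θ y) m = ⁅y, m⁆ := by
    intro y m
    have h1 : Submodule.projectionOnto _ C hC (θ y) = e y :=
      Submodule.projectionOnto_apply_of_mem_left hC (⟨y, rfl⟩ : θ y ∈ LinearMap.range _)
    change a₀ (e.symm (Submodule.projectionOnto _ C hC (θ y))) m = ⁅y, m⁆
    rw [h1, LinearEquiv.symm_apply_apply, ha₀]
  let D : Dat k L M (Module.Basis.ofVectorSpaceIndex k C) :=
    { v := fun i => (b i : L)
      c := cc
      ρ := rr
      cv := by
        intro i
        change b.repr (Submodule.projectionOnto C _ hC.symm (b i)) = _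
        rw [Submodule.projectionOnto_apply_left]
        exact b.repr_self i
      ρv := by
        intro i
        change a₀ (e.symm (Submodule.projectionOnto _ C hC (b i))) = 0
        rw [(Submodule.projectionOnto_apply_eq_zero_iff hC).mpr (b i).2, map_zero, map_zero]
      hc := by
        intro x y hx hy
        obtain ⟨x, rfl⟩ := hcc x hx
        obtain ⟨y, rfl⟩ := hcc y hy
        rw [← LieHom.map_lie]
        exact hccθ _
      hρ := by
        intro x y hx hy m
        obtain ⟨x, rfl⟩ := hcc x hx
        obtain ⟨y, rfl⟩ := hcc y hy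
        rw [← LieHom.map_lie, hrr, hrr, hrr, hrr, hrr, lie_lie] }
  let i1 : LieRingModule L (W M (Module.Basis.ofVectorSpaceIndex k C)) :=
    { bracket := fun x t => act D x t
      add_lie := by
        intro x y t
        change act D (x + y) t = act D x t + act D y t
        rw [act_add, LinearMap.add_apply]
      lie_add := by
        intro x t t'
        exact (act D x).map_add t t'
      leibniz_lie := by
        intro x y t
        change act D x (act D y t) = act D ⁅x, y⁆ t + act D y (act D x t)
        have h1 : t = ∑ s ∈ t.support, Finsupp.single s (t s) := (Finsupp.sum_single t).symm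
        have h2 : x ∈ good D y t := by
          rw [h1]
          exact good_sum D _ _ fun s _ => all_good D s _ x y
        rw [(mem_good D).mp h2]
        abel }
  have i2 : LieModule k L (W M (Module.Basis.ofVectorSpaceIndex k C)) :=
    { smul_lie := by
        intro c x t
        change act D (c • x) t = c • act D x t
        rw [act_smul, LinearMap.smul_apply]
      lie_smul := by
        intro c x t
        exact (act D x).map_smul c t }
  refine ⟨W M (Module.Basis.ofVectorSpaceIndex k C), inferInstance, inferInstance, i1, i2,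
    Finsupp.lsingle 0, Finsupp.single_injective 0, ?_⟩
  intro x m
  change Finsupp.single 0 ⁅x, m⁆ = act D (θ x) (Finsupp.single 0 m)
  rw [act_zero, lead_of_c D (hccθ x), zero_add]
  congr 1
  exact (hrr x m).symm

end Pool.Agent.HIP
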