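import Mathlib
import Pool.Agent.HIP.Basic

/-!
# HIP module FINAL: from `WL k n` to the Higman property of the variety of Lie algebras solvable of
index `n`
-/

noncomputable section

set_option linter.unusedSectionVars false

namespace Pool.Agent.HIP

open Function

namespace FINAL

/-- r.e. predicates are ranges of primitive recursive families (up to one element) -/
theorem enum {α : Type} [Primcodable α] (a0 : α) (p : α → Prop) (hp : REPred p) :
    ∃ ρ : ℕ → α, Primrec ρ ∧ Set.range ρ = insert a0 {x | p x} := by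
  classical
  have hp' : Partrec fun a : α => Part.assert (p a) fun _ => Part.some () := hp
  obtain ⟨c, hc⟩ := Nat.Partrec.Code.exists_code.1 hp'
  have hmem : ∀ w : α, p w ↔ ∃ m, (Nat.Partrec.Code.evaln m c (Encodable.encode w)).isSome := by
    intro w
    have h1 : (Nat.Partrec.Code.eval c (Encodable.encode w)).Dom ↔ p w := by
      rw [hc]
      simp [Part.assert]
    rw [← h1, Part.dom_iff_mem]
    constructor
    · rintro ⟨y, hy⟩
      obtain ⟨m, hm⟩ := Nat.Partrec.Code.evaln_complete.1 hy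
      exact ⟨m, by rw [Option.mem_def] at hm; rw [hm]; rfl⟩
    · rintro ⟨m, hm⟩
      obtain ⟨y, hy⟩ := Option.isSome_iff_exists.1 hm
      exact ⟨y, Nat.Partrec.Code.evaln_sound hy⟩
  let g : ℕ → α → α := fun m w =>
    bif (Nat.Partrec.Code.evaln m c (Encodable.encode w)).isSome then w else a0
  have hg : Primrec₂ g := by
    have h1 : Primrec fun p : ℕ × α =>
        Nat.Partrec.Code.evaln p.1 c (Encodable.encode p.2) :=
      Nat.Partrec.Code.primrec_evaln.comp
        ((Primrec.fst.pair (Primrec.const c)).pair (Primrec.encode.comp Primrec.snd))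
    exact Primrec.cond (Primrec.option_isSome.comp h1) Primrec.snd (Primrec.const a0)
  refine ⟨fun n => (Encodable.decode (α := α) n.unpair.2).elim a0
    (g n.unpair.1), ?_, ?_⟩
  · have h2 : Primrec fun n : ℕ => Encodable.decode (α := α) n.unpair.2 :=
      Primrec.decode.comp (Primrec.snd.comp Primrec.unpair)
    have h3 : Primrec₂ fun (n : ℕ) (w : α) => g n.unpair.1 w :=
      hg.comp (Primrec.fst.comp (Primrec.unpair.comp Primrec.fst)) Primrec.snd
    refine (Primrec.option_casesOn h2 (Primrec.const a0) h3).of_eq fun n => ?_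
    cases Encodable.decode (α := α) n.unpair.2 <;> rfl
  · ext w
    constructor
    · rintro ⟨n, rfl⟩
      dsimp only
      cases h : Encodable.decode (α := α) n.unpair.2 with
      | none => left; rfl
      | some w =>
        dsimp only [Option.elim, g]
        cases h' : (Nat.Partrec.Code.evaln n.unpair.1 c (Encodable.encode w)).isSome with
        | false => left; rfl
        | true => right; exact (hmem w).2 ⟨_, h'⟩
    · rintro (rfl | hw)
      · refine ⟨Nat.pair 0 (Encodable.encode w), ?_⟩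
        simp only [Nat.unpair_pair, Encodable.encodek, Option.elim, g]
        cases (Nat.Partrec.Code.evaln 0 c (Encodable.encode w)).isSome <;> rfl
      · obtain ⟨m, hm⟩ := (hmem w).1 hw
        refine ⟨Nat.pair m (Encodable.encode w), ?_⟩
        simp only [Nat.unpair_pair, Encodable.encodek, Option.elim, g, hm, cond_true]

section
variable {k : Type} [Field k] {F A B : Type} [LieRing F] [LieAlgebra k F] [LieRing A]
  [LieAlgebra k A] [LieRing B] [LieAlgebra k B]

/-- the quotient map -/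
def pr (I : LieIdeal k F) : F →ₗ⁅k⁆ F ⧸ I :=
  { I.toSubmodule.mkQ with
    toFun := LieSubmodule.Quotient.mk
    map_lie' := rfl }

theorem pr_apply (I : LieIdeal k F) (x : F) : pr I x = LieSubmodule.Quotient.mk x := rfl

theorem pr_surj (I : LieIdeal k F) : Surjective (pr I) :=
  LieSubmodule.Quotient.surjective_mk' I

theorem pr_eq_zero (I : LieIdeal k F) (x : F) : pr I x = 0 ↔ x ∈ I :=
  LieSubmodule.Quotient.mk_eq_zero'

theorem descend (p : F →ₗ⁅k⁆ A) (hp : Surjective p) (q : F →ₗ⁅k⁆ B)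
    (h : ∀ x, p x = 0 → q x = 0) : ∃ g : A →ₗ⁅k⁆ B, ∀ x, g (p x) = q x := by
  have key : ∀ x y, p x = p y → q x = q y := by
    intro x y hxy
    have := h (x - y) (by rw [map_sub, hxy, sub_self])
    rw [map_sub] at this
    exact sub_eq_zero.1 this
  refine ⟨{ toFun := fun a => q (surjInv hp a), map_add' := ?_, map_smul' := ?_,
            map_lie' := ?_ }, ?_⟩
  · intro a b
    rw [← map_add]
    apply key
    rw [map_add, surjInv_eq hp, surjInv_eq hp, surjInv_eq hp]
  · intro c a
    rw [RingHom.id_apply, ← map_smul]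
    apply key
    rw [map_smul, surjInv_eq hp, surjInv_eq hp]
  · intro a b
    change q (surjInv hp ⁅a, b⁆) = ⁅q (surjInv hp a), q (surjInv hp b)⁆
    rw [← LieHom.map_lie]
    apply key
    rw [LieHom.map_lie, surjInv_eq hp, surjInv_eq hp, surjInv_eq hp]
  · intro x
    change q (surjInv hp (p x)) = q x
    apply key
    rw [surjInv_eq hp]

theorem exists_equiv (p : F →ₗ⁅k⁆ A) (hp : Surjective p) (q : F →ₗ⁅k⁆ B) (hq : Surjective q)
    (h : ∀ x, p x = 0 ↔ q x = 0) : ∃ e : A ≃ₗ⁅k⁆ B, ∀ x, e (p x) = q x := by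
  obtain ⟨g, hg⟩ := descend p hp q fun x => (h x).1
  obtain ⟨g', hg'⟩ := descend q hq p fun x => (h x).2
  refine ⟨{ g with
            invFun := g'
            left_inv := ?_
            right_inv := ?_ }, hg⟩
  · intro a
    obtain ⟨x, rfl⟩ := hp a
    change g' (g (p x)) = p x
    rw [hg, hg']
  · intro b
    obtain ⟨x, rfl⟩ := hq b
    change g (g' (q x)) = q x
    rw [hg', hg]

/-- derived series of an image -/
theorem mem_derivedSeries_iff (p : F →ₗ⁅k⁆ A) (hp : Surjective p) (n : ℕ) (a : A) :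
    a ∈ LieAlgebra.derivedSeries k A n ↔ ∃ x ∈ LieAlgebra.derivedSeries k F n, p x = a := by
  constructor
  · intro ha
    rw [← LieIdeal.derivedSeries_map_eq n hp] at ha
    obtain ⟨x, hx⟩ := LieIdeal.mem_map_of_surjective hp ha
    exact ⟨x, x.2, hx⟩
  · rintro ⟨x, hx, rfl⟩
    exact map_derivedSeries_mem p n x hx

/-- ideals generated by an image -/
theorem mem_lieSpan_image_iff (p : F →ₗ⁅k⁆ A) (hp : Surjective p) (S : Set F) (a : A) :
    a ∈ LieSubmodule.lieSpan k A (p '' S) ↔ ∃ x ∈ LieSubmodule.lieSpan k F S, p x = a := by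
  constructor
  · intro ha
    have h1 : LieSubmodule.lieSpan k A (p '' S) ≤
        LieIdeal.map p (LieSubmodule.lieSpan k F S : LieIdeal k F) := by
      rw [LieSubmodule.lieSpan_le]
      rintro _ ⟨x, hx, rfl⟩
      exact LieIdeal.mem_map (LieSubmodule.subset_lieSpan hx)
    obtain ⟨x, hx⟩ := LieIdeal.mem_map_of_surjective hp (h1 ha)
    exact ⟨x, x.2, hx⟩
  · rintro ⟨x, hx, rfl⟩
    have h1 : (LieSubmodule.lieSpan k F S : LieIdeal k F) ≤
        LieIdeal.comap p (LieSubmodule.lieSpan k A (p '' S)) := by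
      rw [LieSubmodule.lieSpan_le]
      intro y hy
      exact LieIdeal.mem_comap.2 (LieSubmodule.subset_lieSpan ⟨y, hy, rfl⟩)
    exact LieIdeal.mem_comap.1 (h1 hx)

/-- interchanging the two quotients -/
theorem exists_iso (T : Set F) (n : ℕ) :
    Nonempty (((F ⧸ LieSubmodule.lieSpan k F T) ⧸
        LieAlgebra.derivedSeries k (F ⧸ LieSubmodule.lieSpan k F T) n) ≃ₗ⁅k⁆
      ((F ⧸ LieAlgebra.derivedSeries k F n) ⧸
        LieSubmodule.lieSpan k (F ⧸ LieAlgebra.derivedSeries k F n)
        ((LieSubmodule.Quotient.mk : F → F ⧸ LieAlgebra.derivedSeries k F n) '' T))) := by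
  set N := LieSubmodule.lieSpan k F T with hN
  set D := LieAlgebra.derivedSeries k F n with hD
  obtain ⟨e, -⟩ := exists_equiv
    ((pr (LieAlgebra.derivedSeries k (F ⧸ N) n)).comp (pr N))
    (fun a => by
      obtain ⟨b, rfl⟩ := pr_surj _ a
      obtain ⟨c, rfl⟩ := pr_surj _ b
      exact ⟨c, rfl⟩)
    ((pr (LieSubmodule.lieSpan k (F ⧸ D) (pr D '' T))).comp (pr D))
    (fun a => by
      obtain ⟨b, rfl⟩ := pr_surj _ a
      obtain ⟨c, rfl⟩ := pr_surj _ b
      exact ⟨c, rfl⟩)
    (fun x => by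
      rw [LieHom.comp_apply, LieHom.comp_apply, pr_eq_zero, pr_eq_zero,
        mem_derivedSeries_iff (pr N) (pr_surj N), mem_lieSpan_image_iff (pr D) (pr_surj D)]
      constructor
      · rintro ⟨y, hy, hyx⟩
        refine ⟨x - y, ?_, ?_⟩
        · rw [← hN, ← pr_eq_zero N, map_sub, hyx, sub_self]
        · rw [map_sub, (pr_eq_zero D y).2 hy, sub_zero]
      · rintro ⟨y, hy, hyx⟩
        refine ⟨x - y, ?_, ?_⟩
        · rw [← hD, ← pr_eq_zero D, map_sub, hyx, sub_self]
        · rw [map_sub, (pr_eq_zero N y).2 hy, sub_zero])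
  exact ⟨e⟩

/-- isomorphic Lie algebras -/
theorem rpg_equiv (e : A ≃ₗ⁅k⁆ B) (ev : ℕ → A) (h : RPg k A ev) : RPg k B (fun i => e (ev i)) := by
  obtain ⟨K, ρ, h1, h2, h3, h4, h5⟩ := h
  refine ⟨K, ρ, ?_, ?_, h3, ?_, ?_⟩
  · intro i hi
    change e (ev i) = 0
    rw [h1 i hi, map_zero]
  · rw [eq_top_iff]
    intro b _
    obtain ⟨a, rfl⟩ := e.surjective b
    refine Gens.induction (L := A) (ev := ev) ⟨⟨K, h1⟩, h2⟩
      (p := fun a => e a ∈ LieSubalgebra.lieSpan k B (Set.range fun i => e (ev i)))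
      ?_ ?_ ?_ ?_ ?_ a
    · rw [map_zero]; exact LieSubalgebra.zero_mem _
    · intro x y hx hy; rw [map_add]; exact LieSubalgebra.add_mem _ hx hy
    · intro c x hx; rw [map_smul]; exact LieSubalgebra.smul_mem _ _ hx
    · intro x y hx hy; rw [LieEquiv.map_lie]; exact LieSubalgebra.lie_mem _ hx hy
    · intro i; exact LieSubalgebra.subset_lieSpan ⟨i, rfl⟩
  · intro n
    have := map_lval (e : A →ₗ⁅k⁆ B) ev (ρ n)
    rw [h4 n, map_zero] at this
    exact this.symm
  · intro L' _ _ ev' h6 h7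
    obtain ⟨Φ, hΦ⟩ := h5 L' ev' h6 h7
    refine ⟨Φ.comp (e.symm : B →ₗ⁅k⁆ A), fun i => ?_⟩
    rw [LieHom.comp_apply]
    have : (e.symm : B →ₗ⁅k⁆ A) (e (ev i)) = ev i := e.symm_apply_apply (ev i)
    rw [this, hΦ]

theorem solv_of_surj (p : F →ₗ⁅k⁆ A) (hp : Surjective p) (n : ℕ)
    (h : LieAlgebra.derivedSeries k F n = ⊥) : LieAlgebra.derivedSeries k A n = ⊥ := by
  rw [LieSubmodule.eq_bot_iff]
  intro a ha
  obtain ⟨x, hx, rfl⟩ := (mem_derivedSeries_iff p hp n a).1 ha
  rw [h, LieSubmodule.mem_bot] at hx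
  rw [hx, map_zero]

end

theorem lnorm_eq {L : Type} [LieRing L] (w : List L) : Pool.Agent.HIL.lnorm w = lnorm w := by
  cases w <;> rfl

/-- forget the bound on the letters -/
def fg {d : ℕ} (e : Pool.Agent.HIL.LExpr d) : LRel := e.map fun t => (t.1, t.2.map fun i : Fin d => (i : ℕ))

theorem primrec_fg (d : ℕ) : Primrec (fg (d := d)) := by
  unfold fg
  refine Primrec.list_map Primrec.id ?_
  refine Primrec.pair (Primrec.fst.comp Primrec.snd) ?_
  have h1 : Primrec fun w : List (Fin d) => w.map fun i : Fin d => (i : ℕ) :=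
    Primrec.list_map Primrec.id (Primrec.fin_val.comp Primrec.snd)
  exact h1.comp (Primrec.snd.comp Primrec.snd)

section
variable {k : Type} [Field k] {d : ℕ} {L : Type} [LieRing L] [LieAlgebra k L]

theorem lval_fg (ev : ℕ → L) (e : Pool.Agent.HIL.LExpr d) :
    lval k ev (fg e) = FreeLieAlgebra.lift k (fun i : Fin d => ev i) (e.val k) := by
  induction e with
  | nil =>
    have : Pool.Agent.HIL.LExpr.val k ([] : Pool.Agent.HIL.LExpr d) = 0 := rfl
    rw [this, map_zero]
    rfl
  | cons t e ih =>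
    have h1 : Pool.Agent.HIL.LExpr.val k (t :: e) =
        cf k t.1 • lnorm (t.2.map (FreeLieAlgebra.of k)) + Pool.Agent.HIL.LExpr.val k e := by
      unfold Pool.Agent.HIL.LExpr.val
      rw [List.map_cons, List.sum_cons, lnorm_eq]
      rfl
    have h2 : fg (t :: e) = (t.1, t.2.map fun i : Fin d => (i : ℕ)) :: fg e := rfl
    rw [h1, h2, lval_cons, ih, map_add, map_smul, map_lnorm, List.map_map, List.map_map]
    congr 4
    funext i
    simp

/-- the presented Lie algebra is recursively presented -/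
theorem rpg_presented (k : Type) [Field k] (d : ℕ) (R : Set (Pool.Agent.HIL.LExpr d))
    (ρ : ℕ → Pool.Agent.HIL.LExpr d)
    (hρ : Primrec ρ) (hR : Set.range ρ = insert [] R) :
    RPg k (FreeLieAlgebra k (Fin d) ⧸
        LieSubmodule.lieSpan k (FreeLieAlgebra k (Fin d)) ((fun e => e.val k) '' R))
      (fun i => if h : i < d then
        pr (LieSubmodule.lieSpan k (FreeLieAlgebra k (Fin d)) ((fun e => e.val k) '' R))
          (FreeLieAlgebra.of k (⟨i, h⟩ : Fin d)) else 0) := by
  set N := LieSubmodule.lieSpan k (FreeLieAlgebra k (Fin d)) ((fun e => e.val k) '' R) with hN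
  set ev : ℕ → FreeLieAlgebra k (Fin d) ⧸ N :=
    fun i => if h : i < d then pr N (FreeLieAlgebra.of k (⟨i, h⟩ : Fin d)) else 0 with hev
  have hl : FreeLieAlgebra.lift k (fun i : Fin d => ev i) = pr N := by
    apply FreeLieAlgebra.hom_ext
    intro i
    rw [FreeLieAlgebra.lift_of_apply, hev]
    simp
  refine ⟨d, fun m => fg (ρ m), fun i hi => dif_neg (not_lt.2 hi), ?_, ?_, ?_, ?_⟩
  · rw [eq_top_iff]
    intro x _
    obtain ⟨y, rfl⟩ := pr_surj N x
    set S := LieSubalgebra.lieSpan k (FreeLieAlgebra k (Fin d) ⧸ N) (Set.range ev) with hS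
    have hmem : ∀ i : Fin d, ev i ∈ S := fun i => LieSubalgebra.subset_lieSpan ⟨i, rfl⟩
    have h1 : (S.incl).comp (FreeLieAlgebra.lift k fun i : Fin d => (⟨ev i, hmem i⟩ : S)) = pr N := by
      rw [← hl]
      apply FreeLieAlgebra.hom_ext
      intro i
      rw [LieHom.comp_apply, FreeLieAlgebra.lift_of_apply, FreeLieAlgebra.lift_of_apply]
      rfl
    rw [← h1, LieHom.comp_apply]
    exact Subtype.property _
  · exact (primrec_fg d).comp hρ
  · intro n
    rw [lval_fg, hl, pr_eq_zero]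
    have h2 : ρ n ∈ insert [] R := by rw [← hR]; exact ⟨_, rfl⟩
    rcases h2 with h2 | h2
    · rw [h2]
      exact N.zero_mem
    · exact LieSubmodule.subset_lieSpan ⟨_, h2, rfl⟩
  · intro L' _ _ ev' h1 h2
    obtain ⟨g, hg⟩ := descend (pr N) (pr_surj N) (FreeLieAlgebra.lift k fun i : Fin d => ev' i)
      (fun x hx => by
        rw [pr_eq_zero] at hx
        have h3 : N ≤ (FreeLieAlgebra.lift k fun i : Fin d => ev' i).ker := by
          rw [hN, LieSubmodule.lieSpan_le]
          rintro _ ⟨e, he, rfl⟩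
          have he' : e ∈ Set.range ρ := by rw [hR]; exact Or.inr he
          obtain ⟨m, rfl⟩ := he'
          have := h2 m
          rw [lval_fg] at this
          exact LieHom.mem_ker.2 this
        exact LieHom.mem_ker.1 (h3 hx))
    refine ⟨g, fun i => ?_⟩
    by_cases hi : i < d
    · rw [hev]
      simp only [hi, dif_pos]
      rw [hg, FreeLieAlgebra.lift_of_apply]
    · rw [hev]
      simp only [hi, dif_neg, not_false_eq_true]
      rw [map_zero, h1 i (not_lt.1 hi)]

end

end FINAL

open FINAL in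
theorem final_proof : Stmt_FinalAsm := by
  intro hRPQ k _ n hW G _ _ hG
  obtain ⟨d, R, hRe, ⟨iso⟩⟩ := hG
  obtain ⟨ρ, hρ, hρR⟩ := enum ([] : Pool.Agent.HIL.LExpr d) _ hRe
  have hset : ((fun e : Pool.Agent.HIL.LExpr d =>
      (LieSubmodule.Quotient.mk (e.val k) : Pool.Agent.HIL.RelFreeLie k n d)) '' R) =
      (LieSubmodule.Quotient.mk : FreeLieAlgebra k (Fin d) → Pool.Agent.HIL.RelFreeLie k n d) ''
        ((fun e => e.val k) '' R) := by
    rw [Set.image_image]
  obtain ⟨i₁⟩ := exists_iso (k := k) (F := FreeLieAlgebra k (Fin d)) ((fun e => e.val k) '' R) n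
  rw [← hset] at i₁
  have hRP : RP k G := by
    have h1 := hRPQ k _ _ (rpg_presented k d R ρ hρ hρR) n
    exact ⟨_, rpg_equiv iso.symm _ (rpg_equiv i₁ _ h1)⟩
  -- `G` is solvable of index `n`
  have hsol : LieAlgebra.derivedSeries k G n = ⊥ := by
    have h1 : LieAlgebra.derivedSeries k (Pool.Agent.HIL.RelFreeLie k n d) n = ⊥ :=
      derivedSeries_quot n
    have h2 := solv_of_surj (pr (LieSubmodule.lieSpan k (Pool.Agent.HIL.RelFreeLie k n d)
      ((fun e : Pool.Agent.HIL.LExpr d =>
      (LieSubmodule.Quotient.mk (e.val k) : Pool.Agent.HIL.RelFreeLie k n d)) '' R)))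
      (pr_surj _) n h1
    exact derivedSeries_eq_bot_of_injective (iso : G →ₗ⁅k⁆ _) iso.injective n h2
  obtain ⟨P, _, _, f, hP, hf, hf'⟩ := hW G hRP hsol
  refine ⟨P ⧸ LieAlgebra.derivedSeries k P n, inferInstance, inferInstance, ?_,
    (pr (LieAlgebra.derivedSeries k P n)).comp f, ?_⟩
  · obtain ⟨l, s, hs, ⟨i₂⟩⟩ := hP
    obtain ⟨i₃⟩ := exists_iso (k := k) s n
    refine ⟨l, LieSubmodule.Quotient.mk '' s, hs.image _, ?_⟩
    obtain ⟨i₄, -⟩ := exists_equiv
      (pr (LieAlgebra.derivedSeries k P n)) (pr_surj _)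
      ((pr (LieAlgebra.derivedSeries k (FreeLieAlgebra k (Fin l) ⧸
        LieSubmodule.lieSpan k (FreeLieAlgebra k (Fin l)) s) n)).comp i₂.toLieHom)
      (fun a => by
        obtain ⟨b, rfl⟩ := pr_surj _ a
        obtain ⟨c, rfl⟩ := i₂.surjective b
        exact ⟨c, rfl⟩)
      (fun x => by
        rw [LieHom.comp_apply, pr_eq_zero, pr_eq_zero,
          mem_derivedSeries_iff i₂.toLieHom i₂.surjective]
        constructor
        · intro hx
          exact ⟨x, hx, rfl⟩
        · rintro ⟨y, hy, hyx⟩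
          rw [← i₂.injective hyx]
          exact hy)
    exact ⟨i₄.trans i₃⟩
  · rw [injective_iff_map_eq_zero]
    intro a ha
    rw [LieHom.comp_apply, pr_eq_zero] at ha
    exact hf' a ha

end Pool.Agent.HIP
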