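import Mathlib
import Pool.Agent.HIP.Basic

/-!
# FINREL : the relations (R1) - (R5) are equivalent to finitely many
-/

noncomputable section

set_option linter.unusedSectionVars false

namespace Pool.Agent.HIP

open Function
open scoped TensorProduct

namespace FINREL

section
variable {k : Type} [Field k] {j : ℕ} {I : Type} {r : ℕ} {S : Stage k j (I ⊕ Fin r)}
  {A : Type} [AddCommGroup A] [Module k A] [LieRingModule S.Q A] [LieModule k S.Q A]
  {al0 : Fin r → A} (L : Lay S A al0)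
  {M : Type} [AddCommGroup M] [Module k M] [LieRingModule L.P M] [LieModule k L.P M]

/-- the elements of `Z` killing `e` -/
def killZ (e : M) (h1 : ∀ y : S.Y, ⁅L.yy y, e⁆ = 0) : LieSubmodule k S.Y L.Z where
  carrier := {x | ⁅L.zz x, e⁆ = 0}
  add_mem' := by
    intro a b ha hb
    change ⁅L.zz a, e⁆ = 0 at ha
    change ⁅L.zz b, e⁆ = 0 at hb
    change ⁅L.zz (a + b), e⁆ = 0
    rw [map_add, add_lie, ha, hb, add_zero]
  zero_mem' := by
    change ⁅L.zz 0, e⁆ = 0
    rw [map_zero, zero_lie]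
  smul_mem' := by
    intro c a ha
    change ⁅L.zz a, e⁆ = 0 at ha
    change ⁅L.zz (c • a), e⁆ = 0
    rw [map_smul, smul_lie, ha, smul_zero]
  lie_mem := by
    intro y a ha
    change ⁅L.zz a, e⁆ = 0 at ha
    change ⁅L.zz ⁅y, a⁆, e⁆ = 0
    rw [← L.yy_zz, lie_lie, ha, h1, lie_zero, lie_zero, sub_zero]

theorem mem_killZ (e : M) (h1 : ∀ y : S.Y, ⁅L.yy y, e⁆ = 0) (x : L.Z) :
    x ∈ killZ L e h1 ↔ ⁅L.zz x, e⁆ = 0 := Iff.rfl

theorem ker_pi (W : LieSubmodule k S.Y L.Z) (hW : ∀ R ∈ S.Rel, mval L.z R ∈ W) (x : L.Z)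
    (hx : L.pi x = 0) : x ∈ W := by
  obtain ⟨F, hF⟩ := S.presE.2.2 (L.Z ⧸ W) (fun i => LieSubmodule.Quotient.mk' W (L.z i)) (by
    intro R hR
    rw [← map_mval (LieSubmodule.Quotient.mk' W) L.z R]
    exact (LieSubmodule.Quotient.mk_eq_zero W).2 (hW R hR))
  have h2 : F.comp L.pi = LieSubmodule.Quotient.mk' W := by
    apply L.presZ.hom_ext
    intro i
    rw [LieModuleHom.comp_apply, L.pi_z, hF]
  have h3 : LieSubmodule.Quotient.mk' W x = 0 := by
    rw [← h2, LieModuleHom.comp_apply, hx, map_zero]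
  exact (LieSubmodule.Quotient.mk_eq_zero W).1 h3

/-- the relations -/
def R1set (ev : ℕ → S.Y) (K : ℕ) : Set (MR k L.P (Fin 1)) :=
  (fun i => [((1 : k), [L.yy (ev i)], (0 : Fin 1))]) '' (Set.Iio K)

/-- the relations -/
def R2set : Set (MR k L.P (Fin 1)) :=
  (fun R => [((1 : k), [L.zz (mval L.z R)], (0 : Fin 1))]) '' S.Rel

/-- the relations -/
def R3rel (l : Fin S.s) : MR k L.P (Fin 1) :=
  ((1 : k), [L.cc (L.c l)], (0 : Fin 1)) ::
    (L.gg l).map fun p => ((-1 : k), [L.zz p.1, L.zz p.2], (0 : Fin 1))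

/-- the relations -/
def R4rel (i : Fin r) : MR k L.P (Fin 1) :=
  [((1 : k), [L.aa (L.al i), L.tt L.t], (0 : Fin 1)),
    ((-1 : k), [L.zz (L.xx (Sum.inr i)), L.tt L.t], (0 : Fin 1))]

/-- the relations -/
def R5rel : MR k L.P (Fin 1) := [((1 : k), [L.tt L.t, L.tt L.t], (0 : Fin 1))]

theorem mval_single (e : M) (w : List L.P) :
    mval (fun _ : Fin 1 => e) ([((1 : k), w, (0 : Fin 1))] : MR k L.P (Fin 1)) = wact w e := by
  rw [mval_cons, mval_nil, add_zero, one_smul]

theorem mval_R3 (e : M) (l : Fin S.s) :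
    mval (fun _ : Fin 1 => e) (R3rel L l) =
      ⁅L.cc (L.c l), e⁆ - ((L.gg l).map fun p => ⁅L.zz p.1, ⁅L.zz p.2, e⁆⁆).sum := by
  unfold R3rel
  rw [mval_cons]
  have h : ∀ g : List (L.Z × L.Z),
      mval (fun _ : Fin 1 => e)
        (g.map fun p => ((-1 : k), [L.zz p.1, L.zz p.2], (0 : Fin 1))) =
      - (g.map fun p => ⁅L.zz p.1, ⁅L.zz p.2, e⁆⁆).sum := by
    intro g
    induction g with
    | nil => simp
    | cons p g ih =>
      rw [List.map_cons, mval_cons, ih, List.map_cons, List.sum_cons, neg_add]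
      simp
  rw [h]
  simp [sub_eq_add_neg]

theorem mval_R4 (e : M) (i : Fin r) :
    mval (fun _ : Fin 1 => e) (R4rel L i) =
      ⁅L.aa (L.al i), ⁅L.tt L.t, e⁆⁆ - ⁅L.zz (L.xx (Sum.inr i)), ⁅L.tt L.t, e⁆⁆ := by
  unfold R4rel
  rw [mval_cons, mval_cons, mval_nil, add_zero]
  simp [sub_eq_add_neg]

theorem R1_of (ev : ℕ → S.Y) (K : ℕ) (hK : ∀ i, K ≤ i → ev i = 0) (hg : Gens k S.Y ev) (e : M)
    (h : ∀ i, i < K → ⁅L.yy (ev i), e⁆ = 0) : ∀ y : S.Y, ⁅L.yy y, e⁆ = 0 := by
  intro y
  refine hg.induction (p := fun y => ⁅L.yy y, e⁆ = 0) ?_ ?_ ?_ ?_ ?_ y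
  · rw [map_zero, zero_lie]
  · intro x y hx hy
    rw [map_add, add_lie, hx, hy, add_zero]
  · intro c x hx
    rw [map_smul, smul_lie, hx, smul_zero]
  · intro x y hx hy
    rw [LieHom.map_lie, lie_lie, hx, hy, lie_zero, lie_zero, sub_zero]
  · intro i
    by_cases hi : i < K
    · exact h i hi
    · rw [hK i (by omega), map_zero, zero_lie]

end

end FINREL

theorem finrel_proof : Stmt_FinRel := by
  intro k _ j r I S A _ _ _ _ al0 L
  obtain ⟨ev, hev⟩ := S.rpY
  obtain ⟨⟨K, hK⟩, -⟩ := hev.gens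
  refine ⟨FINREL.R1set L ev K ∪ FINREL.R2set L ∪ Set.range (FINREL.R3rel L) ∪
    Set.range (FINREL.R4rel L) ∪ {FINREL.R5rel L}, ?_, ?_⟩
  · refine Set.Finite.union (Set.Finite.union (Set.Finite.union (Set.Finite.union ?_ ?_) ?_) ?_) ?_
    · exact (Set.finite_Iio K).image _
    · exact S.finRel.image _
    · exact Set.finite_range _
    · exact Set.finite_range _
    · exact Set.finite_singleton _
  · intro M _ _ _ _ e
    constructor
    · intro h
      have h1 : ∀ y : S.Y, ⁅L.yy y, e⁆ = 0 := by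
        apply FINREL.R1_of L ev K hK hev.gens e
        intro i hi
        have := h [((1 : k), [L.yy (ev i)], (0 : Fin 1))]
          (Or.inl (Or.inl (Or.inl (Or.inl ⟨i, hi, rfl⟩))))
        rw [FINREL.mval_single] at this
        simpa using this
      refine ⟨h1, ?_, ?_, ?_, ?_⟩
      · intro x hx
        refine (FINREL.mem_killZ L e h1 x).1 (FINREL.ker_pi L (FINREL.killZ L e h1) ?_ x hx)
        intro R hR
        rw [FINREL.mem_killZ]
        have := h [((1 : k), [L.zz (mval L.z R)], (0 : Fin 1))]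
          (Or.inl (Or.inl (Or.inl (Or.inr ⟨R, hR, rfl⟩))))
        rw [FINREL.mval_single] at this
        simpa using this
      · intro l
        have := h (FINREL.R3rel L l) (Or.inl (Or.inl (Or.inr ⟨l, rfl⟩)))
        rw [FINREL.mval_R3] at this
        exact sub_eq_zero.1 this
      · intro i
        have := h (FINREL.R4rel L i) (Or.inl (Or.inr ⟨i, rfl⟩))
        rw [FINREL.mval_R4] at this
        exact sub_eq_zero.1 this
      · have := h (FINREL.R5rel L) (Or.inr rfl)
        unfold FINREL.R5rel at this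
        rw [FINREL.mval_single] at this
        simpa using this
    · intro h R hR
      rcases hR with (((hR | hR) | hR) | hR) | hR
      · obtain ⟨i, _, rfl⟩ := hR
        change mval (fun _ : Fin 1 => e) ([((1 : k), [L.yy (ev i)], (0 : Fin 1))]) = 0
        rw [FINREL.mval_single]
        simpa using h.R1 (ev i)
      · obtain ⟨R', hR', rfl⟩ := hR
        change mval (fun _ : Fin 1 => e) ([((1 : k), [L.zz (mval L.z R')], (0 : Fin 1))]) = 0
        rw [FINREL.mval_single]
        have h2 : L.pi (mval L.z R') = 0 := by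
          rw [map_mval]
          have h3 : (fun i => L.pi (L.z i)) = S.e := funext L.pi_z
          rw [h3]
          exact S.presE.rel hR'
        simpa using h.R2 _ h2
      · obtain ⟨l, rfl⟩ := hR
        rw [FINREL.mval_R3, h.R3 l, sub_self]
      · obtain ⟨i, rfl⟩ := hR
        rw [FINREL.mval_R4, h.R4 i, sub_self]
      · have h2 : R = FINREL.R5rel L := hR
        subst h2
        unfold FINREL.R5rel
        rw [FINREL.mval_single]
        simpa using h.R5

end Pool.Agent.HIP
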