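import Pool.Agent.HIP.Basic

/-!
# FOX: Fox derivatives
-/

noncomputable section

set_option linter.unusedSectionVars false

namespace Pool.Agent.HIP

open Function

namespace Fox

/-- multiplication of a coefficient by `-1` -/
def cneg (c : Cf) : Cf := (-c.1, c.2)

theorem cf_cneg (k : Type) [Field k] (c : Cf) : cf k (cneg c) = - cf k c := by
  simp [cf, cneg, neg_div]

theorem cf_one (k : Type) [Field k] : cf k (1, 0) = 1 := by simp [cf]

/-- one step of the expansion; the first component is the word read so far -/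
def stp (asc : LRel → LRel) (p : List ℕ × MRel) (x : ℕ) : List ℕ × MRel :=
  (p.1 ++ [x], (asc [((1, 0), p.1)]).map (fun t => (t.1, x, t.2)) ++
    p.2.map (fun t => (cneg t.1, t.2.1, x :: t.2.2)))

/-- Fox derivative of a left-normed word -/
def wfox (asc : LRel → LRel) (w : List ℕ) : MRel :=
  List.casesOn w [] fun a l => (l.foldl (stp asc) ([a], [((1, 0), a, [])])).2

/-- the Fox derivative -/
def fox (asc : LRel → LRel) (R : LRel) : MRel :=
  R.flatMap fun t => (wfox asc t.2).map fun s => (t.1.mul s.1, s.2)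

section
variable {k : Type} [Field k] {Q : Type} [LieRing Q] [LieAlgebra k Q] {D : Type}
  [AddCommGroup D] [Module k D] [LieRingModule Q D] [LieModule k Q D]

theorem lval_d_cons (ev : ℕ → Sd D Q) (t : Cf × List ℕ) (R : LRel) :
    (lval k ev (t :: R)).d = cf k t.1 • (lnorm (t.2.map ev)).d + (lval k ev R).d := by
  rw [lval_cons, Sd.add_d, Sd.smul_d]

theorem lnorm_q (k : Type) [Field k] {Q : Type} [LieRing Q] [LieAlgebra k Q] {D : Type}
    [AddCommGroup D] [Module k D] [LieRingModule Q D] [LieModule k Q D]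
    (d : ℕ → D) (ev : ℕ → Q) (w : List ℕ) :
    (lnorm (w.map fun i => (⟨d i, ev i⟩ : Sd D Q))).q = lnorm (w.map ev) := by
  have := map_lnorm (Sd.proj k D Q) (w.map fun i => (⟨d i, ev i⟩ : Sd D Q))
  rw [Sd.proj_apply, List.map_map] at this
  exact this

theorem mvn_neg (ev : ℕ → Q) (d : ℕ → D) (x : ℕ) (R : MRel) :
    mvn k ev d (R.map (fun t => (cneg t.1, t.2.1, x :: t.2.2))) = -⁅ev x, mvn k ev d R⁆ := by
  induction R with
  | nil => simp [mvn]
  | cons t R ih =>
    rw [List.map_cons, mvn_cons, ih, mvn_cons]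
    simp only [cf_cneg, List.map_cons, wact_cons, lie_add, lie_smul, neg_smul]
    abel

theorem mvn_asc (ev : ℕ → Q) (d : ℕ → D) (x : ℕ) (R : LRel) :
    mvn k ev d (R.map (fun t => (t.1, x, t.2))) = aact k ev R (d x) := by
  unfold mvn aact
  rw [List.map_map]
  rfl

theorem foldl_stp (asc : LRel → LRel)
    (hasc : ∀ (ev : ℕ → Q) (R : LRel) (m : D), aact k ev (asc R) m = ⁅lval k ev R, m⁆)
    (d : ℕ → D) (ev : ℕ → Q) (l : List ℕ) : ∀ (p : List ℕ × MRel), p.1 ≠ [] →
    mvn k ev d p.2 = (lnorm (p.1.map fun i => (⟨d i, ev i⟩ : Sd D Q))).d →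
    mvn k ev d (l.foldl (stp asc) p).2 =
      (lnorm ((p.1 ++ l).map fun i => (⟨d i, ev i⟩ : Sd D Q))).d := by
  induction l with
  | nil => intro p _ h; simpa using h
  | cons x l ih =>
    intro p hp h
    rw [List.foldl_cons, ih (stp asc p x) (by simp [stp])]
    · simp [stp]
    · have h1 : (stp asc p x).1 = p.1 ++ [x] := rfl
      have h2 : (stp asc p x).2 = (asc [((1, 0), p.1)]).map (fun t => (t.1, x, t.2)) ++
        p.2.map (fun t => (cneg t.1, t.2.1, x :: t.2.2)) := rfl
      rw [h1, h2, mvn_append, mvn_neg, mvn_asc, hasc, h, List.map_append, List.map_singleton,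
        lnorm_append_singleton _ (by simpa using hp), Sd.lie_d, lnorm_q k]
      simp [lval, cf_one, sub_eq_add_neg]

theorem mvn_wfox (asc : LRel → LRel)
    (hasc : ∀ (ev : ℕ → Q) (R : LRel) (m : D), aact k ev (asc R) m = ⁅lval k ev R, m⁆)
    (d : ℕ → D) (ev : ℕ → Q) (w : List ℕ) :
    mvn k ev d (wfox asc w) = (lnorm (w.map fun i => (⟨d i, ev i⟩ : Sd D Q))).d := by
  cases w with
  | nil => simp [wfox, mvn]
  | cons a l =>
    change mvn k ev d (l.foldl (stp asc) ([a], [((1, 0), a, [])])).2 = _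
    rw [foldl_stp asc hasc d ev l ([a], [((1, 0), a, [])]) (by simp) (by simp [mvn, cf_one])]
    rfl

theorem mvn_fox (asc : LRel → LRel)
    (hasc : ∀ (ev : ℕ → Q) (R : LRel) (m : D), aact k ev (asc R) m = ⁅lval k ev R, m⁆)
    (d : ℕ → D) (ev : ℕ → Q) (R : LRel) :
    (lval k (fun i => (⟨d i, ev i⟩ : Sd D Q)) R).d = mvn k ev d (fox asc R) := by
  induction R with
  | nil => simp [fox, mvn]
  | cons t R ih =>
    have h1 : fox asc (t :: R) =
        (wfox asc t.2).map (fun s => (t.1.mul s.1, s.2)) ++ fox asc R := by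
      simp [fox]
    have h2 : mvn k ev d ((wfox asc t.2).map (fun s => (t.1.mul s.1, s.2))) =
        cf k t.1 • mvn k ev d (wfox asc t.2) := by
      unfold mvn
      rw [List.map_map, List.smul_sum, List.map_map]
      congr 1
      apply List.map_congr_left
      intro s _
      simp [cf_mul, mul_smul]
    rw [h1, mvn_append, h2, ← ih, lval_d_cons, mvn_wfox asc hasc]

end

/-! ### primitive recursion -/

theorem primrec_cneg (hneg : Primrec fun a : ℤ => -a) : Primrec cneg :=
  Primrec.pair (hneg.comp Primrec.fst) Primrec.snd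

theorem primrec_mul (hmul : Primrec₂ fun a b : ℤ => a * b) : Primrec₂ Cf.mul := by
  have h1 : Primrec (fun p : Cf × Cf => p.1.1 * p.2.1) :=
    hmul.comp (Primrec.fst.comp Primrec.fst) (Primrec.fst.comp Primrec.snd)
  have h2 : Primrec (fun p : Cf × Cf => (p.1.2 + 1) * (p.2.2 + 1) - 1) :=
    Primrec.nat_sub.comp (Primrec.nat_mul.comp
      (Primrec.succ.comp (Primrec.snd.comp Primrec.fst))
      (Primrec.succ.comp (Primrec.snd.comp Primrec.snd))) (Primrec.const 1)
  exact Primrec.pair h1 h2

theorem primrec_stp {asc : LRel → LRel} (hasc : Primrec asc)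
    (hneg : Primrec fun a : ℤ => -a) : Primrec₂ (stp asc) := by
  have h0 : Primrec (fun p : (List ℕ × MRel) × ℕ => p.1.1 ++ [p.2]) :=
    Primrec.list_append.comp (Primrec.fst.comp Primrec.fst)
      (Primrec.list_cons.comp Primrec.snd (Primrec.const []))
  have h1 : Primrec (fun p : (List ℕ × MRel) × ℕ =>
      (asc [((1, 0), p.1.1)]).map (fun t => (t.1, p.2, t.2))) := by
    refine Primrec.list_map (hasc.comp (Primrec.list_cons.comp (Primrec.pair (Primrec.const _)
      (Primrec.fst.comp Primrec.fst)) (Primrec.const []))) ?_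
    refine Primrec.pair (Primrec.fst.comp Primrec.snd) ?_
    exact Primrec.pair (Primrec.snd.comp Primrec.fst) (Primrec.snd.comp Primrec.snd)
  have h2 : Primrec (fun p : (List ℕ × MRel) × ℕ =>
      p.1.2.map (fun t => (cneg t.1, t.2.1, p.2 :: t.2.2))) := by
    refine Primrec.list_map (Primrec.snd.comp Primrec.fst) ?_
    refine Primrec.pair ((primrec_cneg hneg).comp (Primrec.fst.comp Primrec.snd)) ?_
    refine Primrec.pair (Primrec.fst.comp (Primrec.snd.comp Primrec.snd)) ?_
    exact Primrec.list_cons.comp (Primrec.snd.comp Primrec.fst)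
      (Primrec.snd.comp (Primrec.snd.comp Primrec.snd))
  exact Primrec.pair h0 (Primrec.list_append.comp h1 h2)

theorem primrec_wfox {asc : LRel → LRel} (hasc : Primrec asc)
    (hneg : Primrec fun a : ℤ => -a) : Primrec (wfox asc) := by
  have h1 : Primrec (fun p : List ℕ × (ℕ × List ℕ) =>
      (([p.2.1], [((1, 0), p.2.1, [])]) : List ℕ × MRel)) := by
    have ha : Primrec (fun p : List ℕ × (ℕ × List ℕ) => p.2.1) :=
      Primrec.fst.comp Primrec.snd
    refine Primrec.pair (Primrec.list_cons.comp ha (Primrec.const [])) ?_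
    exact Primrec.list_cons.comp (Primrec.pair (Primrec.const _)
      (Primrec.pair ha (Primrec.const []))) (Primrec.const [])
  have h2 : Primrec₂ (fun (_ : List ℕ) (p : ℕ × List ℕ) =>
      (p.2.foldl (stp asc) ([p.1], [((1, 0), p.1, [])])).2) :=
    Primrec.snd.comp (Primrec.list_foldl
      (h := fun (_ : List ℕ × (ℕ × List ℕ)) (s : (List ℕ × MRel) × ℕ) => stp asc s.1 s.2)
      (Primrec.snd.comp Primrec.snd) h1
      ((primrec_stp hasc hneg).comp (Primrec.fst.comp Primrec.snd)
        (Primrec.snd.comp Primrec.snd)))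
  exact Primrec.list_casesOn (f := fun w : List ℕ => w) (g := fun _ => ([] : MRel))
    (h := fun (_ : List ℕ) (p : ℕ × List ℕ) =>
      (p.2.foldl (stp asc) ([p.1], [((1, 0), p.1, [])])).2)
    Primrec.id (Primrec.const []) h2

theorem primrec_fox {asc : LRel → LRel} (hasc : Primrec asc)
    (hmul : Primrec₂ fun a b : ℤ => a * b) (hneg : Primrec fun a : ℤ => -a) :
    Primrec (fox asc) := by
  refine Primrec.list_flatMap Primrec.id ?_
  refine Primrec.list_map ((primrec_wfox hasc hneg).comp (Primrec.snd.comp Primrec.snd)) ?_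
  exact Primrec.pair ((primrec_mul hmul).comp
    (Primrec.fst.comp (Primrec.snd.comp Primrec.fst)) (Primrec.fst.comp Primrec.snd))
    (Primrec.snd.comp Primrec.snd)

end Fox

theorem fox_proof : Stmt_FoxAsm := by
  intro hint hasc
  obtain ⟨asc, hascp, hasc⟩ := hasc
  exact ⟨Fox.fox asc, Fox.primrec_fox hascp hint.1 hint.2.1,
    fun k _ Q _ _ D _ _ _ _ ev d R => Fox.mvn_fox asc
      (fun ev R m => hasc k Q D ev R m) d ev R⟩

end Pool.Agent.HIP
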