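import Pool.Agent.HIP.FPQUOT

/-! # FPAB -/

noncomputable section

namespace Pool.Agent.HIP

open Function

namespace FPAB

/-- a linear map out of an abelian Lie algebra with commuting images of a basis -/
def ofBasis {k : Type} [Field k] {L : Type} [LieRing L] [LieAlgebra k L]
    (hab : ∀ x y : L, ⁅x, y⁆ = 0) {d : ℕ} (b : Module.Basis (Fin d) k L) {G : Type} [LieRing G]
    [LieAlgebra k G] (g : Fin d → G) (hg : ∀ i j, ⁅g i, g j⁆ = 0) : L →ₗ⁅k⁆ G where
  toLinearMap := b.constr k g
  map_lie' := by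
    intro x y
    have h1 : ⁅x, y⁆ = 0 := hab x y
    rw [h1]
    change (b.constr k g) 0 = ⁅b.constr k g x, b.constr k g y⁆
    rw [LinearMap.map_zero, b.constr_apply_fintype k g x, b.constr_apply_fintype k g y,
      sum_lie]
    symm
    apply Finset.sum_eq_zero
    intro i _
    rw [lie_sum]
    apply Finset.sum_eq_zero
    intro j _
    rw [smul_lie, lie_smul, hg i j, smul_zero, smul_zero]

end FPAB

open FPQUOT FPAB in
theorem fpab_proof : Stmt_FPAb := by
  intro k _ L _ _ hab hfin
  let b := Module.finBasis k L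
  set d := Module.finrank k L with hd
  let F := FreeLieAlgebra k (Fin d)
  let π : FreeLieAlgebra k (Fin d) →ₗ⁅k⁆ L := FreeLieAlgebra.lift k b
  let R : Set (FreeLieAlgebra k (Fin d)) :=
    Set.range fun ij : Fin d × Fin d =>
      ⁅FreeLieAlgebra.of k ij.1, FreeLieAlgebra.of k ij.2⁆
  have hπ : ∀ i, π (FreeLieAlgebra.of k i) = b i := fun i =>
    FreeLieAlgebra.lift_of_apply _ i
  refine fp_of_surj π ?_ R (Set.finite_range _) ?_
  · intro x
    rw [← b.sum_repr x]
    refine ⟨∑ i, b.repr x i • FreeLieAlgebra.of k i, ?_⟩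
    rw [map_sum]
    refine Finset.sum_congr rfl fun i _ => ?_
    rw [map_smul, hπ]
  · set I : LieIdeal k (FreeLieAlgebra k (Fin d)) := LieSubmodule.lieSpan k _ R with hI
    have hmem : ∀ i j, ⁅qmk I (FreeLieAlgebra.of k i), qmk I (FreeLieAlgebra.of k j)⁆ = 0 := by
      intro i j
      rw [← LieHom.map_lie, qmk_eq_zero]
      exact LieSubmodule.subset_lieSpan ⟨(i, j), rfl⟩
    let g : L →ₗ⁅k⁆ (FreeLieAlgebra k (Fin d) ⧸ I) :=
      ofBasis hab b (fun i => qmk I (FreeLieAlgebra.of k i)) hmem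
    have hg : g.comp π = qmk I := by
      apply FreeLieAlgebra.hom_ext
      intro i
      rw [LieHom.comp_apply, hπ]
      exact b.constr_basis k _ i
    apply le_antisymm
    · intro x hx
      rw [LieHom.mem_ker] at hx
      rw [← qmk_eq_zero, ← hg, LieHom.comp_apply, hx, map_zero]
    · rw [hI, LieSubmodule.lieSpan_le]
      rintro _ ⟨⟨i, j⟩, rfl⟩
      change _ ∈ π.ker
      rw [LieHom.mem_ker]
      change π ⁅FreeLieAlgebra.of k i, FreeLieAlgebra.of k j⁆ = 0
      rw [LieHom.map_lie]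
      exact hab _ _

end Pool.Agent.HIP
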