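import Pool.Agent.HIP.Basic

/-! # FPQUOT -/

noncomputable section

namespace Pool.Agent.HIP

open Function

namespace FPQUOT

/-- a surjection with kernel generated by a finite set gives a finite presentation -/
theorem fp_of_surj {k : Type} [Field k] {L : Type} [LieRing L] [LieAlgebra k L] {d : ℕ}
    (π : FreeLieAlgebra k (Fin d) →ₗ⁅k⁆ L) (hπ : Surjective π)
    (R : Set (FreeLieAlgebra k (Fin d))) (hR : R.Finite)
    (hker : π.ker = LieSubmodule.lieSpan k (FreeLieAlgebra k (Fin d)) R) : FP k L := by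
  refine ⟨d, R, hR, ?_⟩
  rw [← hker]
  have htop : π.range = ⊤ := by
    rw [LieHom.range_eq_top]
    exact hπ
  have e1 : (FreeLieAlgebra k (Fin d) ⧸ π.ker) ≃ₗ⁅k⁆ π.range := π.quotKerEquivRange
  rw [htop] at e1
  exact ⟨(e1.trans LieSubalgebra.topEquiv).symm⟩

/-- the image of an ideal under a surjective homomorphism -/
def img {k : Type} [Field k] {L L' : Type} [LieRing L] [LieAlgebra k L] [LieRing L']
    [LieAlgebra k L'] (φ : L →ₗ⁅k⁆ L') (hφ : Surjective φ) (I : LieIdeal k L) : LieIdeal k L' where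
  carrier := {g | ∃ x ∈ I, φ x = g}
  add_mem' := by
    rintro _ _ ⟨x, hx, rfl⟩ ⟨y, hy, rfl⟩
    exact ⟨x + y, add_mem hx hy, by simp⟩
  zero_mem' := ⟨0, zero_mem _, by simp⟩
  smul_mem' := by
    rintro c _ ⟨x, hx, rfl⟩
    exact ⟨c • x, I.smul_mem c hx, by simp⟩
  lie_mem := by
    rintro y _ ⟨x, hx, rfl⟩
    obtain ⟨z, rfl⟩ := hφ y
    exact ⟨⁅z, x⁆, lie_mem_right k L I z x hx, by simp⟩

/-- the quotient map as a homomorphism of Lie algebras -/
def qmk {k : Type} [Field k] {L : Type} [LieRing L] [LieAlgebra k L] (I : LieIdeal k L) :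
    L →ₗ⁅k⁆ (L ⧸ I) where
  toFun x := LieSubmodule.Quotient.mk x
  map_add' _ _ := rfl
  map_smul' _ _ := rfl
  map_lie' := rfl

theorem qmk_surjective {k : Type} [Field k] {L : Type} [LieRing L] [LieAlgebra k L]
    (I : LieIdeal k L) : Surjective (qmk I) := Quot.mk_surjective

theorem qmk_eq_zero {k : Type} [Field k] {L : Type} [LieRing L] [LieAlgebra k L]
    (I : LieIdeal k L) (x : L) : qmk I x = 0 ↔ x ∈ I :=
  LieSubmodule.Quotient.mk_eq_zero' 

/-- quotient by the ideal generated by finitely many elements, from a presentation -/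
theorem ker_comp {k : Type} [Field k] {F G : Type} [LieRing F] [LieAlgebra k F] [LieRing G]
    [LieAlgebra k G] (φ : F →ₗ⁅k⁆ G) (hφ : Surjective φ) (R : Set F)
    (hR : φ.ker = LieSubmodule.lieSpan k F R) (S : Set G) (T : Set F) (hT : φ '' T = S) :
    ((qmk (LieSubmodule.lieSpan k G S : LieIdeal k G)).comp φ).ker =
      LieSubmodule.lieSpan k F (R ∪ T) := by
  apply le_antisymm
  · intro x hx
    rw [LieHom.mem_ker, LieHom.comp_apply, qmk_eq_zero] at hx
    have h1 : (LieSubmodule.lieSpan k G S : LieIdeal k G) ≤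
        img φ hφ (LieSubmodule.lieSpan k F (R ∪ T)) := by
      rw [LieSubmodule.lieSpan_le]
      intro s hs
      rw [← hT] at hs
      obtain ⟨t, ht, rfl⟩ := hs
      exact ⟨t, LieSubmodule.subset_lieSpan (Or.inr ht), rfl⟩
    obtain ⟨y, hy, hxy⟩ := h1 hx
    have h2 : x - y ∈ φ.ker := by
      rw [LieHom.mem_ker, map_sub, hxy, sub_self]
    rw [hR] at h2
    have h3 : x - y ∈ LieSubmodule.lieSpan k F (R ∪ T) :=
      LieSubmodule.lieSpan_mono Set.subset_union_left h2
    have := add_mem h3 hy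
    simpa using this
  · rw [LieSubmodule.lieSpan_le]
    rintro x (hx | hx)
    · have : x ∈ φ.ker := by
        rw [hR]
        exact LieSubmodule.subset_lieSpan hx
      rw [LieHom.mem_ker] at this
      change x ∈ ((qmk (LieSubmodule.lieSpan k G S : LieIdeal k G)).comp φ).ker
      rw [LieHom.mem_ker, LieHom.comp_apply, this, map_zero]
    · change x ∈ ((qmk (LieSubmodule.lieSpan k G S : LieIdeal k G)).comp φ).ker
      rw [LieHom.mem_ker, LieHom.comp_apply, qmk_eq_zero]
      apply LieSubmodule.subset_lieSpan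
      rw [← hT]
      exact ⟨x, hx, rfl⟩

end FPQUOT

open FPQUOT in
theorem fpquot_proof : Stmt_FPQuot := by
  intro k _ G _ _ hG S hS
  obtain ⟨d, R, hR, ⟨e⟩⟩ := hG
  have hφ : ∃ φ : FreeLieAlgebra k (Fin d) →ₗ⁅k⁆ G, Surjective φ ∧
      φ.ker = LieSubmodule.lieSpan k (FreeLieAlgebra k (Fin d)) R := by
    refine ⟨(e.symm.toLieHom).comp (qmk _), ?_, ?_⟩
    · rw [LieHom.coe_comp]
      exact e.symm.surjective.comp (qmk_surjective _)
    · ext x
      rw [LieHom.mem_ker, LieHom.comp_apply, ← qmk_eq_zero]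
      constructor
      · intro h
        exact e.symm.injective (by rw [map_zero]; exact h)
      · intro h
        rw [h, map_zero]
  obtain ⟨φ, hs, hk⟩ := hφ
  obtain ⟨T, hTf, hT⟩ : ∃ T : Set (FreeLieAlgebra k (Fin d)), T.Finite ∧ φ '' T = S := by
    refine ⟨(Function.surjInv hs) '' S, hS.image _, ?_⟩
    rw [Set.image_image]
    simp [Function.surjInv_eq hs]
  refine fp_of_surj ((qmk (LieSubmodule.lieSpan k G S : LieIdeal k G)).comp φ) ?_ (R ∪ T)
    (hR.union hTf) (ker_comp φ hs R hk S T hT)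
  rw [LieHom.coe_comp]
  exact (qmk_surjective _).comp hs

end Pool.Agent.HIP
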