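import Mathlib
import Pool.Agent.HIP.Basic

/-!
# Induced modules: a presented module embeds in the induced one
-/

noncomputable section

set_option linter.unusedSectionVars false

namespace Pool.Agent.HIP

open Function

theorem ind_proof : Stmt_IndAsm := by
  intro hExt k _ Q Y _ _ _ _ θ hθ ι A _ _ _ _ a Rel hA B _ _ _ _ b hB
  obtain ⟨A', _, _, _, _, j0, hj0, hj0'⟩ := hExt k Q Y θ hθ A
  obtain ⟨hA1, hA2, hA3⟩ := hA
  obtain ⟨hB1, hB2, hB3⟩ := hB
  -- the map from B to A'
  obtain ⟨F, hF⟩ := hB3 A' (fun i => j0 (a i)) (by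
    rintro _ ⟨R, hR, rfl⟩
    rw [← map_mval' (fun x => θ x) j0 hj0' a R, hA1 R hR, map_zero])
  -- the map from A to B
  obtain ⟨G, hG⟩ := hA3 (Res θ B) (fun i => toRes θ B (b i)) (by
    intro R hR
    rw [mval_res, hB1 _ ⟨R, hR, rfl⟩, map_zero])
  let j : A →ₗ[k] B := (toRes θ B).symm.toLinearMap ∘ₗ (G : A →ₗ[k] Res θ B)
  have hjG : ∀ x : A, j x = (toRes θ B).symm (G x) := fun _ => rfl
  have hj1 : ∀ (q : Q) (x : A), j ⁅q, x⁆ = ⁅θ q, j x⁆ := by
    intro q x
    rw [hjG, hjG, LieModuleHom.map_lie, Res.lie_def, LinearEquiv.symm_apply_apply]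
  have hj2 : ∀ i, j (a i) = b i := by
    intro i
    rw [hjG, hG, LinearEquiv.symm_apply_apply]
  have key : ∀ x : A, F (j x) = j0 x := by
    let S : LieSubmodule k Q A :=
      { carrier := {x | F (j x) = j0 x}
        add_mem' := by
          intro x y hx hy
          simp only [Set.mem_setOf_eq] at hx hy ⊢
          rw [map_add, map_add, map_add, hx, hy]
        zero_mem' := by simp
        smul_mem' := by
          intro c x hx
          simp only [Set.mem_setOf_eq] at hx ⊢
          rw [map_smul, map_smul, map_smul, hx]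
        lie_mem := by
          intro q x hx
          change F (j ⁅q, x⁆) = j0 ⁅q, x⁆
          have hx' : F (j x) = j0 x := hx
          rw [hj1, LieModuleHom.map_lie, hx', hj0'] }
    have hS : LieSubmodule.lieSpan k Q (Set.range a) ≤ S := by
      rw [LieSubmodule.lieSpan_le]
      rintro _ ⟨i, rfl⟩
      change F (j (a i)) = j0 (a i)
      rw [hj2, hF]
    intro x
    have : x ∈ LieSubmodule.lieSpan k Q (Set.range a) := by rw [hA2]; trivial
    exact hS this
  refine ⟨j, ?_, hj1, hj2⟩
  intro x y hxy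
  apply hj0
  rw [← key, ← key, hxy]

end Pool.Agent.HIP
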