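import Pool.Agent.HIP.Basic

/-!
# INT: integer arithmetic is primitive recursive
-/

noncomputable section

set_option linter.unusedSectionVars false

namespace Pool.Agent.HIP

namespace INT

open Primrec

theorem enc_ofNat (n : ℕ) : Encodable.encode (Int.ofNat n) = 2 * n := rfl

theorem enc_negSucc (n : ℕ) : Encodable.encode (Int.negSucc n) = 2 * n + 1 := rfl

theorem ofNat_even (n : ℕ) : Denumerable.ofNat ℤ (2 * n) = (n : ℤ) := by
  have h := Denumerable.ofNat_encode (Int.ofNat n)
  rw [enc_ofNat] at h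
  rw [h]; rfl

theorem ofNat_odd (n : ℕ) : Denumerable.ofNat ℤ (2 * n + 1) = Int.negSucc n := by
  have h := Denumerable.ofNat_encode (Int.negSucc n)
  rwa [enc_negSucc] at h

theorem cast_pr : Primrec fun n : ℕ => (n : ℤ) :=
  ((Primrec.ofNat ℤ).comp nat_double).of_eq fun n => ofNat_even n

theorem neg_pr : Primrec fun a : ℤ => -a := by
  have h1 : Primrec fun c : ℕ => if c % 2 = 0 then c - 1 else c + 1 :=
    Primrec.ite (Primrec.eq.comp (nat_mod.comp Primrec.id (Primrec.const 2)) (Primrec.const 0))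
      (nat_sub.comp Primrec.id (Primrec.const 1)) Primrec.succ
  refine ((Primrec.ofNat ℤ).comp (h1.comp Primrec.encode)).of_eq fun a => ?_
  rcases a with n | n
  · rw [enc_ofNat, if_pos (by omega)]
    rcases n with _ | n
    · exact ofNat_even 0
    · rw [show 2 * (n + 1) - 1 = 2 * n + 1 by omega, ofNat_odd]
      rfl
  · rw [enc_negSucc, if_neg (by omega), show 2 * n + 1 + 1 = 2 * (n + 1) by ring, ofNat_even]
    rfl

theorem natAbs_pr : Primrec Int.natAbs := by
  refine (nat_div.comp (Primrec.succ.comp Primrec.encode) (Primrec.const 2)).of_eq fun a => ?_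
  rcases a with n | n
  · rw [enc_ofNat]
    change (2 * n + 1) / 2 = n
    omega
  · rw [enc_negSucc]
    change (2 * n + 1 + 1) / 2 = n + 1
    omega

theorem nonneg_pr : Primrec fun a : ℤ => decide (0 ≤ a) := by
  refine (Primrec.beq.comp (nat_mod.comp Primrec.encode (Primrec.const 2))
    (Primrec.const 0)).of_eq fun a => ?_
  rcases a with n | n
  · rw [enc_ofNat]
    have h1 : 2 * n % 2 = 0 := by omega
    have h2 : (0 : ℤ) ≤ Int.ofNat n := Int.natCast_nonneg n
    simp [h1]
  · rw [enc_negSucc]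
    have h1 : (2 * n + 1) % 2 = 1 := by omega
    have h2 : ¬ (0 : ℤ) ≤ Int.negSucc n := by
      have := Int.negSucc_lt_zero n
      omega
    rw [h1]
    simp [h2]

/-- positive part -/
def pos (a : ℤ) : ℕ := a.toNat

/-- negative part -/
def neg (a : ℤ) : ℕ := (-a).toNat

theorem pos_pr : Primrec pos := by
  refine (Primrec.cond nonneg_pr natAbs_pr (Primrec.const 0)).of_eq fun a => ?_
  by_cases h : 0 ≤ a
  · simp only [h, decide_true, cond_true, pos]
    omega
  · simp only [h, decide_false, cond_false, pos]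
    omega

theorem neg'_pr : Primrec neg := pos_pr.comp neg_pr

theorem sub_pr : Primrec₂ fun p q : ℕ => (p : ℤ) - (q : ℤ) := by
  have h1 : Primrec fun x : ℕ × ℕ => if x.2 ≤ x.1 then ((x.1 - x.2 : ℕ) : ℤ)
      else -((x.2 - x.1 : ℕ) : ℤ) :=
    Primrec.ite (nat_le.comp Primrec.snd Primrec.fst)
      (cast_pr.comp (nat_sub.comp Primrec.fst Primrec.snd))
      (neg_pr.comp (cast_pr.comp (nat_sub.comp Primrec.snd Primrec.fst)))
  refine h1.of_eq fun x => ?_
  by_cases h : x.2 ≤ x.1
  · rw [if_pos h]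
    push_cast [Nat.cast_sub h]
    rfl
  · rw [if_neg h, Nat.cast_sub (by omega)]
    ring

theorem dec (a : ℤ) : a = (pos a : ℤ) - (neg a : ℤ) := by
  unfold pos neg
  omega

theorem add_pr : Primrec₂ fun a b : ℤ => a + b := by
  have h1 : Primrec fun x : ℤ × ℤ =>
      ((pos x.1 + pos x.2 : ℕ) : ℤ) - ((neg x.1 + neg x.2 : ℕ) : ℤ) :=
    sub_pr.comp (nat_add.comp (pos_pr.comp Primrec.fst) (pos_pr.comp Primrec.snd))
      (nat_add.comp (neg'_pr.comp Primrec.fst) (neg'_pr.comp Primrec.snd))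
  refine h1.of_eq fun x => ?_
  have h2 := dec x.1
  have h3 := dec x.2
  push_cast
  linarith

theorem mul_pr : Primrec₂ fun a b : ℤ => a * b := by
  have h1 : Primrec fun x : ℤ × ℤ =>
      ((pos x.1 * pos x.2 + neg x.1 * neg x.2 : ℕ) : ℤ) -
        ((pos x.1 * neg x.2 + neg x.1 * pos x.2 : ℕ) : ℤ) :=
    sub_pr.comp
      (nat_add.comp (nat_mul.comp (pos_pr.comp Primrec.fst) (pos_pr.comp Primrec.snd))
        (nat_mul.comp (neg'_pr.comp Primrec.fst) (neg'_pr.comp Primrec.snd)))
      (nat_add.comp (nat_mul.comp (pos_pr.comp Primrec.fst) (neg'_pr.comp Primrec.snd))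
        (nat_mul.comp (neg'_pr.comp Primrec.fst) (pos_pr.comp Primrec.snd)))
  refine h1.of_eq fun x => ?_
  have h2 := dec x.1
  have h3 := dec x.2
  conv_rhs => rw [h2, h3]
  push_cast
  ring

end INT

theorem int_proof : Stmt_Int :=
  ⟨INT.mul_pr, INT.neg_pr, INT.natAbs_pr, INT.nonneg_pr, INT.cast_pr, INT.add_pr⟩

end Pool.Agent.HIP
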