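import Mathlib
import Pool.Agent.HIP.Basic

/-!
# Kaloujnine-Krasner embedding with a presented module (module KK)
-/

noncomputable section

set_option linter.unusedSectionVars false

namespace Pool.Agent.HIP

open Function

namespace KKX

variable {k : Type} [Field k] {L : Type} [LieRing L] [LieAlgebra k L]

/-- the quotient map as a homomorphism of Lie algebras -/
theorem mk_lie (I : LieIdeal k L) (x y : L) :
    (LieSubmodule.Quotient.mk ⁅x, y⁆ : L ⧸ I) =
      ⁅(LieSubmodule.Quotient.mk x : L ⧸ I), LieSubmodule.Quotient.mk y⁆ := rfl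

/-- quotient map -/
def qm (I : LieIdeal k L) : L →ₗ⁅k⁆ L ⧸ I where
  toFun x := LieSubmodule.Quotient.mk x
  map_add' _ _ := rfl
  map_smul' _ _ := rfl
  map_lie' := rfl

theorem qm_apply (I : LieIdeal k L) (x : L) : qm I x = LieSubmodule.Quotient.mk x := rfl

/-- a derivation as a homomorphism to the semidirect product -/
def dh {Q E : Type} [LieRing Q] [LieAlgebra k Q] [AddCommGroup E] [Module k E]
    [LieRingModule Q E] [LieModule k Q E] (q : L →ₗ⁅k⁆ Q) (δ : L →ₗ[k] E)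
    (h : ∀ x y : L, δ ⁅x, y⁆ = ⁅q x, δ y⁆ - ⁅q y, δ x⁆) : L →ₗ⁅k⁆ Sd E Q where
  toFun x := ⟨δ x, q x⟩
  map_add' x y := by ext <;> simp
  map_smul' c x := by ext <;> simp
  map_lie' := by intro x y; ext <;> simp [h]

end KKX

open KKX in
theorem kk_proof : Stmt_KKAsm := by
  intro hRPQ hFox hKKI hEx k _ n L _ _ hRP hD
  obtain ⟨fox, hfp, hfv⟩ := hFox
  obtain ⟨ev, hRPg⟩ := hRP
  have hQ := hRPQ k L ev hRPg n
  have hG := hRPg.gens
  obtain ⟨K, ρ, hK, -, hρ, hρ0, hu⟩ := hRPg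
  set I := LieAlgebra.derivedSeries k L n with hI
  let evQ : ℕ → L ⧸ I := fun i => LieSubmodule.Quotient.mk (ev i)
  obtain ⟨D, iD1, iD2, iD3, iD4, f, hf⟩ := hEx k (L ⧸ I) (Fin K)
    (Set.range fun m => conv k K evQ (fox (ρ m)))
  -- the homomorphism
  let dd : ℕ → D := fun i => if h : i < K then f ⟨i, h⟩ else 0
  have hrel : ∀ m, lval k (fun i => (⟨dd i, evQ i⟩ : Sd D (L ⧸ I))) (ρ m) = 0 := by
    intro m
    ext
    · rw [hfv, ← mval_conv (k := k) evQ f, hf.rel ⟨m, rfl⟩]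
      rfl
    · have h1 := map_lval (k := k) (Sd.proj k D (L ⧸ I))
        (fun i => (⟨dd i, evQ i⟩ : Sd D (L ⧸ I))) (ρ m)
      have h2 := map_lval (k := k) (qm I) ev (ρ m)
      rw [hρ0, map_zero] at h2
      rw [Sd.proj_apply] at h1
      rw [h1]
      exact h2.symm
  obtain ⟨φ, hφ⟩ := hu (Sd D (L ⧸ I)) (fun i => ⟨dd i, evQ i⟩) (by
    intro i hi
    ext
    · simp only [dd]
      rw [dif_neg (by omega)]
      rfl
    · simp only [evQ, hK i hi]
      rfl) hrel
  refine ⟨L ⧸ I, inferInstance, inferInstance, evQ, D, iD1, iD2, iD3, iD4, K, f,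
    fun m => fox (ρ m), φ, hQ, derivedSeries_quot n, ⟨hfp.comp hρ, hf⟩, ?_⟩
  -- injectivity
  obtain ⟨E, iE1, iE2, iE3, iE4, δ, hδ, hδ0⟩ := hKKI k n L hD
  let ψ : L →ₗ⁅k⁆ Sd E (L ⧸ I) := dh (qm I) δ hδ
  have hψ : Injective ψ := by
    rw [injective_iff_map_eq_zero]
    intro x hx
    have h1 : δ x = 0 := congrArg Sd.d hx
    have h2 : (LieSubmodule.Quotient.mk x : L ⧸ I) = 0 := congrArg Sd.q hx
    exact hδ0 x (LieSubmodule.Quotient.mk_eq_zero'.1 h2) h1
  have hn : ∀ R ∈ Set.range (fun m => conv k K evQ (fox (ρ m))),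
      mval (fun i : Fin K => δ (ev i)) R = 0 := by
    rintro _ ⟨m, rfl⟩
    rw [mval_conv]
    have h1 : (fun i => if h : i < K then δ (ev ((⟨i, h⟩ : Fin K) : ℕ)) else 0) =
        fun i => δ (ev i) := by
      funext i
      by_cases h : i < K
      · rw [dif_pos h]
      · rw [dif_neg h, hK i (by omega), map_zero]
    rw [h1, ← hfv]
    have h2 := map_lval (k := k) ψ ev (ρ m)
    rw [hρ0, map_zero] at h2
    have h3 := congrArg Sd.d h2
    exact h3.symm
  obtain ⟨g, hg⟩ := hf.2.2 E (fun i => δ (ev i)) hn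
  let G : Sd D (L ⧸ I) →ₗ⁅k⁆ Sd E (L ⧸ I) :=
    Sd.map LieHom.id g.toLinearMap (by intro q d; exact LieModuleHom.map_lie g q d)
  have hc : G.comp φ = ψ := by
    apply hG.hom_ext
    intro i
    rw [LieHom.comp_apply, hφ]
    ext
    · change g (dd i) = δ (ev i)
      simp only [dd]
      by_cases h : i < K
      · rw [dif_pos h, hg]
      · rw [dif_neg h, hK i (by omega), map_zero, map_zero]
    · rfl
  intro x y hxy
  apply hψ
  rw [← hc, LieHom.comp_apply, LieHom.comp_apply, hxy]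

end Pool.Agent.HIP
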