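import Mathlib
import Pool.Agent.HIP.Basic

/-!
# KKI : a derivation injective on the last term of the derived series

`K = D^n L` is abelian.  EXT embeds the `K`-module `k m0 + K` (`y m0 = y`, `y K = 0`) in an
`L`-module `M'`.  With `V₁ = {m | K m = 0}` and `V₂ = {m | K m ⊆ V₁}` and a linear projection
`p : V₂ → V₁`, the derivation is `x ↦ x · p ∈ Hom (V₂, V₁)`; its values vanish on `V₁`, and
`(y · p) (m0) = - y m0` for `y ∈ K`.
-/

noncomputable section

set_option linter.unusedSectionVars false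

namespace Pool.Agent.HIP

open Function

namespace KKI

variable {k : Type} [Field k] {L : Type} [LieRing L] [LieAlgebra k L]

/-- modules over a quotient -/
theorem exists_quot_mod (I : LieIdeal k L) (E : Type) [AddCommGroup E] [Module k E]
    [LieRingModule L E] [LieModule k L E] (hI : ∀ x ∈ I, ∀ m : E, ⁅x, m⁆ = 0) :
    ∃ (_ : LieRingModule (L ⧸ I) E) (_ : LieModule k (L ⧸ I) E), ∀ (x : L) (m : E),
      ⁅(LieSubmodule.Quotient.mk x : L ⧸ I), m⁆ = ⁅x, m⁆ := by
  let φ : L →ₗ[k] (E →ₗ[k] E) := (LieModule.toEnd k L E : L →ₗ[k] (E →ₗ[k] E))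
  have hφ : ∀ (x : L) (m : E), φ x m = ⁅x, m⁆ := fun _ _ => rfl
  have hk : I.toSubmodule ≤ LinearMap.ker φ := by
    intro x hx
    rw [LinearMap.mem_ker]
    ext m
    exact hI x hx m
  let ψ : (L ⧸ I) →ₗ[k] (E →ₗ[k] E) := Submodule.liftQ I.toSubmodule φ hk
  have hψ : ∀ (x : L) (m : E), ψ (LieSubmodule.Quotient.mk x : L ⧸ I) m = ⁅x, m⁆ :=
    fun _ _ => rfl
  have hs : ∀ q : L ⧸ I, ∃ x : L, (LieSubmodule.Quotient.mk x : L ⧸ I) = q := fun q =>
    LieSubmodule.Quotient.surjective_mk' I q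
  let i1 : LieRingModule (L ⧸ I) E :=
    { bracket := fun q m => ψ q m
      add_lie := by
        intro x y m
        change ψ (x + y) m = ψ x m + ψ y m
        rw [map_add]; rfl
      lie_add := by
        intro x m n
        change ψ x (m + n) = ψ x m + ψ x n
        rw [map_add]
      leibniz_lie := by
        intro x y m
        obtain ⟨x, rfl⟩ := hs x
        obtain ⟨y, rfl⟩ := hs y
        change ψ (LieSubmodule.Quotient.mk x) (ψ (LieSubmodule.Quotient.mk y) m) =
          ψ (LieSubmodule.Quotient.mk ⁅x, y⁆) m +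
            ψ (LieSubmodule.Quotient.mk y) (ψ (LieSubmodule.Quotient.mk x) m)
        rw [hψ, hψ, hψ, hψ, hψ]
        exact leibniz_lie x y m }
  have i2 : LieModule k (L ⧸ I) E :=
    { smul_lie := by
        intro c x m
        change ψ (c • x) m = c • ψ x m
        rw [map_smul]; rfl
      lie_smul := by
        intro c x m
        change ψ x (c • m) = c • ψ x m
        rw [map_smul] }
  exact ⟨i1, i2, fun _ _ => rfl⟩

/-- the module `k m0 + K` for an abelian Lie algebra `K` -/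
def MK (k K : Type) : Type := k × K

section
variable (K : Type) [LieRing K] [LieAlgebra k K]

instance : AddCommGroup (MK k K) := inferInstanceAs (AddCommGroup (k × K))
instance : Module k (MK k K) := inferInstanceAs (Module k (k × K))

/-- the action -/
def mkRing (h : ∀ x y : K, ⁅x, y⁆ = 0) : LieRingModule K (MK k K) where
  bracket x m := ((0 : k), m.1 • x)
  add_lie x y m := by
    change ((0 : k), m.1 • (x + y)) = ((0 : k), m.1 • x) + ((0 : k), m.1 • y)
    rw [Prod.mk_add_mk, smul_add, add_zero]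
  lie_add x m n := by
    change ((0 : k), (m.1 + n.1) • x) = ((0 : k), m.1 • x) + ((0 : k), n.1 • x)
    rw [Prod.mk_add_mk, add_smul, add_zero]
  leibniz_lie x y m := by
    change ((0 : k), (0 : k) • x) = ((0 : k), m.1 • ⁅x, y⁆) + ((0 : k), (0 : k) • y)
    rw [h, smul_zero, zero_smul, zero_smul, Prod.mk_add_mk, add_zero, add_zero]

theorem mkMod (h : ∀ x y : K, ⁅x, y⁆ = 0) : @LieModule k K (MK k K) _ _ _ _ _ (mkRing K h) := by
  letI := mkRing (k := k) K h
  exact
    { smul_lie := by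
        intro c x m
        change ((0 : k), m.1 • c • x) = c • ((0 : k), m.1 • x)
        rw [Prod.smul_mk, smul_zero, smul_comm]
      lie_smul := by
        intro c x m
        change ((0 : k), (c * m.1) • x) = c • ((0 : k), m.1 • x)
        rw [Prod.smul_mk, smul_zero, mul_smul] }

end

/-- The heart of the matter: an abelian ideal. -/
theorem core (hExt : Stmt_Ext) (I : LieIdeal k L) (hab : ∀ x ∈ I, ∀ y ∈ I, ⁅x, y⁆ = 0) :
    ∃ (E : Type) (_ : AddCommGroup E) (_ : Module k E) (_ : LieRingModule (L ⧸ I) E)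
      (_ : LieModule k (L ⧸ I) E) (δ : L →ₗ[k] E),
      (∀ x y : L, δ ⁅x, y⁆ = ⁅(LieSubmodule.Quotient.mk x : L ⧸ I), δ y⁆ -
        ⁅(LieSubmodule.Quotient.mk y : L ⧸ I), δ x⁆) ∧ ∀ x ∈ I, δ x = 0 → x = 0 := by
  -- the module `M_K` over `K = I`
  have hab' : ∀ x y : I, ⁅x, y⁆ = 0 := by
    intro x y
    apply Subtype.ext
    exact hab x x.2 y y.2
  letI iK : LieRingModule I (MK k I) := mkRing (k := k) I hab'
  haveI iK' : LieModule k I (MK k I) := mkMod (k := k) I hab'
  obtain ⟨M', _, _, _, _, j, hj, hjx⟩ := hExt k I L I.incl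
    (fun x y h => Subtype.ext h) (MK k I)
  have act : ∀ (x : I) (c : k) (y : I), ⁅(x : L), j (c, y)⁆ = j ((0 : k), c • x) := by
    intro x c y
    have := hjx x (c, y)
    exact this.symm
  -- `V₁`
  let V₁ : LieSubmodule k L M' :=
    { carrier := {m | ∀ y ∈ I, ⁅y, m⁆ = 0}
      add_mem' := by
        intro a b ha hb y hy
        rw [lie_add, ha y hy, hb y hy, add_zero]
      zero_mem' := fun y _ => lie_zero y
      smul_mem' := by
        intro c m hm y hy
        rw [lie_smul, hm y hy, smul_zero]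
      lie_mem := by
        intro x m hm y hy
        change ⁅y, ⁅x, m⁆⁆ = 0
        rw [leibniz_lie, hm y hy, lie_zero, add_zero]
        apply hm
        rw [← lie_skew]
        exact neg_mem (lie_mem_right k L I x y hy) }
  have hV₁ : ∀ m, m ∈ V₁ ↔ ∀ y ∈ I, ⁅y, m⁆ = 0 := fun _ => Iff.rfl
  let V₂ : LieSubmodule k L M' :=
    { carrier := {m | ∀ y ∈ I, ⁅y, m⁆ ∈ V₁}
      add_mem' := by
        intro a b ha hb y hy
        rw [lie_add]
        exact add_mem (ha y hy) (hb y hy)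
      zero_mem' := fun y _ => by rw [lie_zero]; exact zero_mem _
      smul_mem' := by
        intro c m hm y hy
        rw [lie_smul]
        exact SMulMemClass.smul_mem c (hm y hy)
      lie_mem := by
        intro x m hm y hy
        change ⁅y, ⁅x, m⁆⁆ ∈ V₁
        rw [leibniz_lie]
        refine add_mem ?_ (V₁.lie_mem (hm y hy))
        apply hm
        rw [← lie_skew]
        exact neg_mem (lie_mem_right k L I x y hy) }
  have hV₂ : ∀ m, m ∈ V₂ ↔ ∀ y ∈ I, ⁅y, m⁆ ∈ V₁ := fun _ => Iff.rfl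
  have hm0 : j ((1 : k), (0 : I)) ∈ V₂ := by
    rw [hV₂]
    intro y hy
    rw [hV₁]
    intro y' hy'
    rw [act ⟨y, hy⟩, act ⟨y', hy'⟩, zero_smul]
    exact map_zero j
  -- the projection
  obtain ⟨P, hP⟩ := LinearMap.exists_leftInverse_of_injective V₁.toSubmodule.subtype
    (Submodule.ker_subtype _)
  let p : V₂ →ₗ[k] V₁ := P ∘ₗ V₂.toSubmodule.subtype
  have hp : ∀ m : V₂, (m : M') ∈ V₁ → ((p m : V₁) : M') = m := by
    intro m hm
    have := LinearMap.congr_fun hP (⟨(m : M'), hm⟩ : V₁)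
    exact congrArg Subtype.val this
  -- the module of maps vanishing on `V₁`
  let E : LieSubmodule k L (V₂ →ₗ[k] V₁) :=
    { carrier := {F | ∀ m : V₂, (m : M') ∈ V₁ → F m = 0}
      add_mem' := by
        intro a b ha hb m hm
        rw [LinearMap.add_apply, ha m hm, hb m hm, add_zero]
      zero_mem' := fun m _ => rfl
      smul_mem' := by
        intro c F hF m hm
        rw [LinearMap.smul_apply, hF m hm, smul_zero]
      lie_mem := by
        intro x F hF m hm
        rw [LieHom.lie_apply, hF m hm, lie_zero, zero_sub, neg_eq_zero]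
        apply hF
        exact V₁.lie_mem hm }
  have hE : ∀ F, F ∈ E ↔ ∀ m : V₂, (m : M') ∈ V₁ → F m = 0 := fun _ => Iff.rfl
  have hδ : ∀ x : L, ⁅x, p⁆ ∈ E := by
    intro x
    rw [hE]
    intro m hm
    rw [LieHom.lie_apply]
    apply Subtype.ext
    have h1 : ((p ⁅x, m⁆ : V₁) : M') = ⁅x, (m : M')⁆ := hp ⁅x, m⁆ (V₁.lie_mem hm)
    have h2 : ((⁅x, p m⁆ : V₁) : M') = ⁅x, (m : M')⁆ := by
      rw [LieSubmodule.coe_bracket, hp m hm]
    rw [LieSubmodule.coe_sub, h1, h2, sub_self]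
    rfl
  have hIE : ∀ x ∈ I, ∀ F : E, ⁅x, F⁆ = 0 := by
    intro x hx F
    apply Subtype.ext
    rw [LieSubmodule.coe_bracket]
    ext m
    rw [LieHom.lie_apply]
    have h1 : (F : V₂ →ₗ[k] V₁) ⁅x, m⁆ = 0 := F.2 ⁅x, m⁆ (m.2 x hx)
    have h2 : ⁅x, (F : V₂ →ₗ[k] V₁) m⁆ = 0 := by
      apply Subtype.ext
      exact ((F : V₂ →ₗ[k] V₁) m).2 x hx
    rw [h1, h2, sub_self]
    rfl
  obtain ⟨i1, i2, hq⟩ := exists_quot_mod I E hIE
  refine ⟨E, inferInstance, inferInstance, i1, i2,
    { toFun := fun x => ⟨⁅x, p⁆, hδ x⟩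
      map_add' := fun x y => Subtype.ext (add_lie x y p)
      map_smul' := fun c x => Subtype.ext (smul_lie c x p) }, ?_, ?_⟩
  · intro x y
    rw [hq, hq]
    apply Subtype.ext
    change ⁅⁅x, y⁆, p⁆ = ⁅x, ⁅y, p⁆⁆ - ⁅y, ⁅x, p⁆⁆
    rw [lie_lie]
  · intro x hx h
    have h1 : ⁅x, p⁆ = 0 := congrArg Subtype.val h
    have h2 : ⁅x, p⁆ ⟨j ((1 : k), (0 : I)), hm0⟩ = 0 := by rw [h1]; rfl
    rw [LieHom.lie_apply] at h2
    have h3 : ⁅x, p ⟨j ((1 : k), (0 : I)), hm0⟩⁆ = 0 := by
      apply Subtype.ext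
      exact (p ⟨j ((1 : k), (0 : I)), hm0⟩).2 x hx
    rw [h3, zero_sub, neg_eq_zero] at h2
    have h4 : ((p ⁅x, (⟨j ((1 : k), (0 : I)), hm0⟩ : V₂)⁆ : V₁) : M') =
        ⁅x, j ((1 : k), (0 : I))⁆ := hp _ (hm0 x hx)
    rw [h2] at h4
    have h5 : j ((0 : k), (⟨x, hx⟩ : I)) = 0 := by
      have := act ⟨x, hx⟩ 1 0
      rw [one_smul] at this
      rw [← this]
      exact h4.symm
    have h6 : ((0 : k), (⟨x, hx⟩ : I)) = (0 : MK k I) := by
      apply hj
      rw [h5, map_zero]
    have h7 : (⟨x, hx⟩ : I) = 0 := congrArg Prod.snd h6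
    exact congrArg Subtype.val h7

end KKI

theorem kki_proof : Stmt_KKIAsm := by
  intro hExt k _ n L _ _ hL
  refine KKI.core hExt (LieAlgebra.derivedSeries k L n) ?_
  intro x hx y hy
  have h1 : ⁅x, y⁆ ∈ LieAlgebra.derivedSeries k L (n + 1) := by
    rw [LieAlgebra.derivedSeries_def, LieAlgebra.derivedSeriesOfIdeal_succ]
    exact LieSubmodule.lie_mem_lie hx hy
  rwa [hL, LieSubmodule.mem_bot] at h1

end Pool.Agent.HIP
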