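import Mathlib
import Pool.Agent.HIP.Basic

/-!
# LAYEX: existence of layers
-/

noncomputable section

set_option linter.unusedSectionVars false

namespace Pool.Agent.HIP

open Function
open scoped TensorProduct

namespace LAYEX

variable {k : Type} [Field k] {Y : Type} [LieRing Y] [LieAlgebra k Y]

/-- homomorphisms which hit the generators are surjective -/
theorem surj {ι Z E : Type} [AddCommGroup Z] [Module k Z] [LieRingModule Y Z] [LieModule k Y Z]
    [AddCommGroup E] [Module k E] [LieRingModule Y E] [LieModule k Y E] {e : ι → E}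
    {Rel : Set (MR k Y ι)} (hE : Pres k Y E e Rel) (F : Z →ₗ⁅k, Y⁆ E) (z : ι → Z)
    (hF : ∀ i, F (z i) = e i) : Surjective F := by
  intro x
  refine hE.induction (p := fun x => ∃ y, F y = x) ⟨0, map_zero _⟩ ?_ ?_ ?_
    (fun i => ⟨z i, hF i⟩) x
  · rintro _ _ ⟨a, rfl⟩ ⟨b, rfl⟩
    exact ⟨a + b, map_add _ _ _⟩
  · rintro c _ ⟨a, rfl⟩
    exact ⟨c • a, map_smul _ _ _⟩
  · rintro y _ ⟨a, rfl⟩
    exact ⟨⁅y, a⁆, LieModuleHom.map_lie _ _ _⟩

/-- tensors are sums of tensors of images -/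
theorem lift {Z E : Type} [AddCommGroup Z] [Module k Z] [LieRingModule Y Z] [LieModule k Y Z]
    [AddCommGroup E] [Module k E] [LieRingModule Y E] [LieModule k Y E] (F : Z →ₗ⁅k, Y⁆ E)
    (hF : Surjective F) (x : E ⊗[k] E) :
    ∃ l : List (Z × Z), (l.map fun p => F p.1 ⊗ₜ[k] F p.2).sum = x := by
  induction x using TensorProduct.induction_on with
  | zero => exact ⟨[], rfl⟩
  | tmul a b =>
    obtain ⟨a', rfl⟩ := hF a
    obtain ⟨b', rfl⟩ := hF b
    exact ⟨[(a', b')], by simp⟩
  | add a b ha hb =>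
    obtain ⟨l, hl⟩ := ha
    obtain ⟨l', hl'⟩ := hb
    exact ⟨l ++ l', by rw [List.map_append, List.sum_append, hl, hl']⟩

end LAYEX

theorem layEx_proof : Stmt_LayExAsm := by
  intro hEx hInd k _ j r I S A _ _ _ _ al0 relA hA
  obtain ⟨Z, _, _, _, _, z, hZ⟩ := hEx k S.Y (Fin S.m) ∅
  obtain ⟨C, _, _, _, _, c, hC⟩ := hEx k S.Y (Fin S.s) ∅
  obtain ⟨T, _, _, _, _, t, hT⟩ := hEx k S.Y (Fin 1)
    (Set.range fun q : S.Q => [((1 : k), [S.ι q], 0)])
  obtain ⟨AY, _, _, _, _, al, hAY⟩ := hEx k S.Y (Fin r) (MR.map S.ι '' relA)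
  obtain ⟨jA, hj, hjl, hja⟩ := hInd k S.Q S.Y S.ι S.ι_inj (Fin r) A al0 relA hA AY al hAY
  have ht : t = fun _ => t 0 := by
    funext i
    rw [Subsingleton.elim i 0]
  rw [ht] at hT
  obtain ⟨pi, hpi⟩ := hZ.2.2 S.E S.e (by intro R hR; exact absurd hR (Set.notMem_empty R))
  obtain ⟨gam, hgam⟩ := hC.2.2 (S.E ⊗[k] S.E) S.g
    (by intro R hR; exact absurd hR (Set.notMem_empty R))
  have hsurj : Surjective pi := LAYEX.surj S.presE pi z hpi
  choose xx hxx using fun b => hsurj (S.eta b)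
  choose gg hgg using fun l => LAYEX.lift pi hsurj (S.g l)
  exact ⟨
    { Z := Z
      z := z
      presZ := hZ
      C := C
      c := c
      presC := hC
      T := T
      t := t 0
      presT := hT
      AY := AY
      relA := relA
      presA := hA
      al := al
      presAY := hAY
      jA := jA
      jA_inj := hj
      jA_lie := hjl
      jA_al := hja
      pi := pi
      pi_z := hpi
      gam := gam
      gam_c := hgam
      xx := xx
      pi_xx := hxx
      gg := gg
      gg_g := hgg }⟩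

theorem layex_proof : Stmt_LayExAsm := layEx_proof

end Pool.Agent.HIP
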