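import Mathlib
import Pool.Agent.HIP.Basic

/-!
# LAYRP : layers are recursively presented
-/

noncomputable section

set_option linter.unusedSectionVars false

namespace Pool.Agent.HIP

open Function
open scoped TensorProduct

namespace LAYRP

/-- a presentation remains one when the relations are exchanged for equivalent ones -/
theorem pres_congr {k : Type} [Field k] {Y : Type} [LieRing Y] [LieAlgebra k Y] {ι : Type}
    {E : Type} [AddCommGroup E] [Module k E] [LieRingModule Y E] [LieModule k Y E] {e : ι → E}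
    {Rel Rel' : Set (MR k Y ι)} (h : Pres k Y E e Rel) (h1 : ∀ R ∈ Rel', mval e R = 0)
    (h2 : ∀ (N : Type) [AddCommGroup N] [Module k N] [LieRingModule Y N] [LieModule k Y N]
      (n : ι → N), (∀ R ∈ Rel', mval n R = 0) → ∀ R ∈ Rel, mval n R = 0) :
    Pres k Y E e Rel' := by
  refine ⟨h1, h.2.1, ?_⟩
  intro N _ _ _ _ n hn
  exact h.2.2 N n (h2 N n hn)

theorem pres_free {k : Type} [Field k] {Y : Type} [LieRing Y] [LieAlgebra k Y] (ev : ℕ → Y)
    {r : ℕ} {E : Type} [AddCommGroup E] [Module k E] [LieRingModule Y E] [LieModule k Y E]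
    {e : Fin r → E} (h : Pres k Y E e ∅) : PMod k Y ev E e (fun _ => []) := by
  refine ⟨Primrec.const _, pres_congr h ?_ ?_⟩
  · rintro _ ⟨n, rfl⟩
    rfl
  · intro N _ _ _ _ n _ R hR
    exact absurd hR (Set.notMem_empty R)

section
variable {k : Type} [Field k] {j : ℕ} {I : Type} {r : ℕ} {S : Stage k j (I ⊕ Fin r)}
  {A : Type} [AddCommGroup A] [Module k A] [LieRingModule S.Q A] [LieModule k S.Q A]
  {al0 : Fin r → A} (L : Lay S A al0)

theorem pmod_AY (ev : ℕ → S.Q) (ρ : ℕ → MRel) (h : PMod k S.Q ev A al0 ρ) :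
    PMod k S.Y (fun i => S.ι (ev i)) L.AY L.al ρ := by
  refine ⟨h.1, pres_congr L.presAY ?_ ?_⟩
  · rintro _ ⟨n, rfl⟩
    have h1 := h.2.rel (Set.mem_range_self n)
    have h2 := map_mval' (k := k) (S.ι : S.Q → S.Y) L.jA L.jA_lie al0 (conv k r ev (ρ n))
    rw [h1, map_zero] at h2
    change mval L.al (conv k r (fun i => S.ι (ev i)) (ρ n)) = 0
    rw [conv_comp (S.ι : S.Q → S.Y) r ev (ρ n)]
    rw [show L.al = fun i => L.jA (al0 i) from funext fun i => (L.jA_al i).symm]
    exact h2.symm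
  · intro N _ _ _ _ n hn R hR
    obtain ⟨R0, hR0, rfl⟩ := hR
    have h3 : ∀ R ∈ (Set.range fun n => conv k r ev (ρ n)),
        mval (fun i => toRes S.ι N (n i)) R = 0 := by
      rintro _ ⟨m, rfl⟩
      rw [mval_res]
      have := hn _ (Set.mem_range_self m)
      change mval n (conv k r (fun i => S.ι (ev i)) (ρ m)) = 0 at this
      rw [conv_comp (S.ι : S.Q → S.Y) r ev (ρ m)] at this
      rw [this, map_zero]
    obtain ⟨F, hF⟩ := h.2.2.2 (Res S.ι N) (fun i => toRes S.ι N (n i)) h3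
    have h4 := map_mval F al0 R0
    rw [L.presA.rel hR0, map_zero] at h4
    have h5 : (fun i => F (al0 i)) = fun i => toRes S.ι N (n i) := funext hF
    rw [h5, mval_res] at h4
    exact (LinearEquiv.map_eq_zero_iff (toRes S.ι N)).1 h4.symm

theorem pmod_T (ev : ℕ → S.Q) (h : Gens k S.Q ev) :
    PMod k S.Y (fun i => S.ι (ev i)) L.T (fun _ : Fin 1 => L.t)
      (fun n => [(((1 : ℤ), 0), 0, [n])]) := by
  have hc : ∀ n, conv k 1 (fun i => S.ι (ev i)) [(((1 : ℤ), 0), 0, [n])] =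
      [((1 : k), [S.ι (ev n)], 0)] := by
    intro n
    simp [conv, cf]
  refine ⟨?_, pres_congr L.presT ?_ ?_⟩
  · exact Primrec.list_cons.comp (Primrec.pair (Primrec.const _) (Primrec.pair (Primrec.const _)
      (Primrec.list_cons.comp Primrec.id (Primrec.const [])))) (Primrec.const [])
  · rintro _ ⟨n, rfl⟩
    change mval _ (conv k 1 (fun i => S.ι (ev i)) [(((1 : ℤ), 0), 0, [n])]) = 0
    rw [hc]
    simp [mval, L.iota_t]
  · intro N _ _ _ _ n hn R hR
    obtain ⟨q, rfl⟩ := hR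
    have h1 : ∀ i, ⁅S.ι (ev i), n 0⁆ = 0 := by
      intro i
      have := hn _ (Set.mem_range_self i)
      change mval n (conv k 1 (fun i => S.ι (ev i)) [(((1 : ℤ), 0), 0, [i])]) = 0 at this
      rw [hc] at this
      simpa [mval] using this
    have h2 : ⁅S.ι q, n 0⁆ = 0 := by
      refine h.induction (p := fun q => ⁅S.ι q, n 0⁆ = 0) ?_ ?_ ?_ ?_ h1 q
      · rw [map_zero, zero_lie]
      · intro x y hx hy; rw [map_add, add_lie, hx, hy, add_zero]
      · intro c x hx; rw [map_smul, smul_lie, hx, smul_zero]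
      · intro x y hx hy; rw [LieHom.map_lie, lie_lie, hx, hy, lie_zero, lie_zero, sub_zero]
    simpa [mval] using h2

end

/-- generators of a semidirect product -/
theorem gens_Sd {k : Type} [Field k] {Q : Type} [LieRing Q] [LieAlgebra k Q] (ev : ℕ → Q)
    (h : Gens k Q ev) {r : ℕ} {A : Type} [AddCommGroup A] [Module k A] [LieRingModule Q A]
    [LieModule k Q A] (f : Fin r → A) (Rel : Set (MR k Q (Fin r))) (hp : Pres k Q A f Rel) :
    Gens k (Sd A Q) (fun i => if h : i < r then Sd.inl k Q (f ⟨i, h⟩) else Sd.inr k A (ev (i - r))) := by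
  obtain ⟨K, hK⟩ := h.1
  refine ⟨⟨K + r, ?_⟩, ?_⟩
  · intro i hi
    have h1 : ¬ i < r := by omega
    simp only [h1, dif_neg, not_false_eq_true]
    rw [hK (i - r) (by omega), map_zero]
  · rw [eq_top_iff]
    intro x _
    have hinr : ∀ q : Q, (Sd.inr k A q : Sd A Q) ∈ LieSubalgebra.lieSpan k (Sd A Q)
        (Set.range fun i => if h : i < r then Sd.inl k Q (f ⟨i, h⟩) else Sd.inr k A (ev (i - r))) := by
      intro q
      refine h.induction (p := fun q => (Sd.inr k A q : Sd A Q) ∈ LieSubalgebra.lieSpan k (Sd A Q)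
        (Set.range fun i => if h : i < r then Sd.inl k Q (f ⟨i, h⟩) else Sd.inr k A (ev (i - r))))
        ?_ ?_ ?_ ?_ ?_ q
      · rw [map_zero]; exact zero_mem _
      · intro x y hx hy; rw [map_add]; exact add_mem hx hy
      · intro c x hx; rw [map_smul]; exact LieSubalgebra.smul_mem _ _ hx
      · intro x y hx hy; rw [LieHom.map_lie]; exact LieSubalgebra.lie_mem _ hx hy
      · intro i
        refine LieSubalgebra.subset_lieSpan ⟨i + r, ?_⟩
        have h1 : ¬ i + r < r := by omega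
        simp only [h1, dif_neg, not_false_eq_true, Nat.add_sub_cancel]
    have hinl : ∀ d : A, (Sd.inl k Q d : Sd A Q) ∈ LieSubalgebra.lieSpan k (Sd A Q)
        (Set.range fun i => if h : i < r then Sd.inl k Q (f ⟨i, h⟩) else Sd.inr k A (ev (i - r))) := by
      intro d
      refine hp.induction (p := fun d => (Sd.inl k Q d : Sd A Q) ∈
        LieSubalgebra.lieSpan k (Sd A Q)
        (Set.range fun i => if h : i < r then Sd.inl k Q (f ⟨i, h⟩) else Sd.inr k A (ev (i - r))))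
        ?_ ?_ ?_ ?_ ?_ d
      · rw [map_zero]; exact zero_mem _
      · intro x y hx hy; rw [map_add]; exact add_mem hx hy
      · intro c x hx; rw [map_smul]; exact LieSubalgebra.smul_mem _ _ hx
      · intro y x hx
        rw [← Sd.lie_inr_inl]
        exact LieSubalgebra.lie_mem _ (hinr y) hx
      · intro i
        refine LieSubalgebra.subset_lieSpan ⟨i, ?_⟩
        simp [i.2]
    rw [show x = Sd.inl k Q x.d + Sd.inr k A x.q from Sd.mk_eq x.d x.q]
    exact add_mem (hinl _) (hinr _)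

end LAYRP

theorem layrp_proof : Stmt_LayRPAsm := by
  intro hPMCh hPProd hRPSd k _ hk j r I S A _ _ _ _ al0 ev ρ hev hA L
  obtain ⟨evY, hY⟩ := S.rpY
  obtain ⟨evQ, hQ⟩ := S.fgQ
  have hZ := LAYRP.pres_free evY L.presZ
  have hC := LAYRP.pres_free evY L.presC
  obtain ⟨K, hK⟩ := hev
  obtain ⟨ρA, hAY⟩ := hPMCh k hk S.Y (fun i => S.ι (ev i)) evY
    ⟨K, fun i hi => by rw [hK i hi, map_zero]⟩ hY.gens L.AY r L.al ρ (LAYRP.pmod_AY L ev ρ hA)
  obtain ⟨K', hK'⟩ := hQ.1
  obtain ⟨ρT, hT⟩ := hPMCh k hk S.Y (fun i => S.ι (evQ i)) evY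
    ⟨K', fun i hi => by rw [hK' i hi, map_zero]⟩ hY.gens L.T 1 _ _ (LAYRP.pmod_T L evQ hQ)
  obtain ⟨r1, f1, ρ1, h1⟩ := hPProd k S.Y evY L.Z S.m L.z _ hZ L.C S.s L.c _ hC
  obtain ⟨r2, f2, ρ2, h2⟩ := hPProd k S.Y evY (PM L.Z L.C) r1 f1 ρ1 h1 L.AY r L.al ρA hAY
  obtain ⟨r3, f3, ρ3, h3⟩ := hPProd k S.Y evY L.A1 r2 f2 ρ2 h2 L.T 1 _ ρT hT
  refine ⟨hRPSd k S.Y evY hY L.A0 r3 f3 ρ3 h3, Sd.derivedSeries S.solY, ?_⟩
  exact ⟨_, LAYRP.gens_Sd evQ hQ al0 _ hA.2⟩

end Pool.Agent.HIP
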