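import Mathlib
import Pool.Agent.HIP.Basic

/-!
# MH : module Higman for Lie algebras, assembly from systems, the counter algebra and the
function model
-/

noncomputable section

set_option linter.unusedSectionVars false

namespace Pool.Agent.HIP

open Function
open Pool.Agent.HIG (St)

namespace MH

/-! ### operators -/

section ops
variable (k : Type) [Field k] {L : Type} [LieRing L] [LieAlgebra k L] (M : Type)
  [AddCommGroup M] [Module k M] [LieRingModule L M] [LieModule k L M]

/-- the operator of an element -/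
def en (x : L) : Module.End k M := LieModule.toEnd k L M x

theorem en_apply (x : L) (m : M) : en k M x m = ⁅x, m⁆ := rfl

theorem wact_eq (w : List L) (m : M) : wact w m = (w.map (en k M)).prod m := by
  induction w with
  | nil => rfl
  | cons x w ih =>
    rw [wact_cons, ih, List.map_cons, List.prod_cons]
    rfl

theorem commute_en {x y : L} (h : ⁅x, y⁆ = 0) : Commute (en k M x) (en k M y) := by
  unfold Commute SemiconjBy
  ext m
  show ⁅x, ⁅y, m⁆⁆ = ⁅y, ⁅x, m⁆⁆
  rw [leibniz_lie, h, zero_lie, zero_add]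

end ops

/-! ### products of commuting families -/

section prods
variable {R ι : Type} [Monoid R]

theorem prod_update [DecidableEq ι] (a : ι → R) (ha : ∀ i j, Commute (a i) (a j)) (w w' : ι → ℕ)
    (j : ι) (hw : w' j = w j + 1) (hw' : ∀ i, i ≠ j → w' i = w i) :
    ∀ l : List ι, l.Nodup → j ∈ l →
      (l.map fun i => a i ^ w' i).prod = (l.map fun i => a i ^ w i).prod * a j := by
  intro l
  induction l with
  | nil => intro _ h; simp at h
  | cons b l ih =>
    intro hn hj
    rw [List.nodup_cons] at hn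
    rw [List.map_cons, List.map_cons, List.prod_cons, List.prod_cons]
    by_cases hb : b = j
    · subst hb
      have e : (l.map fun i => a i ^ w' i) = (l.map fun i => a i ^ w i) := by
        apply List.map_congr_left
        intro i hi
        rw [hw' i (fun h => hn.1 (h ▸ hi))]
      have hc : Commute (a b) ((l.map fun i => a i ^ w i).prod) := by
        apply Commute.list_prod_right
        intro y hy
        obtain ⟨i, -, rfl⟩ := List.mem_map.1 hy
        exact (ha b i).pow_right _
      rw [e, hw, pow_succ, mul_assoc, hc.eq, mul_assoc]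
    · have hj' : j ∈ l := by
        rcases List.mem_cons.1 hj with h | h
        · exact absurd h.symm hb
        · exact h
      rw [hw' b hb, ih hn.2 hj', mul_assoc]
end prods

/-- the indices of a finite set of counters -/
def Jl (K : ℕ) (J : Finset ℕ) : List (Fin K) := (List.finRange K).filter fun i => (i : ℕ) ∈ J

section
variable (k : Type) [Field k] {K : ℕ} {Q C : Type} [LieRing Q] [LieAlgebra k Q] [LieRing C]
  [LieAlgebra k C] (x g : Fin K → C) (M : Type) [AddCommGroup M] [Module k M]
  [LieRingModule (Q × C) M] [LieModule k (Q × C) M]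

/-- operator of an element of `C` -/
def ec (Q : Type) [LieRing Q] [LieAlgebra k Q] [LieRingModule (Q × C) M]
    [LieModule k (Q × C) M] (c : C) : Module.End k M := en k M ((0, c) : Q × C)

/-- operator of an element of `Q` -/
def eq' (C : Type) [LieRing C] [LieAlgebra k C] [LieRingModule (Q × C) M]
    [LieModule k (Q × C) M] (q : Q) : Module.End k M := en k M ((q, 0) : Q × C)

theorem commute_c {c d : C} (h : ⁅c, d⁆ = 0) : Commute (ec k M Q c) (ec k M Q d) := by
  apply commute_en
  rw [LieAlgebra.Prod.bracket_apply]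
  simp [h]

theorem commute_qc (q : Q) (d : C) : Commute (eq' k M C q) (ec k M Q d) := by
  apply commute_en
  rw [LieAlgebra.Prod.bracket_apply]
  simp

/-- product of the `g j` -/
def GP (Q : Type) [LieRing Q] [LieAlgebra k Q] [LieRingModule (Q × C) M]
    [LieModule k (Q × C) M] (l : List (Fin K)) : Module.End k M :=
  (l.map fun j => ec k M Q (g j)).prod

/-- the product of the `x j ^ v j` -/
def PV (Q : Type) [LieRing Q] [LieAlgebra k Q] [LieRingModule (Q × C) M]
    [LieModule k (Q × C) M] (v : St) : Module.End k M :=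
  ((List.finRange K).map fun j => ec k M Q (x j) ^ v (j : ℕ)).prod

theorem PV_zero : PV k x M Q 0 = 1 := by
  unfold PV
  apply List.prod_eq_one
  intro y hy
  obtain ⟨i, -, rfl⟩ := List.mem_map.1 hy
  simp

theorem PV_update (hx : ∀ i j, ⁅x i, x j⁆ = 0) (v : St) (j : Fin K) :
    PV k x M Q (update v (j : ℕ) (v j + 1)) = PV k x M Q v * ec k M Q (x j) := by
  unfold PV
  refine prod_update (fun j => ec k M Q (x j)) (fun i j => commute_c k M (hx i j))
    (fun i => v (i : ℕ))
    (fun i => update v (j : ℕ) (v j + 1) (i : ℕ)) j ?_ ?_ _ (List.nodup_finRange K)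
    (List.mem_finRange j)
  · simp
  · intro i hi
    exact update_of_ne (fun h => hi (Fin.ext h)) _ _

theorem key (hxg : ∀ i j, i ≠ j → ⁅x i, g j⁆ = 0) (hg : ∀ i j, ⁅g i, g j⁆ = 0)
    (J : Finset ℕ) (v : St) (hv : ∀ i ∈ J, v i = 0) :
    ∃ G' : Module.End k M, GP k g M Q (List.finRange K) * PV k x M Q v =
      G' * GP k g M Q (Jl K J) := by
  refine ⟨GP k g M Q ((List.finRange K).filter fun i => !decide ((i : ℕ) ∈ J)) * PV k x M Q v, ?_⟩
  have h1 : GP k g M Q (List.finRange K) =
      GP k g M Q ((List.finRange K).filter fun i => !decide ((i : ℕ) ∈ J)) *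
        GP k g M Q (Jl K J) := by
    unfold GP Jl
    rw [← List.prod_append, ← List.map_append]
    refine List.Perm.prod_eq' (List.Perm.map _ ?_) ?_
    · exact ((List.perm_append_comm).trans (List.filter_append_perm _ _)).symm
    · rw [List.pairwise_map]
      exact List.pairwise_of_forall fun i j => commute_c k M (hg i j)
  have h2 : Commute (GP k g M Q (Jl K J)) (PV k x M Q v) := by
    unfold GP PV
    apply Commute.list_prod_left
    intro y hy
    obtain ⟨i, hi, rfl⟩ := List.mem_map.1 hy
    apply Commute.list_prod_right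
    intro z hz
    obtain ⟨j, -, rfl⟩ := List.mem_map.1 hz
    have hiJ : (i : ℕ) ∈ J := by
      have := (List.mem_filter.1 hi).2
      simpa using this
    by_cases hij : j = i
    · subst hij
      rw [hv _ hiJ, pow_zero]
      exact Commute.one_right _
    · exact (commute_c k M (hxg j i hij)).symm.pow_right _
  rw [h1, mul_assoc, h2.eq, mul_assoc]

theorem commute_q_all (q : Q) (v : St) :
    Commute (eq' k M C q) (GP k g M Q (List.finRange K) * PV k x M Q v) := by
  refine Commute.mul_right ?_ ?_
  · unfold GP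
    apply Commute.list_prod_right
    intro z hz
    obtain ⟨j, -, rfl⟩ := List.mem_map.1 hz
    exact commute_qc k M q _
  · unfold PV
    apply Commute.list_prod_right
    intro z hz
    obtain ⟨j, -, rfl⟩ := List.mem_map.1 hz
    exact (commute_qc k M q _).pow_right _

/-! ### relations -/

/-- operators of the letters of `Q` -/
def opq (C : Type) [LieRing C] [LieAlgebra k C] [LieRingModule (Q × C) M]
    [LieModule k (Q × C) M] (ev : ℕ → Q) (i : ℕ) : M →+ M :=
  (eq' k M C (ev i)).toAddMonoidHom

theorem opq_apply (ev : ℕ → Q) (i : ℕ) (m : M) :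
    opq k M C ev i m = ⁅((ev i, 0) : Q × C), m⁆ := rfl

/-- words of letters of `Q` -/
def WQ (C : Type) [LieRing C] [LieAlgebra k C] [LieRingModule (Q × C) M]
    [LieModule k (Q × C) M] (ev : ℕ → Q) (w : List ℕ) : Module.End k M :=
  (w.map fun i => eq' k M C (ev i)).prod

theorem wop_eq (ev : ℕ → Q) (w : List ℕ) (m : M) :
    wop (opq k M C ev) w m = WQ k M C ev w m := by
  induction w with
  | nil => rfl
  | cons i w ih =>
    unfold WQ at *
    rw [List.map_cons, List.prod_cons]
    show opq k M C ev i (wop (opq k M C ev) w m) = _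
    rw [ih]
    rfl

theorem wact_q (ev : ℕ → Q) (w : List ℕ) (m : M) :
    wact (w.map fun i => ((ev i, 0) : Q × C)) m = WQ k M C ev w m := by
  rw [wact_eq k M, List.map_map]
  rfl

theorem wact_g (l : List (Fin K)) (m : M) :
    wact (l.map fun j => ((0, g j) : Q × C)) m = GP k g M Q l m := by
  rw [wact_eq k M, List.map_map]
  rfl

theorem commute_WQ (ev : ℕ → Q) (w : List ℕ) (v : St) :
    Commute (WQ k M C ev w) (GP k g M Q (List.finRange K) * PV k x M Q v) := by
  unfold WQ
  apply Commute.list_prod_left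
  intro y hy
  obtain ⟨i, -, rfl⟩ := List.mem_map.1 hy
  exact commute_q_all k x g M (ev i) v

/-- sum of a linear constraint -/
def lsum (ev : ℕ → Q) (C : Type) [LieRing C] [LieAlgebra k C] [LieRingModule (Q × C) M]
    [LieModule k (Q × C) M] (n : ℕ → M) (L : List (ℤ × List ℕ × ℕ)) : M :=
  (L.map fun t => t.1 • WQ k M C ev t.2.1 (n t.2.2)).sum

end

section rel
variable (k : Type) [Field k] {K : ℕ} {Q C : Type} [LieRing Q] [LieAlgebra k Q] [LieRing C]
  [LieAlgebra k C] (x g : Fin K → C) (ev : ℕ → Q) (s : ℕ)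

/-- relation of a constraint -/
def relOf : Con → MR k (Q × C) (Fin s)
  | .shift j F G => if h : j < K ∧ F < s ∧ G < s then
      [(1, [((0, x ⟨j, h.1⟩) : Q × C)], ⟨F, h.2.1⟩), (-1, [], ⟨G, h.2.2⟩)] else []
  | .lin J L => L.filterMap fun t => if h : t.2.2 < s then
      some ((t.1 : k), (Jl K J).map (fun j => ((0, g j) : Q × C)) ++
        t.2.1.map (fun i => ((ev i, 0) : Q × C)), (⟨t.2.2, h⟩ : Fin s)) else none

variable (M : Type) [AddCommGroup M] [Module k M]
  [LieRingModule (Q × C) M] [LieModule k (Q × C) M]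

theorem mval_shift (n : ℕ → M) (j F G : ℕ) (h : j < K ∧ F < s ∧ G < s) :
    mval (fun i : Fin s => n i) (relOf k x g ev s (.shift j F G)) =
      ⁅((0, x ⟨j, h.1⟩) : Q × C), n F⁆ - n G := by
  have e : relOf k x g ev s (.shift j F G) =
      [(1, [((0, x ⟨j, h.1⟩) : Q × C)], ⟨F, h.2.1⟩), (-1, [], ⟨G, h.2.2⟩)] := dif_pos h
  rw [e, mval_cons, mval_cons, mval_nil]
  simp [sub_eq_add_neg]

theorem mval_lin (n : ℕ → M) (J : Finset ℕ) : ∀ (L : List (ℤ × List ℕ × ℕ)),
    (∀ t ∈ L, t.2.2 < s) → mval (fun i : Fin s => n i) (relOf k x g ev s (.lin J L)) =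
      GP k g M Q (Jl K J) (lsum k M ev C n L) := by
  intro L
  induction L with
  | nil => intro _; unfold lsum; exact (map_zero _).symm
  | cons t L ih =>
    intro hL
    have ht : t.2.2 < s := hL t List.mem_cons_self
    have h4 := ih fun t' ht' => hL t' (List.mem_cons_of_mem _ ht')
    have e : relOf k x g ev s (.lin J (t :: L)) =
        ((t.1 : k), (Jl K J).map (fun j => ((0, g j) : Q × C)) ++
        t.2.1.map (fun i => ((ev i, 0) : Q × C)), (⟨t.2.2, ht⟩ : Fin s)) ::
          relOf k x g ev s (.lin J L) := by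
      simp only [relOf, List.filterMap_cons, ht, dif_pos]
    rw [e, mval_cons, h4]
    have e2 : lsum k M ev C n (t :: L) =
        t.1 • WQ k M C ev t.2.1 (n t.2.2) + lsum k M ev C n L := by
      unfold lsum
      rw [List.map_cons, List.sum_cons]
    rw [e2, map_add]
    congr 1
    rw [wact_append, wact_q k, wact_g k, map_zsmul]
    exact Int.cast_smul_eq_zsmul k _ _

end rel

theorem derivedSeries_prod {k : Type} [Field k] {Q C : Type} [LieRing Q] [LieAlgebra k Q]
    [LieRing C] [LieAlgebra k C] {m : ℕ} (h1 : LieAlgebra.derivedSeries k Q m = ⊥)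
    (h2 : LieAlgebra.derivedSeries k C m = ⊥) : LieAlgebra.derivedSeries k (Q × C) m = ⊥ := by
  rw [LieSubmodule.eq_bot_iff]
  intro y hy
  have e1 := map_derivedSeries_mem (LieHom.fst k Q C) m y hy
  have e2 := map_derivedSeries_mem (LieHom.snd k Q C) m y hy
  rw [h1, LieSubmodule.mem_bot] at e1
  rw [h2, LieSubmodule.mem_bot] at e2
  exact Prod.ext e1 e2

end MH

open MH

theorem mh_proof : Stmt_MHAsm := by
  intro hSys hSgn hCtr hProd hModel hEx k _ hk nn Q _ _ ev hQ hQs D _ _ _ _ r f ρ hD
  obtain ⟨hρ, hPres⟩ := hD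
  obtain ⟨ρ', hρ', hsgn⟩ := hSgn k hk ρ hρ
  obtain ⟨kk, hkk⟩ := hQ.gens.1
  obtain ⟨K, s, cs, hrs, hbdd, hsound, hcomp⟩ := hSys kk r ρ' hρ'
  obtain ⟨C, _, _, x, g, hC, hC2, hxx, hxg, hgg, hU⟩ := hCtr k hk K
  obtain ⟨M, _, _, _, _, br, τ, m1, m2, m3, m4⟩ := hModel k K Q D C x g hU
  -- the relations of `D`
  have hrel : ∀ n, mvn k ev (fun i => if h : i < r then f ⟨i, h⟩ else 0) (ρ n) = 0 := by
    intro n
    rw [← mval_conv]
    exact hPres.rel ⟨n, rfl⟩
  let opD : ℕ → (D →+ D) := fun i => (LieModule.toEnd k Q D (ev i)).toAddMonoidHom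
  have hopD : ∀ i y, opD i y = ⁅ev i, y⁆ := fun _ _ => rfl
  obtain ⟨𝓕s, hsat, hs0⟩ := hcomp D opD
    (by
      intro i hi
      ext y
      rw [hopD, hkk i hi, zero_lie]
      rfl)
    (fun i => if h : i < r then f ⟨i, h⟩ else 0)
    (by
      intro i hi
      exact dif_neg (not_lt.2 hi))
    (fun n => (hsgn Q D ev _ opD hopD n).1 (hrel n))
  -- the module
  let RR : Set (MR k (Q × C) (Fin s)) := (relOf k x g ev s) '' {c | c ∈ cs}
  obtain ⟨D₁, _, _, _, _, e, hE⟩ := hEx k (Q × C) (Fin s) RR
  let e' : ℕ → D₁ := fun i => if h : i < s then e ⟨i, h⟩ else 0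
  have he' : (fun i : Fin s => e' i) = e := by
    funext i
    exact dif_pos i.2
  have hFP : FPMod k (Q × C) D₁ := ⟨s, e, RR, Set.Finite.image _ (List.finite_toSet cs), hE⟩
  -- values
  let 𝓥 : ℕ → St → D₁ := fun i v => (GP k g D₁ Q (List.finRange K) * PV k x D₁ Q v) (e' i)
  have hV : ∀ c ∈ cs, c.Sat (opq k D₁ C ev) 𝓥 := by
    intro c hc
    have h0 : mval (fun i : Fin s => e' i) (relOf k x g ev s c) = 0 := by
      rw [he']
      exact hE.rel ⟨c, hc, rfl⟩
    have hb := hbdd c hc
    cases c with
    | shift j F G =>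
      intro v
      have hj : j < K := hb.1
      rw [mval_shift k x g ev s D₁ e' j F G hb, sub_eq_zero] at h0
      show (GP k g D₁ Q (List.finRange K) * PV k x D₁ Q (update v j (v j + 1))) (e' F) =
        (GP k g D₁ Q (List.finRange K) * PV k x D₁ Q v) (e' G)
      have := PV_update k (Q := Q) x D₁ hxx v ⟨j, hj⟩
      simp only at this
      rw [this, ← mul_assoc, ← h0]
      rfl
    | lin J L =>
      intro v hv
      obtain ⟨G', hG'⟩ := key k (Q := Q) x g D₁ hxg hgg J v hv
      have h2 : (L.map fun t => t.1 • wop (opq k D₁ C ev) t.2.1 (𝓥 t.2.2 v)).sum =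
          (GP k g D₁ Q (List.finRange K) * PV k x D₁ Q v) (lsum k D₁ ev C e' L) := by
        unfold lsum
        rw [map_list_sum, List.map_map]
        congr 1
        apply List.map_congr_left
        intro t _
        rw [comp_apply, wop_eq, map_zsmul]
        congr 1
        have := commute_WQ k x g D₁ ev t.2.1 v
        exact LinearMap.congr_fun this.eq (e' t.2.2)
      rw [h2, hG']
      rw [mval_lin k x g ev s D₁ e' J L hb.2] at h0
      show G' (GP k g D₁ Q (Jl K J) (lsum k D₁ ev C e' L)) = 0
      rw [h0, map_zero]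
  have hsnd := hsound D₁ (opq k D₁ C ev)
    (by
      intro i hi
      ext y
      rw [opq_apply, hkk i hi]
      show ⁅(0 : Q × C), y⁆ = 0
      rw [zero_lie]) 𝓥 hV
  -- the map D → D₁
  let θ : Q →ₗ⁅k⁆ Q × C := LieHom.inl k Q C
  have hθ : ∀ q, θ q = (q, 0) := fun _ => rfl
  obtain ⟨F₀, hF₀⟩ := hPres.2.2 (Res θ D₁) (fun i => toRes θ D₁ (𝓥 i 0)) (by
    rintro _ ⟨n, rfl⟩
    rw [mval_conv]
    refine (hsgn Q (Res θ D₁) ev _ (opq k D₁ C ev) (fun _ _ => rfl) n).2 ?_
    have e1 : (fun i => if h : i < r then toRes θ D₁ (𝓥 (⟨i, h⟩ : Fin r) 0) else 0) =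
        (fun i => if i < r then 𝓥 i 0 else 0) := by
      funext i
      by_cases h : i < r
      · rw [dif_pos h, if_pos h]; rfl
      · rw [dif_neg h, if_neg h]; rfl
    rw [e1]
    exact hsnd n)
  let δ : D →ₗ[k] D₁ := (toRes θ D₁).symm.toLinearMap ∘ₗ (F₀ : D →ₗ[k] Res θ D₁)
  have hδ : ∀ (q : Q) (d : D), δ ⁅q, d⁆ = ⁅θ q, δ d⁆ := by
    intro q d
    show (toRes θ D₁).symm (F₀ ⁅q, d⁆) = ⁅θ q, (toRes θ D₁).symm (F₀ d)⁆
    rw [LieModuleHom.map_lie, Res.lie_def]
    rfl
  have hδf : ∀ i : Fin r, δ (f i) = 𝓥 i 0 := by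
    intro i
    show (toRes θ D₁).symm (F₀ (f i)) = 𝓥 i 0
    rw [hF₀]
    rfl
  -- the model
  let b : ℕ → M := fun i => br (𝓕s i)
  obtain ⟨μ, hμ⟩ := hE.2.2 M (fun i : Fin s => b i) (by
    rintro _ ⟨c, hc, rfl⟩
    have hb := hbdd c hc
    have hs := hsat c hc
    cases c with
    | shift j F G =>
      rw [mval_shift k x g ev s M b j F G hb, sub_eq_zero]
      exact m1 ⟨j, hb.1⟩ _ _ hs
    | lin J L =>
      rw [mval_lin k x g ev s M b J L hb.2]
      have h2 : lsum k M ev C b L =
          br (fun v => (L.map fun t => t.1 • wop opD t.2.1 (𝓕s t.2.2 v)).sum) := by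
        unfold lsum
        induction L with
        | nil => exact (map_zero br).symm
        | cons t L ih =>
          have hb' : (Con.lin J L).Bdd K s :=
            ⟨hb.1, fun t' ht' => hb.2 t' (List.mem_cons_of_mem _ ht')⟩
          have h3 : (L.map fun t => t.1 • WQ k M C ev t.2.1 (b t.2.2)).sum =
              br (fun v => (L.map fun t => t.1 • wop opD t.2.1 (𝓕s t.2.2 v)).sum) := by
            clear hs hb ih hb' hc
            induction L with
            | nil => exact (map_zero br).symm
            | cons t L ih =>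
              simp only [List.map_cons, List.sum_cons]
              rw [ih]
              have h4 : ∀ w : List ℕ, ∀ F : St → D, WQ k M C ev w (br F) =
                  br (fun v => wop opD w (F v)) := by
                intro w F
                induction w with
                | nil => rfl
                | cons i w ih =>
                  unfold WQ at ih ⊢
                  rw [List.map_cons, List.prod_cons, Module.End.mul_apply, ih]
                  exact m3 (ev i) _
              rw [h4, ← map_zsmul, ← map_add]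
              rfl
          simp only [List.map_cons, List.sum_cons]
          rw [h3]
          have h4 : ∀ w : List ℕ, ∀ F : St → D, WQ k M C ev w (br F) =
              br (fun v => wop opD w (F v)) := by
            intro w F
            induction w with
            | nil => rfl
            | cons i w ih =>
              unfold WQ at ih ⊢
              rw [List.map_cons, List.prod_cons, Module.End.mul_apply, ih]
              exact m3 (ev i) _
          rw [h4, ← map_zsmul, ← map_add]
          rfl
      rw [h2, ← wact_g k g M]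
      refine m2 (Jl K J) ((List.nodup_finRange K).filter _) _ ?_
      intro v hv
      refine hs v fun i hi => ?_
      have := hv ⟨i, hb.1 i hi⟩ (by
        unfold Jl
        rw [List.mem_filter]
        exact ⟨List.mem_finRange _, by simpa using hi⟩)
      exact this)
  -- the composition
  have hall : ∀ d : D, ∃ F : St → D, F 0 = d ∧ μ (δ d) = GP k g M Q (List.finRange K) (br F) := by
    intro d
    refine hPres.induction (p := fun d => ∃ F : St → D, F 0 = d ∧
      μ (δ d) = GP k g M Q (List.finRange K) (br F)) ?_ ?_ ?_ ?_ ?_ d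
    · refine ⟨0, rfl, ?_⟩
      rw [map_zero, map_zero, map_zero, map_zero]
    · rintro a b ⟨F, hF, hF'⟩ ⟨G, hG, hG'⟩
      refine ⟨F + G, by rw [Pi.add_apply, hF, hG], ?_⟩
      rw [map_add, map_add, map_add, map_add, hF', hG']
    · rintro c a ⟨F, hF, hF'⟩
      refine ⟨c • F, by rw [Pi.smul_apply, hF], ?_⟩
      rw [map_smul, map_smul, map_smul, map_smul, hF']
    · rintro q a ⟨F, hF, hF'⟩
      refine ⟨fun v => ⁅q, F v⁆, by simp only [hF], ?_⟩
      rw [hδ, LieModuleHom.map_lie, hF', ← m3]
      have h5 : Commute (eq' k M C q) (GP k g M Q (List.finRange K)) := by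
        have := commute_q_all k x g M q 0
        rwa [PV_zero, mul_one] at this
      exact LinearMap.congr_fun h5.eq (br F)
    · intro i
      refine ⟨𝓕s i, ?_, ?_⟩
      · rw [hs0 i i.2 0]
        exact dif_pos i.2
      · rw [hδf]
        show μ ((GP k g D₁ Q (List.finRange K) * PV k x D₁ Q 0) (e' i)) = _
        rw [PV_zero, mul_one, ← wact_g k g D₁, map_wact, wact_g k g M]
        congr 1
        have h6 : (i : ℕ) < s := lt_of_lt_of_le i.2 hrs
        show μ (if h : (i : ℕ) < s then e ⟨i, h⟩ else 0) = _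
        rw [dif_pos h6, hμ]
  have hδinj : Injective δ := by
    have h7 : ∀ d, τ (μ (δ d)) = d := by
      intro d
      obtain ⟨F, hF, hF'⟩ := hall d
      rw [hF', ← wact_g k g M, m4, hF]
    intro a b hab
    rw [← h7 a, ← h7 b, hab]
  refine ⟨Q × C, inferInstance, inferInstance, D₁, inferInstance, inferInstance, inferInstance,
    inferInstance, Sd.map θ δ hδ, hProd k Q C ⟨ev, hQ⟩ hC, ?_, hFP,
    Sd.map_injective hδ LieHom.inl_injective hδinj⟩
  refine derivedSeries_prod hQs ?_
  rw [eq_bot_iff, ← hC2]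
  exact LieAlgebra.derivedSeriesOfIdeal_antitone ⊤ (by omega)

end Pool.Agent.HIP
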