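import Pool.Agent.HIP.Basic

/-!
# MHMODEL : the function model of a counter module
-/

noncomputable section

set_option linter.unusedSectionVars false

namespace Pool.Agent.HIP

open Function
open Pool.Agent.HIG (St)

namespace MHMODEL

attribute [local instance 100] LieRing.ofAssociativeRing

section
variable (k : Type) [Field k] {K : ℕ} (D : Type) [AddCommGroup D] [Module k D]

/-- the space of functions -/
abbrev Fn (K : ℕ) (D : Type) : Type := (Fin K → Option ℕ) → D

/-- operators in one coordinate -/
def T (j : Fin K) (φ : Option ℕ → Option (Option ℕ)) : Module.End k (Fn K D) where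
  toFun F t := (φ (t j)).elim 0 fun s => F (update t j s)
  map_add' F F' := by
    funext t
    simp only [Pi.add_apply]
    cases φ (t j) <;> simp
  map_smul' c F := by
    funext t
    simp only [Pi.smul_apply, RingHom.id_apply]
    cases φ (t j) <;> simp

theorem T_apply (j : Fin K) (φ : Option ℕ → Option (Option ℕ)) (F : Fn K D)
    (t : Fin K → Option ℕ) :
    T k D j φ F t = (φ (t j)).elim 0 fun s => F (update t j s) := rfl

theorem T_mul (j : Fin K) (φ ψ : Option ℕ → Option (Option ℕ)) :
    T k D j φ * T k D j ψ = T k D j fun s => (φ s).bind ψ := by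
  ext F t
  rw [Module.End.mul_apply, T_apply, T_apply]
  cases φ (t j) with
  | none => rfl
  | some s =>
    simp only [Option.elim_some, Option.bind_some, T_apply, update_self, update_idem]

theorem T_comm {i j : Fin K} (h : i ≠ j) (φ ψ : Option ℕ → Option (Option ℕ)) :
    T k D i φ * T k D j ψ = T k D j ψ * T k D i φ := by
  ext F t
  simp only [Module.End.mul_apply, T_apply, update_of_ne h, update_of_ne h.symm]
  cases φ (t i) with
  | none => cases ψ (t j) <;> rfl
  | some s =>
    cases ψ (t j) with
    | none => rfl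
    | some s' => simp only [Option.elim_some]; rw [update_comm h.symm]

theorem T_zero (j : Fin K) : T k D j (fun _ => none) = 0 := by
  ext F t
  rw [T_apply]
  rfl

/-- the shift -/
def fx : Option ℕ → Option (Option ℕ)
  | some m => some (some (m + 1))
  | none => none

/-- the creation of a counter with value `n` -/
def fh (n : ℕ) : Option ℕ → Option (Option ℕ)
  | some _ => none
  | none => some (some n)

theorem fx_fh (n : ℕ) : (fun s => (fx s).bind (fh n)) = fun _ => none := by
  funext s
  cases s <;> rfl
theorem fh_fx (n : ℕ) : (fun s => (fh n s).bind fx) = fh (n + 1) := by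
  funext s
  cases s <;> rfl
theorem fh_fh (m n : ℕ) : (fun s => (fh m s).bind (fh n)) = fun _ => none := by
  funext s
  cases s <;> rfl

theorem lie_x_h (j : Fin K) (n : ℕ) :
    ⁅T k D j fx, T k D j (fh n)⁆ = - T k D j (fh (n + 1)) := by
  rw [Ring.lie_def, T_mul, T_mul, fx_fh, fh_fx, T_zero, zero_sub]

theorem lie_h_h (j : Fin K) (m n : ℕ) : ⁅T k D j (fh m), T k D j (fh n)⁆ = 0 := by
  rw [Ring.lie_def, T_mul, T_mul, fh_fh, fh_fh, sub_self]

theorem iter (j : Fin K) (n : ℕ) :
    (fun u => ⁅T k D j fx, u⁆)^[n] (T k D j (fh 0)) = ((-1 : ℤ) ^ n) • T k D j (fh n) := by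
  induction n with
  | zero => simp
  | succ n ih =>
    rw [iterate_succ_apply', ih]
    simp only [lie_zsmul, lie_x_h, pow_succ, mul_neg_one, neg_smul, smul_neg]

end

section
variable (k : Type) [Field k] {K : ℕ} (Q : Type) [LieRing Q] [LieAlgebra k Q] (D : Type)
  [AddCommGroup D] [Module k D] [LieRingModule Q D] [LieModule k Q D]

/-- pointwise action -/
def pw (q : Q) (F : Fn K D) : Fn K D := fun t => ⁅q, F t⁆

/-- operators commuting with the action of `Q` -/
def EQ (K : ℕ) : LieSubalgebra k (Module.End k (Fn K D)) where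
  carrier := {f | ∀ (q : Q) (F : Fn K D), f (pw Q D q F) = pw Q D q (f F)}
  add_mem' := by
    intro f g hf hg q F
    rw [LinearMap.add_apply, hf, hg]
    funext t
    simp [pw]
  zero_mem' := by
    intro q F
    funext t
    simp [pw]
  smul_mem' := by
    intro c f hf q F
    rw [LinearMap.smul_apply, hf]
    funext t
    simp [pw]
  lie_mem' := by
    intro f g hf hg q F
    rw [Ring.lie_def, LinearMap.sub_apply, Module.End.mul_apply, Module.End.mul_apply, hf, hg, hf,
      hg]
    funext t
    simp [pw]

theorem T_mem (j : Fin K) (φ : Option ℕ → Option (Option ℕ)) : T k D j φ ∈ EQ k Q D K := by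
  intro q F
  funext t
  simp only [pw, T_apply]
  cases φ (t j) <;> simp

/-- the operator as an element of the Lie algebra -/
def TT (j : Fin K) (φ : Option ℕ → Option (Option ℕ)) : EQ k Q D K := ⟨T k D j φ, T_mem k Q D j φ⟩

theorem TT_coe (j : Fin K) (φ : Option ℕ → Option (Option ℕ)) :
    ((TT k Q D j φ : EQ k Q D K) : Module.End k (Fn K D)) = T k D j φ := rfl

theorem TT_lie_ne {i j : Fin K} (h : i ≠ j) (φ ψ : Option ℕ → Option (Option ℕ)) :
    ⁅TT k Q D i φ, TT k Q D j ψ⁆ = 0 := by
  apply Subtype.ext
  rw [LieSubalgebra.coe_bracket, TT_coe, TT_coe, Ring.lie_def, T_comm k D h, sub_self]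
  rfl

theorem TT_iter (j : Fin K) (n : ℕ) :
    (((fun u => ⁅TT k Q D j fx, u⁆)^[n] (TT k Q D j (fh 0)) : EQ k Q D K) :
      Module.End k (Fn K D)) = ((-1 : ℤ) ^ n) • T k D j (fh n) := by
  rw [← iter]
  induction n with
  | zero => rfl
  | succ n ih =>
    rw [iterate_succ_apply', iterate_succ_apply', LieSubalgebra.coe_bracket, ih, TT_coe]

theorem TT_iter_lie (j : Fin K) (m n : ℕ) :
    ⁅(fun u => ⁅TT k Q D j fx, u⁆)^[m] (TT k Q D j (fh 0)),
      (fun u => ⁅TT k Q D j fx, u⁆)^[n] (TT k Q D j (fh 0))⁆ = 0 := by
  apply Subtype.ext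
  rw [LieSubalgebra.coe_bracket, TT_iter, TT_iter, zsmul_lie, lie_zsmul, lie_h_h, smul_zero,
    smul_zero]
  rfl

/-- the module structure -/
theorem exists_mod (C : Type) [LieRing C] [LieAlgebra k C] (Φ : C →ₗ⁅k⁆ EQ k Q D K) :
    ∃ (_ : LieRingModule (Q × C) (Fn K D)) (_ : LieModule k (Q × C) (Fn K D)),
      ∀ (p : Q × C) (F : Fn K D), ⁅p, F⁆ = pw Q D p.1 F + (Φ p.2 : Module.End k (Fn K D)) F := by
  let i1 : LieRingModule (Q × C) (Fn K D) :=
    { bracket := fun p F => pw Q D p.1 F + (Φ p.2 : Module.End k (Fn K D)) F
      add_lie := by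
        intro p p' F
        change pw Q D (p + p').1 F + (Φ (p + p').2 : Module.End k (Fn K D)) F =
          (pw Q D p.1 F + (Φ p.2 : Module.End k (Fn K D)) F) +
          (pw Q D p'.1 F + (Φ p'.2 : Module.End k (Fn K D)) F)
        funext t
        simp [pw]
        abel
      lie_add := by
        intro p F F'
        change pw Q D p.1 (F + F') + (Φ p.2 : Module.End k (Fn K D)) (F + F') =
          (pw Q D p.1 F + (Φ p.2 : Module.End k (Fn K D)) F) +
          (pw Q D p.1 F' + (Φ p.2 : Module.End k (Fn K D)) F')
        funext t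
        simp [pw]
        abel
      leibniz_lie := by
        intro p p' F
        change pw Q D p.1 (pw Q D p'.1 F + (Φ p'.2 : Module.End k (Fn K D)) F) +
            (Φ p.2 : Module.End k (Fn K D)) (pw Q D p'.1 F + (Φ p'.2 : Module.End k (Fn K D)) F) =
          (pw Q D ⁅p, p'⁆.1 F + (Φ ⁅p, p'⁆.2 : Module.End k (Fn K D)) F) +
          (pw Q D p'.1 (pw Q D p.1 F + (Φ p.2 : Module.End k (Fn K D)) F) +
            (Φ p'.2 : Module.End k (Fn K D)) (pw Q D p.1 F + (Φ p.2 : Module.End k (Fn K D)) F))
        have h1 : (⁅p, p'⁆ : Q × C).1 = ⁅p.1, p'.1⁆ := rfl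
        have h2 : (⁅p, p'⁆ : Q × C).2 = ⁅p.2, p'.2⁆ := rfl
        have h3 := (Φ p.2).2 p'.1 F
        have h4 := (Φ p'.2).2 p.1 F
        rw [h1, h2, map_add, map_add, LieHom.map_lie, LieSubalgebra.coe_bracket, Ring.lie_def,
          LinearMap.sub_apply, Module.End.mul_apply, Module.End.mul_apply, h3, h4]
        funext t
        simp only [pw, Pi.add_apply, Pi.sub_apply, lie_add]
        rw [leibniz_lie p.1 p'.1 (F t)]
        abel }
  have i2 : LieModule k (Q × C) (Fn K D) :=
    { smul_lie := by
        intro c p F
        change pw Q D (c • p).1 F + (Φ (c • p).2 : Module.End k (Fn K D)) F =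
          c • (pw Q D p.1 F + (Φ p.2 : Module.End k (Fn K D)) F)
        funext t
        simp [pw]
      lie_smul := by
        intro c p F
        change pw Q D p.1 (c • F) + (Φ p.2 : Module.End k (Fn K D)) (c • F) =
          c • (pw Q D p.1 F + (Φ p.2 : Module.End k (Fn K D)) F)
        funext t
        simp [pw] }
  exact ⟨i1, i2, fun _ _ => rfl⟩

/-- the state of a tuple -/
def stt (t : Fin K → Option ℕ) : St := fun n => if h : n < K then (t ⟨n, h⟩).getD 0 else 0

open Classical in
/-- functions on states as functions on tuples -/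
def brk (K : ℕ) : (St → D) →ₗ[k] Fn K D where
  toFun F t := if ∀ i, t i ≠ none then F (stt t) else 0
  map_add' F F' := by
    funext t
    simp only [Pi.add_apply]
    split_ifs <;> simp
  map_smul' c F := by
    funext t
    simp only [Pi.smul_apply, RingHom.id_apply]
    split_ifs <;> simp

open Classical in
theorem brk_apply (F : St → D) (t : Fin K → Option ℕ) :
    brk k D K F t = if ∀ i, t i ≠ none then F (stt t) else 0 := rfl

theorem stt_update (t : Fin K → Option ℕ) (j : Fin K) (m : ℕ) (h : t j = some m) :
    stt (update t j (some (m + 1))) = update (stt t) j (stt t j + 1) := by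
  funext n
  by_cases hn : n = (j : ℕ)
  · subst hn
    simp [stt, h]
  · rw [update_of_ne hn]
    unfold stt
    by_cases hK : n < K
    · have h2 : (⟨n, hK⟩ : Fin K) ≠ j := fun h3 => hn (by rw [← h3])
      rw [dif_pos hK, dif_pos hK, update_of_ne h2]
    · rw [dif_neg hK, dif_neg hK]

theorem shift (j : Fin K) (F F' : St → D) (h : ∀ v, F (update v j (v j + 1)) = F' v) :
    T k D j fx (brk k D K F) = brk k D K F' := by
  funext t
  rw [T_apply, brk_apply]
  cases ht : t j with
  | none =>
    rw [if_neg (fun h1 => h1 j ht)]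
    rfl
  | some m =>
    simp only [fx, Option.elim_some, brk_apply]
    rw [stt_update t j m ht, h]
    have h1 : (∀ i, update t j (some (m + 1)) i ≠ none) ↔ ∀ i, t i ≠ none := by
      apply forall_congr'
      intro i
      by_cases hi : i = j
      · subst hi; simp [ht]
      · rw [update_of_ne hi]
    by_cases h2 : ∀ i, t i ≠ none
    · rw [if_pos h2, if_pos (h1.2 h2)]
    · rw [if_neg h2, if_neg (fun h3 => h2 (h1.1 h3))]

open Classical in
/-- products of creation operators -/
theorem creat (l : List (Fin K)) (hl : l.Nodup) (Ψ : Fn K D) (t : Fin K → Option ℕ) :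
    l.foldr (fun i F => T k D i (fh 0) F) Ψ t =
      if ∀ i ∈ l, t i = none then Ψ (fun i => if i ∈ l then some 0 else t i) else 0 := by
  induction l generalizing t with
  | nil => simp
  | cons j l ih =>
    rw [List.nodup_cons] at hl
    rw [List.foldr_cons, T_apply]
    cases ht : t j with
    | some m =>
      rw [if_neg]
      · rfl
      · intro h
        rw [h j List.mem_cons_self] at ht
        exact absurd ht (by simp)
    | none =>
      simp only [fh, Option.elim_some]
      rw [ih hl.2]
      have h1 : (∀ i ∈ l, update t j (some 0) i = none) ↔ ∀ i ∈ j :: l, t i = none := by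
        constructor
        · intro h i hi
          rcases List.mem_cons.1 hi with rfl | hi
          · exact ht
          · have h2 : i ≠ j := fun h3 => hl.1 (h3 ▸ hi)
            have h4 := h i hi
            rwa [update_of_ne h2] at h4
        · intro h i hi
          have h2 : i ≠ j := fun h3 => hl.1 (h3 ▸ hi)
          rw [update_of_ne h2]
          exact h i (List.mem_cons_of_mem _ hi)
      have h3 : (fun i => if i ∈ l then some 0 else update t j (some 0) i) =
          fun i => if i ∈ j :: l then some 0 else t i := by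
        funext i
        by_cases hi : i ∈ l
        · rw [if_pos hi, if_pos (List.mem_cons_of_mem _ hi)]
        · rw [if_neg hi]
          by_cases hj : i = j
          · subst hj
            rw [if_pos List.mem_cons_self, update_self]
          · rw [update_of_ne hj, if_neg]
            intro h4
            rcases List.mem_cons.1 h4 with h4 | h4
            · exact hj h4
            · exact hi h4
      rw [h3]
      by_cases h5 : ∀ i ∈ j :: l, t i = none
      · rw [if_pos h5, if_pos (h1.2 h5)]
      · rw [if_neg h5, if_neg (fun h6 => h5 (h1.1 h6))]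

end

end MHMODEL

open MHMODEL in
theorem mhmodel_proof : Stmt_MHModel := by
  classical
  intro k _ K Q _ _ D _ _ _ _ C _ _ x g hU
  obtain ⟨Φ, hx, hg⟩ := hU (EQ k Q D K) (fun j => TT k Q D j fx) (fun j => TT k Q D j (fh 0))
    (by
      intro i j
      by_cases h : i = j
      · subst h; exact lie_self _
      · exact TT_lie_ne k Q D h _ _)
    (by
      intro i j h
      exact TT_lie_ne k Q D h _ _)
    (by
      intro i j
      by_cases h : i = j
      · subst h; exact lie_self _
      · exact TT_lie_ne k Q D h _ _)
    (fun i m n => TT_iter_lie k Q D i m n)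
  obtain ⟨i1, i2, h12⟩ := exists_mod k Q D C Φ
  have hX : ∀ (j : Fin K) (F : Fn K D), ⁅((0, x j) : Q × C), F⁆ = T k D j fx F := by
    intro j F
    rw [h12]
    change pw Q D 0 F + (Φ (x j) : Module.End k (Fn K D)) F = _
    rw [hx j]
    funext t
    simp [pw, TT_coe]
  have hG : ∀ (j : Fin K) (F : Fn K D), ⁅((0, g j) : Q × C), F⁆ = T k D j (fh 0) F := by
    intro j F
    rw [h12]
    change pw Q D 0 F + (Φ (g j) : Module.End k (Fn K D)) F = _
    rw [hg j]
    funext t
    simp [pw, TT_coe]
  have hW : ∀ (l : List (Fin K)) (F : Fn K D), wact (l.map fun j => ((0, g j) : Q × C)) F =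
      l.foldr (fun i F => T k D i (fh 0) F) F := by
    intro l F
    induction l with
    | nil => rfl
    | cons j l ih =>
      rw [List.map_cons, List.foldr_cons, ← ih, ← hG]
      rfl
  refine ⟨Fn K D, inferInstance, inferInstance, i1, i2, brk k D K,
    LinearMap.proj (fun _ => none), ?_, ?_, ?_, ?_⟩
  · intro j F F' h
    rw [hX]
    exact shift k D j F F' h
  · intro l hl F h
    rw [hW]
    funext t
    rw [creat k D l hl]
    split_ifs with h1
    · rw [brk_apply]
      split_ifs with h2
      · apply h
        intro i hi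
        simp [stt, hi]
      · rfl
    · rfl
  · intro q F
    rw [h12]
    change pw Q D q _ + (Φ 0 : Module.End k (Fn K D)) _ = _
    rw [map_zero]
    funext t
    simp only [pw, Pi.add_apply, brk_apply]
    split_ifs <;> simp
  · intro F
    rw [hW]
    change List.foldr (fun i F => T k D i (fh 0) F) (brk k D K F) (List.finRange K)
      (fun _ => none) = F 0
    rw [creat k D _ (List.nodup_finRange K), if_pos (by simp), brk_apply, if_pos (by simp)]
    congr 1
    funext n
    simp [stt]

end Pool.Agent.HIP
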