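import Pool.Agent.HIP.Basic

/-!
# The first model: a module over `(E' + A) x| Q`
-/

noncomputable section

set_option linter.unusedSectionVars false

namespace Pool.Agent.HIP

open Function

namespace MO1X

section
variable (k : Type) [Field k] {Q E A K D : Type} [LieRing Q] [LieAlgebra k Q]
  [AddCommGroup E] [Module k E] [LieRingModule Q E] [LieModule k Q E]
  [AddCommGroup A] [Module k A] [LieRingModule Q A] [LieModule k Q A]
  [AddCommGroup K] [Module k K] [LieRingModule (Sd A Q) K] [LieModule k (Sd A Q) K]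
  [AddCommGroup D] [Module k D] [LieRingModule (Sd A Q) D] [LieModule k (Sd A Q) D]

/-- the `Q`-module underlying a module over the semidirect product -/
abbrev RQ (Q A K : Type) [LieRing Q] [LieAlgebra k Q] [AddCommGroup A] [Module k A]
    [LieRingModule Q A] [LieModule k Q A] : Type := Res (Sd.inr k A : Q →ₗ⁅k⁆ Sd A Q) K

/-- `E` as a module over the semidirect product -/
abbrev EP (Q A E : Type) [LieRing Q] [LieAlgebra k Q] [AddCommGroup A] [Module k A]
    [LieRingModule Q A] [LieModule k Q A] : Type := Res (Sd.proj k A Q) E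

/-- the operators -/
def Phi (μ : E →ₗ⁅k, Q⁆ A) (Lam : K →ₗ⁅k, Sd A Q⁆ (EP k Q A E →ₗ[k] D)) :
    PM E A →ₗ[k] (PM (RQ k Q A K) (RQ k Q A D) →ₗ[k] PM (RQ k Q A K) (RQ k Q A D)) :=
  LinearMap.mk₂ k
    (fun x m => PM.mk (toRes (Sd.inr k A) K ⁅Sd.inl k Q (μ x.fst + x.snd), (toRes (Sd.inr k A) K).symm m.fst⁆)
      (toRes (Sd.inr k A) D (⁅Sd.inl k Q (μ x.fst + x.snd), (toRes (Sd.inr k A) D).symm m.snd⁆ +
        Lam ((toRes (Sd.inr k A) K).symm m.fst) (toRes (Sd.proj k A Q) E x.fst))))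
    (by
      intro x y m
      ext
      · simp only [PM.fst_mk, PM.fst_add, PM.snd_add, map_add, add_lie]
        abel
      · simp only [PM.snd_mk, PM.fst_add, PM.snd_add, map_add, add_lie]
        abel)
    (by
      intro c x m
      ext
      · simp only [PM.fst_mk, PM.fst_smul, PM.snd_smul, map_smul, map_add, add_lie, smul_lie, smul_add]
      · simp only [PM.snd_mk, PM.fst_smul, PM.snd_smul, map_smul, map_add, add_lie, smul_lie, smul_add])
    (by
      intro x m n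
      ext
      · simp only [PM.fst_mk, PM.fst_add, map_add, lie_add]
      · simp only [PM.snd_mk, PM.fst_add, PM.snd_add, map_add, lie_add, LinearMap.add_apply]
        abel)
    (by
      intro c x m
      ext
      · simp only [PM.fst_mk, PM.fst_smul, map_smul, lie_smul]
      · simp only [PM.snd_mk, PM.fst_smul, PM.snd_smul, map_smul, lie_smul, LinearMap.smul_apply,
          smul_add, map_add])

variable {k}

theorem Phi_apply (μ : E →ₗ⁅k, Q⁆ A) (Lam : K →ₗ⁅k, Sd A Q⁆ (EP k Q A E →ₗ[k] D)) (x : PM E A)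
    (m : PM (RQ k Q A K) (RQ k Q A D)) : Phi k μ Lam x m =
      PM.mk (toRes (Sd.inr k A) K ⁅Sd.inl k Q (μ x.fst + x.snd), (toRes (Sd.inr k A) K).symm m.fst⁆)
      (toRes (Sd.inr k A) D (⁅Sd.inl k Q (μ x.fst + x.snd), (toRes (Sd.inr k A) D).symm m.snd⁆ +
        Lam ((toRes (Sd.inr k A) K).symm m.fst) (toRes (Sd.proj k A Q) E x.fst))) := rfl

theorem lam_inl (Lam : K →ₗ⁅k, Sd A Q⁆ (EP k Q A E →ₗ[k] D)) (a : A) (m : K) (x : E) :
    Lam ⁅Sd.inl k Q a, m⁆ (toRes (Sd.proj k A Q) E x) =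
      ⁅Sd.inl k Q a, Lam m (toRes (Sd.proj k A Q) E x)⁆ := by
  rw [LieModuleHom.map_lie, LieHom.lie_apply, Res.lie_toRes]
  simp

theorem lam_inr (Lam : K →ₗ⁅k, Sd A Q⁆ (EP k Q A E →ₗ[k] D)) (q : Q) (m : K) (x : E) :
    Lam ⁅Sd.inr k A q, m⁆ (toRes (Sd.proj k A Q) E x) =
      ⁅Sd.inr k A q, Lam m (toRes (Sd.proj k A Q) E x)⁆ -
        Lam m (toRes (Sd.proj k A Q) E ⁅q, x⁆) := by
  rw [LieModuleHom.map_lie, LieHom.lie_apply, Res.lie_toRes]
  simp

/-- elements of the abelian ideal commute on modules -/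
theorem inl_comm (a b : A) (m : D) :
    ⁅Sd.inl k Q a, ⁅Sd.inl k Q b, m⁆⁆ = ⁅Sd.inl k Q b, ⁅Sd.inl k Q a, m⁆⁆ := by
  rw [leibniz_lie, Sd.lie_inl_inl, zero_lie, zero_add]

/-- the bracket with an element of the acting algebra -/
theorem inr_inl (q : Q) (a : A) (m : D) :
    ⁅Sd.inl k Q ⁅q, a⁆, m⁆ = ⁅Sd.inr k A q, ⁅Sd.inl k Q a, m⁆⁆ - ⁅Sd.inl k Q a, ⁅Sd.inr k A q, m⁆⁆ := by
  rw [← Sd.lie_inr_inl, lie_lie]

end

end MO1X

open MO1X

theorem mo1_proof : Stmt_MO1Asm := by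
  intro hExMod k _ Q _ _ I r E _ _ _ _ eta hfree A _ _ _ _ al0 D _ _ _ _ d
  -- the cyclic module
  obtain ⟨K, _, _, _, _, e, he⟩ := hExMod k (Sd A Q) (Fin 1)
    (Set.range fun q : Q => [((1 : k), [Sd.inr k A q], 0)])
  have hQe : ∀ q : Q, ⁅Sd.inr k A q, e 0⁆ = 0 := by
    intro q
    have := he.rel ⟨q, rfl⟩
    simpa [mval] using this
  obtain ⟨lam, hlam⟩ := hfree (RQ k Q A D)
    (Sum.elim (fun b => toRes (Sd.inr k A) D (d b)) (fun _ => 0))
  obtain ⟨μ, hμ⟩ := hfree A (Sum.elim (fun _ => 0) al0)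
  -- the functional `lam` in `Hom(E, D)`
  let lam' : EP k Q A E →ₗ[k] D :=
    (toRes (Sd.inr k A) D).symm.toLinearMap ∘ₗ (lam : E →ₗ[k] RQ k Q A D) ∘ₗ
      (toRes (Sd.proj k A Q) E).symm.toLinearMap
  have hlam' : ∀ x : E, lam' (toRes (Sd.proj k A Q) E x) = (toRes (Sd.inr k A) D).symm (lam x) :=
    fun x => rfl
  have hq : ∀ q : Q, ⁅Sd.inr k A q, lam'⁆ = 0 := by
    intro q
    ext x
    obtain ⟨x, rfl⟩ := (toRes (Sd.proj k A Q) E).surjective x
    rw [LieHom.lie_apply, Res.lie_toRes, hlam', hlam', Sd.proj_apply, Sd.inr_q,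
      LieModuleHom.map_lie]
    simp [Res.lie_def]
  obtain ⟨Lam, hLam⟩ := he.2.2 (EP k Q A E →ₗ[k] D) (fun _ => lam') (by
    rintro _ ⟨q, rfl⟩
    simpa [mval] using hq q)
  obtain ⟨i1, i2, hact⟩ := Sd.exists_mod (k := k) (Q := Q) (D := PM E A)
    (PM (RQ k Q A K) (RQ k Q A D)) (Phi k μ Lam) (by
      intro q x m
      rw [Phi_apply, Phi_apply, Phi_apply]
      ext
      · have hx : μ (⁅q, x⁆ : PM E A).fst + (⁅q, x⁆ : PM E A).snd = ⁅q, μ x.fst + x.snd⁆ := by
          rw [PM.fst_lie, PM.snd_lie, LieModuleHom.map_lie, lie_add]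
        rw [hx, inr_inl]
        simp only [Res.lie_def, map_sub, LinearEquiv.symm_apply_apply, PM.fst_lie, PM.fst_sub,
          PM.fst_mk]
      · have hx : μ (⁅q, x⁆ : PM E A).fst + (⁅q, x⁆ : PM E A).snd = ⁅q, μ x.fst + x.snd⁆ := by
          rw [PM.fst_lie, PM.snd_lie, LieModuleHom.map_lie, lie_add]
        rw [hx]
        simp only [Res.lie_def, map_sub, LinearEquiv.symm_apply_apply, PM.fst_lie, PM.snd_lie,
          PM.snd_sub, PM.snd_mk]
        rw [inr_inl]
        have := lam_inr Lam q ((toRes (Sd.inr k A) K).symm m.fst) x.fst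
        rw [this]
        simp only [map_add (toRes (Sd.inr k A) D), map_sub (toRes (Sd.inr k A) D), lie_add]
        abel) (by
      intro x y m
      rw [Phi_apply, Phi_apply, Phi_apply, Phi_apply]
      ext
      · rw [PM.fst_mk, PM.fst_mk, PM.fst_mk, PM.fst_mk, LinearEquiv.symm_apply_apply,
          LinearEquiv.symm_apply_apply, inl_comm]
      · rw [PM.snd_mk, PM.snd_mk, PM.snd_mk, PM.snd_mk, PM.fst_mk, PM.fst_mk]
        simp only [LinearEquiv.symm_apply_apply, lam_inl, lie_add]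
        rw [inl_comm]
        congr 1
        abel)
  refine ⟨_, _, _, i1, i2, PM.mk (toRes (Sd.inr k A) K (e 0)) 0,
    { toFun := fun m => PM.mk 0 (toRes (Sd.inr k A) D m)
      map_add' := by intro x y; ext <;> simp
      map_smul' := by intro c x; ext <;> simp }, ?_, ?_, ?_, ?_, ?_⟩
  · intro x y hxy
    have := congrArg PM.snd hxy
    exact this
  · intro x m
    rw [hact, Phi_apply]
    ext
    · simp [Res.lie_def]
    · have h1 : ⁅x, m⁆ = ⁅Sd.inl k Q x.d, m⁆ + ⁅Sd.inr k A x.q, m⁆ := by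
        rw [← add_lie, ← Sd.mk_eq]
      simp [Res.lie_def, h1]
  · intro q
    rw [hact, Phi_apply]
    ext
    · simp [Res.lie_def, hQe]
    · simp [Res.lie_def]
  · intro i
    rw [hact, hact, Phi_apply, Phi_apply]
    have h1 : Lam (e 0) (toRes (Sd.proj k A Q) E (eta (Sum.inr i))) = 0 := by
      rw [hLam, hlam', hlam]; simp
    ext
    · simp [Res.lie_def, hμ]
    · simp [Res.lie_def, h1]
  · intro b
    rw [hact, Phi_apply]
    have h1 : Lam (e 0) (toRes (Sd.proj k A Q) E (eta (Sum.inl b))) = d b := by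
      rw [hLam, hlam', hlam]; simp
    ext
    · simp [Res.lie_def, hμ]
    · simp [Res.lie_def, h1]

end Pool.Agent.HIP
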