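import Pool.Agent.HIP.Basic

/-!
# Module MO2: the second model
-/

noncomputable section

set_option linter.unusedSectionVars false

namespace Pool.Agent.HIP

open Function
open scoped TensorProduct

namespace MO2

/-! ### The action of `(Z + C + A) x| Q` -/

section step3

variable {k : Type} [Field k] (Q E A : Type) {Z C : Type} (N : Type) [LieRing Q] [LieAlgebra k Q]
  [AddCommGroup E] [Module k E] [LieRingModule Q E] [LieModule k Q E]
  [AddCommGroup A] [Module k A] [LieRingModule Q A] [LieModule k Q A]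
  [AddCommGroup Z] [Module k Z] [LieRingModule Q Z] [LieModule k Q Z]
  [AddCommGroup C] [Module k C] [LieRingModule Q C] [LieModule k Q C]
  [AddCommGroup N] [Module k N] [LieRingModule (Sd (PM E A) Q) N] [LieModule k (Sd (PM E A) Q) N]

/-- the operators of the elements of the abelian ideal -/
def opA : PM E A →ₗ[k] (N →ₗ[k] N) :=
  LinearMap.mk₂ k (fun x n => ⁅(⟨x, 0⟩ : Sd (PM E A) Q), n⁆)
    (fun x y n => by rw [← add_lie]; congr 1; ext <;> simp)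
    (fun c x n => by rw [← smul_lie]; congr 1; ext <;> simp)
    (fun x n n' => lie_add _ _ _) (fun c x n => lie_smul _ _ _)

theorem opA_apply (x : PM E A) (n : N) :
    opA (k := k) Q E A N x n = ⁅(⟨x, 0⟩ : Sd (PM E A) Q), n⁆ := rfl

/-- the operators commute -/
theorem opA_comm (x y : PM E A) (n : N) :
    opA (k := k) Q E A N x (opA (k := k) Q E A N y n) =
      opA (k := k) Q E A N y (opA (k := k) Q E A N x n) := by
  simp only [opA_apply]
  rw [leibniz_lie]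
  have : ⁅(⟨x, 0⟩ : Sd (PM E A) Q), (⟨y, 0⟩ : Sd (PM E A) Q)⁆ = 0 := by
    ext <;> simp
  rw [this, zero_lie, zero_add]

/-- commutator with `q` -/
theorem opA_lie (q : Q) (x : PM E A) (n : N) :
    opA (k := k) Q E A N ⁅q, x⁆ n =
      ⁅(⟨0, q⟩ : Sd (PM E A) Q), opA (k := k) Q E A N x n⁆ -
        opA (k := k) Q E A N x ⁅(⟨0, q⟩ : Sd (PM E A) Q), n⁆ := by
  simp only [opA_apply]
  rw [leibniz_lie (⟨0, q⟩ : Sd (PM E A) Q)]
  have : ⁅(⟨0, q⟩ : Sd (PM E A) Q), (⟨x, 0⟩ : Sd (PM E A) Q)⁆ = ⟨⁅q, x⁆, 0⟩ := by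
    ext <;> simp
  rw [this, add_sub_cancel_right]

/-- inclusion of the first factor -/
def inE : E →ₗ[k] PM E A where
  toFun e := PM.mk e 0
  map_add' x y := by ext <;> simp
  map_smul' c x := by ext <;> simp

/-- the product of two operators -/
def opT : E ⊗[k] E →ₗ[k] (N →ₗ[k] N) :=
  TensorProduct.lift (LinearMap.mk₂ k
    (fun e e' => (opA (k := k) Q E A N (inE (k := k) E A e)) ∘ₗ
      (opA (k := k) Q E A N (inE (k := k) E A e')))
    (fun x y z => by ext n; simp)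
    (fun c x y => by ext n; simp)
    (fun x y z => by ext n; simp)
    (fun c x y => by ext n; simp))

theorem opT_tmul (e e' : E) (n : N) :
    opT (k := k) Q E A N (e ⊗ₜ[k] e') n =
      ⁅(⟨PM.mk e 0, 0⟩ : Sd (PM E A) Q), ⁅(⟨PM.mk e' 0, 0⟩ : Sd (PM E A) Q), n⁆⁆ := by
  unfold opT
  rw [TensorProduct.lift.tmul]
  rfl

theorem opT_comm (x : PM E A) (t : E ⊗[k] E) (n : N) :
    opA (k := k) Q E A N x (opT (k := k) Q E A N t n) =
      opT (k := k) Q E A N t (opA (k := k) Q E A N x n) := by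
  induction t using TensorProduct.induction_on with
  | zero => simp
  | add t t' h h' => simp [h, h']
  | tmul e e' =>
    rw [opT_tmul, opT_tmul]
    have h1 := opA_comm (k := k) Q E A N x (PM.mk e 0)
      ⁅(⟨PM.mk e' 0, 0⟩ : Sd (PM E A) Q), n⁆
    have h2 := opA_comm (k := k) Q E A N x (PM.mk e' 0) n
    simp only [opA_apply] at h1 h2 ⊢
    rw [h1, h2]

theorem opT_comm' (t t' : E ⊗[k] E) (n : N) :
    opT (k := k) Q E A N t (opT (k := k) Q E A N t' n) =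
      opT (k := k) Q E A N t' (opT (k := k) Q E A N t n) := by
  induction t' using TensorProduct.induction_on with
  | zero => simp
  | add s s' h h' => simp [h, h']
  | tmul e e' =>
    rw [opT_tmul, opT_tmul]
    have h1 := opT_comm (k := k) Q E A N (PM.mk e 0) t
      ⁅(⟨PM.mk e' 0, 0⟩ : Sd (PM E A) Q), n⁆
    have h2 := opT_comm (k := k) Q E A N (PM.mk e' 0) t n
    simp only [opA_apply] at h1 h2 ⊢
    rw [← h1, ← h2]

theorem opT_lie (q : Q) (t : E ⊗[k] E) (n : N) :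
    opT (k := k) Q E A N ⁅q, t⁆ n =
      ⁅(⟨0, q⟩ : Sd (PM E A) Q), opT (k := k) Q E A N t n⁆ -
        opT (k := k) Q E A N t ⁅(⟨0, q⟩ : Sd (PM E A) Q), n⁆ := by
  induction t using TensorProduct.induction_on with
  | zero => simp
  | add s s' h h' =>
    rw [lie_add, map_add, LinearMap.add_apply, h, h', map_add]
    simp only [LinearMap.add_apply, lie_add]
    abel
  | tmul e e' =>
    rw [TensorProduct.LieModule.lie_tmul_right, map_add, LinearMap.add_apply]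
    simp only [opT_tmul]
    have h1 := opA_lie (k := k) Q E A N q (PM.mk e 0)
      ⁅(⟨PM.mk e' 0, 0⟩ : Sd (PM E A) Q), n⁆
    have h2 := opA_lie (k := k) Q E A N q (PM.mk e' 0) n
    have e1 : ⁅q, (PM.mk e 0 : PM E A)⁆ = PM.mk ⁅q, e⁆ 0 := by ext <;> simp
    have e2 : ⁅q, (PM.mk e' 0 : PM E A)⁆ = PM.mk ⁅q, e'⁆ 0 := by ext <;> simp
    rw [e1] at h1
    rw [e2] at h2
    simp only [opA_apply] at h1 h2
    rw [h1, h2, lie_sub]
    abel

/-- the algebra `(Z + C + A) x| Q` acts on `N` -/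
theorem exists_act (p : Z →ₗ⁅k, Q⁆ E) (γ : C →ₗ⁅k, Q⁆ (E ⊗[k] E)) :
    ∃ (_ : LieRingModule (Sd (PM (PM Z C) A) Q) N)
      (_ : LieModule k (Sd (PM (PM Z C) A) Q) N),
      ∀ (x : Sd (PM (PM Z C) A) Q) (n : N), ⁅x, n⁆ =
        ⁅(⟨PM.mk (p x.d.fst.fst) x.d.snd, x.q⟩ : Sd (PM E A) Q), n⁆ +
          opT (k := k) Q E A N (γ x.d.fst.snd) n := by
  let iq : LieRingModule Q N :=
    { bracket := fun q n => ⁅(⟨0, q⟩ : Sd (PM E A) Q), n⁆
      add_lie := fun q q' n => by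
        rw [← add_lie]; congr 1; ext <;> simp
      lie_add := fun q n n' => lie_add _ _ _
      leibniz_lie := fun q q' n => by
        change ⁅(⟨0, q⟩ : Sd (PM E A) Q), ⁅(⟨0, q'⟩ : Sd (PM E A) Q), n⁆⁆ =
          ⁅(⟨0, ⁅q, q'⁆⟩ : Sd (PM E A) Q), n⁆ +
          ⁅(⟨0, q'⟩ : Sd (PM E A) Q), ⁅(⟨0, q⟩ : Sd (PM E A) Q), n⁆⁆
        rw [leibniz_lie]; congr 2; ext <;> simp }
  have hiq : ∀ (q : Q) (n : N), ⁅q, n⁆ = ⁅(⟨0, q⟩ : Sd (PM E A) Q), n⁆ := fun _ _ => rfl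
  have im : LieModule k Q N :=
    { smul_lie := fun c q n => by
        rw [hiq, hiq, ← smul_lie]; congr 1; ext <;> simp
      lie_smul := fun c q n => by
        rw [hiq, hiq, lie_smul] }
  let pr : PM (PM Z C) A →ₗ[k] PM E A :=
    { toFun := fun x => PM.mk (p x.fst.fst) x.snd
      map_add' := fun x y => by ext <;> simp
      map_smul' := fun c x => by ext <;> simp }
  let pc : PM (PM Z C) A →ₗ[k] C :=
    { toFun := fun x => x.fst.snd
      map_add' := fun x y => by simp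
      map_smul' := fun c x => by simp }
  let Φ : PM (PM Z C) A →ₗ[k] (N →ₗ[k] N) :=
    (opA (k := k) Q E A N) ∘ₗ pr + (opT (k := k) Q E A N) ∘ₗ (γ : C →ₗ[k] E ⊗[k] E) ∘ₗ pc
  have hΦ : ∀ x n, Φ x n = opA (k := k) Q E A N (pr x) n +
      opT (k := k) Q E A N (γ x.fst.snd) n := fun x n => rfl
  obtain ⟨i1, i2, h⟩ := Sd.exists_mod (k := k) (Q := Q) (D := PM (PM Z C) A) N Φ
    (by
      intro q x n
      have e1 : pr ⁅q, x⁆ = ⁅q, pr x⁆ := by
        ext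
        · simp only [pr, LinearMap.coe_mk, AddHom.coe_mk, PM.fst_mk, PM.fst_lie,
            LieModuleHom.map_lie]
        · simp only [pr, LinearMap.coe_mk, AddHom.coe_mk, PM.snd_mk, PM.snd_lie]
      have e2 : γ (⁅q, x⁆ : PM (PM Z C) A).fst.snd = ⁅q, γ x.fst.snd⁆ := by
        rw [PM.fst_lie, PM.snd_lie, LieModuleHom.map_lie]
      have h1 := opA_lie (k := k) Q E A N q (pr x) n
      have h2 := opT_lie (k := k) Q E A N q (γ x.fst.snd) n
      calc Φ ⁅q, x⁆ n = opA (k := k) Q E A N (pr ⁅q, x⁆) n +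
            opT (k := k) Q E A N (γ (⁅q, x⁆ : PM (PM Z C) A).fst.snd) n := rfl
        _ = (⁅(⟨0, q⟩ : Sd (PM E A) Q), opA (k := k) Q E A N (pr x) n⁆ -
              opA (k := k) Q E A N (pr x) ⁅(⟨0, q⟩ : Sd (PM E A) Q), (n : N)⁆) +
            (⁅(⟨0, q⟩ : Sd (PM E A) Q), opT (k := k) Q E A N (γ x.fst.snd) n⁆ -
              opT (k := k) Q E A N (γ x.fst.snd) ⁅(⟨0, q⟩ : Sd (PM E A) Q), (n : N)⁆) := by
            rw [e1, e2, h1, h2]
        _ = ⁅(⟨0, q⟩ : Sd (PM E A) Q), (opA (k := k) Q E A N (pr x) n +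
              opT (k := k) Q E A N (γ x.fst.snd) n)⁆ -
            (opA (k := k) Q E A N (pr x) ⁅(⟨0, q⟩ : Sd (PM E A) Q), (n : N)⁆ +
              opT (k := k) Q E A N (γ x.fst.snd) ⁅(⟨0, q⟩ : Sd (PM E A) Q), (n : N)⁆) := by
            rw [lie_add]; abel
        _ = _ := rfl)
    (by
      intro x y n
      change opA (k := k) Q E A N (pr x) (opA (k := k) Q E A N (pr y) n +
          opT (k := k) Q E A N (γ y.fst.snd) n) +
          opT (k := k) Q E A N (γ x.fst.snd) (opA (k := k) Q E A N (pr y) n +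
          opT (k := k) Q E A N (γ y.fst.snd) n) =
        opA (k := k) Q E A N (pr y) (opA (k := k) Q E A N (pr x) n +
          opT (k := k) Q E A N (γ x.fst.snd) n) +
          opT (k := k) Q E A N (γ y.fst.snd) (opA (k := k) Q E A N (pr x) n +
          opT (k := k) Q E A N (γ x.fst.snd) n)
      simp only [map_add]
      rw [opA_comm Q E A N (pr x) (pr y), opT_comm Q E A N (pr x), opT_comm' Q E A N (γ x.fst.snd),
        ← opT_comm Q E A N (pr y)]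
      abel)
  refine ⟨i1, i2, ?_⟩
  intro x n
  refine (h x n).trans ?_
  change (opA (k := k) Q E A N (pr x.d) n + opT (k := k) Q E A N (γ x.d.fst.snd) n) +
    ⁅(⟨0, x.q⟩ : Sd (PM E A) Q), n⁆ = _
  have e3 : (⟨PM.mk (p x.d.fst.fst) x.d.snd, x.q⟩ : Sd (PM E A) Q) =
      ⟨pr x.d, 0⟩ + ⟨0, x.q⟩ := by
    ext <;> simp [pr]
  rw [e3, add_lie, opA_apply]
  abel

end step3

end MO2

open MO2 in
theorem mo2_proof : Stmt_MO2Asm := by
  intro hMO1 hExt k _ j r I S A _ _ _ _ al0 L D _ _ _ _ d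
  -- the first model
  let E' := GenBy S.ι S.E S.eta
  let eta' : I ⊕ Fin r → E' := fun b => ⟨toRes S.ι S.E (S.eta b),
    LieSubmodule.subset_lieSpan ⟨b, rfl⟩⟩
  obtain ⟨N₀, _, _, _, _, o₀, h₀, inj₀, hlie₀, hq₀, hi₀, hb₀⟩ :=
    hMO1 k S.Q I r E' eta' S.free A al0 D d
  -- extension from `E'` to `E`
  let j1 : PM E' A →ₗ[k] PM (Res S.ι S.E) A :=
    { toFun := fun x => PM.mk (x.fst : Res S.ι S.E) x.snd
      map_add' := fun x y => by ext <;> simp
      map_smul' := fun c x => by ext <;> simp }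
  have hj1 : ∀ (q : S.Q) (x : PM E' A), j1 ⁅q, x⁆ = ⁅(LieHom.id : S.Q →ₗ⁅k⁆ S.Q) q, j1 x⁆ := by
    intro q x
    ext <;> simp [j1]
  have ij1 : Injective j1 := by
    intro x y hxy
    have h1 := congrArg PM.fst hxy
    have h2 := congrArg PM.snd hxy
    ext
    · exact h1
    · exact h2
  let θ1 : Sd (PM E' A) S.Q →ₗ⁅k⁆ Sd (PM (Res S.ι S.E) A) S.Q := Sd.map LieHom.id j1 hj1
  have iθ1 : Injective θ1 := Sd.map_injective hj1 (fun _ _ h => h) ij1
  obtain ⟨N₁, _, _, _, _, j₁, inj₁, hlie₁⟩ := hExt k _ _ θ1 iθ1 N₀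
  -- the action of `(Z + C + A) x| Q`
  let pQ : Res S.ι L.Z →ₗ⁅k, S.Q⁆ Res S.ι S.E :=
    { toFun := fun x => toRes S.ι S.E (L.pi ((toRes S.ι L.Z).symm x))
      map_add' := fun x y => by simp
      map_smul' := fun c x => by simp
      map_lie' := by
        intro q x
        rw [Res.lie_def, LinearEquiv.symm_apply_apply, LieModuleHom.map_lie, ← Res.lie_toRes] }
  let gQ : Res S.ι L.C →ₗ⁅k, S.Q⁆ (Res S.ι S.E ⊗[k] Res S.ι S.E) :=
    { toFun := fun x => (TensorProduct.map (toRes S.ι S.E : S.E →ₗ[k] Res S.ι S.E)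
        (toRes S.ι S.E : S.E →ₗ[k] Res S.ι S.E)) (L.gam ((toRes S.ι L.C).symm x))
      map_add' := fun x y => by simp
      map_smul' := fun c x => by simp
      map_lie' := by
        intro q x
        rw [Res.lie_def, LinearEquiv.symm_apply_apply, LieModuleHom.map_lie]
        generalize L.gam ((toRes S.ι L.C).symm x) = t
        induction t using TensorProduct.induction_on with
        | zero => simp
        | add s s' h h' => rw [lie_add, map_add, h, h', map_add, lie_add]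
        | tmul e e' =>
          rw [TensorProduct.LieModule.lie_tmul_right, map_add, TensorProduct.map_tmul,
            TensorProduct.map_tmul, TensorProduct.map_tmul,
            TensorProduct.LieModule.lie_tmul_right]
          rfl }
  obtain ⟨i1, i2, hact⟩ := exists_act S.Q (Res S.ι S.E) A N₁ pQ gQ
  -- extension to `P1`
  let j3 : PM (PM (Res S.ι L.Z) (Res S.ι L.C)) A →ₗ[k] L.A1 :=
    { toFun := fun x => PM.mk (PM.mk ((toRes S.ι L.Z).symm x.fst.fst)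
        ((toRes S.ι L.C).symm x.fst.snd)) (L.jA x.snd)
      map_add' := fun x y => by ext <;> simp
      map_smul' := fun c x => by ext <;> simp }
  have hj3 : ∀ (q : S.Q) (x : PM (PM (Res S.ι L.Z) (Res S.ι L.C)) A),
      j3 ⁅q, x⁆ = ⁅S.ι q, j3 x⁆ := by
    intro q x
    ext
    · simp [j3, Res.lie_def]
    · simp [j3, Res.lie_def]
    · simp [j3, L.jA_lie]
  have ij3 : Injective j3 := by
    intro x y hxy
    have h1 := congrArg (fun z : L.A1 => z.fst.fst) hxy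
    have h2 := congrArg (fun z : L.A1 => z.fst.snd) hxy
    have h3 := congrArg (fun z : L.A1 => z.snd) hxy
    ext
    · exact (toRes S.ι L.Z).symm.injective h1
    · exact (toRes S.ι L.C).symm.injective h2
    · exact L.jA_inj h3
  let θ3 : Sd (PM (PM (Res S.ι L.Z) (Res S.ι L.C)) A) S.Q →ₗ⁅k⁆ L.P1 := Sd.map S.ι j3 hj3
  have iθ3 : Injective θ3 := Sd.map_injective hj3 S.ι_inj ij3
  obtain ⟨N₂, _, _, _, _, j₂, inj₂, hlie₂⟩ := hExt k _ _ θ3 iθ3 N₁
  -- the action of elements of `P1` on the image of `N₁`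
  have key : ∀ (x : Sd (PM (PM (Res S.ι L.Z) (Res S.ι L.C)) A) S.Q) (n : N₁),
      ⁅(⟨j3 x.d, S.ι x.q⟩ : L.P1), j₂ n⁆ = j₂ (
        ⁅(⟨PM.mk (pQ x.d.fst.fst) x.d.snd, x.q⟩ : Sd (PM (Res S.ι S.E) A) S.Q), n⁆ +
          opT (k := k) S.Q (Res S.ι S.E) A N₁ (gQ x.d.fst.snd) n) := by
    intro x n
    rw [← hact, hlie₂]
    rfl
  have keyZ : ∀ (x : L.Z) (n : N₁), ⁅(⟨PM.mk (PM.mk x 0) 0, 0⟩ : L.P1), j₂ n⁆ =
      j₂ ⁅(⟨PM.mk (toRes S.ι S.E (L.pi x)) 0, 0⟩ : Sd (PM (Res S.ι S.E) A) S.Q), n⁆ := by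
    intro x n
    have h1 := key ⟨PM.mk (PM.mk (toRes S.ι L.Z x) 0) 0, 0⟩ n
    simp only [PM.fst_mk, PM.snd_mk, map_zero, LinearMap.zero_apply, add_zero] at h1
    have h2 : (⟨j3 (PM.mk (PM.mk (toRes S.ι L.Z x) 0) 0), 0⟩ : L.P1) =
        ⟨PM.mk (PM.mk x 0) 0, 0⟩ := by
      ext <;> simp [j3]
    rw [h2] at h1
    exact h1
  have keyA : ∀ (a : A) (q : S.Q) (n : N₁), ⁅(⟨PM.mk (PM.mk 0 0) (L.jA a), S.ι q⟩ : L.P1), j₂ n⁆ =
      j₂ ⁅(⟨PM.mk 0 a, q⟩ : Sd (PM (Res S.ι S.E) A) S.Q), n⁆ := by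
    intro a q n
    have h1 := key ⟨PM.mk (PM.mk 0 0) a, q⟩ n
    simp only [PM.fst_mk, PM.snd_mk, map_zero, LinearMap.zero_apply, add_zero] at h1
    have h2 : (⟨j3 (PM.mk (PM.mk 0 0) a), S.ι q⟩ : L.P1) =
        ⟨PM.mk (PM.mk 0 0) (L.jA a), S.ι q⟩ := by
      ext <;> simp [j3]
    rw [h2] at h1
    exact h1
  have keyC : ∀ (c : L.C) (n : N₁), ⁅(⟨PM.mk (PM.mk 0 c) 0, 0⟩ : L.P1), j₂ n⁆ =
      j₂ (opT (k := k) S.Q (Res S.ι S.E) A N₁ (gQ (toRes S.ι L.C c)) n) := by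
    intro c n
    have h1 := key ⟨PM.mk (PM.mk 0 (toRes S.ι L.C c)) 0, 0⟩ n
    simp only [PM.fst_mk, PM.snd_mk, map_zero] at h1
    have h2 : (⟨j3 (PM.mk (PM.mk 0 (toRes S.ι L.C c)) 0), 0⟩ : L.P1) =
        ⟨PM.mk (PM.mk 0 c) 0, 0⟩ := by
      ext <;> simp [j3]
    have h3 : (⟨PM.mk 0 0, 0⟩ : Sd (PM (Res S.ι S.E) A) S.Q) = 0 := rfl
    rw [h2, h3, zero_lie, zero_add] at h1
    exact h1
  refine ⟨N₂, inferInstance, inferInstance, inferInstance, inferInstance, j₂ (j₁ o₀),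
    j₂ ∘ₗ j₁ ∘ₗ h₀, ?_, ?_, ?_, ?_, ?_, ?_, ?_⟩
  · exact inj₂.comp (inj₁.comp inj₀)
  · intro x m
    have h1 : (j₂ ∘ₗ j₁ ∘ₗ h₀) ⁅x, m⁆ = j₂ (j₁ (h₀ ⁅x, m⁆)) := rfl
    rw [h1, hlie₀, hlie₁]
    have h2 : θ1 ⟨PM.mk 0 x.d, x.q⟩ = ⟨PM.mk 0 x.d, x.q⟩ := by
      ext <;> simp [θ1, j1]
    rw [h2, ← keyA]
    rfl
  · intro q
    have h1 := keyA 0 q (j₁ o₀)
    rw [map_zero] at h1
    have h2 : θ1 ⟨0, q⟩ = ⟨PM.mk 0 0, q⟩ := by
      ext <;> simp [θ1, j1]
    rw [← h2, ← hlie₁, hq₀, map_zero, map_zero] at h1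
    exact h1
  · intro x hx
    have h1 := keyZ x (j₁ o₀)
    have h3 : (⟨PM.mk 0 0, 0⟩ : Sd (PM (Res S.ι S.E) A) S.Q) = 0 := rfl
    rw [hx, map_zero, h3, zero_lie, map_zero] at h1
    exact h1
  · intro c l hl
    rw [keyC]
    have h1 : gQ (toRes S.ι L.C c) = (l.map fun p => toRes S.ι S.E (L.pi p.1) ⊗ₜ[k]
        toRes S.ι S.E (L.pi p.2)).sum := by
      change (TensorProduct.map (toRes S.ι S.E : S.E →ₗ[k] Res S.ι S.E)
        (toRes S.ι S.E : S.E →ₗ[k] Res S.ι S.E)) (L.gam c) = _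
      rw [hl, map_list_sum, List.map_map]
      rfl
    rw [h1]
    clear h1 hl
    induction l with
    | nil => simp
    | cons p l ih =>
      rw [List.map_cons, List.sum_cons, List.map_cons, List.sum_cons, map_add,
        LinearMap.add_apply, map_add, ih, opT_tmul, keyZ, keyZ]
  · intro i
    have h1 := keyZ (L.xx (Sum.inr i)) (j₁ o₀)
    rw [L.pi_xx] at h1
    have h2 : (⟨PM.mk (toRes S.ι S.E (S.eta (Sum.inr i))) 0, 0⟩ :
        Sd (PM (Res S.ι S.E) A) S.Q) = θ1 ⟨PM.mk (eta' (Sum.inr i)) 0, 0⟩ := by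
      ext <;> simp [θ1, j1, eta']
    rw [h2, ← hlie₁, hi₀, hlie₁] at h1
    have h3 : θ1 ⟨PM.mk 0 (al0 i), 0⟩ = ⟨PM.mk 0 (al0 i), 0⟩ := by
      ext <;> simp [θ1, j1]
    have h4 := keyA (al0 i) 0 (j₁ o₀)
    rw [h1, h3, ← h4, L.jA_al, map_zero]
  · intro b
    have h1 := keyZ (L.xx (Sum.inl b)) (j₁ o₀)
    rw [L.pi_xx] at h1
    have h2 : (⟨PM.mk (toRes S.ι S.E (S.eta (Sum.inl b))) 0, 0⟩ :
        Sd (PM (Res S.ι S.E) A) S.Q) = θ1 ⟨PM.mk (eta' (Sum.inl b)) 0, 0⟩ := by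
      ext <;> simp [θ1, j1, eta']
    rw [h2, ← hlie₁, hb₀] at h1
    exact h1

end Pool.Agent.HIP
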