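import Mathlib
import Pool.Agent.HIP.Basic

/-!
# HIP module MODEL
-/

noncomputable section

set_option linter.unusedSectionVars false

namespace Pool.Agent.HIP

open Function
open scoped TensorProduct

namespace MODELX

variable {k : Type} [Field k] {j : ℕ} {I : Type} {r : ℕ} {S : Stage k j (I ⊕ Fin r)}
  {A : Type} [AddCommGroup A] [Module k A] [LieRingModule S.Q A] [LieModule k S.Q A]
  {al0 : Fin r → A} (L : Lay S A al0)

/-- elements of `P1` -/
def z1 : L.Z →ₗ[k] L.P1 where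
  toFun x := ⟨PM.mk (PM.mk x 0) 0, 0⟩
  map_add' x y := by ext <;> simp
  map_smul' c x := by ext <;> simp
/-- elements of `P1` -/
def c1 : L.C →ₗ[k] L.P1 where
  toFun x := ⟨PM.mk (PM.mk 0 x) 0, 0⟩
  map_add' x y := by ext <;> simp
  map_smul' c x := by ext <;> simp
/-- elements of `P1` -/
def y1 : S.Y →ₗ⁅k⁆ L.P1 := Sd.inr k L.A1

theorem y1_z1 (y : S.Y) (x : L.Z) : ⁅y1 L y, z1 L x⁆ = z1 L ⁅y, x⁆ := by
  ext <;> simp [y1, z1]
theorem y1_c1 (y : S.Y) (x : L.C) : ⁅y1 L y, c1 L x⁆ = c1 L ⁅y, x⁆ := by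
  ext <;> simp [y1, c1]

/-- the relations R1, R2, R3 -/
def Rel1 : Set (MR k L.P1 (Fin 1)) :=
  (Set.range fun y : S.Y => [((1 : k), [y1 L y], 0)]) ∪
  ((fun x : L.Z => [((1 : k), [z1 L x], 0)]) '' {x | L.pi x = 0}) ∪
  (Set.range fun l => ((1 : k), [c1 L (L.c l)], (0 : Fin 1)) ::
    (L.gg l).map fun p => ((-1 : k), [z1 L p.1, z1 L p.2], (0 : Fin 1)))

section
variable {M : Type} [AddCommGroup M] [Module k M] [LieRingModule L.P1 M] [LieModule k L.P1 M]

theorem mval_r3 (e : M) (l : Fin S.s) :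
    mval (fun _ : Fin 1 => e) (((1 : k), [c1 L (L.c l)], (0 : Fin 1)) ::
      (L.gg l).map fun p => ((-1 : k), [z1 L p.1, z1 L p.2], (0 : Fin 1))) =
    ⁅c1 L (L.c l), e⁆ - ((L.gg l).map fun p => ⁅z1 L p.1, ⁅z1 L p.2, e⁆⁆).sum := by
  rw [mval_cons]
  simp only [one_smul, wact_cons, wact_nil]
  rw [sub_eq_add_neg]
  congr 1
  induction L.gg l with
  | nil => simp
  | cons p q ih =>
    rw [List.map_cons, mval_cons, ih, List.map_cons, List.sum_cons]
    simp
    abel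

end

section
variable {N : Type} [AddCommGroup N] [Module k N] [LieRingModule L.P1 N] [LieModule k L.P1 N]
  {o : N}

/-- `T` as a module over `P1` -/
abbrev TR : Type := Res (Sd.proj k L.A1 S.Y) L.T

/-- condition R2 at `n` -/
def C2 (n : N) : Prop := ∀ x : L.Z, L.pi x = 0 → ⁅z1 L x, n⁆ = 0

/-- condition R3 at `n` -/
def C3 (n : N) : Prop := ∀ (c : L.C) (l : List (L.Z × L.Z)),
  L.gam c = (l.map fun p => L.pi p.1 ⊗ₜ[k] L.pi p.2).sum →
  ⁅c1 L c, n⁆ = (l.map fun p => ⁅z1 L p.1, ⁅z1 L p.2, n⁆⁆).sum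

theorem C2.lie {n : N} (h : C2 L n) (y : S.Y) : C2 L ⁅y1 L y, n⁆ := by
  intro x hx
  rw [leibniz_lie, h x hx, lie_zero, add_zero, ← lie_skew, y1_z1, neg_lie, h, neg_zero]
  rw [LieModuleHom.map_lie, hx, lie_zero]

/-- derivative of a list of pairs -/
def dl (y : S.Y) (l : List (L.Z × L.Z)) : List (L.Z × L.Z) :=
  l.flatMap fun p => [(⁅y, p.1⁆, p.2), (p.1, ⁅y, p.2⁆)]

theorem dl_tensor (y : S.Y) (l : List (L.Z × L.Z)) :
    ((dl L y l).map fun p => L.pi p.1 ⊗ₜ[k] L.pi p.2).sum =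
      ⁅y, (l.map fun p => L.pi p.1 ⊗ₜ[k] L.pi p.2).sum⁆ := by
  induction l with
  | nil => simp [dl]
  | cons p l ih =>
    have : dl L y (p :: l) = (⁅y, p.1⁆, p.2) :: (p.1, ⁅y, p.2⁆) :: dl L y l := rfl
    rw [this]
    simp only [List.map_cons, List.sum_cons]
    rw [ih, lie_add, TensorProduct.LieModule.lie_tmul_right, LieModuleHom.map_lie,
      LieModuleHom.map_lie]
    abel

theorem dl_act (y : S.Y) (l : List (L.Z × L.Z)) (n : N) :
    ((dl L y l).map fun p => ⁅z1 L p.1, ⁅z1 L p.2, n⁆⁆).sum +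
      (l.map fun p => ⁅z1 L p.1, ⁅z1 L p.2, ⁅y1 L y, n⁆⁆⁆).sum =
      ⁅y1 L y, (l.map fun p => ⁅z1 L p.1, ⁅z1 L p.2, n⁆⁆).sum⁆ := by
  induction l with
  | nil => simp [dl]
  | cons p l ih =>
    have : dl L y (p :: l) = (⁅y, p.1⁆, p.2) :: (p.1, ⁅y, p.2⁆) :: dl L y l := rfl
    rw [this]
    simp only [List.map_cons, List.sum_cons]
    rw [lie_add, ← ih, ← y1_z1, ← y1_z1]
    rw [leibniz_lie (y1 L y) (z1 L p.1), leibniz_lie (y1 L y) (z1 L p.2), lie_add]
    abel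

theorem C3.lie {n : N} (h : C3 L n) (y : S.Y) : C3 L ⁅y1 L y, n⁆ := by
  intro c l hl
  have h1 := h c l hl
  have h2 := h ⁅y, c⁆ (dl L y l) (by rw [dl_tensor, LieModuleHom.map_lie, hl])
  have h3 := dl_act L y l n
  rw [← h1, ← h2] at h3
  rw [← y1_c1, leibniz_lie (y1 L y) (c1 L c)] at h3
  exact (add_left_cancel h3).symm

end

section
variable (M1 N : Type) [AddCommGroup M1] [Module k M1] [LieRingModule L.P1 M1]
  [LieModule k L.P1 M1] [AddCommGroup N] [Module k N] [LieRingModule L.P1 N] [LieModule k L.P1 N]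

/-- the underlying `Y`-module of the model -/
abbrev MY : Type := PM (Res (y1 L) M1) (Res (y1 L) N)

variable {M1 N}

/-- elements of the model -/
def mkM (m : M1) (n : N) : MY L M1 N := PM.mk (toRes (y1 L) M1 m) (toRes (y1 L) N n)

theorem mkM_surj (x : MY L M1 N) : ∃ (m : M1) (n : N), x = mkM L m n :=
  ⟨(toRes (y1 L) M1).symm x.fst, (toRes (y1 L) N).symm x.snd, rfl⟩

theorem mkM_add (m m' : M1) (n n' : N) : mkM L m n + mkM L m' n' = mkM L (m + m') (n + n') := rfl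
theorem mkM_sub (m m' : M1) (n n' : N) : mkM L m n - mkM L m' n' = mkM L (m - m') (n - n') := rfl
theorem mkM_smul (c : k) (m : M1) (n : N) : c • mkM L m n = mkM L (c • m) (c • n) := rfl
theorem mkM_lie (y : S.Y) (m : M1) (n : N) :
    ⁅y, mkM L m n⁆ = mkM L ⁅y1 L y, m⁆ ⁅y1 L y, n⁆ := rfl

/-- `A1` in `P1` -/
def inlA : L.A1 →ₗ[k] L.P1 := Sd.inl k S.Y

theorem inlA_lie (y : S.Y) (a : L.A1) : inlA L ⁅y, a⁆ = ⁅y1 L y, inlA L a⁆ :=
  (Sd.lie_inr_inl (k := k) y a).symm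

theorem inlA_comm (a a' : L.A1) (x : N) :
    ⁅inlA L a, ⁅inlA L a', x⁆⁆ = ⁅inlA L a', ⁅inlA L a, x⁆⁆ := by
  rw [leibniz_lie, inlA, Sd.lie_inl_inl, zero_lie, zero_add]

/-- element of `T` in the restricted module -/
def tr : L.T →ₗ[k] TR L := (toRes (Sd.proj k L.A1 S.Y) L.T).toLinearMap

variable (F1 : M1 →ₗ⁅k, L.P1⁆ (TR L →ₗ[k] N))

theorem F1_y (y : S.Y) (m : M1) (τ : L.T) :
    F1 ⁅y1 L y, m⁆ (tr L τ) = ⁅y1 L y, F1 m (tr L τ)⁆ - F1 m (tr L ⁅y, τ⁆) := by
  rw [LieModuleHom.map_lie, LieHom.lie_apply]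
  rfl

theorem F1_a (a : L.A1) (m : M1) (τ : L.T) :
    F1 ⁅inlA L a, m⁆ (tr L τ) = ⁅inlA L a, F1 m (tr L τ)⁆ := by
  rw [LieModuleHom.map_lie, LieHom.lie_apply]
  have h0 : ⁅inlA L a, tr L τ⁆ = 0 := by
    change ⁅inlA L a, toRes (Sd.proj k L.A1 S.Y) L.T τ⁆ = 0
    rw [Res.lie_toRes]
    change toRes _ _ ⁅(0 : S.Y), _⁆ = 0
    rw [zero_lie, map_zero]
  rw [h0, map_zero, sub_zero]

/-- action of the module part -/
def act (x : L.A0) (m : MY L M1 N) : MY L M1 N :=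
  mkM L ⁅inlA L x.fst, (toRes (y1 L) M1).symm m.fst⁆
    (⁅inlA L x.fst, (toRes (y1 L) N).symm m.snd⁆ + F1 ((toRes (y1 L) M1).symm m.fst) (tr L x.snd))

theorem act_mk (x : L.A0) (m : M1) (n : N) : act L F1 x (mkM L m n) =
    mkM L ⁅inlA L x.fst, m⁆ (⁅inlA L x.fst, n⁆ + F1 m (tr L x.snd)) := rfl

/-- action of the module part, bilinear -/
def Phi : L.A0 →ₗ[k] (MY L M1 N →ₗ[k] MY L M1 N) :=
  LinearMap.mk₂ k (act L F1)
    (by
      intro x x' m
      obtain ⟨a, b, rfl⟩ := mkM_surj L m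
      rw [act_mk, act_mk, act_mk, mkM_add]
      simp only [PM.fst_add, PM.snd_add, map_add, add_lie]
      congr 1
      abel)
    (by
      intro c x m
      obtain ⟨a, b, rfl⟩ := mkM_surj L m
      rw [act_mk, act_mk, mkM_smul]
      simp only [PM.fst_smul, PM.snd_smul, map_smul, smul_lie, smul_add])
    (by
      intro x m m'
      obtain ⟨a, b, rfl⟩ := mkM_surj L m
      obtain ⟨a', b', rfl⟩ := mkM_surj L m'
      rw [mkM_add, act_mk, act_mk, act_mk, mkM_add]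
      simp only [map_add, lie_add, LinearMap.add_apply]
      congr 1
      abel)
    (by
      intro c x m
      obtain ⟨a, b, rfl⟩ := mkM_surj L m
      rw [mkM_smul, act_mk, act_mk, mkM_smul]
      simp only [map_smul, lie_smul, LinearMap.smul_apply, smul_add])

theorem Phi_mk (x : L.A0) (m : M1) (n : N) : Phi L F1 x (mkM L m n) =
    mkM L ⁅inlA L x.fst, m⁆ (⁅inlA L x.fst, n⁆ + F1 m (tr L x.snd)) := rfl

theorem exP : ∃ (_ : LieRingModule L.P (MY L M1 N)) (_ : LieModule k L.P (MY L M1 N)),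
    ∀ (x : L.P) (m : M1) (n : N), ⁅x, mkM L m n⁆ =
      mkM L (⁅inlA L x.d.fst, m⁆ + ⁅y1 L x.q, m⁆)
        (⁅inlA L x.d.fst, n⁆ + F1 m (tr L x.d.snd) + ⁅y1 L x.q, n⁆) := by
  obtain ⟨i1, i2, hact⟩ := Sd.exists_mod (k := k) (Q := S.Y) (D := L.A0) (MY L M1 N) (Phi L F1) (by
      intro y x m
      obtain ⟨a, b, rfl⟩ := mkM_surj L m
      rw [Phi_mk, Phi_mk, mkM_lie, mkM_lie, Phi_mk, mkM_sub]
      simp only [PM.fst_lie, PM.snd_lie, inlA_lie]
      rw [lie_lie, lie_lie, lie_add, F1_y]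
      congr 1
      abel)
    (by
      intro x x' m
      obtain ⟨a, b, rfl⟩ := mkM_surj L m
      rw [Phi_mk, Phi_mk, Phi_mk, Phi_mk, F1_a, F1_a, lie_add, lie_add, inlA_comm L x.fst x'.fst a,
        inlA_comm L x.fst x'.fst b]
      congr 1
      abel)
  refine ⟨i1, i2, ?_⟩
  intro x m n
  rw [hact, Phi_mk, mkM_lie, mkM_add]

end

end MODELX

open MODELX in
theorem model_proof : Stmt_ModelAsm := by
  intro hMO2 hEx k _ j r I S A _ _ _ _ al0 L D _ _ _ _ d
  obtain ⟨N, _, _, _, _, o, h, hinj, hlie, hq, h2, h3, h4, h5⟩ := hMO2 k j r I S A al0 L D d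
  obtain ⟨M1, _, _, _, _, e1f, pres1⟩ := hEx k L.P1 (Fin 1) (Rel1 L)
  obtain ⟨e1, he1⟩ : ∃ e1, e1 = e1f 0 := ⟨_, rfl⟩
  have he1f : e1f = fun _ => e1 := by
    funext i
    rw [he1]
    congr 1
    exact Subsingleton.elim _ _
  rw [he1f] at pres1
  -- the map `T → N`
  obtain ⟨Ψ0, hΨ0⟩ := L.presT.2.2 (Res (y1 L) N) (fun _ => toRes (y1 L) N o) (by
    rintro _ ⟨q, rfl⟩
    have := hq q
    simp only [mval, List.map_cons, List.map_nil, List.sum_cons, List.sum_nil, wact_cons,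
      wact_nil, one_smul, add_zero, Res.lie_toRes]
    exact congrArg (toRes (y1 L) N) this)
  let Ψ : TR L →ₗ[k] N :=
    (toRes (y1 L) N).symm.toLinearMap ∘ₗ Ψ0.toLinearMap ∘ₗ
      (toRes (Sd.proj k L.A1 S.Y) L.T).symm.toLinearMap
  have hΨ : ∀ τ : L.T, Ψ (toRes (Sd.proj k L.A1 S.Y) L.T τ) = (toRes (y1 L) N).symm (Ψ0 τ) :=
    fun _ => rfl
  have hΨt : Ψ (toRes (Sd.proj k L.A1 S.Y) L.T L.t) = o := by
    rw [hΨ]
    have := hΨ0 0
    simp only at this
    rw [this, LinearEquiv.symm_apply_apply]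
  have hΨy : ∀ (y : S.Y) (τ : L.T), Ψ (toRes (Sd.proj k L.A1 S.Y) L.T ⁅y, τ⁆) =
      ⁅y1 L y, Ψ (toRes (Sd.proj k L.A1 S.Y) L.T τ)⁆ := by
    intro y τ
    rw [hΨ, LieModuleHom.map_lie, hΨ]
    rfl
  have hC2 : ∀ τ : L.T, C2 L (Ψ (toRes (Sd.proj k L.A1 S.Y) L.T τ)) := by
    refine L.presT.induction (p := fun τ => C2 L (Ψ (toRes (Sd.proj k L.A1 S.Y) L.T τ)))
      ?_ ?_ ?_ ?_ ?_
    · intro x _; rw [map_zero, map_zero, lie_zero]
    · intro a b ha hb x hx; rw [map_add, map_add, lie_add, ha x hx, hb x hx, add_zero]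
    · intro c a ha x hx; rw [map_smul, map_smul, lie_smul, ha x hx, smul_zero]
    · intro y a ha; rw [hΨy]; exact ha.lie L y
    · intro _; rw [hΨt]; exact h2
  have hC3 : ∀ τ : L.T, C3 L (Ψ (toRes (Sd.proj k L.A1 S.Y) L.T τ)) := by
    refine L.presT.induction (p := fun τ => C3 L (Ψ (toRes (Sd.proj k L.A1 S.Y) L.T τ)))
      ?_ ?_ ?_ ?_ ?_
    · intro c l _; rw [map_zero, map_zero, lie_zero]; simp
    · intro a b ha hb c l hl
      rw [map_add, map_add, lie_add, ha c l hl, hb c l hl, ← List.sum_map_add]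
      congr 1
      apply List.map_congr_left
      intro p _
      rw [lie_add, lie_add]
    · intro x a ha c l hl
      rw [map_smul, map_smul, lie_smul, ha c l hl, List.smul_sum, List.map_map]
      congr 1
      apply List.map_congr_left
      intro p _
      rw [lie_smul, lie_smul]; rfl
    · intro y a ha; rw [hΨy]; exact ha.lie L y
    · intro _; rw [hΨt]; exact h3
  -- the map `M1 → Hom(T, N)`
  have hrel : ∀ R ∈ Rel1 L, mval (fun _ : Fin 1 => Ψ) R = 0 := by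
    rintro R ((⟨y, rfl⟩ | ⟨x, hx, rfl⟩) | ⟨l, rfl⟩)
    · simp only [mval, List.map_cons, List.map_nil, List.sum_cons, List.sum_nil, wact_cons,
        wact_nil, one_smul, add_zero]
      ext τ
      rw [LieHom.lie_apply, LinearMap.zero_apply]
      have := hΨy y ((toRes (Sd.proj k L.A1 S.Y) L.T).symm τ)
      rw [LinearEquiv.apply_symm_apply] at this
      rw [← this]
      exact sub_self _
    · simp only [mval, List.map_cons, List.map_nil, List.sum_cons, List.sum_nil, wact_cons,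
        wact_nil, one_smul, add_zero]
      ext τ
      rw [LieHom.lie_apply, LinearMap.zero_apply]
      have := hC2 ((toRes (Sd.proj k L.A1 S.Y) L.T).symm τ) x hx
      rw [LinearEquiv.apply_symm_apply] at this
      rw [this]
      have h0 : ⁅z1 L x, τ⁆ = 0 := by
        rw [Res.lie_def]
        change toRes _ _ ⁅(0 : S.Y), _⁆ = 0
        rw [zero_lie, map_zero]
      rw [h0, map_zero, sub_zero]
    · rw [mval_r3, sub_eq_zero]
      have hz : ∀ (x : L.Z) (F : TR L →ₗ[k] N) (τ : TR L), ⁅z1 L x, F⁆ τ = ⁅z1 L x, F τ⁆ := by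
        intro x F τ
        rw [LieHom.lie_apply]
        have h0 : ⁅z1 L x, τ⁆ = 0 := by
          rw [Res.lie_def]
          change toRes _ _ ⁅(0 : S.Y), _⁆ = 0
          rw [zero_lie, map_zero]
        rw [h0, map_zero, sub_zero]
      ext τ
      rw [LieHom.lie_apply]
      have h0 : ⁅c1 L (L.c l), τ⁆ = 0 := by
        rw [Res.lie_def]
        change toRes _ _ ⁅(0 : S.Y), _⁆ = 0
        rw [zero_lie, map_zero]
      rw [h0, map_zero, sub_zero]
      have := hC3 ((toRes (Sd.proj k L.A1 S.Y) L.T).symm τ) (L.c l) (L.gg l)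
        (by rw [L.gam_c, L.gg_g])
      rw [LinearEquiv.apply_symm_apply] at this
      rw [this]
      have h1 : ∀ l' : List (L.Z × L.Z),
          (l'.map fun p => ⁅z1 L p.1, ⁅z1 L p.2, Ψ τ⁆⁆).sum =
          ((l'.map fun p => ⁅z1 L p.1, ⁅z1 L p.2, Ψ⁆⁆).sum) τ := by
        intro l'
        induction l' with
        | nil => simp
        | cons p l' ih =>
          simp only [List.map_cons, List.sum_cons, LinearMap.add_apply]
          rw [ih, hz, hz]
      exact h1 _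
  obtain ⟨F1, hF1⟩ := pres1.2.2 (TR L →ₗ[k] N) (fun _ => Ψ) hrel
  have hF1e : F1 e1 = Ψ := hF1 0
  obtain ⟨i1, i2, hP⟩ := exP L F1
  have hz : ∀ x : L.Z, inlA L (L.zz x).d.fst = z1 L x := fun _ => rfl
  have hc : ∀ x : L.C, inlA L (L.cc x).d.fst = c1 L x := fun _ => rfl
  have htr : F1 e1 (tr L L.t) = o := by rw [hF1e]; exact hΨt
  -- actions of the letters
  have aZ : ∀ (x : L.Z) (m : M1) (n : N), ⁅L.zz x, mkM L m n⁆ = mkM L ⁅z1 L x, m⁆ ⁅z1 L x, n⁆ := by
    intro x m n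
    rw [hP, hz]
    simp only [Lay.zz_q, map_zero, zero_lie, add_zero]
    have : (L.zz x).d.snd = 0 := rfl
    rw [this, map_zero, map_zero, add_zero]
  have aC : ∀ (x : L.C) (m : M1) (n : N), ⁅L.cc x, mkM L m n⁆ = mkM L ⁅c1 L x, m⁆ ⁅c1 L x, n⁆ := by
    intro x m n
    rw [hP, hc]
    simp only [Lay.cc_q, map_zero, zero_lie, add_zero]
    have : (L.cc x).d.snd = 0 := rfl
    rw [this, map_zero, map_zero, add_zero]
  have aY : ∀ (y : S.Y) (m : M1) (n : N), ⁅L.yy y, mkM L m n⁆ = mkM L ⁅y1 L y, m⁆ ⁅y1 L y, n⁆ := by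
    intro y m n
    rw [hP]
    have h1 : inlA L (L.yy y).d.fst = 0 := rfl
    have h2 : (L.yy y).d.snd = 0 := rfl
    rw [h1, h2, map_zero, map_zero, zero_lie, zero_lie, zero_add, zero_add, zero_add, Lay.yy_q]
  have aT : ∀ (τ : L.T) (m : M1) (n : N), ⁅L.tt τ, mkM L m n⁆ = mkM L 0 (F1 m (tr L τ)) := by
    intro τ m n
    rw [hP]
    have h1 : inlA L (L.tt τ).d.fst = 0 := rfl
    have h2 : (L.tt τ).d.snd = τ := rfl
    rw [h1, h2, Lay.tt_q]
    simp only [map_zero, zero_lie, zero_add, add_zero]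
  have aA : ∀ (x : L.AY) (m : M1) (n : N), ⁅L.aa x, mkM L m n⁆ =
      mkM L ⁅(⟨PM.mk (PM.mk 0 0) x, 0⟩ : L.P1), m⁆ ⁅(⟨PM.mk (PM.mk 0 0) x, 0⟩ : L.P1), n⁆ := by
    intro x m n
    rw [hP]
    have h1 : inlA L (L.aa x).d.fst = (⟨PM.mk (PM.mk 0 0) x, 0⟩ : L.P1) := rfl
    have h2 : (L.aa x).d.snd = 0 := rfl
    rw [h1, h2, Lay.aa_q]
    simp only [map_zero, zero_lie, add_zero]
  have hte : L.te (mkM L e1 (0 : N)) = mkM L 0 o := by
    unfold Lay.te
    rw [aT, htr]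
  have r1 : ∀ R ∈ Rel1 L, mval (fun _ : Fin 1 => e1) R = 0 := fun R hR => pres1.rel hR
  refine ⟨MY L M1 N, inferInstance, inferInstance, i1, i2, mkM L e1 0,
    { toFun := fun m => mkM L 0 (h m)
      map_add' := by intro a b; rw [map_add, mkM_add, add_zero]
      map_smul' := by intro c a; rw [map_smul, RingHom.id_apply, mkM_smul, smul_zero] },
    ?_, ?_, ?_, ?_⟩
  · refine ⟨?_, ?_, ?_, ?_, ?_⟩
    · intro y
      rw [aY, lie_zero]
      have := r1 _ (Or.inl (Or.inl ⟨y, rfl⟩))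
      simp only [mval, List.map_cons, List.map_nil, List.sum_cons, List.sum_nil, wact_cons,
        wact_nil, one_smul, add_zero] at this
      rw [this]
      rfl
    · intro x hx
      rw [aZ, lie_zero]
      have := r1 _ (Or.inl (Or.inr ⟨x, hx, rfl⟩))
      simp only [mval, List.map_cons, List.map_nil, List.sum_cons, List.sum_nil, wact_cons,
        wact_nil, one_smul, add_zero] at this
      rw [this]
      rfl
    · intro l
      rw [aC, lie_zero]
      have := r1 _ (Or.inr ⟨l, rfl⟩)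
      rw [mval_r3, sub_eq_zero] at this
      rw [this]
      have h1 : ∀ l' : List (L.Z × L.Z),
          (l'.map fun p => ⁅L.zz p.1, ⁅L.zz p.2, mkM L e1 (0 : N)⁆⁆).sum =
          mkM L ((l'.map fun p => ⁅z1 L p.1, ⁅z1 L p.2, e1⁆⁆).sum) 0 := by
        intro l'
        induction l' with
        | nil => rfl
        | cons p l' ih =>
          simp only [List.map_cons, List.sum_cons]
          rw [ih, aZ, aZ, lie_zero, lie_zero, mkM_add, add_zero]
      exact (h1 _).symm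
    · intro i
      have := hte
      unfold Lay.te at this
      rw [this, aA, aZ, lie_zero, lie_zero]
      exact congrArg (mkM L 0) (h4 i).symm
    · have := hte
      unfold Lay.te at this
      rw [this, aT, map_zero]
      rfl
  · intro a b hab
    have := congrArg (fun x : MY L M1 N => (toRes (y1 L) N).symm x.snd) hab
    exact hinj this
  · intro x m
    change mkM L 0 (h ⁅x, m⁆) = ⁅L.io x, mkM L 0 (h m)⁆
    rw [hlie, hP]
    have h1 : inlA L (L.io x).d.fst = (⟨PM.mk (PM.mk 0 0) (L.jA x.d), 0⟩ : L.P1) := rfl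
    have h2 : (L.io x).d.snd = 0 := rfl
    have h3 : (L.io x).q = S.ι x.q := rfl
    rw [h1, h2, h3, map_zero, map_zero, LinearMap.zero_apply, lie_zero, lie_zero, add_zero,
      add_zero, ← add_lie]
    congr 2
    ext <;> simp [y1]
  · intro b
    change mkM L 0 (h (d b)) = L.et (mkM L e1 (0 : N)) b
    unfold Lay.et
    rw [hte, aZ, lie_zero, ← h5 b]
    rfl

end Pool.Agent.HIP
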