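import Mathlib
import Pool.Agent.HIP.Basic

/-!
# Noetherianity: modules over finitely generated abelian Lie algebras
-/

noncomputable section

set_option linter.unusedSectionVars false

namespace Pool.Agent.HIP

open Function

namespace NOETHX

variable {k : Type} [Field k] {Q : Type} [LieRing Q] [LieAlgebra k Q]

/-- the polynomial ring acts on every module over an abelian Lie algebra -/
theorem exists_act (hab : ∀ x y : Q, ⁅x, y⁆ = 0) (K : ℕ) (ev : ℕ → Q) (N : Type)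
    [AddCommGroup N] [Module k N] [LieRingModule Q N] [LieModule k Q N] :
    ∃ Φ : MvPolynomial (Fin K) k →ₐ[k] Module.End k N,
      ∀ i : Fin K, Φ (MvPolynomial.X i) = LieModule.toEnd k Q N (ev i) := by
  have hcomm : ∀ a ∈ Set.range (fun i : Fin K => LieModule.toEnd k Q N (ev i)),
      ∀ b ∈ Set.range (fun i : Fin K => LieModule.toEnd k Q N (ev i)), a * b = b * a := by
    rintro _ ⟨i, rfl⟩ _ ⟨j, rfl⟩
    ext m
    change ⁅ev i, ⁅ev j, m⁆⁆ = ⁅ev j, ⁅ev i, m⁆⁆
    rw [leibniz_lie, hab, zero_lie, zero_add]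
  let _ := Algebra.adjoinCommRingOfComm k hcomm
  refine ⟨(Algebra.adjoin k (Set.range fun i : Fin K => LieModule.toEnd k Q N (ev i))).val.comp
    (MvPolynomial.aeval fun i : Fin K =>
      (⟨LieModule.toEnd k Q N (ev i), Algebra.subset_adjoin ⟨i, rfl⟩⟩ :
        Algebra.adjoin k (Set.range fun i : Fin K => LieModule.toEnd k Q N (ev i)))), ?_⟩
  intro i
  rw [AlgHom.comp_apply, MvPolynomial.aeval_X]
  rfl

/-- a polynomial representing an element of the Lie algebra -/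
def RepQ (ev : ℕ → Q) (K : ℕ) (a : MvPolynomial (Fin K) k) (q : Q) : Prop :=
  ∀ (N : Type) [AddCommGroup N] [Module k N] [LieRingModule Q N] [LieModule k Q N]
    (Φ : MvPolynomial (Fin K) k →ₐ[k] Module.End k N),
    (∀ i : Fin K, Φ (MvPolynomial.X i) = LieModule.toEnd k Q N (ev i)) →
    ∀ m : N, Φ a m = ⁅q, m⁆

/-- a polynomial representing a word -/
def RepW (ev : ℕ → Q) (K : ℕ) (a : MvPolynomial (Fin K) k) (w : List Q) : Prop :=
  ∀ (N : Type) [AddCommGroup N] [Module k N] [LieRingModule Q N] [LieModule k Q N]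
    (Φ : MvPolynomial (Fin K) k →ₐ[k] Module.End k N),
    (∀ i : Fin K, Φ (MvPolynomial.X i) = LieModule.toEnd k Q N (ev i)) →
    ∀ m : N, Φ a m = wact w m

/-- a vector of polynomials representing a formal element -/
def RepR (ev : ℕ → Q) (K : ℕ) {r : ℕ} (v : Fin r → MvPolynomial (Fin K) k)
    (R : MR k Q (Fin r)) : Prop :=
  ∀ (N : Type) [AddCommGroup N] [Module k N] [LieRingModule Q N] [LieModule k Q N]
    (Φ : MvPolynomial (Fin K) k →ₐ[k] Module.End k N),
    (∀ i : Fin K, Φ (MvPolynomial.X i) = LieModule.toEnd k Q N (ev i)) →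
    ∀ n : Fin r → N, mval n R = ∑ j, Φ (v j) (n j)

theorem exists_repQ (hab : ∀ x y : Q, ⁅x, y⁆ = 0) {ev : ℕ → Q} (h : Gens k Q ev) (K : ℕ)
    (hK : ∀ i, K ≤ i → ev i = 0) (q : Q) : ∃ a : MvPolynomial (Fin K) k, RepQ ev K a q := by
  refine h.induction (p := fun q => ∃ a : MvPolynomial (Fin K) k, RepQ ev K a q)
    ⟨0, ?_⟩ ?_ ?_ ?_ ?_ q
  · intro N _ _ _ _ Φ _ m
    rw [map_zero, zero_lie]; rfl
  · rintro x y ⟨a, ha⟩ ⟨b, hb⟩
    refine ⟨a + b, ?_⟩
    intro N _ _ _ _ Φ hΦ m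
    rw [map_add, LinearMap.add_apply, ha N Φ hΦ, hb N Φ hΦ, add_lie]
  · rintro c x ⟨a, ha⟩
    refine ⟨c • a, ?_⟩
    intro N _ _ _ _ Φ hΦ m
    rw [map_smul, LinearMap.smul_apply, ha N Φ hΦ, smul_lie]
  · rintro x y _ _
    refine ⟨0, ?_⟩
    intro N _ _ _ _ Φ hΦ m
    rw [hab, map_zero, zero_lie]; rfl
  · intro i
    by_cases hi : i < K
    · refine ⟨MvPolynomial.X ⟨i, hi⟩, ?_⟩
      intro N _ _ _ _ Φ hΦ m
      rw [hΦ]; rfl
    · refine ⟨0, ?_⟩
      intro N _ _ _ _ Φ hΦ m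
      rw [hK i (not_lt.1 hi), map_zero, zero_lie]; rfl

theorem exists_repW (hab : ∀ x y : Q, ⁅x, y⁆ = 0) {ev : ℕ → Q} (h : Gens k Q ev) (K : ℕ)
    (hK : ∀ i, K ≤ i → ev i = 0) (w : List Q) : ∃ a : MvPolynomial (Fin K) k, RepW ev K a w := by
  induction w with
  | nil =>
    refine ⟨1, ?_⟩
    intro N _ _ _ _ Φ hΦ m
    rw [map_one]; rfl
  | cons x w ih =>
    obtain ⟨b, hb⟩ := ih
    obtain ⟨a, ha⟩ := exists_repQ hab h K hK x
    refine ⟨a * b, ?_⟩
    intro N _ _ _ _ Φ hΦ m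
    rw [map_mul, Module.End.mul_apply, hb N Φ hΦ, ha N Φ hΦ, wact_cons]

theorem exists_repR (hab : ∀ x y : Q, ⁅x, y⁆ = 0) {ev : ℕ → Q} (h : Gens k Q ev) (K : ℕ)
    (hK : ∀ i, K ≤ i → ev i = 0) {r : ℕ} (R : MR k Q (Fin r)) :
    ∃ v : Fin r → MvPolynomial (Fin K) k, RepR ev K v R := by
  induction R with
  | nil =>
    refine ⟨0, ?_⟩
    intro N _ _ _ _ Φ hΦ n
    simp
  | cons t R ih =>
    obtain ⟨v, hv⟩ := ih
    obtain ⟨a, ha⟩ := exists_repW hab h K hK t.2.1
    refine ⟨Pi.single t.2.2 (t.1 • a) + v, ?_⟩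
    intro N _ _ _ _ Φ hΦ n
    rw [mval_cons, hv N Φ hΦ]
    simp only [Pi.add_apply, map_add, LinearMap.add_apply, Finset.sum_add_distrib]
    congr 1
    rw [Finset.sum_eq_single t.2.2]
    · rw [Pi.single_eq_same, map_smul, LinearMap.smul_apply, ha N Φ hΦ]
    · intro j _ hj
      rw [Pi.single_eq_of_ne hj, map_zero, LinearMap.zero_apply]
    · intro hj
      exact absurd (Finset.mem_univ _) hj

end NOETHX

open NOETHX in
theorem noeth_proof : Stmt_Noeth := by
  classical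
  intro k _ Q _ _ ev hg hd D _ _ _ _ r f Rel hP
  have hab := abelian_of_derivedSeries_one hd
  obtain ⟨K, hK⟩ := hg.1
  choose V hV using fun R : MR k Q (Fin r) => exists_repR hab hg K hK R
  have hfg : (Submodule.span (MvPolynomial (Fin K) k) (V '' Rel)).FG :=
    IsNoetherian.noetherian _
  rw [Submodule.fg_span_iff_fg_span_finset_subset] at hfg
  obtain ⟨s', hs', hspan⟩ := hfg
  rw [Finset.subset_set_image_iff] at hs'
  obtain ⟨Rel', hRel', himg⟩ := hs'
  refine ⟨r, f, ↑Rel', Rel'.finite_toSet, fun R hR => hP.1 R (hRel' hR), hP.2.1, ?_⟩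
  intro N _ _ _ _ n hn
  obtain ⟨Φ, hΦ⟩ := exists_act (k := k) hab K ev N
  refine hP.2.2 N n ?_
  intro R hR
  let W : Submodule (MvPolynomial (Fin K) k) (Fin r → MvPolynomial (Fin K) k) :=
    { carrier := {v | ∑ j, Φ (v j) (n j) = 0}
      add_mem' := by
        intro a b ha hb
        change ∑ j, Φ (a j) (n j) = 0 at ha
        change ∑ j, Φ (b j) (n j) = 0 at hb
        change ∑ j, Φ ((a + b) j) (n j) = 0
        simp only [Pi.add_apply, map_add, LinearMap.add_apply, Finset.sum_add_distrib, ha, hb,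
          add_zero]
      zero_mem' := by
        simp
      smul_mem' := by
        intro c a ha
        change ∑ j, Φ (a j) (n j) = 0 at ha
        change ∑ j, Φ ((c • a) j) (n j) = 0
        simp only [Pi.smul_apply, smul_eq_mul, map_mul, Module.End.mul_apply]
        rw [← map_sum, ha, map_zero] }
  have h1 : Submodule.span (MvPolynomial (Fin K) k) (V '' Rel) ≤ W := by
    rw [hspan, Submodule.span_le]
    intro v hv
    rw [← himg, Finset.coe_image] at hv
    obtain ⟨R', hR', rfl⟩ := hv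
    change ∑ j, Φ (V R' j) (n j) = 0
    rw [← hV R' N Φ hΦ n]
    exact hn R' hR'
  have h2 : V R ∈ W := h1 (Submodule.subset_span ⟨R, hR, rfl⟩)
  have h3 : ∑ j, Φ (V R j) (n j) = 0 := h2
  rw [hV R N Φ hΦ n, h3]

end Pool.Agent.HIP
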