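import Mathlib
import Pool.Agent.HIP.Basic

/-!
# Module PFP: the prime fields of odd characteristic
-/

noncomputable section

namespace Pool.Agent.HIP

namespace PFPX

theorem pow_primrec (hmul : Primrec₂ fun a b : ℤ => a * b) (hcast : Primrec fun n : ℕ => (n : ℤ))
    (n : ℕ) : Primrec fun m : ℕ => ((m : ℤ)) ^ n := by
  induction n with
  | zero => simpa using (Primrec.const (1 : ℤ))
  | succ n ih =>
    have h : (fun m : ℕ => ((m : ℤ)) ^ (n + 1)) = fun m : ℕ => ((m : ℤ)) ^ n * (m : ℤ) := by
      funext m; rw [pow_succ]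
    rw [h]
    exact hmul.comp ih hcast

end PFPX

open PFPX in
theorem pfp_proof : Stmt_PFPAsm := by
  rintro ⟨hmul, -, -, -, hcast, -⟩ p hp hp2
  have hp' : p.Prime := hp.out
  have hp3 : 3 ≤ p := by
    rcases hp'.eq_two_or_odd with h | h
    · exact absurd h hp2
    · have := hp'.two_le; omega
  refine ⟨?_, ?_, fun l => l.map fun c => c.1 * (((c.2 + 1 : ℕ) : ℤ)) ^ (p - 2), ?_, ?_⟩
  · intro h
    have h2 : ((2 : ℕ) : ZMod p) = 0 := by exact_mod_cast h
    rw [ZMod.natCast_eq_zero_iff] at h2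
    exact absurd (Nat.le_of_dvd (by norm_num) h2) (by omega)
  · intro x
    refine ⟨((x.val : ℤ), 0), ?_⟩
    unfold cf
    simp
  · refine Primrec.list_map Primrec.id ?_
    refine hmul.comp (Primrec.fst.comp Primrec.snd) ?_
    exact (pow_primrec hmul hcast (p - 2)).comp
      (Primrec.succ.comp (Primrec.snd.comp Primrec.snd))
  · intro l
    refine ⟨1, one_ne_zero, ?_⟩
    simp only [List.bind_eq_flatMap, List.pure_def, List.map_id', List.flatMap_map]
    rw [← List.map_eq_flatMap]
    refine List.map_congr_left ?_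
    intro c _
    simp only [one_mul]
    unfold cf
    push_cast
    rw [div_eq_mul_inv]
    congr 1
    by_cases h0 : ((c.2 : ZMod p) + 1) = 0
    · rw [h0, inv_zero, zero_pow (by omega)]
    · have h1 : ((c.2 : ZMod p) + 1) ^ (p - 1) = 1 := ZMod.pow_card_sub_one_eq_one h0
      have h2 : ((c.2 : ZMod p) + 1) ^ (p - 2) * ((c.2 : ZMod p) + 1) = 1 := by
        rw [← pow_succ, show p - 2 + 1 = p - 1 by omega, h1]
      exact eq_inv_of_mul_eq_one_left h2

end Pool.Agent.HIP
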