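import Mathlib
import Pool.Agent.HIP.Basic

/-!
# Module PFQ: the rational numbers
-/

noncomputable section

namespace Pool.Agent.HIP

namespace PFQX

/-- product of the denominators -/
def den (l : List Cf) : ℕ := l.foldr (fun c n => (c.2 + 1) * n) 1

theorem den_pos (l : List Cf) : 0 < den l := by
  induction l with
  | nil => exact Nat.one_pos
  | cons c l ih => exact Nat.mul_pos (Nat.succ_pos _) ih

theorem den_dvd (l : List Cf) (c : Cf) (hc : c ∈ l) : c.2 + 1 ∣ den l := by
  induction l with
  | nil => simp at hc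
  | cons a l ih =>
    rcases List.mem_cons.1 hc with h | h
    · subst h; exact Dvd.intro _ rfl
    · exact (ih h).trans (Dvd.intro_left _ rfl)

theorem den_primrec : Primrec den := by
  unfold den
  refine Primrec.list_foldr (f := fun l : List Cf => l) (g := fun _ => (1 : ℕ))
    (h := fun (_ : List Cf) (p : Cf × ℕ) => (p.1.2 + 1) * p.2) Primrec.id (Primrec.const 1) ?_
  refine Primrec.nat_mul.comp ?_ ?_
  · exact Primrec.succ.comp (Primrec.snd.comp (Primrec.fst.comp Primrec.snd))
  · exact Primrec.snd.comp Primrec.snd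

end PFQX

open PFQX in
theorem pfq_proof : Stmt_PFQAsm := by
  rintro ⟨hmul, -, -, -, hcast, -⟩
  refine ⟨two_ne_zero, ?_, fun l => l.map fun c => c.1 * ((den l / (c.2 + 1) : ℕ) : ℤ), ?_, ?_⟩
  · intro x
    refine ⟨(x.num, x.den - 1), ?_⟩
    unfold cf
    have h : 1 ≤ x.den := x.pos
    push_cast [Nat.cast_sub h]
    rw [sub_add_cancel]
    exact Rat.num_div_den x
  · refine Primrec.list_map Primrec.id ?_
    refine hmul.comp (Primrec.fst.comp Primrec.snd) ?_
    refine hcast.comp ?_
    refine Primrec.nat_div.comp (den_primrec.comp Primrec.fst) ?_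
    exact Primrec.succ.comp (Primrec.snd.comp Primrec.snd)
  · intro l
    refine ⟨(den l : ℚ), by exact_mod_cast (den_pos l).ne', ?_⟩
    simp only [List.bind_eq_flatMap, List.pure_def, List.map_id', List.flatMap_map]
    rw [← List.map_eq_flatMap]
    refine List.map_congr_left ?_
    intro c hc
    obtain ⟨m, hm⟩ := den_dvd l c hc
    have h0 : ((c.2 : ℚ) + 1) ≠ 0 := by positivity
    have h1 : den l / (c.2 + 1) = m := by
      rw [hm]; exact Nat.mul_div_cancel_left _ (Nat.succ_pos _)
    rw [h1, hm]
    unfold cf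
    push_cast
    field_simp

end Pool.Agent.HIP
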