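import Mathlib
import Pool.Agent.HIP.Basic

/-!
# PMCH : change of the generators of the Lie algebra in a presented module
-/

noncomputable section

set_option linter.unusedSectionVars false

namespace Pool.Agent.HIP

open Function

theorem pmch_proof : Stmt_PMChAsm := by
  intro hExpr hSub k _ hk Y _ _ ev ev2 hev hgen D _ _ _ _ r f ρ hD
  obtain ⟨K, hK⟩ := hev
  choose W0 hW0 using fun i => hExpr k hk Y ev2 hgen (ev i)
  let W : ℕ → LRel := fun i => if i < K then W0 i else []
  have hW : (fun i => lval k ev2 (W i)) = ev := by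
    funext i
    by_cases hi : i < K
    · simp only [W, if_pos hi, hW0]
    · simp only [W, if_neg hi, lval_nil, hK i (not_lt.1 hi)]
  obtain ⟨sub, hs, hsub⟩ := hSub W K (fun i hi => if_neg (not_lt.2 hi))
  have key : ∀ (N : Type) [AddCommGroup N] [Module k N] [LieRingModule Y N] [LieModule k Y N]
      (n : Fin r → N) (R : MRel), mval n (conv k r ev2 (sub R)) = mval n (conv k r ev R) := by
    intro N _ _ _ _ n R
    rw [mval_conv, mval_conv, hsub, hW]
  obtain ⟨h1, h2, h3, h4⟩ := hD
  refine ⟨fun n => sub (ρ n), hs.comp h1, ?_, h3, ?_⟩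
  · rintro _ ⟨n, rfl⟩
    dsimp only
    rw [key]
    exact h2 _ ⟨n, rfl⟩
  · intro N _ _ _ _ n hn
    refine h4 N n ?_
    rintro _ ⟨m, rfl⟩
    dsimp only
    rw [← key]
    exact hn _ ⟨m, rfl⟩

end Pool.Agent.HIP
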