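import Pool.Agent.HIP.Basic

/-!
# Product of two presented modules
-/

noncomputable section

set_option linter.unusedSectionVars false

namespace Pool.Agent.HIP

open Function

namespace PPRODX

/-- delete the terms with a generator of index `≥ r` -/
def low (r : ℕ) (R : MRel) : MRel := R.filter fun t => t.2.1 < r

/-- shift the generators -/
def shf (r : ℕ) (R : MRel) : MRel := R.map fun t => (t.1, t.2.1 + r, t.2.2)

/-- the relations of the product -/
def rel (r : ℕ) (ρ ρ' : ℕ → MRel) (n : ℕ) : MRel :=
  if n % 2 = 0 then low r (ρ (n / 2)) else shf r (ρ' (n / 2))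

theorem rel_primrec (r : ℕ) {ρ ρ' : ℕ → MRel} (h : Primrec ρ) (h' : Primrec ρ') :
    Primrec (rel r ρ ρ') := by
  have hdiv : Primrec fun n : ℕ => n / 2 := Primrec.nat_div.comp Primrec.id (Primrec.const 2)
  have hmod : Primrec fun n : ℕ => n % 2 := Primrec.nat_mod.comp Primrec.id (Primrec.const 2)
  refine Primrec.ite (PrimrecRel.comp Primrec.eq hmod (Primrec.const 0)) ?_ ?_
  · have hl : Primrec (low r) := by
      refine Primrec.listFilter ?_
      exact PrimrecRel.comp Primrec.nat_lt (Primrec.fst.comp Primrec.snd) (Primrec.const r)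
    exact hl.comp (h.comp hdiv)
  · have hg : Primrec fun t : Cf × ℕ × List ℕ => ((t.1, t.2.1 + r, t.2.2) : Cf × ℕ × List ℕ) :=
      Primrec.pair Primrec.fst (Primrec.pair
        (Primrec.nat_add.comp (Primrec.fst.comp Primrec.snd) (Primrec.const r))
        (Primrec.snd.comp Primrec.snd))
    have hs : Primrec (shf r) :=
      Primrec.list_map (f := fun R : MRel => R)
        (g := fun (_ : MRel) (t : Cf × ℕ × List ℕ) => ((t.1, t.2.1 + r, t.2.2) : Cf × ℕ × List ℕ))
        Primrec.id (hg.comp Primrec.snd).to₂
    exact hs.comp (h'.comp hdiv)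

section
variable {k : Type} [Field k] {Y : Type} [LieRing Y] [LieAlgebra k Y] {M N : Type}
  [AddCommGroup M] [Module k M] [LieRingModule Y M] [LieModule k Y M]
  [AddCommGroup N] [Module k N] [LieRingModule Y N] [LieModule k Y N]

theorem mvn_low (ev : ℕ → Y) (F : M →ₗ⁅k, Y⁆ N) (r : ℕ) (n : ℕ → M) (n' : ℕ → N)
    (h : ∀ i, i < r → n' i = F (n i)) (h0 : ∀ i, r ≤ i → n i = 0) (R : MRel) :
    mvn k ev n' (low r R) = F (mvn k ev n R) := by
  induction R with
  | nil => simp [low]
  | cons t R ih =>
    unfold low at *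
    rw [mvn_cons, map_add, ← ih, map_smul, map_wact]
    by_cases ht : t.2.1 < r
    · rw [List.filter_cons_of_pos (by simpa using ht), mvn_cons, h _ ht]
    · rw [List.filter_cons_of_neg (by simpa using ht), h0 _ (not_lt.1 ht)]
      simp

theorem mvn_shf (ev : ℕ → Y) (F : M →ₗ⁅k, Y⁆ N) (r : ℕ) (n : ℕ → M) (n' : ℕ → N)
    (h : ∀ i, n' (i + r) = F (n i)) (R : MRel) :
    mvn k ev n' (shf r R) = F (mvn k ev n R) := by
  induction R with
  | nil => simp [shf]
  | cons t R ih =>
    unfold shf at *
    rw [mvn_cons, map_add, ← ih, map_smul, map_wact, List.map_cons, mvn_cons, h]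

theorem mvn_map (ev : ℕ → Y) (F : M →ₗ⁅k, Y⁆ N) (n : ℕ → M) (R : MRel) :
    F (mvn k ev n R) = mvn k ev (fun i => F (n i)) R := by
  induction R with
  | nil => simp
  | cons t R ih => rw [mvn_cons, mvn_cons, map_add, map_smul, map_wact, ih]

/-- first inclusion -/
def inl (k Y M N : Type) [Field k] [LieRing Y] [LieAlgebra k Y]
    [AddCommGroup M] [Module k M] [LieRingModule Y M] [LieModule k Y M]
    [AddCommGroup N] [Module k N] [LieRingModule Y N] [LieModule k Y N] :
    M →ₗ⁅k, Y⁆ PM M N where
  toFun m := PM.mk m 0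
  map_add' x y := by ext <;> simp
  map_smul' c x := by ext <;> simp
  map_lie' := by intro x y; ext <;> simp

/-- second inclusion -/
def inr (k Y M N : Type) [Field k] [LieRing Y] [LieAlgebra k Y]
    [AddCommGroup M] [Module k M] [LieRingModule Y M] [LieModule k Y M]
    [AddCommGroup N] [Module k N] [LieRingModule Y N] [LieModule k Y N] :
    N →ₗ⁅k, Y⁆ PM M N where
  toFun m := PM.mk 0 m
  map_add' x y := by ext <;> simp
  map_smul' c x := by ext <;> simp
  map_lie' := by intro x y; ext <;> simp

/-- a family extended by zero -/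
def ez {r : ℕ} (f : Fin r → M) (i : ℕ) : M := if h : i < r then f ⟨i, h⟩ else 0

end

end PPRODX

open PPRODX in
theorem pprod_proof : Stmt_PProd := by
  intro k _ Y _ _ ev D _ _ _ _ r f ρ hf D' _ _ _ _ r' f' ρ' hf'
  obtain ⟨hρ, hP⟩ := hf
  obtain ⟨hρ', hP'⟩ := hf'
  let f'' : Fin (r + r') → PM D D' :=
    Fin.append (fun i => inl k Y D D' (f i)) (fun i => inr k Y D D' (f' i))
  -- evaluation of the generators
  have key1 : ∀ (N : Type) [AddCommGroup N] [Module k N] [LieRingModule Y N] [LieModule k Y N]
      (g : Fin (r + r') → N) (i : ℕ) (h : i < r), ez g i = g (Fin.castAdd r' ⟨i, h⟩) := by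
    intro N _ _ _ _ g i h
    have h1 : i < r + r' := by omega
    unfold ez
    rw [dif_pos h1]
    rfl
  have key2 : ∀ (N : Type) [AddCommGroup N] [Module k N] [LieRingModule Y N] [LieModule k Y N]
      (g : Fin (r + r') → N) (i : ℕ) (h : i < r'), ez g (i + r) = g (Fin.natAdd r ⟨i, h⟩) := by
    intro N _ _ _ _ g i h
    have h1 : i + r < r + r' := by omega
    unfold ez
    rw [dif_pos h1]
    congr 1
    ext
    simp [add_comm]
  have key3 : ∀ (N : Type) [AddCommGroup N] [Module k N] [LieRingModule Y N] [LieModule k Y N]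
      (g : Fin (r + r') → N) (i : ℕ) (h : ¬ i < r'), ez g (i + r) = 0 := by
    intro N _ _ _ _ g i h
    have h1 : ¬ i + r < r + r' := by omega
    unfold ez
    rw [dif_neg h1]
  refine ⟨r + r', f'', rel r ρ ρ', rel_primrec r hρ hρ', ?_, ?_, ?_⟩
  · rintro _ ⟨n, rfl⟩
    change mval f'' (conv k (r + r') ev (rel r ρ ρ' n)) = 0
    rw [mval_conv]
    change mvn k ev (ez f'') (rel r ρ ρ' n) = 0
    unfold rel
    split_ifs with hn
    · rw [mvn_low ev (inl k Y D D') r (ez f) (ez f'')]
      · have := hP.rel (Set.mem_range_self (n / 2))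
        rw [mval_conv] at this
        change mvn k ev (ez f) (ρ (n / 2)) = 0 at this
        rw [this, map_zero]
      · intro i hi
        rw [key1 _ _ i hi]
        exact (Fin.append_left _ _ _).trans (by simp [ez, hi])
      · intro i hi
        simp [ez, not_lt.2 hi]
    · rw [mvn_shf ev (inr k Y D D') r (ez f') (ez f'')]
      · have := hP'.rel (Set.mem_range_self (n / 2))
        rw [mval_conv] at this
        change mvn k ev (ez f') (ρ' (n / 2)) = 0 at this
        rw [this, map_zero]
      · intro i
        by_cases hi : i < r'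
        · rw [key2 _ _ i hi]
          exact (Fin.append_right _ _ _).trans (by simp [ez, hi])
        · rw [key3 _ _ i hi]
          simp [ez, hi]
  · rw [eq_top_iff]
    intro x _
    have hx : x = inl k Y D D' x.fst + inr k Y D D' x.snd := by
      ext <;> simp [inl, inr]
    rw [hx]
    refine add_mem ?_ ?_
    · refine hP.induction (p := fun d => inl k Y D D' d ∈
        LieSubmodule.lieSpan k Y (Set.range f'')) ?_ ?_ ?_ ?_ ?_ x.fst
      · rw [map_zero]; exact LieSubmodule.zero_mem _
      · intro a b ha hb; rw [map_add]; exact add_mem ha hb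
      · intro c a ha; rw [map_smul]; exact SMulMemClass.smul_mem c ha
      · intro y a ha; rw [LieModuleHom.map_lie]; exact LieSubmodule.lie_mem _ ha
      · intro i
        refine LieSubmodule.subset_lieSpan ⟨Fin.castAdd r' i, ?_⟩
        simp [f'']
    · refine hP'.induction (p := fun d => inr k Y D D' d ∈
        LieSubmodule.lieSpan k Y (Set.range f'')) ?_ ?_ ?_ ?_ ?_ x.snd
      · rw [map_zero]; exact LieSubmodule.zero_mem _
      · intro a b ha hb; rw [map_add]; exact add_mem ha hb
      · intro c a ha; rw [map_smul]; exact SMulMemClass.smul_mem c ha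
      · intro y a ha; rw [LieModuleHom.map_lie]; exact LieSubmodule.lie_mem _ ha
      · intro i
        refine LieSubmodule.subset_lieSpan ⟨Fin.natAdd r i, ?_⟩
        simp [f'']
  · intro N _ _ _ _ n hn
    have hn' : ∀ m, mvn k ev (ez n) (rel r ρ ρ' m) = 0 := by
      intro m
      have := hn _ (Set.mem_range_self m)
      rw [mval_conv] at this
      exact this
    obtain ⟨F1, hF1⟩ := hP.2.2 N (fun i => n (Fin.castAdd r' i)) (by
      rintro _ ⟨m, rfl⟩
      rw [mval_conv]
      have h1 := hn' (2 * m)
      unfold rel at h1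
      rw [if_pos (by omega), show 2 * m / 2 = m by omega] at h1
      rw [mvn_low ev (LieModuleHom.id : N →ₗ⁅k, Y⁆ N) r
        (ez fun i => n (Fin.castAdd r' i)) (ez n)] at h1
      · exact h1
      · intro i hi
        rw [key1 _ _ i hi]
        simp [ez, hi]
      · intro i hi
        simp [ez, not_lt.2 hi])
    obtain ⟨F2, hF2⟩ := hP'.2.2 N (fun i => n (Fin.natAdd r i)) (by
      rintro _ ⟨m, rfl⟩
      rw [mval_conv]
      have h1 := hn' (2 * m + 1)
      unfold rel at h1
      rw [if_neg (by omega), show (2 * m + 1) / 2 = m by omega] at h1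
      rw [mvn_shf ev (LieModuleHom.id : N →ₗ⁅k, Y⁆ N) r
        (ez fun i => n (Fin.natAdd r i)) (ez n)] at h1
      · exact h1
      · intro i
        by_cases hi : i < r'
        · rw [key2 _ _ i hi]
          simp [ez, hi]
        · rw [key3 _ _ i hi]
          simp [ez, hi])
    refine ⟨{ toFun := fun x => F1 x.fst + F2 x.snd
              map_add' := ?_
              map_smul' := ?_
              map_lie' := ?_ }, ?_⟩
    · intro x y; simp; abel
    · intro c x; simp
    · intro x y; simp
    · intro i
      change F1 (f'' i).fst + F2 (f'' i).snd = n i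
      refine Fin.addCases (fun i => ?_) (fun i => ?_) i
      · simp [f'', inl, hF1]
      · simp [f'', inr, hF2]

end Pool.Agent.HIP
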