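import Pool.Agent.HIP.Basic

/-!
# RPAB: finite-dimensional abelian Lie algebras are recursively presented
-/

noncomputable section

namespace Pool.Agent.HIP

open Function

namespace RPAb

theorem cf_one (k : Type) [Field k] : cf k (1, 0) = 1 := by simp [cf]

theorem primrec_rel : Primrec (fun n : ℕ => ([((1, 0), [n.unpair.1, n.unpair.2])] : LRel)) := by
  have h1 : Primrec (fun n : ℕ => n.unpair.1) := Primrec.fst.comp Primrec.unpair
  have h2 : Primrec (fun n : ℕ => n.unpair.2) := Primrec.snd.comp Primrec.unpair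
  have h3 : Primrec (fun n : ℕ => [n.unpair.1, n.unpair.2]) :=
    Primrec.list_cons.comp h1 (Primrec.list_cons.comp h2 (Primrec.const []))
  have h4 : Primrec (fun n : ℕ => (((1, 0) : Cf), [n.unpair.1, n.unpair.2])) :=
    Primrec.pair (Primrec.const _) h3
  exact Primrec.list_cons.comp h4 (Primrec.const [])

end RPAb

open RPAb in
theorem rpab_proof : Stmt_RPAb := by
  intro k _ L _ _ hab _
  set d := Module.finrank k L
  let b : Module.Basis (Fin d) k L := Module.finBasis k L
  set ev : ℕ → L := fun i => if h : i < d then b ⟨i, h⟩ else 0 with hev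
  have hevb : ∀ i : Fin d, ev i = b i := by
    intro i
    simp [hev]
  have hspan : LieSubalgebra.lieSpan k L (Set.range ev) = ⊤ := by
    rw [eq_top_iff]
    intro x _
    rw [← b.sum_repr x]
    refine sum_mem fun i _ => ?_
    refine SMulMemClass.smul_mem _ (LieSubalgebra.subset_lieSpan ⟨i, hevb i⟩)
  refine ⟨ev, d, fun n => [((1, 0), [n.unpair.1, n.unpair.2])], ?_, hspan, primrec_rel, ?_, ?_⟩
  · intro i hi
    simp [hev, not_lt.2 hi]
  · intro n
    simp [lval, lnorm, hab]
  · intro L' _ _ ev' hev' hrel
    have hcomm : ∀ i j, ⁅ev' i, ev' j⁆ = 0 := by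
      intro i j
      have := hrel (Nat.pair i j)
      simpa [lval, lnorm, cf_one] using this
    let F : L →ₗ[k] L' := b.constr k fun i => ev' i
    have hF : ∀ i, F (ev i) = ev' i := by
      intro i
      by_cases h : i < d
      · have : ev i = b ⟨i, h⟩ := by simp [hev, h]
        rw [this, b.constr_basis]
      · have : ev i = 0 := by simp [hev, h]
        rw [this, map_zero, hev' i (not_lt.1 h)]
    have hgens : Gens k L ev := ⟨⟨d, fun i hi => by simp [hev, not_lt.2 hi]⟩, hspan⟩
    have hFc : ∀ x y, ⁅F x, F y⁆ = 0 := by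
      intro x
      refine hgens.induction (p := fun x => ∀ y, ⁅F x, F y⁆ = 0) ?_ ?_ ?_ ?_ ?_ x
      · intro y; simp
      · intro x x' hx hx' y; rw [map_add, add_lie, hx, hx', add_zero]
      · intro c x hx y; rw [map_smul, smul_lie, hx, smul_zero]
      · intro x x' _ _ y; rw [hab, map_zero, zero_lie]
      · intro i y
        refine hgens.induction (p := fun y => ⁅F (ev i), F y⁆ = 0) ?_ ?_ ?_ ?_ ?_ y
        · simp
        · intro x x' hx hx'; rw [map_add, lie_add, hx, hx', add_zero]
        · intro c x hx; rw [map_smul, lie_smul, hx, smul_zero]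
        · intro x x' _ _; rw [hab, map_zero, lie_zero]
        · intro j; rw [hF, hF, hcomm]
    have hml : ∀ x y : L, F ⁅x, y⁆ = ⁅F x, F y⁆ := by
      intro x y
      rw [hab, map_zero, hFc]
    exact ⟨{ toLinearMap := F, map_lie' := fun {x y} => hml x y }, hF⟩

end Pool.Agent.HIP
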