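import Pool.Agent.HIP.Basic

/-!
# RPPROD: products of recursively presented Lie algebras
-/

noncomputable section

namespace Pool.Agent.HIP

open Function

namespace RPProd

theorem cf_one (k : Type) [Field k] : cf k (1, 0) = 1 := by simp [cf]

/-- renaming of letters -/
def ren (σ : ℕ → ℕ) (R : LRel) : LRel := R.map fun t => (t.1, t.2.map σ)

theorem lval_ren {k : Type} [Field k] {L : Type} [LieRing L] [LieAlgebra k L] (ev : ℕ → L)
    (σ : ℕ → ℕ) (R : LRel) : lval k ev (ren σ R) = lval k (fun i => ev (σ i)) R := by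
  unfold lval ren
  rw [List.map_map]
  congr 1
  apply List.map_congr_left
  intro t _
  simp [List.map_map, comp_def]

theorem primrec_ren {σ : ℕ → ℕ} (hσ : Primrec σ) {ρ : ℕ → LRel} (hρ : Primrec ρ) :
    Primrec (fun n => ren σ (ρ n)) := by
  refine Primrec.list_map hρ ?_
  have h : Primrec (fun p : ℕ × (Cf × List ℕ) => p.2.2.map σ) :=
    Primrec.list_map (Primrec.snd.comp Primrec.snd) (hσ.comp Primrec.snd)
  exact Primrec.pair (Primrec.fst.comp Primrec.snd) h

/-- letters of the first factor -/
def sl (K K' i : ℕ) : ℕ := if i < K then i else K + K'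

theorem primrec_sl (K K' : ℕ) : Primrec (sl K K') :=
  Primrec.ite (Primrec.nat_lt.comp Primrec.id (Primrec.const K)) Primrec.id (Primrec.const _)

/-- the relators -/
def rel (K K' : ℕ) (ρ ρ' : ℕ → LRel) (n : ℕ) : LRel :=
  if n % 3 = 0 then ren (sl K K') (ρ (n / 3))
  else if n % 3 = 1 then ren (fun j => K + j) (ρ' (n / 3))
  else [((1, 0), [sl K K' (n / 3).unpair.1, K + (n / 3).unpair.2])]

theorem primrec_rel (K K' : ℕ) {ρ ρ' : ℕ → LRel} (hρ : Primrec ρ) (hρ' : Primrec ρ') :
    Primrec (rel K K' ρ ρ') := by
  have hdiv : Primrec (fun n : ℕ => n / 3) := Primrec.nat_div.comp Primrec.id (Primrec.const 3)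
  have hmod : Primrec (fun n : ℕ => n % 3) := Primrec.nat_mod.comp Primrec.id (Primrec.const 3)
  have hadd : Primrec (fun j : ℕ => K + j) := Primrec.nat_add.comp (Primrec.const K) Primrec.id
  have h1 : Primrec (fun n : ℕ => sl K K' (n / 3).unpair.1) :=
    (primrec_sl K K').comp (Primrec.fst.comp (Primrec.unpair.comp hdiv))
  have h2 : Primrec (fun n : ℕ => K + (n / 3).unpair.2) :=
    hadd.comp (Primrec.snd.comp (Primrec.unpair.comp hdiv))
  have h3 : Primrec (fun n : ℕ => [sl K K' (n / 3).unpair.1, K + (n / 3).unpair.2]) :=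
    Primrec.list_cons.comp h1 (Primrec.list_cons.comp h2 (Primrec.const []))
  have h4 : Primrec (fun n : ℕ =>
      (((1, 0) : Cf), [sl K K' (n / 3).unpair.1, K + (n / 3).unpair.2])) :=
    Primrec.pair (Primrec.const _) h3
  refine Primrec.ite (Primrec.eq.comp hmod (Primrec.const 0)) ?_
    (Primrec.ite (Primrec.eq.comp hmod (Primrec.const 1)) ?_ ?_)
  · exact (primrec_ren (primrec_sl K K') hρ).comp hdiv
  · exact (primrec_ren hadd hρ').comp hdiv
  · exact Primrec.list_cons.comp h4 (Primrec.const [])

/-- embedding of the first factor -/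
def inl (k : Type) [Field k] (L M : Type) [LieRing L] [LieAlgebra k L] [LieRing M]
    [LieAlgebra k M] : L →ₗ⁅k⁆ L × M where
  toFun x := (x, 0)
  map_add' x y := by simp
  map_smul' c x := by simp
  map_lie' := by
    intro x y
    ext <;> simp

/-- embedding of the second factor -/
def inr (k : Type) [Field k] (L M : Type) [LieRing L] [LieAlgebra k L] [LieRing M]
    [LieAlgebra k M] : M →ₗ⁅k⁆ L × M where
  toFun x := (0, x)
  map_add' x y := by simp
  map_smul' c x := by simp
  map_lie' := by
    intro x y
    ext <;> simp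

end RPProd

open RPProd in
theorem rpprod_proof : Stmt_RPProd := by
  intro k _ L M _ _ _ _ hL hM
  obtain ⟨evL, K, ρ, hL0, hLs, hLp, hLr, hLu⟩ := hL
  obtain ⟨evM, K', ρ', hM0, hMs, hMp, hMr, hMu⟩ := hM
  have hLg : Gens k L evL := ⟨⟨K, hL0⟩, hLs⟩
  have hMg : Gens k M evM := ⟨⟨K', hM0⟩, hMs⟩
  set ev : ℕ → L × M := fun i => if i < K then inl k L M (evL i) else inr k L M (evM (i - K))
    with hev
  have hevL : ∀ i, ev (sl K K' i) = inl k L M (evL i) := by
    intro i
    unfold sl
    by_cases h : i < K
    · simp [hev, h]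
    · rw [if_neg h]
      have h1 : ¬ (K + K' < K) := by omega
      simp only [hev, h1, if_false]
      rw [hM0 _ (by omega), hL0 _ (by omega), map_zero, map_zero]
  have hevM : ∀ j, ev (K + j) = inr k L M (evM j) := by
    intro j
    have h1 : ¬ (K + j < K) := by omega
    simp [hev]
  refine ⟨ev, K + K', rel K K' ρ ρ', ?_, ?_, primrec_rel K K' hLp hMp, ?_, ?_⟩
  · intro i hi
    have h1 : ¬ (i < K) := by omega
    simp only [hev, h1, if_false]
    rw [hM0 _ (by omega), map_zero]
  · rw [eq_top_iff]
    rintro ⟨x, y⟩ -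
    have h1 : ∀ x : L, inl k L M x ∈ LieSubalgebra.lieSpan k (L × M) (Set.range ev) := by
      intro x
      refine hLg.induction (p := fun x => inl k L M x ∈
        LieSubalgebra.lieSpan k (L × M) (Set.range ev)) ?_ ?_ ?_ ?_ ?_ x
      · rw [map_zero]; exact zero_mem _
      · intro x y hx hy; rw [map_add]; exact add_mem hx hy
      · intro c x hx; rw [map_smul]; exact SMulMemClass.smul_mem _ hx
      · intro x y hx hy; rw [LieHom.map_lie]; exact LieSubalgebra.lie_mem _ hx hy
      · intro i; exact LieSubalgebra.subset_lieSpan ⟨_, hevL i⟩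
    have h2 : ∀ y : M, inr k L M y ∈ LieSubalgebra.lieSpan k (L × M) (Set.range ev) := by
      intro y
      refine hMg.induction (p := fun y => inr k L M y ∈
        LieSubalgebra.lieSpan k (L × M) (Set.range ev)) ?_ ?_ ?_ ?_ ?_ y
      · rw [map_zero]; exact zero_mem _
      · intro x y hx hy; rw [map_add]; exact add_mem hx hy
      · intro c x hx; rw [map_smul]; exact SMulMemClass.smul_mem _ hx
      · intro x y hx hy; rw [LieHom.map_lie]; exact LieSubalgebra.lie_mem _ hx hy
      · intro i; exact LieSubalgebra.subset_lieSpan ⟨_, hevM i⟩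
    have h3 : ((x, y) : L × M) = inl k L M x + inr k L M y := by
      ext <;> simp [inl, inr]
    rw [h3]
    exact add_mem (h1 x) (h2 y)
  · intro n
    unfold rel
    split_ifs with h1 h2
    · rw [lval_ren]
      simp only [hevL]
      rw [← map_lval, hLr, map_zero]
    · rw [lval_ren]
      simp only [hevM]
      rw [← map_lval, hMr, map_zero]
    · simp only [lval, List.map_cons, List.map_nil, List.sum_cons, List.sum_nil, lnorm,
        List.foldl_cons, List.foldl_nil, hevL, hevM]
      have : ⁅inl k L M (evL (n / 3).unpair.1), inr k L M (evM (n / 3).unpair.2)⁆ = 0 := by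
        ext <;> simp [inl, inr]
      rw [this, smul_zero, add_zero]
  · intro L' _ _ ev' hev' hrel
    have hr0 : ∀ n, lval k (fun i => ev' (sl K K' i)) (ρ n) = 0 := by
      intro n
      have := hrel (3 * n)
      unfold rel at this
      rw [if_pos (by omega), lval_ren, Nat.mul_div_cancel_left _ (by norm_num)] at this
      exact this
    have hr1 : ∀ n, lval k (fun i => ev' (K + i)) (ρ' n) = 0 := by
      intro n
      have := hrel (3 * n + 1)
      unfold rel at this
      rw [if_neg (by omega), if_pos (by omega), lval_ren,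
        show (3 * n + 1) / 3 = n by omega] at this
      exact this
    have hr2 : ∀ i j, ⁅ev' (sl K K' i), ev' (K + j)⁆ = 0 := by
      intro i j
      have := hrel (3 * Nat.pair i j + 2)
      unfold rel at this
      rw [if_neg (by omega), if_neg (by omega),
        show (3 * Nat.pair i j + 2) / 3 = Nat.pair i j by omega, Nat.unpair_pair] at this
      simpa [lval, lnorm, cf_one] using this
    obtain ⟨F, hF⟩ := hLu L' (fun i => ev' (sl K K' i)) (by
      intro i hi
      have : sl K K' i = K + K' := by simp [sl, not_lt.2 hi]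
      rw [this]
      exact hev' _ le_rfl) hr0
    obtain ⟨G, hG⟩ := hMu L' (fun i => ev' (K + i)) (by
      intro i hi
      exact hev' _ (by omega)) hr1
    have hc : ∀ x y, ⁅F x, G y⁆ = 0 := by
      intro x
      refine hLg.induction (p := fun x => ∀ y, ⁅F x, G y⁆ = 0) ?_ ?_ ?_ ?_ ?_ x
      · intro y; simp
      · intro x x' hx hx' y; rw [map_add, add_lie, hx, hx', add_zero]
      · intro c x hx y; rw [map_smul, smul_lie, hx, smul_zero]
      · intro x x' hx hx' y; rw [LieHom.map_lie, lie_lie, hx, hx', lie_zero, lie_zero, sub_zero]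
      · intro i y
        refine hMg.induction (p := fun y => ⁅F (evL i), G y⁆ = 0) ?_ ?_ ?_ ?_ ?_ y
        · simp
        · intro x x' hx hx'; rw [map_add, lie_add, hx, hx', add_zero]
        · intro c x hx; rw [map_smul, lie_smul, hx, smul_zero]
        · intro x x' hx hx'
          rw [LieHom.map_lie, leibniz_lie, hx, hx', zero_lie, lie_zero, add_zero]
        · intro j; rw [hF, hG, hr2]
    have hc' : ∀ x y, ⁅G y, F x⁆ = 0 := by
      intro x y
      rw [← lie_skew, hc, neg_zero]
    refine ⟨{ toFun := fun p => F p.1 + G p.2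
              map_add' := by intro p q; simp; abel
              map_smul' := by intro c p; simp
              map_lie' := by
                intro p q
                have h1 : (⁅p, q⁆ : L × M).1 = ⁅p.1, q.1⁆ := rfl
                have h2 : (⁅p, q⁆ : L × M).2 = ⁅p.2, q.2⁆ := rfl
                change F (⁅p, q⁆ : L × M).1 + G (⁅p, q⁆ : L × M).2 =
                  ⁅F p.1 + G p.2, F q.1 + G q.2⁆
                rw [h1, h2, LieHom.map_lie, LieHom.map_lie, add_lie, lie_add, lie_add, hc, hc',
                  add_zero, zero_add] }, ?_⟩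
    intro i
    change F (ev i).1 + G (ev i).2 = ev' i
    by_cases h : i < K
    · have h1 : ev i = inl k L M (evL i) := by simp [hev, h]
      have h2 : sl K K' i = i := by simp [sl, h]
      rw [h1]
      change F (evL i) + G 0 = ev' i
      rw [map_zero, add_zero, hF, h2]
    · have h1 : ev i = inr k L M (evM (i - K)) := by simp [hev, h]
      rw [h1]
      change F 0 + G (evM (i - K)) = ev' i
      rw [map_zero, zero_add, hG]
      congr 1
      omega

end Pool.Agent.HIP
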