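import Mathlib
import Pool.Agent.HIP.Basic

/-!
# RPQUOT : quotients by the derived series are recursively presented
-/

noncomputable section

set_option linter.unusedSectionVars false

namespace Pool.Agent.HIP

open Function

namespace RPQUOT

/-- the expressions of elements of the derived series -/
def C (brk : LRel → LRel → LRel) : ℕ → ℕ → LRel
  | 0, i => (Encodable.decode (α := LRel) i).getD []
  | n + 1, i => brk (C brk n i.unpair.1) (C brk n i.unpair.2)

theorem C_primrec {brk : LRel → LRel → LRel} (hb : Primrec₂ brk) (n : ℕ) : Primrec (C brk n) := by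
  induction n with
  | zero => exact Primrec.option_getD.comp Primrec.decode (Primrec.const [])
  | succ n ih =>
    exact hb.comp (ih.comp (Primrec.fst.comp Primrec.unpair))
      (ih.comp (Primrec.snd.comp Primrec.unpair))

variable {k : Type} [Field k] {L : Type} [LieRing L] [LieAlgebra k L]

theorem cf_one : cf k (1, 0) = 1 := by simp [cf]

theorem lval_single (ev : ℕ → L) (w : List ℕ) : lval k ev [((1, 0), w)] = lnorm (w.map ev) := by
  simp [lval, cf_one]

theorem span_brk {s t : Set L} (x y : L) (hx : x ∈ Submodule.span k s)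
    (hy : y ∈ Submodule.span k t) {V : Submodule k L} (h : ∀ a ∈ s, ∀ b ∈ t, ⁅a, b⁆ ∈ V) :
    ⁅x, y⁆ ∈ V := by
  induction hx using Submodule.span_induction with
  | mem a ha =>
    induction hy using Submodule.span_induction with
    | mem b hb => exact h a ha b hb
    | zero => rw [lie_zero]; exact V.zero_mem
    | add u v _ _ hu hv => rw [lie_add]; exact V.add_mem hu hv
    | smul c u _ hu => rw [lie_smul]; exact V.smul_mem _ hu
  | zero => rw [zero_lie]; exact V.zero_mem
  | add u v _ _ hu hv => rw [add_lie]; exact V.add_mem hu hv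
  | smul c u _ hu => rw [smul_lie]; exact V.smul_mem _ hu

/-- every element is a linear combination of values of expressions -/
theorem mem_span_zero {brk : LRel → LRel → LRel}
    (hb : ∀ (k : Type) [Field k] (L : Type) [LieRing L] [LieAlgebra k L] (ev : ℕ → L)
      (R S : LRel), lval k ev (brk R S) = ⁅lval k ev R, lval k ev S⁆)
    {ev : ℕ → L} (h : Gens k L ev) (x : L) :
    x ∈ Submodule.span k (Set.range fun i => lval k ev (C brk 0 i)) := by
  have hR : ∀ R : LRel, lval k ev R ∈
      Set.range fun i => lval k ev (C brk 0 i) := by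
    intro R
    refine ⟨Encodable.encode R, ?_⟩
    simp [C]
  refine h.induction (Submodule.zero_mem _) (fun x y => Submodule.add_mem _)
    (fun c x => Submodule.smul_mem _ c) ?_ ?_ x
  · intro x y hx hy
    refine span_brk x y hx hy ?_
    rintro _ ⟨i, rfl⟩ _ ⟨j, rfl⟩
    dsimp only
    rw [← hb k L ev]
    exact Submodule.subset_span (hR _)
  · intro i
    have := hR [((1, 0), [i])]
    rw [lval_single] at this
    exact Submodule.subset_span this

theorem mem_span {brk : LRel → LRel → LRel}
    (hb : ∀ (k : Type) [Field k] (L : Type) [LieRing L] [LieAlgebra k L] (ev : ℕ → L)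
      (R S : LRel), lval k ev (brk R S) = ⁅lval k ev R, lval k ev S⁆)
    {ev : ℕ → L} (h : Gens k L ev) (n : ℕ) : ∀ x ∈ LieAlgebra.derivedSeries k L n,
    x ∈ Submodule.span k (Set.range fun i => lval k ev (C brk n i)) := by
  induction n with
  | zero => intro x _; exact mem_span_zero hb h x
  | succ n ih =>
    refine derivedSeries_succ_mem (Submodule.zero_mem _) (fun x y => Submodule.add_mem _)
      (fun c x => Submodule.smul_mem _ c) ?_
    intro x hx y hy
    refine span_brk x y (ih x hx) (ih y hy) ?_
    rintro _ ⟨i, rfl⟩ _ ⟨j, rfl⟩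
    refine Submodule.subset_span ⟨Nat.pair i j, ?_⟩
    simp only [C, Nat.unpair_pair, hb]

theorem mem_derived {brk : LRel → LRel → LRel}
    (hb : ∀ (k : Type) [Field k] (L : Type) [LieRing L] [LieAlgebra k L] (ev : ℕ → L)
      (R S : LRel), lval k ev (brk R S) = ⁅lval k ev R, lval k ev S⁆)
    (ev : ℕ → L) (n : ℕ) : ∀ i, lval k ev (C brk n i) ∈ LieAlgebra.derivedSeries k L n := by
  induction n with
  | zero => intro i; simp
  | succ n ih =>
    intro i
    rw [C, hb, LieAlgebra.derivedSeries_def, LieAlgebra.derivedSeriesOfIdeal_succ]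
    exact LieSubmodule.lie_mem_lie (ih _) (ih _)

end RPQUOT

open RPQUOT

theorem rpquot_proof : Stmt_RPQuotAsm := by
  rintro ⟨brk, hprim, hb⟩ k _ L _ _ ev hL n
  have hg := hL.gens
  obtain ⟨K, ρ, hK, hspan, hρ, hz, hu⟩ := hL
  have hlv : ∀ R, lval k (fun i => (LieSubmodule.Quotient.mk (ev i) :
      L ⧸ LieAlgebra.derivedSeries k L n)) R = LieSubmodule.Quotient.mk (lval k ev R) := by
    intro R
    let π : L →ₗ⁅k⁆ L ⧸ LieAlgebra.derivedSeries k L n :=
      { toLinearMap := (LieSubmodule.Quotient.mk' (LieAlgebra.derivedSeries k L n) :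
          L →ₗ[k] L ⧸ LieAlgebra.derivedSeries k L n)
        map_lie' := rfl }
    exact (map_lval π ev R).symm
  refine ⟨K, fun m => bif m.bodd then C brk n m.div2 else ρ m.div2, ?_, ?_, ?_, ?_, ?_⟩
  · intro i hi
    dsimp only
    rw [hK i hi]
    rfl
  · rw [eq_top_iff]
    rintro x -
    obtain ⟨y, rfl⟩ := LieSubmodule.Quotient.surjective_mk' _ x
    refine hg.induction (p := fun y => (LieSubmodule.Quotient.mk y :
      L ⧸ LieAlgebra.derivedSeries k L n) ∈ LieSubalgebra.lieSpan k
        (L ⧸ LieAlgebra.derivedSeries k L n) (Set.range fun i => LieSubmodule.Quotient.mk (ev i)))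
      ?_ ?_ ?_ ?_ ?_ y
    · exact LieSubalgebra.zero_mem _
    · intro x y hx hy
      exact LieSubalgebra.add_mem _ hx hy
    · intro c x hx
      exact LieSubalgebra.smul_mem _ c hx
    · intro x y hx hy
      exact LieSubalgebra.lie_mem _ hx hy
    · intro i
      exact LieSubalgebra.subset_lieSpan ⟨i, rfl⟩
  · exact Primrec.cond (Primrec.nat_bodd) ((C_primrec hprim n).comp Primrec.nat_div2)
      (hρ.comp Primrec.nat_div2)
  · intro m
    rw [hlv]
    dsimp only
    cases hm : m.bodd with
    | false =>
      rw [cond_false, hz]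
      rfl
    | true =>
      rw [cond_true]
      exact LieSubmodule.Quotient.mk_eq_zero'.2 (mem_derived hb ev n _)
  · intro L' _ _ ev' hK' hz'
    obtain ⟨F, hF⟩ := hu L' ev' hK' (fun m => by
      have := hz' (Nat.bit false m)
      simpa using this)
    have hF0 : ∀ x ∈ LieAlgebra.derivedSeries k L n, F x = 0 := by
      intro x hx
      have h1 := mem_span hb hg n x hx
      have h2 : Submodule.span k (Set.range fun i => lval k ev (C brk n i)) ≤
          LinearMap.ker (F : L →ₗ[k] L') := by
        rw [Submodule.span_le]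
        rintro _ ⟨i, rfl⟩
        have := hz' (Nat.bit true i)
        change F (lval k ev (C brk n i)) = 0
        rw [map_lval]
        simpa [hF] using this
      exact h2 h1
    let G : (L ⧸ LieAlgebra.derivedSeries k L n) →ₗ[k] L' :=
      Submodule.liftQ (LieAlgebra.derivedSeries k L n).toSubmodule (F : L →ₗ[k] L') (fun x hx => hF0 x hx)
    have hG : ∀ x : L, G (LieSubmodule.Quotient.mk x) = F x := fun x => rfl
    refine ⟨{ toLinearMap := G, map_lie' := ?_ }, fun i => (hG _).trans (hF i)⟩
    intro x y
    obtain ⟨x, rfl⟩ := LieSubmodule.Quotient.surjective_mk' _ x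
    obtain ⟨y, rfl⟩ := LieSubmodule.Quotient.surjective_mk' _ y
    exact F.map_lie x y

end Pool.Agent.HIP
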