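import Mathlib
import Pool.Agent.HIP.Basic

/-!
# The layer lemma: semidirect products are recursively presented (module RPSD)
-/

noncomputable section

set_option linter.unusedSectionVars false

namespace Pool.Agent.HIP

open Function

namespace RPSDX

/-! ### expressions -/

/-- shift of the letters -/
def sh (r : ℕ) (R : LRel) : LRel := R.map fun t => (t.1, t.2.map fun i => i + r)

theorem sh_prim (r : ℕ) : Primrec (sh r) := by
  unfold sh
  refine Primrec.list_map Primrec.id ?_
  refine Primrec.pair (Primrec.fst.comp Primrec.snd) ?_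
  refine Primrec.list_map (Primrec.snd.comp Primrec.snd) ?_
  exact Primrec.nat_add.comp Primrec.snd (Primrec.const r)

theorem lval_sh {k : Type} [Field k] {L : Type} [LieRing L] [LieAlgebra k L] (ev : ℕ → L)
    (r : ℕ) (R : LRel) : lval k ev (sh r R) = lval k (fun i => ev (i + r)) R := by
  induction R with
  | nil => rfl
  | cons t R ih =>
    have h : sh r (t :: R) = (t.1, t.2.map fun i => i + r) :: sh r R := rfl
    rw [h, lval_cons, lval_cons, ih, List.map_map]
    rfl

section brk
variable (brk : LRel → LRel → LRel)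

/-- `ad x₁ ... ad xₘ` applied to an expression -/
def adw (w : List ℕ) (R : LRel) : LRel :=
  w.foldr (fun x S => brk [(((1 : ℤ), (0 : ℕ)), [x])] S) R

theorem adw_prim (h : Primrec₂ brk) : Primrec₂ (adw brk) := by
  unfold adw
  refine Primrec.list_foldr (f := fun p : List ℕ × LRel => p.1) (g := fun p => p.2)
    (h := fun (_ : List ℕ × LRel) (q : ℕ × LRel) => brk [(((1 : ℤ), (0 : ℕ)), [q.1])] q.2)
    Primrec.fst Primrec.snd ?_
  refine h.comp ?_ (Primrec.snd.comp Primrec.snd)
  refine Primrec.list_cons.comp ?_ (Primrec.const [])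
  refine Primrec.pair (Primrec.const _) ?_
  exact Primrec.list_cons.comp (Primrec.fst.comp Primrec.snd) (Primrec.const [])

/-- module expression as Lie expression -/
def mrel (r : ℕ) (R : MRel) : LRel :=
  (R.map fun t => if t.2.1 < r then
    adw brk (t.2.2.map fun i => i + r) [(t.1, [t.2.1])] else []).flatten

theorem mrel_prim (h : Primrec₂ brk) (r : ℕ) : Primrec (mrel brk r) := by
  unfold mrel
  refine Primrec.list_flatten.comp ?_
  refine Primrec.list_map Primrec.id ?_
  refine Primrec.ite ?_ ?_ (Primrec.const [])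
  · exact Primrec.nat_lt.comp (Primrec.fst.comp (Primrec.snd.comp Primrec.snd)) (Primrec.const r)
  · refine (adw_prim brk h).comp ?_ ?_
    · refine Primrec.list_map (Primrec.snd.comp (Primrec.snd.comp Primrec.snd)) ?_
      exact Primrec.nat_add.comp Primrec.snd (Primrec.const r)
    · refine Primrec.list_cons.comp ?_ (Primrec.const [])
      refine Primrec.pair (Primrec.fst.comp Primrec.snd) ?_
      exact Primrec.list_cons.comp (Primrec.fst.comp (Primrec.snd.comp Primrec.snd))
        (Primrec.const [])

/-- commutation relators -/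
def crel (r : ℕ) (p : (List ℕ × ℕ) × (List ℕ × ℕ)) : LRel :=
  if p.1.2 < r ∧ p.2.2 < r then
    brk (adw brk (p.1.1.map fun i => i + r) [(((1 : ℤ), (0 : ℕ)), [p.1.2])])
      (adw brk (p.2.1.map fun i => i + r) [(((1 : ℤ), (0 : ℕ)), [p.2.2])])
  else []

theorem crel_prim (h : Primrec₂ brk) (r : ℕ) : Primrec (crel brk r) := by
  unfold crel
  have h1 : Primrec fun q : List ℕ × ℕ =>
      adw brk (q.1.map fun i => i + r) [(((1 : ℤ), (0 : ℕ)), [q.2])] := by
    refine (adw_prim brk h).comp ?_ ?_
    · refine Primrec.list_map Primrec.fst ?_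
      exact Primrec.nat_add.comp Primrec.snd (Primrec.const r)
    · refine Primrec.list_cons.comp ?_ (Primrec.const [])
      refine Primrec.pair (Primrec.const _) ?_
      exact Primrec.list_cons.comp Primrec.snd (Primrec.const [])
  refine Primrec.ite ?_ ?_ (Primrec.const [])
  · refine PrimrecPred.and ?_ ?_
    · exact Primrec.nat_lt.comp (Primrec.snd.comp Primrec.fst) (Primrec.const r)
    · exact Primrec.nat_lt.comp (Primrec.snd.comp Primrec.snd) (Primrec.const r)
  · exact h.comp (h1.comp Primrec.fst) (h1.comp Primrec.snd)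

/-- the relators of the semidirect product -/
def rels (r : ℕ) (ρY : ℕ → LRel) (ρ : ℕ → MRel) (n : ℕ) : LRel :=
  if n.unpair.1 = 0 then sh r (ρY n.unpair.2)
  else if n.unpair.1 = 1 then mrel brk r (ρ n.unpair.2)
  else ((Encodable.decode (α := (List ℕ × ℕ) × (List ℕ × ℕ)) n.unpair.2).map
    (crel brk r)).getD []

theorem rels_prim (h : Primrec₂ brk) (r : ℕ) {ρY : ℕ → LRel} (hY : Primrec ρY)
    {ρ : ℕ → MRel} (hρ : Primrec ρ) : Primrec (rels brk r ρY ρ) := by
  unfold rels
  refine Primrec.ite ?_ ?_ (Primrec.ite ?_ ?_ ?_)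
  · exact Primrec.eq.comp (Primrec.fst.comp Primrec.unpair) (Primrec.const 0)
  · exact (sh_prim r).comp (hY.comp (Primrec.snd.comp Primrec.unpair))
  · exact Primrec.eq.comp (Primrec.fst.comp Primrec.unpair) (Primrec.const 1)
  · exact (mrel_prim brk h r).comp (hρ.comp (Primrec.snd.comp Primrec.unpair))
  · refine Primrec.option_getD.comp ?_ (Primrec.const [])
    refine Primrec.option_map ?_ ((crel_prim brk h r).comp Primrec.snd)
    exact Primrec.decode.comp (Primrec.snd.comp Primrec.unpair)

end brk

section val
variable {brk : LRel → LRel → LRel} {k : Type} [Field k] {L : Type} [LieRing L] [LieAlgebra k L]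
  (hb : ∀ (ev : ℕ → L) (R S : LRel), lval k ev (brk R S) = ⁅lval k ev R, lval k ev S⁆)

theorem cf_one : cf k ((1 : ℤ), (0 : ℕ)) = 1 := by simp [cf]

theorem lval_single (ev : ℕ → L) (c : Cf) (i : ℕ) : lval k ev [(c, [i])] = cf k c • ev i := by
  simp [lval]

include hb in
theorem lval_adw (ev : ℕ → L) (w : List ℕ) (R : LRel) :
    lval k ev (adw brk w R) = wact (w.map ev) (lval k ev R) := by
  induction w with
  | nil => rfl
  | cons x w ih =>
    have h : adw brk (x :: w) R = brk [(((1 : ℤ), (0 : ℕ)), [x])] (adw brk w R) := rfl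
    rw [h, hb, ih, lval_single, cf_one, one_smul, List.map_cons, wact_cons]

include hb in
theorem lval_mrel (ev : ℕ → L) (r : ℕ) (R : MRel) :
    lval k ev (mrel brk r R) =
      mvn k (fun i => ev (i + r)) (fun i => if i < r then ev i else 0) R := by
  induction R with
  | nil => rfl
  | cons t R ih =>
    have h : mrel brk r (t :: R) = (if t.2.1 < r then
      adw brk (t.2.2.map fun i => i + r) [(t.1, [t.2.1])] else []) ++ mrel brk r R := rfl
    rw [h, lval_append, ih, mvn_cons]
    congr 1
    by_cases hr : t.2.1 < r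
    · simp only [hr, if_true]
      rw [lval_adw hb, lval_single, wact_smul, List.map_map]
      rfl
    · simp only [hr, if_false]
      rw [wact_zero, smul_zero]
      rfl

include hb in
theorem lval_crel (ev : ℕ → L) {r : ℕ} {v v' : List ℕ} {i i' : ℕ} (hi : i < r) (hi' : i' < r) :
    lval k ev (crel brk r ((v, i), (v', i'))) =
      ⁅wact (v.map fun i => ev (i + r)) (ev i), wact (v'.map fun i => ev (i + r)) (ev i')⁆ := by
  unfold crel
  rw [if_pos ⟨hi, hi'⟩, hb, lval_adw hb, lval_adw hb, lval_single, lval_single, cf_one, one_smul,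
    one_smul, List.map_map, List.map_map]
  rfl

end val

/-! ### the span of the words -/

section span
variable {k : Type} [Field k] {Y : Type} [LieRing Y] [LieAlgebra k Y] {ev : ℕ → Y} {ι : Type}
  {D : Type} [AddCommGroup D] [Module k D] [LieRingModule Y D] [LieModule k Y D] {f : ι → D}
  {Rel : Set (MR k Y ι)}

theorem mem_span_words (hG : Gens k Y ev) (hP : Pres k Y D f Rel) (x : D) :
    x ∈ Submodule.span k {d : D | ∃ (v : List ℕ) (i : ι), d = wact (v.map ev) (f i)} := by
  set V := Submodule.span k {d : D | ∃ (v : List ℕ) (i : ι), d = wact (v.map ev) (f i)} with hV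
  have h1 : ∀ i, ∀ m ∈ V, ⁅ev i, m⁆ ∈ V := by
    intro i m hm
    induction hm using Submodule.span_induction with
    | mem y hy =>
      obtain ⟨v, l, rfl⟩ := hy
      exact Submodule.subset_span ⟨i :: v, l, rfl⟩
    | zero => rw [lie_zero]; exact V.zero_mem
    | add a b _ _ ha hb => rw [lie_add]; exact V.add_mem ha hb
    | smul c a _ ha => rw [lie_smul]; exact V.smul_mem c ha
  have h2 := hG.stable V h1
  refine hP.induction (p := fun x => x ∈ V) V.zero_mem (fun _ _ => V.add_mem)
    (fun c _ => V.smul_mem c) (fun y x => h2 y x) ?_ x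
  intro i
  exact Submodule.subset_span ⟨[], i, rfl⟩

end span

/-! ### the semidirect product -/

section main
variable {k : Type} [Field k] {Y : Type} [LieRing Y] [LieAlgebra k Y]
  {D : Type} [AddCommGroup D] [Module k D] [LieRingModule Y D] [LieModule k Y D] {r : ℕ}

/-- generators of the semidirect product -/
def evS (ev : ℕ → Y) (f : Fin r → D) (i : ℕ) : Sd D Y :=
  if h : i < r then Sd.inl k Y (f ⟨i, h⟩) else Sd.inr k D (ev (i - r))

theorem evS_lt (ev : ℕ → Y) (f : Fin r → D) {i : ℕ} (h : i < r) :
    evS (k := k) ev f i = Sd.inl k Y (f ⟨i, h⟩) := by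
  unfold evS
  rw [dif_pos h]

theorem evS_add (ev : ℕ → Y) (f : Fin r → D) (i : ℕ) :
    evS (k := k) ev f (i + r) = Sd.inr k D (ev i) := by
  unfold evS
  rw [dif_neg (by omega), Nat.add_sub_cancel]

theorem wact_inl (w : List Y) (d : D) :
    wact (w.map fun y => (Sd.inr k D y : Sd D Y)) (Sd.inl k Y d) = Sd.inl k Y (wact w d) := by
  induction w with
  | nil => rfl
  | cons x w ih => rw [List.map_cons, wact_cons, ih, Sd.lie_inr_inl]; rfl

theorem mvn_inl (ev : ℕ → Y) (n : ℕ → D) (R : MRel) :
    mvn k (fun i => (Sd.inr k D (ev i) : Sd D Y)) (fun i => Sd.inl k Y (n i)) R =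
      Sd.inl k Y (mvn k ev n R) := by
  induction R with
  | nil => rw [mvn_nil, mvn_nil, map_zero]
  | cons t R ih =>
    rw [mvn_cons, mvn_cons, ih, map_add, map_smul, ← wact_inl, List.map_map]
    rfl

theorem top_of (ev : ℕ → Y) (f : Fin r → D) (hG : Gens k Y ev) {Rel : Set (MR k Y (Fin r))}
    (hP : Pres k Y D f Rel) :
    LieSubalgebra.lieSpan k (Sd D Y) (Set.range (evS (k := k) ev f)) = ⊤ := by
  set S := LieSubalgebra.lieSpan k (Sd D Y) (Set.range (evS (k := k) ev f)) with hS
  have h1 : ∀ y : Y, Sd.inr k D y ∈ S := by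
    refine hG.induction (p := fun y => Sd.inr k D y ∈ S) ?_ ?_ ?_ ?_ ?_
    · rw [map_zero]; exact S.zero_mem
    · intro x y hx hy; rw [map_add]; exact S.add_mem hx hy
    · intro c x hx; rw [map_smul]; exact S.smul_mem c hx
    · intro x y hx hy; rw [LieHom.map_lie]; exact S.lie_mem hx hy
    · intro i
      rw [← evS_add ev f i]
      exact LieSubalgebra.subset_lieSpan ⟨i + r, rfl⟩
  have h2 : ∀ d : D, Sd.inl k Y d ∈ S := by
    refine hP.induction (p := fun d => Sd.inl k Y d ∈ S) ?_ ?_ ?_ ?_ ?_
    · rw [map_zero]; exact S.zero_mem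
    · intro x y hx hy; rw [map_add]; exact S.add_mem hx hy
    · intro c x hx; rw [map_smul]; exact S.smul_mem c hx
    · intro y x hx; rw [← Sd.lie_inr_inl]; exact S.lie_mem (h1 y) hx
    · intro i
      rw [← evS_lt ev f i.2]
      exact LieSubalgebra.subset_lieSpan ⟨i, rfl⟩
  rw [eq_top_iff]
  rintro ⟨d, q⟩ -
  rw [Sd.mk_eq (k := k)]
  exact S.add_mem (h2 d) (h1 q)

end main

end RPSDX

open RPSDX in
theorem rpsd_proof : Stmt_RPSdAsm := by
  rintro ⟨brk, hbp, hbv⟩ k _ Y _ _ ev hRP D _ _ _ _ r f ρ ⟨hρ, hP⟩
  have hG := hRP.gens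
  obtain ⟨K, ρY, hK, -, hYp, hYv, hYu⟩ := hRP
  refine ⟨evS (k := k) ev f, r + K, rels brk r ρY ρ, ?_, top_of ev f hG hP,
    rels_prim brk hbp r hYp hρ, ?_, ?_⟩
  · intro i hi
    have h : i = (i - r) + r := by omega
    rw [h, evS_add, hK _ (by omega), map_zero]
  · -- the relators vanish
    intro n
    unfold rels
    split_ifs with h0 h1
    · rw [lval_sh]
      have h2 : (fun i => evS (k := k) ev f (i + r)) = fun i => Sd.inr k D (ev i) := by
        funext i; exact evS_add ev f i
      rw [h2, ← map_lval, hYv, map_zero]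
    · rw [lval_mrel (fun ev R S => hbv k (Sd D Y) ev R S)]
      have h2 : (fun i => evS (k := k) ev f (i + r)) = fun i => Sd.inr k D (ev i) := by
        funext i; exact evS_add ev f i
      have h3 : (fun i => if i < r then evS (k := k) ev f i else 0) =
          fun i => Sd.inl k Y (if h : i < r then f ⟨i, h⟩ else 0) := by
        funext i
        by_cases h : i < r
        · rw [if_pos h, dif_pos h, evS_lt ev f h]
        · rw [if_neg h, dif_neg h, map_zero]
      rw [h2, h3, mvn_inl, ← mval_conv, hP.rel ⟨_, rfl⟩, map_zero]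
    · cases hd : (Encodable.decode (α := (List ℕ × ℕ) × (List ℕ × ℕ)) n.unpair.2) with
      | none => rfl
      | some p =>
        obtain ⟨⟨v, i⟩, ⟨v', i'⟩⟩ := p
        change lval k _ (crel brk r ((v, i), (v', i'))) = 0
        by_cases h : i < r ∧ i' < r
        · rw [lval_crel (fun ev R S => hbv k (Sd D Y) ev R S) _ h.1 h.2, evS_lt ev f h.1,
            evS_lt ev f h.2]
          have h2 : ∀ v : List ℕ, (v.map fun i => evS (k := k) ev f (i + r)) =
              (v.map ev).map fun y => (Sd.inr k D y : Sd D Y) := by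
            intro v
            rw [List.map_map]
            apply List.map_congr_left
            intro i _
            exact evS_add ev f i
          rw [h2, h2, wact_inl, wact_inl, Sd.lie_inl_inl]
        · unfold crel
          rw [if_neg h]
          rfl
  · -- the universal property
    intro L' _ _ ev' hev' hrel
    have e0 : ∀ n, lval k ev' (sh r (ρY n)) = 0 := by
      intro n
      have := hrel (Nat.pair 0 n)
      unfold rels at this
      simpa using this
    have e1 : ∀ n, lval k ev' (mrel brk r (ρ n)) = 0 := by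
      intro n
      have := hrel (Nat.pair 1 n)
      unfold rels at this
      simpa using this
    have e2 : ∀ p, lval k ev' (crel brk r p) = 0 := by
      intro p
      have h2 := hrel (Nat.pair 2 (Encodable.encode p))
      unfold rels at h2
      rw [Nat.unpair_pair] at h2
      rw [if_neg (by norm_num), if_neg (by norm_num)] at h2
      simp only [Encodable.encodek, Option.map_some, Option.getD_some] at h2
      exact h2
    obtain ⟨θ, hθ⟩ := hYu L' (fun i => ev' (i + r)) (fun i hi => hev' _ (by omega))
      (fun n => by rw [← lval_sh]; exact e0 n)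
    -- the module homomorphism
    have hn : ∀ R ∈ Set.range fun n => conv k r ev (ρ n),
        mval (fun i : Fin r => toRes θ L' (ev' i)) R = 0 := by
      rintro _ ⟨n, rfl⟩
      rw [mval_res, ← conv_comp, mval_conv]
      have h1 := e1 n
      rw [lval_mrel (fun ev R S => hbv k L' ev R S)] at h1
      have h2 : (fun i => if h : i < r then ev' ((⟨i, h⟩ : Fin r) : ℕ) else 0) =
          fun i => if i < r then ev' i else 0 := by
        funext i
        by_cases h : i < r
        · rw [dif_pos h, if_pos h]
        · rw [dif_neg h, if_neg h]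
      rw [h2]
      have h3 : (fun i => θ (ev i)) = fun i => ev' (i + r) := by
        funext i; exact hθ i
      rw [h3, h1, map_zero]
    obtain ⟨J, hJ⟩ := hP.2.2 (Res θ L') (fun i => toRes θ L' (ev' i)) hn
    let j : D →ₗ[k] L' := (toRes θ L').symm.toLinearMap ∘ₗ J.toLinearMap
    have hj : ∀ (q : Y) (d : D), j ⁅q, d⁆ = ⁅θ q, j d⁆ := by
      intro q d
      change (toRes θ L').symm (J ⁅q, d⁆) = _
      rw [LieModuleHom.map_lie, Res.lie_def]
      rfl
    have hjf : ∀ i, j (f i) = ev' i := by
      intro i
      change (toRes θ L').symm (J (f i)) = _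
      rw [hJ]
      rfl
    have hjw : ∀ (v : List ℕ) (i : Fin r), j (wact (v.map ev) (f i)) =
        wact (v.map fun i => ev' (i + r)) (ev' i) := by
      intro v i
      rw [map_wact' θ j hj, hjf, List.map_map]
      congr 1
      apply List.map_congr_left
      intro l _
      exact hθ l
    have hc : ∀ d d' : D, ⁅j d, j d'⁆ = 0 := by
      intro d d'
      have hd := mem_span_words hG hP d
      have hd' := mem_span_words hG hP d'
      induction hd using Submodule.span_induction with
      | mem y hy =>
        obtain ⟨v, i, rfl⟩ := hy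
        induction hd' using Submodule.span_induction with
        | mem y hy =>
          obtain ⟨v', i', rfl⟩ := hy
          rw [hjw, hjw, ← lval_crel (fun ev R S => hbv k L' ev R S) ev' i.2 i'.2]
          exact e2 _
        | zero => rw [map_zero, lie_zero]
        | add a b _ _ ha hb => rw [map_add, lie_add, ha, hb, add_zero]
        | smul c a _ ha => rw [map_smul, lie_smul, ha, smul_zero]
      | zero => rw [map_zero, zero_lie]
      | add a b _ _ ha hb => rw [map_add, add_lie, ha, hb, add_zero]
      | smul c a _ ha => rw [map_smul, smul_lie, ha, smul_zero]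
    refine ⟨Sd.lift θ j hj hc, ?_⟩
    intro i
    by_cases h : i < r
    · rw [evS_lt ev f h, Sd.lift_apply]
      simp [hjf]
    · have h' : i = (i - r) + r := by omega
      rw [h', evS_add, Sd.lift_apply]
      simp [hθ]

end Pool.Agent.HIP
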