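import Mathlib
import Pool.Agent.HIP.Basic

/-!
# SGN : from coefficients to signs
-/

noncomputable section

set_option linter.unusedSectionVars false

namespace Pool.Agent.HIP

namespace SGNX

open Function

/-- `|a|` copies of a term with the sign of `a` -/
def one (a : ℤ) (t : ℕ × List ℕ) : SRel :=
  (List.range a.natAbs).map fun _ => (decide (0 ≤ a), t)

/-- the signed expression -/
def sg (cl : List Cf → List ℤ) (R : MRel) : SRel :=
  (List.range R.length).flatMap fun i =>
    one ((cl (R.map Prod.fst)).getD i 0) (R.getD i default).2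

theorem primrec_sg (hI : Stmt_Int) {cl : List Cf → List ℤ} (hcl : Primrec cl) :
    Primrec (sg cl) := by
  obtain ⟨-, -, hnat, hdec, -, -⟩ := hI
  have hone : Primrec₂ one := by
    unfold one
    refine Primrec.list_map (Primrec.list_range.comp (hnat.comp Primrec.fst)) ?_
    exact Primrec.pair (hdec.comp (Primrec.fst.comp Primrec.fst))
      (Primrec.snd.comp Primrec.fst)
  have h1 : Primrec fun R : MRel => R.map Prod.fst :=
    Primrec.list_map Primrec.id (Primrec.fst.comp Primrec.snd)
  unfold sg
  refine Primrec.list_flatMap (Primrec.list_range.comp Primrec.list_length) ?_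
  refine hone.comp ?_ ?_
  · exact (Primrec.list_getD 0).comp (hcl.comp (h1.comp Primrec.fst)) Primrec.snd
  · exact Primrec.snd.comp ((Primrec.list_getD default).comp Primrec.fst Primrec.snd)

section
variable {M : Type} [AddCommGroup M] (op : ℕ → (M →+ M)) (m : ℕ → M)

theorem sval_append (R S : SRel) : sval op m (R ++ S) = sval op m R + sval op m S := by
  simp [sval]

theorem sval_flatMap {α : Type} (l : List α) (f : α → SRel) :
    sval op m (l.flatMap f) = (l.map fun a => sval op m (f a)).sum := by
  induction l with
  | nil => rfl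
  | cons a l ih => rw [List.flatMap_cons, sval_append, ih, List.map_cons, List.sum_cons]

theorem sgn_mul_natAbs (a : ℤ) : (a.natAbs : ℤ) * sgn (decide (0 ≤ a)) = a := by
  unfold sgn
  by_cases h : 0 ≤ a
  · simp [h]
  · have h2 : a < 0 := not_le.1 h
    simp [h, abs_of_neg h2]

theorem sval_one (a : ℤ) (t : ℕ × List ℕ) :
    sval op m (one a t) = a • wop op t.2 (m t.1) := by
  unfold sval one
  rw [List.map_map]
  have h : ((fun t : Bool × ℕ × List ℕ => sgn t.1 • wop op t.2.2 (m t.2.1)) ∘
      fun _ : ℕ => ((decide (0 ≤ a), t) : Bool × ℕ × List ℕ)) =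
      fun _ => sgn (decide (0 ≤ a)) • wop op t.2 (m t.1) := rfl
  rw [h, List.map_const', List.sum_replicate, List.length_range]
  conv_rhs => rw [← sgn_mul_natAbs a, mul_smul]
  rw [natCast_zsmul]

end

theorem sum_range (k : Type) [Field k] {M : Type} [AddCommGroup M] [Module k M]
    (X : ℕ × List ℕ → M) (N : k) : ∀ (R : MRel) (l : List ℤ),
    (l.map fun a : ℤ => (a : k)) = R.map (fun t => N * cf k t.1) →
    ((List.range R.length).map fun i => (l.getD i 0) • X (R.getD i default).2).sum =
      N • (R.map fun t => cf k t.1 • X t.2).sum := by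
  intro R
  induction R with
  | nil => intro l _; simp
  | cons t R ih =>
    intro l hl
    cases l with
    | nil => simp at hl
    | cons a l =>
      rw [List.map_cons, List.map_cons, List.cons.injEq] at hl
      have h := ih l hl.2
      rw [List.length_cons, List.range_succ_eq_map, List.map_cons, List.sum_cons, List.map_map]
      have h2 : ((fun i => ((a :: l).getD i 0) • X ((t :: R).getD i default).2) ∘ Nat.succ) =
          fun i => (l.getD i 0) • X (R.getD i default).2 := by
        funext i
        simp
      rw [h2, h, List.map_cons, List.sum_cons, smul_add]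
      congr 1
      simp only [List.getD_cons_zero]
      rw [← Int.cast_smul_eq_zsmul k, hl.1, mul_smul]

end SGNX

open SGNX in
theorem sgn_proof : Stmt_SgnAsm := by
  intro hI k _ hk ρ hρ
  obtain ⟨-, -, cl, hcl, hN⟩ := hk
  refine ⟨fun n => sg cl (ρ n), (primrec_sg hI hcl).comp hρ, ?_⟩
  intro Y _ _ M _ _ _ _ ev m op hop n
  have hw : ∀ (w : List ℕ) (x : M), wop op w x = wact (w.map ev) x := by
    intro w x
    induction w with
    | nil => rfl
    | cons i w ih =>
      change op i (wop op w x) = ⁅ev i, wact (w.map ev) x⁆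
      rw [hop, ih]
  obtain ⟨N, hN0, hNl⟩ := hN ((ρ n).map Prod.fst)
  have hNl : ((cl ((ρ n).map Prod.fst)).map fun a : ℤ => (a : k)) =
      (ρ n).map (fun t => N * cf k t.1) := by
    rw [List.map_map] at hNl
    refine Eq.trans ?_ hNl
    generalize cl ((ρ n).map Prod.fst) = l
    induction l with
    | nil => rfl
    | cons a l ih => simpa using ih
  have h1 := sum_range k (fun t : ℕ × List ℕ => wact (t.2.map ev) (m t.1)) N (ρ n)
    (cl ((ρ n).map Prod.fst)) hNl
  have h2 : sval op m (sg cl (ρ n)) = N • mvn k ev m (ρ n) := by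
    unfold sg
    rw [sval_flatMap]
    simp only [sval_one, hw]
    rw [h1]
    rfl
  rw [h2, smul_eq_zero]
  simp [hN0]

end Pool.Agent.HIP
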