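import Mathlib
import Pool.Agent.HIP.Basic

/-!
# Module SQ: symmetric tensors
-/

noncomputable section

set_option linter.unusedSectionVars false

namespace Pool.Agent.HIP

open Function
open scoped TensorProduct

section SQ

variable {k : Type} [Field k] {j : ℕ} {I : Type} {r : ℕ} {S : Stage k j (I ⊕ Fin r)}
  {A : Type} [AddCommGroup A] [Module k A] [LieRingModule S.Q A] [LieModule k S.Q A]
  {al0 : Fin r → A} (L : Lay S A al0)
  {M : Type} [AddCommGroup M] [Module k M] [LieRingModule L.P M] [LieModule k L.P M]

/-- words in `Z` are symmetric -/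
theorem Lay.wact_swap (a b : L.Z) (l : List L.Z) (m : M) :
    wact ((a :: b :: l).map L.zz) m = wact ((b :: a :: l).map L.zz) m := by
  simp only [List.map_cons, wact_cons]
  exact L.swap _ _ rfl rfl _

theorem Lay.wact_perm {l l' : List L.Z} (h : l.Perm l') (m : M) :
    wact (l.map L.zz) m = wact (l'.map L.zz) m := by
  induction h with
  | nil => rfl
  | cons x _ ih => simp only [List.map_cons, wact_cons, ih]
  | swap x y l => exact L.wact_swap _ _ _ _
  | trans _ _ ih1 ih2 => rw [ih1, ih2]

/-- the symmetric tensor of two words -/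
def Lay.SB (f : M) (l l' : List L.Z) : M ⊗[k] M :=
  wact (l.map L.zz) f ⊗ₜ[k] wact (l'.map L.zz) f +
    wact (l'.map L.zz) f ⊗ₜ[k] wact (l.map L.zz) f

theorem Lay.SB_symm (f : M) (l l' : List L.Z) : L.SB f l l' = L.SB f l' l := by
  unfold Lay.SB
  rw [add_comm]

theorem Lay.lie_SB (f : M) (a : L.Z) (l l' : List L.Z) :
    ⁅L.zz a, L.SB f l l'⁆ = L.SB f (a :: l) l' + L.SB f l (a :: l') := by
  unfold Lay.SB
  rw [lie_add, TensorProduct.LieModule.lie_tmul_right, TensorProduct.LieModule.lie_tmul_right]
  simp only [List.map_cons, wact_cons]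
  abel

theorem Lay.SB_move (f : M) (G : LieSubmodule k L.P (M ⊗[k] M)) (a : L.Z) (l l' : List L.Z)
    (h : L.SB f l l' ∈ G) : L.SB f (a :: l) l' ∈ G ↔ L.SB f l (a :: l') ∈ G := by
  have h1 : ⁅L.zz a, L.SB f l l'⁆ ∈ G := G.lie_mem h
  rw [L.lie_SB] at h1
  constructor
  · intro h2
    have := G.sub_mem h1 h2
    rwa [add_sub_cancel_left] at this
  · intro h2
    have := G.sub_mem h1 h2
    rwa [add_sub_cancel_right] at this

theorem sq_mem_of_smul {V : Type} [AddCommGroup V] [Module k V] [LieRingModule L.P V]
    (G : LieSubmodule k L.P V) (c : k) (hc : c ≠ 0) (x : V) (h : c • x ∈ G) : x ∈ G := by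
  have := G.smul_mem c⁻¹ h
  rwa [smul_smul, inv_mul_cancel₀ hc, one_smul] at this

/-- the main induction -/
theorem Lay.SB_mem (h2 : (2 : k) ≠ 0) (f : M)
    (hd : ∀ a a' : L.Z, L.ZP a → L.ZP a' → ∃ c : L.C, ∀ l : List L.Z,
      ⁅L.cc c, wact (l.map L.zz) f⁆ = (2 : k) • wact (((a :: a' :: l)).map L.zz) f)
    (G : LieSubmodule k L.P (M ⊗[k] M)) (hG : f ⊗ₜ[k] f ∈ G) :
    ∀ (n : ℕ) (l l' : List L.Z), l.length + l'.length = n → (∀ a ∈ l, L.ZP a) →
      (∀ a ∈ l', L.ZP a) → L.SB f l l' ∈ G := by
  intro n
  induction n using Nat.strong_induction_on with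
  | _ n ih =>
    -- moving everything to the left, with sign
    have hmove : ∀ (l l' : List L.Z), l.length + l'.length = n → (∀ a ∈ l, L.ZP a) →
        (∀ a ∈ l', L.ZP a) → ∃ ε : ℤˣ, ε = (-1) ^ l'.length ∧
          L.SB f l l' - (ε : ℤ) • L.SB f (l'.reverse ++ l) [] ∈ G := by
      intro l l'
      induction l' generalizing l with
      | nil =>
        intro _ _ _
        refine ⟨1, by simp, ?_⟩
        simp [G.zero_mem]
      | cons a l' ih' =>
        intro hn hl hl'
        have hn' : (a :: l).length + l'.length = n := by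
          simp only [List.length_cons] at hn ⊢; omega
        have hl1 : ∀ b ∈ a :: l, L.ZP b := by
          intro b hb
          rcases List.mem_cons.1 hb with rfl | hb
          · exact hl' _ (List.mem_cons_self ..)
          · exact hl b hb
        have hl2 : ∀ b ∈ l', L.ZP b := fun b hb => hl' b (List.mem_cons_of_mem _ hb)
        obtain ⟨ε, hε, hG'⟩ := ih' (a :: l) hn' hl1 hl2
        refine ⟨-ε, by rw [hε, List.length_cons, pow_succ]; simp, ?_⟩
        have hs : L.SB f l l' ∈ G := by
          refine ih (l.length + l'.length) ?_ l l' rfl hl hl2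
          simp only [List.length_cons] at hn; omega
        have h1 : ⁅L.zz a, L.SB f l l'⁆ ∈ G := G.lie_mem hs
        rw [L.lie_SB] at h1
        have h3 := G.sub_mem h1 hG'
        have e1 : L.SB f ((a :: l').reverse ++ l) [] = L.SB f (l'.reverse ++ a :: l) [] := by
          simp
        rw [e1]
        have e2 : L.SB f l (a :: l') - ((-ε : ℤˣ) : ℤ) • L.SB f (l'.reverse ++ a :: l) [] =
            L.SB f (a :: l) l' + L.SB f l (a :: l') -
              (L.SB f (a :: l) l' - (ε : ℤ) • L.SB f (l'.reverse ++ a :: l) []) := by
          rw [Units.val_neg, neg_smul]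
          abel
        rw [e2]
        exact h3
    -- the symmetric case
    have hmain : ∀ l : List L.Z, l.length = n → (∀ a ∈ l, L.ZP a) → L.SB f l [] ∈ G := by
      intro l hn hl
      rcases Nat.even_or_odd n with he | ho
      · match l, hn, hl with
        | [], _, _ =>
          have : L.SB f [] [] = (2 : k) • (f ⊗ₜ[k] f) := by
            simp [Lay.SB, two_smul]
          rw [this]
          exact G.smul_mem _ hG
        | [a], hn, _ =>
          exfalso
          rw [← hn] at he
          simp at he
        | a :: a' :: l, hn, hl =>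
          have ha : L.ZP a := hl _ (by simp)
          have ha' : L.ZP a' := hl _ (by simp)
          have hl' : ∀ b ∈ l, L.ZP b := fun b hb => hl b (by simp [hb])
          obtain ⟨c, hc⟩ := hd a a' ha ha'
          have hlen : l.length + 2 = n := by simpa using hn
          have h1 : L.SB f l [] ∈ G := ih l.length (by omega) l [] (by simp) hl' (by simp)
          have h3 : ⁅L.cc c, L.SB f l []⁆ ∈ G := G.lie_mem h1
          have e1 : ⁅L.cc c, L.SB f l []⁆ =
              (2 : k) • L.SB f (a :: a' :: l) [] + (2 : k) • L.SB f l [a, a'] := by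
            have hc0 := hc []
            have hcl := hc l
            unfold Lay.SB
            rw [lie_add, TensorProduct.LieModule.lie_tmul_right,
              TensorProduct.LieModule.lie_tmul_right, hc0, hcl]
            simp only [TensorProduct.tmul_smul, TensorProduct.smul_tmul', smul_add]
            abel
          obtain ⟨ε, hε, h4⟩ := hmove l [a, a'] (by simpa using hlen) hl' (by
            intro b hb
            simp only [List.mem_cons, List.not_mem_nil, or_false] at hb
            rcases hb with rfl | rfl
            · exact ha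
            · exact ha')
          have hε' : ε = 1 := by rw [hε]; simp
          rw [hε'] at h4
          have e3 : L.SB f (([a, a'] : List L.Z).reverse ++ l) [] = L.SB f (a :: a' :: l) [] := by
            unfold Lay.SB
            rw [L.wact_perm (l := ([a, a'] : List L.Z).reverse ++ l) (l' := a :: a' :: l)
              (by simpa using List.Perm.swap a a' l)]
          rw [e3, Units.val_one, one_smul] at h4
          rw [e1] at h3
          have h5 := G.sub_mem h3 (G.smul_mem (2 : k) h4)
          have e4 : (2 : k) • L.SB f (a :: a' :: l) [] + (2 : k) • L.SB f l [a, a'] -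
              (2 : k) • (L.SB f l [a, a'] - L.SB f (a :: a' :: l) []) =
              (4 : k) • L.SB f (a :: a' :: l) [] := by
            rw [smul_sub, show (4 : k) = 2 + 2 by norm_num, add_smul]
            abel
          rw [e4] at h5
          refine sq_mem_of_smul L G (4 : k) ?_ _ h5
          have : (4 : k) = 2 * 2 := by norm_num
          rw [this]
          exact mul_ne_zero h2 h2
      · obtain ⟨ε, hε, h4⟩ := hmove [] l (by simpa using hn) (by simp) hl
        have hε' : ε = -1 := by rw [hε, hn]; exact ho.neg_one_pow
        rw [hε', L.SB_symm f [] l] at h4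
        have e3 : L.SB f (l.reverse ++ []) [] = L.SB f l [] := by
          unfold Lay.SB
          rw [L.wact_perm (l := l.reverse ++ []) (l' := l) (by simpa using l.reverse_perm)]
        rw [e3] at h4
        have e4 : L.SB f l [] - ((-1 : ℤˣ) : ℤ) • L.SB f l [] = (2 : k) • L.SB f l [] := by
          rw [Units.val_neg, Units.val_one, neg_smul, one_smul, two_smul]
          abel
        rw [e4] at h4
        exact sq_mem_of_smul L G (2 : k) h2 _ h4
    intro l l' hn hl hl'
    obtain ⟨ε, hε, h4⟩ := hmove l l' hn hl hl'
    have h5 : L.SB f (l'.reverse ++ l) [] ∈ G := by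
      refine hmain _ ?_ ?_
      · simp; omega
      · intro b hb
        rw [List.mem_append, List.mem_reverse] at hb
        rcases hb with hb | hb
        · exact hl' b hb
        · exact hl b hb
    have h6 : (ε : ℤ) • L.SB f (l'.reverse ++ l) [] ∈ G := by
      rcases Int.units_eq_one_or ε with h | h
      · rw [h, Units.val_one, one_smul]; exact h5
      · rw [h, Units.val_neg, Units.val_one, neg_smul, one_smul]; exact G.neg_mem h5
    have h7 := G.add_mem h4 h6
    rwa [sub_add_cancel] at h7

end SQ

theorem sq_proof : Stmt_SQAsm := by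
  intro hspan hdbl k _ h2 j r I S A _ _ _ _ al0 L M _ _ _ _ e he x hx y hy
  have hx' := hspan k j r I S A al0 L M e he x hx
  have hy' := hspan k j r I S A al0 L M e he y hy
  have hd : ∀ a a' : L.Z, L.ZP a → L.ZP a' → ∃ c : L.C, ∀ l : List L.Z,
      ⁅L.cc c, wact (l.map L.zz) (L.te e)⁆ =
        (2 : k) • wact (((a :: a' :: l)).map L.zz) (L.te e) := by
    intro a a' ha ha'
    obtain ⟨c, hc⟩ := hdbl k j r I S A al0 L M e he a a' ha ha'
    exact ⟨c, fun l => (hc l).2⟩
  set G := LieSubmodule.lieSpan k L.P {L.te e ⊗ₜ[k] L.te e} with hGdef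
  have hG : L.te e ⊗ₜ[k] L.te e ∈ G := LieSubmodule.subset_lieSpan rfl
  have key := L.SB_mem h2 (L.te e) hd G hG
  generalize (toRes L.io M).symm x = x' at hx'
  generalize (toRes L.io M).symm y = y' at hy'
  induction hx' using Submodule.span_induction with
  | mem u hu =>
    obtain ⟨l, hl, rfl⟩ := hu
    induction hy' using Submodule.span_induction with
    | mem v hv =>
      obtain ⟨l', hl', rfl⟩ := hv
      exact key _ l l' rfl hl hl'
    | zero => simp [G.zero_mem]
    | add v v' _ _ h1 h3 =>
      rw [TensorProduct.tmul_add, TensorProduct.add_tmul, add_add_add_comm]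
      exact G.add_mem h1 h3
    | smul c v _ h1 =>
      have := G.smul_mem c h1
      rw [TensorProduct.tmul_smul, ← TensorProduct.smul_tmul', ← smul_add]
      exact this
  | zero => simp [G.zero_mem]
  | add v v' _ _ h1 h3 =>
    rw [TensorProduct.tmul_add, TensorProduct.add_tmul, add_add_add_comm]
    exact G.add_mem h1 h3
  | smul c v _ h1 =>
    have := G.smul_mem c h1
    rw [TensorProduct.tmul_smul, ← TensorProduct.smul_tmul', ← smul_add]
    exact this

end Pool.Agent.HIP
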