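import Pool.Agent.HIP.Basic

/-!
# STAGE0: stages of level zero
-/

noncomputable section

set_option linter.unusedSectionVars false

namespace Pool.Agent.HIP

open Function
open scoped TensorProduct

namespace Stage0

/-- the trivial module with basis `I` -/
def E0 (k : Type) (_Q : Type) (I : Type) : Type := I → k

section
variable (k : Type) [Field k] (Q : Type) [LieRing Q] [LieAlgebra k Q] (I : Type)

instance : AddCommGroup (E0 k Q I) := inferInstanceAs (AddCommGroup (I → k))
instance : Module k (E0 k Q I) := inferInstanceAs (Module k (I → k))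
instance [Finite I] : Module.Finite k (E0 k Q I) := inferInstanceAs (Module.Finite k (I → k))

instance : LieRingModule Q (E0 k Q I) where
  bracket _ _ := 0
  add_lie _ _ _ := (add_zero 0).symm
  lie_add _ _ _ := (add_zero 0).symm
  leibniz_lie _ _ _ := (add_zero 0).symm

instance : LieModule k Q (E0 k Q I) where
  smul_lie t _ _ := (smul_zero t).symm
  lie_smul t _ _ := (smul_zero t).symm

end

end Stage0

open Stage0 in
theorem stage0_proof : Stmt_Stage0 := by
  intro k _ I _ Q _ _ hQ hs
  have hQ0 : ∀ x : Q, x = 0 := by
    intro x
    have h1 : x ∈ LieAlgebra.derivedSeries k Q 0 := by simp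
    rwa [hs, LieSubmodule.mem_bot] at h1
  have htriv : ∀ (N : Type) [AddCommGroup N] [LieRingModule Q N] (x : Q) (n : N), ⁅x, n⁆ = 0 := by
    intro N _ _ x n
    rw [hQ0 x, zero_lie]
  have : Fintype I := Fintype.ofFinite I
  classical
  let eq : Fin (Fintype.card I) ≃ I := (Fintype.equivFin I).symm
  let b : Module.Basis I k (E0 k Q I) := Pi.basisFun k I
  let b' : Module.Basis (Fin (Fintype.card I)) k (E0 k Q I) := b.reindex eq.symm
  let bt := Module.finBasis k (E0 k Q I ⊗[k] E0 k Q I)
  have hspan : ∀ (ι : Type) (N : Type) [AddCommGroup N] [Module k N] [LieRingModule Q N]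
      [LieModule k Q N] (c : Module.Basis ι k N),
      LieSubmodule.lieSpan k Q (Set.range c) = ⊤ := by
    intro ι N _ _ _ _ c
    rw [eq_top_iff]
    intro x _
    have h1 : Submodule.span k (Set.range c) ≤
        (LieSubmodule.lieSpan k Q (Set.range c) : Submodule k N) :=
      LieSubmodule.submodule_span_le_lieSpan
    rw [c.span_eq] at h1
    exact h1 Submodule.mem_top
  obtain ⟨ev, hev⟩ := id hQ
  refine ⟨{ Y := Q
            Q := Q
            rpY := hQ
            solY := hs
            fgQ := ⟨ev, hev.gens⟩
            ι := LieHom.id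
            ι_inj := fun _ _ h => h
            E := E0 k Q I
            m := Fintype.card I
            e := b'
            Rel := ∅
            finRel := Set.finite_empty
            presE := ?_
            eta := b
            free := ?_
            s := Module.finrank k (E0 k Q I ⊗[k] E0 k Q I)
            g := bt
            sq := ?_ }, LieHom.id, fun _ _ h => h⟩
  · refine ⟨fun R hR => absurd hR (Set.notMem_empty R), hspan _ _ b', ?_⟩
    intro N _ _ _ _ n _
    refine ⟨{ toLinearMap := b'.constr k n
              map_lie' := ?_ }, ?_⟩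
    · intro x m
      change (b'.constr k n) ⁅x, m⁆ = ⁅x, (b'.constr k n) m⁆
      rw [htriv, htriv, map_zero]
    · intro i
      exact b'.constr_basis k n i
  · intro N _ _ _ _ n
    refine ⟨{ toLinearMap := ((b.constr k n) ∘ₗ
                ((toRes (LieHom.id : Q →ₗ⁅k⁆ Q) (E0 k Q I)).symm : _ →ₗ[k] _)) ∘ₗ
                (GenBy (LieHom.id : Q →ₗ⁅k⁆ Q) (E0 k Q I) b).toSubmodule.subtype
              map_lie' := ?_ }, ?_⟩
    · intro x m
      rw [htriv, htriv]
      exact map_zero _
    · intro i
      exact b.constr_basis k n i
  · intro x _ y _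
    rw [hspan]
    exact LieSubmodule.mem_top _

end Pool.Agent.HIP
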