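import Mathlib
import Pool.Agent.HIP.Basic

/-!
# STEP: from stages of level `j` to stages of level `j + 1`
-/

noncomputable section

set_option linter.unusedSectionVars false

namespace Pool.Agent.HIP

open Function
open scoped TensorProduct

namespace STEP

section free
variable {k : Type} [Field k] {Q Y : Type} [LieRing Q] [LieAlgebra k Q] [LieRing Y]
  [LieAlgebra k Y] (ι : Q →ₗ⁅k⁆ Y) {E M N : Type} [AddCommGroup E] [Module k E]
  [LieRingModule Y E] [LieModule k Y E] [AddCommGroup M] [Module k M] [LieRingModule Y M]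
  [LieModule k Y M] [AddCommGroup N] [Module k N] [LieRingModule Q N] [LieModule k Q N]

/-- the elements which are mapped into the image of `h` -/
def pull (F : E →ₗ⁅k, Y⁆ M) (h : N →ₗ[k] M) (hh : ∀ (q : Q) (x : N), h ⁅q, x⁆ = ⁅ι q, h x⁆) :
    LieSubmodule k Q (Res ι E) where
  carrier := {x | ∃ y : N, h y = F ((toRes ι E).symm x)}
  add_mem' := by
    rintro a b ⟨y, hy⟩ ⟨z, hz⟩
    exact ⟨y + z, by rw [map_add, hy, hz, map_add, map_add]⟩
  zero_mem' := ⟨0, by rw [map_zero, map_zero, map_zero]⟩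
  smul_mem' := by
    rintro c a ⟨y, hy⟩
    exact ⟨c • y, by rw [map_smul, hy, map_smul, map_smul]⟩
  lie_mem := by
    rintro q a ⟨y, hy⟩
    refine ⟨⁅q, y⁆, ?_⟩
    rw [hh, hy, Res.lie_def, LinearEquiv.symm_apply_apply, LieModuleHom.map_lie]

/-- a homomorphism which lands in the image of an injective map factors -/
theorem factor (F : E →ₗ⁅k, Y⁆ M) (h : N →ₗ[k] M) (hinj : Injective h)
    (hh : ∀ (q : Q) (x : N), h ⁅q, x⁆ = ⁅ι q, h x⁆) {I : Type} (eta : I → E) (n : I → N)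
    (hn : ∀ b, F (eta b) = h (n b)) :
    ∃ G : (GenBy ι E eta) →ₗ⁅k, Q⁆ N,
      ∀ b, G ⟨toRes ι E (eta b), LieSubmodule.subset_lieSpan ⟨b, rfl⟩⟩ = n b := by
  have hle : GenBy ι E eta ≤ pull ι F h hh := by
    rw [LieSubmodule.lieSpan_le]
    rintro _ ⟨b, rfl⟩
    exact ⟨n b, (hn b).symm⟩
  have hex : ∀ x : GenBy ι E eta, ∃ y : N, h y = F ((toRes ι E).symm x) := fun x => hle x.2
  choose G hG using hex
  refine ⟨{ toFun := G, map_add' := ?_, map_smul' := ?_, map_lie' := ?_ }, ?_⟩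
  · intro x y
    apply hinj
    rw [hG, map_add, hG, hG]
    simp
  · intro c x
    apply hinj
    rw [hG, map_smul, hG]
    simp
  · intro q x
    apply hinj
    show h (G ⁅q, x⁆) = h ⁅q, G x⁆
    rw [hG, hh, hG, ← LieModuleHom.map_lie]
    rfl
  · intro b
    apply hinj
    show h (G _) = _
    rw [hG, ← hn]
    rfl

end free

end STEP

theorem step_proof : Stmt_StepAsm := by
  intro hKK hEx hInd hLayEx hLayRP hFinRel hModel hSQ k _ hk j hS I _ Q _ _ hQ hQs
  obtain ⟨Q', _, _, ev, D, _, _, _, _, r, f, ρ, φ, hQ', hQ's, hD, hφ⟩ := hKK k j Q hQ hQs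
  obtain ⟨S, η, hη⟩ := hS (I ⊕ Fin r) Q' ⟨ev, hQ'⟩ hQ's
  -- the induced module
  obtain ⟨A, _, _, _, _, al0, hA⟩ := hEx k S.Q (Fin r)
    (Set.range fun n => conv k r (fun i => η (ev i)) (ρ n))
  have hrel : (Set.range fun n => conv k r (fun i => η (ev i)) (ρ n)) =
      MR.map η '' (Set.range fun n => conv k r ev (ρ n)) := by
    rw [← Set.range_comp]
    congr 1
    funext n
    exact conv_comp (k := k) (η : Q' → S.Q) r ev (ρ n)
  obtain ⟨jD, hjD, hjDl, -⟩ := hInd k Q' S.Q η hη (Fin r) D f _ hD.2 A al0 (by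
    rw [← hrel]; exact hA)
  -- the layer
  obtain ⟨L⟩ := hLayEx k j r I S A al0 _ hA
  obtain ⟨K, hK⟩ := hQ'.gens.1
  obtain ⟨hRP, hsol, ev', hev'⟩ := hLayRP k hk j r I S A al0 (fun i => η (ev i)) ρ
    ⟨K, fun i hi => by rw [hK i hi, map_zero]⟩ ⟨hD.1, hA⟩ L
  obtain ⟨Rel, hfin, hRel⟩ := hFinRel k j r I S A al0 L
  -- the new module
  obtain ⟨E, _, _, _, _, e, hE⟩ := hEx k L.P (Fin 1) Rel
  have he : e = fun _ => e 0 := by
    funext i
    rw [Subsingleton.elim i 0]
  have hgood : L.Good E (e 0) := by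
    rw [← hRel E (e 0), ← he]
    exact hE.1
  refine ⟨
    { Y := L.P
      Q := L.QP
      rpY := hRP
      solY := hsol
      fgQ := ⟨ev', hev'⟩
      ι := L.io
      ι_inj := L.io_inj
      E := E
      m := 1
      e := e
      Rel := Rel
      finRel := hfin
      presE := hE
      eta := fun b => L.et (e 0) b
      free := ?_
      s := 1
      g := fun _ => L.te (e 0) ⊗ₜ[k] L.te (e 0)
      sq := ?_ }, ?_⟩
  · intro N _ _ _ _ n
    obtain ⟨M, _, _, _, _, e', h, hg, hinj, hh, hd⟩ := hModel k j r I S A al0 L N n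
    obtain ⟨F, hF⟩ := hE.2.2 M (fun _ => e') ((hRel M e').2 hg)
    refine STEP.factor L.io F h hinj hh (fun b => L.et (e 0) b) n ?_
    intro b
    rw [hd]
    show F (L.et (e 0) b) = _
    unfold Lay.et Lay.te
    rw [LieModuleHom.map_lie, LieModuleHom.map_lie, hF]
  · intro x hx y hy
    have := hSQ k hk.1 j r I S A al0 L E (e 0) hgood x hx y hy
    rwa [Set.range_const]
  · refine ⟨(Sd.map η jD hjDl).comp φ, ?_⟩
    intro a b hab
    exact hφ (Sd.map_injective hjDl hη hjD hab)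

end Pool.Agent.HIP
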