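import Mathlib
import Pool.Agent.HIP.Basic

/-!
# SUBM : substitution in module expressions
-/

noncomputable section

set_option linter.unusedSectionVars false

namespace Pool.Agent.HIP

namespace SUBMX

open Function

/-- multiplication by one term -/
def mul1 (s : Cf × List ℕ) (B : LRel) : LRel := B.map fun t => (s.1.mul t.1, s.2 ++ t.2)

/-- product of associative expressions -/
def mulA (A B : LRel) : LRel := A.flatMap fun s => mul1 s B

/-- expansion of a word -/
def expand (V : ℕ → LRel) (w : List ℕ) : LRel := w.foldr (fun x acc => mulA (V x) acc) [((1, 0), [])]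

/-- substitution in one term -/
def sub1 (V : ℕ → LRel) (t : Cf × ℕ × List ℕ) : MRel :=
  (expand V t.2.2).map fun s => (t.1.mul s.1, t.2.1, s.2)

/-- substitution -/
def subA (V : ℕ → LRel) (R : MRel) : MRel := R.flatMap (sub1 V)

theorem primrec_cfmul (hI : Stmt_Int) : Primrec₂ Cf.mul := by
  obtain ⟨hmul, -⟩ := hI
  unfold Cf.mul
  refine Primrec.pair (hmul.comp (Primrec.fst.comp Primrec.fst) (Primrec.fst.comp Primrec.snd)) ?_
  refine Primrec.nat_sub.comp (Primrec.nat_mul.comp ?_ ?_) (Primrec.const 1)
  · exact Primrec.succ.comp (Primrec.snd.comp Primrec.fst)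
  · exact Primrec.succ.comp (Primrec.snd.comp Primrec.snd)

theorem primrec_mul1 (hI : Stmt_Int) : Primrec₂ mul1 := by
  unfold mul1
  refine Primrec.list_map Primrec.snd ?_
  refine Primrec.pair ?_ ?_
  · exact (primrec_cfmul hI).comp (Primrec.fst.comp (Primrec.fst.comp Primrec.fst))
      (Primrec.fst.comp Primrec.snd)
  · exact Primrec.list_append.comp (Primrec.snd.comp (Primrec.fst.comp Primrec.fst))
      (Primrec.snd.comp Primrec.snd)

theorem primrec_mulA (hI : Stmt_Int) : Primrec₂ mulA := by
  unfold mulA
  refine Primrec.list_flatMap Primrec.fst ?_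
  exact (primrec_mul1 hI).comp Primrec.snd (Primrec.snd.comp Primrec.fst)

theorem primrec_expand (hI : Stmt_Int) {V : ℕ → LRel} (hV : Primrec V) : Primrec (expand V) := by
  unfold expand
  refine Primrec.list_foldr (h := fun (_ : List ℕ) (p : ℕ × LRel) => mulA (V p.1) p.2)
    Primrec.id (Primrec.const _) ?_
  exact (primrec_mulA hI).comp (hV.comp (Primrec.fst.comp Primrec.snd))
    (Primrec.snd.comp Primrec.snd)

theorem primrec_subA (hI : Stmt_Int) {V : ℕ → LRel} (hV : Primrec V) : Primrec (subA V) := by
  unfold subA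
  refine Primrec.list_flatMap Primrec.id ?_
  unfold sub1
  refine Primrec.list_map ((primrec_expand hI hV).comp
    (Primrec.snd.comp (Primrec.snd.comp Primrec.snd))) ?_
  refine Primrec.pair ?_ (Primrec.pair ?_ ?_)
  · exact (primrec_cfmul hI).comp (Primrec.fst.comp (Primrec.snd.comp Primrec.fst))
      (Primrec.fst.comp Primrec.snd)
  · exact Primrec.fst.comp (Primrec.snd.comp (Primrec.snd.comp Primrec.fst))
  · exact Primrec.snd.comp Primrec.snd

section
variable {k : Type} [Field k] {Y : Type} [LieRing Y] [LieAlgebra k Y] {M : Type}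
  [AddCommGroup M] [Module k M] [LieRingModule Y M] [LieModule k Y M]

theorem aact_nil (ev : ℕ → Y) (m : M) : aact k ev [] m = 0 := rfl

theorem aact_cons (ev : ℕ → Y) (t : Cf × List ℕ) (R : LRel) (m : M) :
    aact k ev (t :: R) m = cf k t.1 • wact (t.2.map ev) m + aact k ev R m := by
  simp [aact]

theorem aact_append (ev : ℕ → Y) (R S : LRel) (m : M) :
    aact k ev (R ++ S) m = aact k ev R m + aact k ev S m := by
  simp [aact]

theorem aact_mul1 (ev : ℕ → Y) (s : Cf × List ℕ) (B : LRel) (m : M) :
    aact k ev (mul1 s B) m = cf k s.1 • wact (s.2.map ev) (aact k ev B m) := by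
  unfold mul1
  induction B with
  | nil => rw [List.map_nil, aact_nil, wact_zero, smul_zero]
  | cons t B ih =>
    rw [List.map_cons, aact_cons, aact_cons, ih, wact_add, smul_add, wact_smul, cf_mul,
      List.map_append, wact_append, mul_smul]

theorem aact_mulA (ev : ℕ → Y) (A B : LRel) (m : M) :
    aact k ev (mulA A B) m = aact k ev A (aact k ev B m) := by
  unfold mulA
  induction A with
  | nil => rfl
  | cons s A ih => rw [List.flatMap_cons, aact_append, ih, aact_mul1, aact_cons]

theorem aact_expand (ev : ℕ → Y) (V W : ℕ → LRel)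
    (hV : ∀ i (m : M), aact k ev (V i) m = ⁅lval k ev (W i), m⁆) (w : List ℕ) (m : M) :
    aact k ev (expand V w) m = wact (w.map fun i => lval k ev (W i)) m := by
  induction w with
  | nil =>
    change aact k ev [((1, 0), [])] m = m
    rw [aact_cons, aact_nil, add_zero]
    simp [cf]
  | cons x w ih =>
    change aact k ev (mulA (V x) (expand V w)) m = _
    rw [aact_mulA, ih, hV, List.map_cons, wact_cons]

theorem mvn_sub1 (ev : ℕ → Y) (n : ℕ → M) (V W : ℕ → LRel)
    (hV : ∀ i (m : M), aact k ev (V i) m = ⁅lval k ev (W i), m⁆) (t : Cf × ℕ × List ℕ) :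
    mvn k ev n (sub1 V t) =
      cf k t.1 • wact (t.2.2.map fun i => lval k ev (W i)) (n t.2.1) := by
  rw [← aact_expand ev V W hV]
  unfold sub1
  generalize expand V t.2.2 = l
  induction l with
  | nil => rw [List.map_nil, mvn_nil, aact_nil, smul_zero]
  | cons s l ih =>
    rw [List.map_cons, mvn_cons, ih, aact_cons, smul_add, cf_mul, mul_smul]

theorem mvn_subA (ev : ℕ → Y) (n : ℕ → M) (V W : ℕ → LRel)
    (hV : ∀ i (m : M), aact k ev (V i) m = ⁅lval k ev (W i), m⁆) (R : MRel) :
    mvn k ev n (subA V R) = mvn k (fun i => lval k ev (W i)) n R := by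
  unfold subA
  induction R with
  | nil => rfl
  | cons t R ih => rw [List.flatMap_cons, mvn_append, ih, mvn_cons, mvn_sub1 ev n V W hV]

end

end SUBMX

open SUBMX in
theorem subm_proof : Stmt_SubMAsm := by
  intro hI hA W K hK
  obtain ⟨asc, hasc, hact⟩ := hA
  have hW : Primrec W := by
    have h : W = fun i => ((List.range K).map W).getD i [] := by
      funext i
      by_cases hi : i < K
      · rw [List.getD_eq_getElem _ _ (by simpa using hi)]
        simp
      · rw [List.getD_eq_default _ _ (by simpa using hi), hK i (not_lt.1 hi)]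
    rw [h]
    exact (Primrec.list_getD []).comp (Primrec.const _) Primrec.id
  refine ⟨subA fun i => asc (W i), primrec_subA hI (hasc.comp hW), ?_⟩
  intro k _ Y _ _ M _ _ _ _ ev n R
  exact mvn_subA ev n _ W (fun i m => hact k Y M ev (W i) m) R

end Pool.Agent.HIP
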