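import Mathlib
import Pool.Agent.HIP.Basic

/-!
# The submodule generated by the new free elements is spanned by words
-/

noncomputable section

set_option linter.unusedSectionVars false

namespace Pool.Agent.HIP

open Function
open scoped TensorProduct

namespace Span

section
variable {k : Type} [Field k] {j : ℕ} {I : Type} {r : ℕ} {S : Stage k j (I ⊕ Fin r)}
  {A : Type} [AddCommGroup A] [Module k A] [LieRingModule S.Q A] [LieModule k S.Q A]
  {al0 : Fin r → A} (L : Lay S A al0)
  {M : Type} [AddCommGroup M] [Module k M] [LieRingModule L.P M] [LieModule k L.P M]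

/-- the span of the words -/
def V (e : M) : Submodule k M :=
  Submodule.span k {m : M | ∃ l : List L.Z, (∀ a ∈ l, L.ZP a) ∧ m = wact (l.map L.zz) (L.te e)}

variable {L}

theorem word_mem {e : M} {l : List L.Z} (hl : ∀ a ∈ l, L.ZP a) :
    wact (l.map L.zz) (L.te e) ∈ V L e := Submodule.subset_span ⟨l, hl, rfl⟩

theorem zz_mem {e : M} {a : L.Z} (ha : L.ZP a) {m : M} (hm : m ∈ V L e) :
    ⁅L.zz a, m⁆ ∈ V L e := by
  unfold V at hm
  induction hm using Submodule.span_induction with
  | mem x hx =>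
    obtain ⟨l, hl, rfl⟩ := hx
    have : ⁅L.zz a, wact (l.map L.zz) (L.te e)⁆ = wact ((a :: l).map L.zz) (L.te e) := rfl
    rw [this]
    exact word_mem (by simpa [ha] using hl)
  | zero => rw [lie_zero]; exact (V L e).zero_mem
  | add x y _ _ hx hy => rw [lie_add]; exact (V L e).add_mem hx hy
  | smul c x _ hx => rw [lie_smul]; exact (V L e).smul_mem c hx

theorem zp_lie {a : L.Z} (ha : L.ZP a) (q : S.Q) : L.ZP ⁅S.ι q, a⁆ := by
  unfold Lay.ZP at ha ⊢
  rw [LieModuleHom.map_lie, ← Res.lie_toRes]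
  exact LieSubmodule.lie_mem _ ha

theorem yy_word {e : M} (h : L.Good M e) (q : S.Q) (l : List L.Z) (hl : ∀ a ∈ l, L.ZP a) :
    ⁅L.yy (S.ι q), wact (l.map L.zz) (L.te e)⁆ ∈ V L e := by
  induction l with
  | nil =>
    rw [List.map_nil, wact_nil, h.q_te]
    exact (V L e).zero_mem
  | cons a l ih =>
    have ha : L.ZP a := hl a (by simp)
    have hl' : ∀ b ∈ l, L.ZP b := fun b hb => hl b (by simp [hb])
    rw [List.map_cons, wact_cons, leibniz_lie, L.yy_zz]
    exact (V L e).add_mem (zz_mem (zp_lie ha q) (word_mem hl')) (zz_mem ha (ih hl'))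

theorem yy_mem {e : M} (h : L.Good M e) (q : S.Q) {m : M} (hm : m ∈ V L e) :
    ⁅L.yy (S.ι q), m⁆ ∈ V L e := by
  unfold V at hm
  induction hm using Submodule.span_induction with
  | mem x hx =>
    obtain ⟨l, hl, rfl⟩ := hx
    exact yy_word h q l hl
  | zero => rw [lie_zero]; exact (V L e).zero_mem
  | add x y _ _ hx hy => rw [lie_add]; exact (V L e).add_mem hx hy
  | smul c x _ hx => rw [lie_smul]; exact (V L e).smul_mem c hx

theorem zp_xx (b : I ⊕ Fin r) : L.ZP (L.xx b) := by
  unfold Lay.ZP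
  rw [L.pi_xx]
  exact LieSubmodule.subset_lieSpan ⟨b, rfl⟩

theorem aa_te {e : M} (h : L.Good M e) (a : A) : ⁅L.aa (L.jA a), L.te e⁆ ∈ V L e := by
  refine L.presA.induction (p := fun a => ⁅L.aa (L.jA a), L.te e⁆ ∈ V L e) ?_ ?_ ?_ ?_ ?_ a
  · change ⁅L.aa (L.jA 0), L.te e⁆ ∈ V L e
    rw [map_zero, map_zero, zero_lie]
    exact (V L e).zero_mem
  · intro x y hx hy
    change ⁅L.aa (L.jA (x + y)), L.te e⁆ ∈ V L e
    rw [map_add, map_add, add_lie]
    exact (V L e).add_mem hx hy
  · intro c x hx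
    change ⁅L.aa (L.jA (c • x)), L.te e⁆ ∈ V L e
    rw [map_smul, map_smul, smul_lie]
    exact (V L e).smul_mem c hx
  · intro q x hx
    change ⁅L.aa (L.jA ⁅q, x⁆), L.te e⁆ ∈ V L e
    rw [L.jA_lie, ← L.yy_aa, lie_lie, h.q_te, lie_zero, sub_zero]
    exact yy_mem h q hx
  · intro i
    change ⁅L.aa (L.jA (al0 i)), L.te e⁆ ∈ V L e
    rw [L.jA_al]
    have h4 := h.R4 i
    have : ⁅L.aa (L.al i), L.te e⁆ = wact ([L.xx (Sum.inr i)].map L.zz) (L.te e) := h4
    rw [this]
    exact word_mem (by simpa using zp_xx (L := L) (Sum.inr i))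

theorem wact_mem {e : M} {l : List L.Z} (hl : ∀ a ∈ l, L.ZP a) {m : M} (hm : m ∈ V L e) :
    wact (l.map L.zz) m ∈ V L e := by
  induction l with
  | nil => exact hm
  | cons a l ih =>
    rw [List.map_cons, wact_cons]
    exact zz_mem (hl a (by simp)) (ih fun b hb => hl b (by simp [hb]))

theorem aa_wact (x : L.AY) (l : List L.Z) (m : M) :
    ⁅L.aa x, wact (l.map L.zz) m⁆ = wact (l.map L.zz) ⁅L.aa x, m⁆ := by
  induction l with
  | nil => rfl
  | cons a l ih =>
    rw [List.map_cons, wact_cons, wact_cons, L.swap _ _ (L.aa_q x) (L.zz_q a), ih]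

theorem aa_mem {e : M} (h : L.Good M e) (a : A) {m : M} (hm : m ∈ V L e) :
    ⁅L.aa (L.jA a), m⁆ ∈ V L e := by
  unfold V at hm
  induction hm using Submodule.span_induction with
  | mem x hx =>
    obtain ⟨l, hl, rfl⟩ := hx
    rw [aa_wact]
    exact wact_mem hl (aa_te h a)
  | zero => rw [lie_zero]; exact (V L e).zero_mem
  | add x y _ _ hx hy => rw [lie_add]; exact (V L e).add_mem hx hy
  | smul c x _ hx => rw [lie_smul]; exact (V L e).smul_mem c hx

theorem io_mem {e : M} (h : L.Good M e) (x : L.QP) {m : M} (hm : m ∈ V L e) :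
    ⁅L.io x, m⁆ ∈ V L e := by
  rw [L.io_apply, add_lie]
  exact (V L e).add_mem (aa_mem h _ hm) (yy_mem h _ hm)

/-- the span as a submodule over the new algebra -/
def W {e : M} (h : L.Good M e) : LieSubmodule k L.QP (Res L.io M) where
  carrier := {x | (toRes L.io M).symm x ∈ V L e}
  add_mem' := by
    intro a b ha hb
    change (toRes L.io M).symm (a + b) ∈ V L e
    rw [map_add]
    exact (V L e).add_mem ha hb
  zero_mem' := by
    change (toRes L.io M).symm 0 ∈ V L e
    rw [map_zero]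
    exact (V L e).zero_mem
  smul_mem' := by
    intro c a ha
    change (toRes L.io M).symm (c • a) ∈ V L e
    rw [map_smul]
    exact (V L e).smul_mem c ha
  lie_mem := by
    intro x a ha
    change (toRes L.io M).symm ⁅x, a⁆ ∈ V L e
    rw [Res.lie_def, LinearEquiv.symm_apply_apply]
    exact io_mem h x ha

end

end Span

theorem span_proof : Stmt_Span := by
  intro k _ j r I S A _ _ _ _ al0 L M _ _ _ _ e h x hx
  have h1 : GenBy L.io M (fun b => L.et e b) ≤ Span.W h := by
    unfold GenBy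
    rw [LieSubmodule.lieSpan_le]
    rintro _ ⟨b, rfl⟩
    change (toRes L.io M).symm (toRes L.io M (L.et e b)) ∈ Span.V L e
    rw [LinearEquiv.symm_apply_apply]
    have : L.et e b = wact ([L.xx (Sum.inl b)].map L.zz) (L.te e) := rfl
    rw [this]
    exact Span.word_mem (by simpa using Span.zp_xx (L := L) (Sum.inl b))
  exact h1 hx

end Pool.Agent.HIP
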