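import Mathlib
import Pool.Agent.HIP.Basic

/-!
# TOP
-/

noncomputable section

set_option linter.unusedSectionVars false

namespace Pool.Agent.HIP

open Function
open scoped TensorProduct

namespace TOP

section gen
variable {k : Type} [Field k] {P G H : Type} [LieRing P] [LieAlgebra k P] [LieRing G]
  [LieAlgebra k G] [LieRing H] [LieAlgebra k H]

/-- a homomorphism of Lie algebras as a homomorphism of restricted adjoint modules -/
def adjHom (θ : P →ₗ⁅k⁆ G) (F : G →ₗ⁅k⁆ H) (θ' : P →ₗ⁅k⁆ H) (h : ∀ x, θ' x = F (θ x)) :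
    Res θ G →ₗ⁅k, P⁆ Res θ' H where
  toFun x := toRes θ' H (F ((toRes θ G).symm x))
  map_add' x y := by simp
  map_smul' c x := by simp
  map_lie' := by
    intro x m
    simp only [Res.lie_def, LinearEquiv.symm_apply_apply, LieHom.map_lie, h]

theorem adjHom_apply (θ : P →ₗ⁅k⁆ G) (F : G →ₗ⁅k⁆ H) (θ' : P →ₗ⁅k⁆ H)
    (h : ∀ x, θ' x = F (θ x)) (x : G) :
    adjHom θ F θ' h (toRes θ G x) = toRes θ' H (F x) := rfl

theorem adjHom_apply' (θ : P →ₗ⁅k⁆ G) (F : G →ₗ⁅k⁆ H) (θ' : P →ₗ⁅k⁆ H)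
    (h : ∀ x, θ' x = F (θ x)) (x : Res θ G) :
    adjHom θ F θ' h x = toRes θ' H (F ((toRes θ G).symm x)) := rfl

/-- a module map into the module part of a semidirect product -/
def modHom {R M M' : Type} [LieRing R] [LieAlgebra k R] [AddCommGroup M] [Module k M]
    [LieRingModule P M] [LieModule k P M] [AddCommGroup M'] [Module k M'] [LieRingModule R M']
    [LieModule k R M'] (fb : P →ₗ⁅k⁆ R) (j : M →ₗ[k] M') (hj : ∀ x m, j ⁅x, m⁆ = ⁅fb x, j m⁆)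
    (θ' : P →ₗ⁅k⁆ Sd M' R) (h : ∀ x, θ' x = Sd.inr k M' (fb x)) :
    M →ₗ⁅k, P⁆ Res θ' (Sd M' R) where
  toFun m := toRes θ' _ (Sd.inl k R (j m))
  map_add' x y := by simp
  map_smul' c x := by simp
  map_lie' := by
    intro x m
    rw [Res.lie_toRes, h, Sd.lie_inr_inl, hj]

theorem modHom_apply {R M M' : Type} [LieRing R] [LieAlgebra k R] [AddCommGroup M] [Module k M]
    [LieRingModule P M] [LieModule k P M] [AddCommGroup M'] [Module k M'] [LieRingModule R M']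
    [LieModule k R M'] (fb : P →ₗ⁅k⁆ R) (j : M →ₗ[k] M') (hj : ∀ x m, j ⁅x, m⁆ = ⁅fb x, j m⁆)
    (θ' : P →ₗ⁅k⁆ Sd M' R) (h : ∀ x, θ' x = Sd.inr k M' (fb x)) (m : M) :
    modHom fb j hj θ' h m = toRes θ' _ (Sd.inl k R (j m)) := rfl

/-- the quotient map of a Lie algebra by an ideal -/
def qmk (I : LieIdeal k G) : G →ₗ⁅k⁆ G ⧸ I where
  toFun x := LieSubmodule.Quotient.mk x
  map_add' _ _ := rfl
  map_smul' _ _ := rfl
  map_lie' := rfl

theorem qmk_eq_zero (I : LieIdeal k G) (x : G) : qmk I x = 0 ↔ x ∈ I :=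
  LieSubmodule.Quotient.mk_eq_zero'

theorem qmk_surj (I : LieIdeal k G) : Surjective (qmk I) :=
  LieSubmodule.Quotient.surjective_mk' I

/-- homomorphisms out of a quotient -/
theorem exists_lift (S : Set G) (F : G →ₗ⁅k⁆ H) (hF : ∀ x ∈ S, F x = 0) :
    ∃ F' : (G ⧸ LieSubmodule.lieSpan k G S) →ₗ⁅k⁆ H,
      ∀ x, F' (qmk (LieSubmodule.lieSpan k G S) x) = F x := by
  have h1 : (LieSubmodule.lieSpan k G S) ≤ F.ker := by
    rw [LieSubmodule.lieSpan_le]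
    intro x hx
    exact LieHom.mem_ker.2 (hF x hx)
  let I : LieIdeal k G := LieSubmodule.lieSpan k G S
  let f : (G ⧸ I) →ₗ[k] H := Submodule.liftQ (I : Submodule k G) (F : G →ₗ[k] H) (by
    intro x hx
    exact LieHom.mem_ker.1 (h1 hx))
  have hf : ∀ x, f (qmk I x) = F x := fun x => rfl
  refine ⟨{ f with
    map_lie' := ?_ }, fun x => rfl⟩
  intro x y
  obtain ⟨a, rfl⟩ := qmk_surj I x
  obtain ⟨b, rfl⟩ := qmk_surj I y
  change f ⁅qmk I a, qmk I b⁆ = ⁅f (qmk I a), f (qmk I b)⁆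
  rw [← LieHom.map_lie, hf, hf, hf, LieHom.map_lie]

end gen

section lay
variable {k : Type} [Field k] {j : ℕ} {I : Type} {r : ℕ} {S : Stage k j (I ⊕ Fin r)}
  {A : Type} [AddCommGroup A] [Module k A] [LieRingModule S.Q A] [LieModule k S.Q A]
  {al0 : Fin r → A} (L : Lay S A al0)

theorem map_et {M N : Type} [AddCommGroup M] [Module k M] [LieRingModule L.P M] [LieModule k L.P M]
    [AddCommGroup N] [Module k N] [LieRingModule L.P N] [LieModule k L.P N]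
    (F : M →ₗ⁅k, L.P⁆ N) (e : M) (b : I) : F (L.et e b) = L.et (F e) b := by
  unfold Lay.et Lay.te
  rw [LieModuleHom.map_lie, LieModuleHom.map_lie]

/-- the homomorphism from the semidirect product of a module over the new `Q` -/
theorem exists_theta (hComm : Stmt_Comm) (h2 : (2 : k) ≠ 0)
    (G : Type) [LieRing G] [LieAlgebra k G] (θ : L.P →ₗ⁅k⁆ G) (e : G)
    (hGood : L.Good (Res θ G) (toRes θ G e)) (hz : ∀ i, ⁅⁅θ (L.zz (L.z i)), e⁆, e⁆ = 0)
    (D : Type) [AddCommGroup D] [Module k D] [LieRingModule L.QP D] [LieModule k L.QP D]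
    (d : I → D) (Rel : Set (MR k L.QP I)) (hD : Pres k L.QP D d Rel)
    (hRel : ∀ R ∈ Rel, mval (fun b => L.et (toRes θ G e) b) (MR.map L.io R) = 0) :
    ∃ Θ : Sd D L.QP →ₗ⁅k⁆ G, (∀ q, Θ (Sd.inr k D q) = θ (L.io q)) ∧
      ∀ b, Θ (Sd.inl k L.QP (d b)) = (toRes θ G).symm (L.et (toRes θ G e) b) := by
  let V : LieSubmodule k L.QP (Res L.io (Res θ G)) :=
    GenBy L.io (Res θ G) (fun b => L.et (toRes θ G e) b)
  have hV : V = GenBy L.io (Res θ G) (fun b => L.et (toRes θ G e) b) := rfl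
  let n : I → V := fun b => ⟨toRes L.io (Res θ G) (L.et (toRes θ G e) b),
    LieSubmodule.subset_lieSpan ⟨b, rfl⟩⟩
  have hn : ∀ R ∈ Rel, mval n R = 0 := by
    intro R hR
    have h3 : V.incl (mval n R) = 0 := by
      rw [map_mval]
      have h4 : (fun i => V.incl (n i)) =
          fun i => toRes L.io (Res θ G) (L.et (toRes θ G e) i) := rfl
      rw [h4, mval_res, hRel R hR, map_zero]
    exact Subtype.ext h3
  obtain ⟨F, hF⟩ := hD.2.2 V n hn
  let f : D →ₗ[k] G :=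
    { toFun := fun x => (toRes θ G).symm ((toRes L.io (Res θ G)).symm (V.incl (F x)))
      map_add' := by intro x y; simp
      map_smul' := by intro c x; simp }
  have hf1 : ∀ (q : L.QP) (x : D), f ⁅q, x⁆ = ⁅(θ.comp L.io) q, f x⁆ := by
    intro q x
    change (toRes θ G).symm ((toRes L.io (Res θ G)).symm (V.incl (F ⁅q, x⁆))) =
      ⁅θ (L.io q), (toRes θ G).symm ((toRes L.io (Res θ G)).symm (V.incl (F x)))⁆
    rw [LieModuleHom.map_lie, LieModuleHom.map_lie, Res.lie_def, LinearEquiv.symm_apply_apply,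
      Res.lie_def, LinearEquiv.symm_apply_apply]
  have hf2 : ∀ x y : D, ⁅f x, f y⁆ = 0 := by
    intro x y
    exact hComm k h2 j r I S A al0 L G θ e hGood hz _ (F x).2 _ (F y).2
  refine ⟨Sd.lift (θ.comp L.io) f hf1 hf2, ?_, ?_⟩
  · intro q
    simp
  · intro b
    rw [Sd.lift_apply]
    simp only [Sd.inl_d, Sd.inl_q, map_zero, add_zero]
    change (toRes θ G).symm ((toRes L.io (Res θ G)).symm (V.incl (F (d b)))) = _
    rw [hF]
    rfl

/-- the element `e` is good if and only if the relations hold, in terms of a homomorphism -/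
theorem good_map (Rel1 : Set (MR k L.P (Fin 1)))
    (hRel1 : ∀ (M : Type) [AddCommGroup M] [Module k M] [LieRingModule L.P M]
      [LieModule k L.P M] (e : M), (∀ R ∈ Rel1, mval (fun _ : Fin 1 => e) R = 0) ↔ L.Good M e)
    {G H : Type} [LieRing G] [LieAlgebra k G] [LieRing H] [LieAlgebra k H]
    (θ : L.P →ₗ⁅k⁆ G) (F : G →ₗ⁅k⁆ H) (θ' : L.P →ₗ⁅k⁆ H) (h : ∀ x, θ' x = F (θ x)) (e : G) :
    (∀ R ∈ Rel1, F ((toRes θ G).symm (mval (fun _ : Fin 1 => toRes θ G e) R)) = 0) ↔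
      L.Good (Res θ' H) (toRes θ' H (F e)) := by
  rw [← hRel1]
  have h1 : ∀ R : MR k L.P (Fin 1), mval (fun _ : Fin 1 => toRes θ' H (F e)) R =
      toRes θ' H (F ((toRes θ G).symm (mval (fun _ : Fin 1 => toRes θ G e) R))) := by
    intro R
    rw [← adjHom_apply' θ F θ' h, map_mval]
    rfl
  constructor
  · intro h2 R hR
    rw [h1, h2 R hR, map_zero]
  · intro h2 R hR
    have h3 := h2 R hR
    rw [h1] at h3
    exact (toRes θ' H).injective (by rw [h3, map_zero])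

theorem rel_map {G H : Type} [LieRing G] [LieAlgebra k G] [LieRing H] [LieAlgebra k H]
    (θ : L.P →ₗ⁅k⁆ G) (F : G →ₗ⁅k⁆ H) (θ' : L.P →ₗ⁅k⁆ H) (h : ∀ x, θ' x = F (θ x)) (e : G)
    (R : MR k L.P I) :
    mval (fun b => L.et (toRes θ' H (F e)) b) R =
      toRes θ' H (F ((toRes θ G).symm (mval (fun b => L.et (toRes θ G e) b) R))) := by
  rw [← adjHom_apply' θ F θ' h, map_mval]
  congr 1
  funext b
  rw [map_et]
  rfl

end lay

end TOP

theorem top_proof : Stmt_TopAsm := by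
  intro hKK hEx hInd hExt hLayEx hLayRP hFin hModel hComm hCop hFPQ
  intro k _ hk n hS hW Q _ _ hQ hQs D _ _ _ _ hD
  obtain ⟨m, d, Rel, hRelfin, hPD⟩ := hD
  obtain ⟨Q', _, _, ev', A', _, _, _, _, r, f', ρ', φ, hQ', hQ's, hA', hφ⟩ := hKK k n Q hQ hQs
  obtain ⟨S, η, hη⟩ := hS (Fin m ⊕ Fin r) Q' ⟨ev', hQ'⟩ hQ's
  -- the induced module
  obtain ⟨A, _, _, _, _, al0, hA⟩ := hEx k S.Q (Fin r)
    (MR.map η '' Set.range fun i => conv k r ev' (ρ' i))
  obtain ⟨jA, hjA, hjA1, hjA2⟩ := hInd k Q' S.Q η hη (Fin r) A' f' _ hA'.2 A al0 hA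
  -- the layer
  obtain ⟨L⟩ := hLayEx k n r (Fin m) S A al0 _ hA
  have hA2 : PMod k S.Q (fun i => η (ev' i)) A al0 ρ' := by
    refine ⟨hA'.1, ?_⟩
    have h1 : (Set.range fun i => conv k r (fun i => η (ev' i)) (ρ' i)) =
        MR.map η '' Set.range fun i => conv k r ev' (ρ' i) := by
      rw [← Set.range_comp]
      congr 1
      funext i
      exact conv_comp η r ev' (ρ' i)
    rw [h1]
    exact hA
  have hbd : ∃ K, ∀ i, K ≤ i → η (ev' i) = 0 := by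
    obtain ⟨⟨K, hK⟩, -⟩ := hQ'.gens
    exact ⟨K, fun i hi => by rw [hK i hi, map_zero]⟩
  obtain ⟨hP, hPs, -⟩ := hLayRP k hk n r (Fin m) S A al0 _ ρ' hbd hA2 L
  -- the embedding of the original algebra
  let ψ : Q →ₗ⁅k⁆ L.QP := (Sd.map η jA hjA1).comp φ
  have hψ : Injective ψ := (Sd.map_injective hjA1 hη hjA).comp hφ
  obtain ⟨D2, _, _, _, _, d2, hD2⟩ := hEx k L.QP (Fin m) (MR.map ψ '' Rel)
  obtain ⟨jD, hjD, hjD1, hjD2⟩ := hInd k Q L.QP ψ hψ (Fin m) D d _ hPD D2 d2 hD2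
  -- the finitely presented algebra
  obtain ⟨R, _, _, f, hR, hf, hf'⟩ := hW L.P hP hPs
  obtain ⟨G0, _, _, inc, e, hG0, hG0gen, hG0u⟩ := hCop k R hR
  obtain ⟨Rel1, hRel1fin, hRel1⟩ := hFin k n r (Fin m) S A al0 L
  let θ0 : L.P →ₗ⁅k⁆ G0 := inc.comp f
  let SS : Set G0 :=
    ((fun R1 => (toRes θ0 G0).symm (mval (fun _ : Fin 1 => toRes θ0 G0 e) R1)) '' Rel1) ∪
    ((Set.range fun i => ⁅⁅θ0 (L.zz (L.z i)), e⁆, e⁆) ∪
    ((fun R1 => (toRes θ0 G0).symm (mval (fun b => L.et (toRes θ0 G0 e) b)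
      (MR.map L.io (MR.map ψ R1)))) '' Rel))
  have hSS : SS.Finite :=
    (hRel1fin.image _).union ((Set.finite_range _).union (hRelfin.image _))
  have hG := hFPQ k G0 hG0 SS hSS
  let J : LieIdeal k G0 := LieSubmodule.lieSpan k G0 SS
  let π : G0 →ₗ⁅k⁆ (G0 ⧸ J) := TOP.qmk J
  let θ : L.P →ₗ⁅k⁆ (G0 ⧸ J) := π.comp θ0
  have hθ : ∀ x, θ x = π (θ0 x) := fun _ => rfl
  have hπ : ∀ x ∈ SS, π x = 0 := fun x hx =>
    (TOP.qmk_eq_zero J x).2 (LieSubmodule.subset_lieSpan hx)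
  have hGood : L.Good (Res θ (G0 ⧸ J)) (toRes θ (G0 ⧸ J) (π e)) := by
    rw [← TOP.good_map L Rel1 hRel1 θ0 π θ hθ e]
    intro R1 hR1
    exact hπ _ (Or.inl ⟨R1, hR1, rfl⟩)
  have hzz : ∀ i, ⁅⁅θ (L.zz (L.z i)), π e⁆, π e⁆ = 0 := by
    intro i
    have h1 := hπ ⁅⁅θ0 (L.zz (L.z i)), e⁆, e⁆ (Or.inr (Or.inl ⟨i, rfl⟩))
    rw [LieHom.map_lie, LieHom.map_lie] at h1
    exact h1
  have hrel : ∀ R1 ∈ MR.map ψ '' Rel,
      mval (fun b => L.et (toRes θ (G0 ⧸ J) (π e)) b) (MR.map L.io R1) = 0 := by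
    rintro _ ⟨R1, hR1, rfl⟩
    have h1 := hπ ((toRes θ0 G0).symm (mval (fun b => L.et (toRes θ0 G0 e) b)
      (MR.map L.io (MR.map ψ R1)))) (Or.inr (Or.inr ⟨R1, hR1, rfl⟩))
    rw [TOP.rel_map L θ0 π θ hθ e, h1, map_zero]
  obtain ⟨Θ, hΘ1, hΘ2⟩ := TOP.exists_theta L hComm hk.1 (G0 ⧸ J) θ (π e) hGood hzz D2 d2 _ hD2 hrel
  -- the model
  obtain ⟨M, _, _, _, _, eM, h, hMgood, hh, hh1, hh2⟩ := hModel k n r (Fin m) S A al0 L D2 d2
  let I : LieIdeal k R := LieAlgebra.derivedSeries k R (n + 1)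
  let fb : L.P →ₗ⁅k⁆ (R ⧸ I) := (TOP.qmk I).comp f
  have hfb : Injective fb := by
    rw [injective_iff_map_eq_zero]
    intro x hx
    exact hf' x ((TOP.qmk_eq_zero I (f x)).1 hx)
  obtain ⟨M', _, _, _, _, jM, hjM, hjM1⟩ := hExt k L.P (R ⧸ I) fb hfb M
  have hHs : LieAlgebra.derivedSeries k (Sd M' (R ⧸ I)) (n + 2) = ⊥ :=
    Sd.derivedSeries (derivedSeries_quot (n + 1))
  obtain ⟨F0, hF0, hF0e⟩ := hG0u (Sd M' (R ⧸ I)) ((Sd.inr k M').comp (TOP.qmk I))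
    (Sd.inl k (R ⧸ I) (jM eM))
  let θH : L.P →ₗ⁅k⁆ Sd M' (R ⧸ I) := F0.comp θ0
  have hθH : ∀ x, θH x = F0 (θ0 x) := fun _ => rfl
  have hθH' : ∀ x, θH x = Sd.inr k M' (fb x) := fun x => hF0 (f x)
  have hmod : ∀ x, TOP.modHom fb jM hjM1 θH hθH' x = toRes θH _ (Sd.inl k (R ⧸ I) (jM x)) :=
    fun _ => rfl
  have hkill : ∀ x ∈ SS, F0 x = 0 := by
    have hg : L.Good (Res θH (Sd M' (R ⧸ I))) (toRes θH (Sd M' (R ⧸ I)) (F0 e)) := by
      rw [hF0e, ← hmod]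
      exact hMgood.map L (TOP.modHom fb jM hjM1 θH hθH')
    rintro x (⟨R1, hR1, rfl⟩ | ⟨i, rfl⟩ | ⟨R1, hR1, rfl⟩)
    · exact (TOP.good_map L Rel1 hRel1 θ0 F0 θH hθH e).2 hg R1 hR1
    · rw [LieHom.map_lie, LieHom.map_lie, hF0e, ← hθH, hθH', Sd.lie_inr_inl, Sd.lie_inl_inl]
    · apply (toRes θH (Sd M' (R ⧸ I))).injective
      rw [← TOP.rel_map L θ0 F0 θH hθH e, map_zero, hF0e, ← hmod]
      have h1 : (fun b => L.et (TOP.modHom fb jM hjM1 θH hθH' eM) b) =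
          fun b => TOP.modHom fb jM hjM1 θH hθH' (h (d2 b)) := by
        funext b
        rw [← TOP.map_et, hh2]
      rw [h1, ← map_mval, ← map_mval' L.io h hh1, hD2.rel ⟨R1, hR1, rfl⟩, map_zero, map_zero]
  obtain ⟨F, hF⟩ := TOP.exists_lift SS F0 hkill
  have hFΘ1 : ∀ x : D2, F (Θ (Sd.inl k L.QP x)) = Sd.inl k (R ⧸ I) (jM (h x)) := by
    intro x
    refine hD2.induction (p := fun x => F (Θ (Sd.inl k L.QP x)) = Sd.inl k (R ⧸ I) (jM (h x)))
      ?_ ?_ ?_ ?_ ?_ x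
    · simp
    · intro x y hx hy; simp only [map_add, hx, hy]
    · intro c x hx; simp only [map_smul, hx]
    · intro q x hx
      rw [← Sd.lie_inr_inl, LieHom.map_lie, LieHom.map_lie, hx, hΘ1, hh1, hjM1]
      have h1 : F (θ (L.io q)) = Sd.inr k M' (fb (L.io q)) := by
        rw [← hθH']
        exact hF _
      rw [h1, Sd.lie_inr_inl]
    · intro b
      rw [hΘ2]
      have hθF : ∀ x, θH x = F (θ x) := fun x => (hF (θ0 x)).symm
      apply (toRes θH (Sd M' (R ⧸ I))).injective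
      rw [← hmod, hh2, TOP.map_et, ← TOP.adjHom_apply' θ F θH hθF, TOP.map_et,
        TOP.adjHom_apply]
      have h1 : F (π e) = F0 e := hF e
      rw [h1, hF0e, hmod]
  have hFΘ2 : ∀ q, F (Θ (Sd.inr k D2 q)) = Sd.inr k M' (fb (L.io q)) := by
    intro q
    rw [hΘ1, ← hθH']
    exact hF _
  have hinj : ∀ x : Sd D2 L.QP, F (Θ x) = 0 → x = 0 := by
    intro x hx
    have hx1 : x = Sd.inl k L.QP x.d + Sd.inr k D2 x.q := Sd.mk_eq x.d x.q
    rw [hx1, map_add, map_add, hFΘ1, hFΘ2] at hx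
    have h1 := congrArg Sd.d hx
    have h2 := congrArg Sd.q hx
    simp only [Sd.add_d, Sd.inl_d, Sd.inr_d, add_zero, Sd.zero_d] at h1
    simp only [Sd.add_q, Sd.inl_q, Sd.inr_q, zero_add, Sd.zero_q] at h2
    have h3 : x.d = 0 := by
      apply hh
      apply hjM
      rw [h1, map_zero, map_zero]
    have h4 : x.q = 0 := by
      apply L.io_inj
      apply hfb
      rw [h2, map_zero, map_zero]
    exact Sd.ext h3 h4
  have hfin : ∀ x : Sd D Q, F (Θ (Sd.map ψ jD hjD1 x)) = 0 → x = 0 := by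
    intro x hx
    apply Sd.map_injective hjD1 hψ hjD
    rw [hinj _ hx, map_zero]
  refine ⟨G0 ⧸ J, inferInstance, inferInstance, Θ.comp (Sd.map ψ jD hjD1), hG, ?_, ?_⟩
  · rw [injective_iff_map_eq_zero]
    intro x hx
    apply hfin x
    have h1 : Θ (Sd.map ψ jD hjD1 x) = 0 := hx
    rw [h1, map_zero]
  · intro x hx
    apply hfin x
    have h1 := map_derivedSeries_mem F (n + 2) _ hx
    rw [hHs, LieSubmodule.mem_bot] at h1
    exact h1

end Pool.Agent.HIP
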