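import Pool.Agent.HIP.Basic

/-! # WL1 -/

noncomputable section

namespace Pool.Agent.HIP

open Function

namespace WL1

/-- a finitely generated abelian Lie algebra is finite dimensional -/
theorem finite_of_gens {k : Type} [Field k] {L : Type} [LieRing L] [LieAlgebra k L]
    (hab : ∀ x y : L, ⁅x, y⁆ = 0) {ev : ℕ → L} (h : Gens k L ev) : Module.Finite k L := by
  obtain ⟨⟨K, hK⟩, htop⟩ := h
  let V : LieSubalgebra k L :=
    { Submodule.span k (Set.range ev) with
      lie_mem' := by
        intro x y _ _
        rw [hab x y]
        exact (Submodule.span k (Set.range ev)).zero_mem }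
  have hV : V = ⊤ := by
    rw [eq_top_iff, ← htop, LieSubalgebra.lieSpan_le]
    exact Submodule.subset_span
  have hspan : Submodule.span k (Set.range ev) = ⊤ := by
    rw [eq_top_iff]
    intro x _
    have : x ∈ V := by
      rw [hV]
      exact LieSubalgebra.mem_top x
    exact this
  have hfin : (Set.range ev).Finite := by
    refine Set.Finite.subset (((Finset.range K).finite_toSet.image ev).union
      (Set.finite_singleton (0 : L))) ?_
    rintro _ ⟨i, rfl⟩
    by_cases hi : i < K
    · exact Or.inl ⟨i, by simpa using hi, rfl⟩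
    · exact Or.inr (by simpa using hK i (not_lt.mp hi))
  exact ⟨⟨hfin.toFinset, by rw [Set.Finite.coe_toFinset]; exact hspan⟩⟩

end WL1

theorem wl1_proof : Stmt_WL1Asm := by
  intro hFP k _ L _ _ hRP hder
  have hab := abelian_of_derivedSeries_one hder
  obtain ⟨ev, hev⟩ := hRP
  have hfin := WL1.finite_of_gens hab hev.gens
  refine ⟨L, inferInstance, inferInstance, LieHom.id, hFP k L hab hfin, fun x y h => h, ?_⟩
  intro x hx
  rw [hder] at hx
  simpa using hx

end Pool.Agent.HIP
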