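import Mathlib
import Pool.Agent.HIP.INT
import Pool.Agent.HIP.BRK
import Pool.Agent.HIP.ASC
import Pool.Agent.HIP.SUBM
import Pool.Agent.HIP.EXPR
import Pool.Agent.HIP.FOX
import Pool.Agent.HIP.PMCH
import Pool.Agent.HIP.EXMOD
import Pool.Agent.HIP.EXT
import Pool.Agent.HIP.IND
import Pool.Agent.HIP.RPQUOT
import Pool.Agent.HIP.RPPROD
import Pool.Agent.HIP.RPAB
import Pool.Agent.HIP.RPSD
import Pool.Agent.HIP.PPROD
import Pool.Agent.HIP.COPROD
import Pool.Agent.HIP.FPQUOT
import Pool.Agent.HIP.FPAB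
import Pool.Agent.HIP.KKI
import Pool.Agent.HIP.KK
import Pool.Agent.HIP.NOETH
import Pool.Agent.HIP.COMPILE
import Pool.Agent.HIP.SYS
import Pool.Agent.HIP.SGN
import Pool.Agent.HIP.CTR
import Pool.Agent.HIP.MHMODEL
import Pool.Agent.HIP.MH
import Pool.Agent.HIP.LAYEX
import Pool.Agent.HIP.LAYRP
import Pool.Agent.HIP.FINREL
import Pool.Agent.HIP.MO1
import Pool.Agent.HIP.MO2
import Pool.Agent.HIP.MODEL
import Pool.Agent.HIP.Span
import Pool.Agent.HIP.DBL
import Pool.Agent.HIP.SQ
import Pool.Agent.HIP.COMM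
import Pool.Agent.HIP.STAGE0
import Pool.Agent.HIP.STEP
import Pool.Agent.HIP.TOP
import Pool.Agent.HIP.WL1
import Pool.Agent.HIP.FINAL
import Pool.Agent.HIP.PFQ
import Pool.Agent.HIP.PFP

/-!
# Lie algebras over prime fields of characteristic different from 2 solvable of index n:
the varieties are Higman
-/

namespace Pool.Agent.HIP

theorem higman_of_pf (k : Type) [Field k] (hk : PF k) (n : ℕ) (hn : 1 ≤ n) :
    Pool.Agent.HIL.HigmanLie k n :=
  main' int_proof brk_proof asc_proof subm_proof expr_proof fox_proof pmch_proof exmod_proof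
    ext_proof ind_proof rpquot_proof rpprod_proof rpab_proof rpsd_proof pprod_proof coprod_proof
    fpquot_proof fpab_proof kki_proof kk_proof noeth_proof compile_proof sys_proof sgn_proof
    ctr_proof mhmodel_proof mh_proof layex_proof layrp_proof finrel_proof mo1_proof mo2_proof
    model_proof span_proof dbl_proof sq_proof comm_proof stage0_proof step_proof top_proof
    wl1_proof final_proof k hk n hn

theorem higman_rat (n : ℕ) (hn : 1 ≤ n) : Pool.Agent.HIL.HigmanLie ℚ n :=
  higman_of_pf ℚ (pfq_proof int_proof) n hn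

theorem higman_zmod (p : ℕ) [Fact p.Prime] (hp : p ≠ 2) (n : ℕ) (hn : 1 ≤ n) :
    Pool.Agent.HIL.HigmanLie (ZMod p) n :=
  higman_of_pf (ZMod p) (pfp_proof int_proof p hp) n hn

end Pool.Agent.HIP
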